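import Pool.Agent.H.MP_86f3ed_an.Sf.Base

open scoped InnerProductSpace Topology
open Filter ContinuousLinearMap

namespace Pool.Agent.MP_86f3ed.Sf

open Pin

section

variable {V : Type*} [AddCommGroup V] [Module ℂ V]
variable {H : Type*} [NormedAddCommGroup H] [InnerProductSpace ℂ H] [CompleteSpace H]
variable {K : Type*} [NormedAddCommGroup K] [InnerProductSpace ℂ K] [CompleteSpace K]

/-- A linear map `b` dominated by a linear map `a` factors through `a`. -/
theorem exists_ext (a : V →ₗ[ℂ] H) (b : V →ₗ[ℂ] K) {C : ℝ} (hC : 0 ≤ C)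
    (h : ∀ v, ‖b v‖ ≤ C * ‖a v‖) :
    ∃ w : H →L[ℂ] K, ‖w‖ ≤ C ∧ (∀ v, w (a v) = b v) ∧ ∀ x, (∀ v, ⟪a v, x⟫_ℂ = 0) → w x = 0 := by
  set L : Submodule ℂ H := (LinearMap.range a).topologicalClosure with hL
  haveI : CompleteSpace L :=
    (LinearMap.range a).isClosed_topologicalClosure.completeSpace_coe
  have hmem : ∀ v, a v ∈ L := fun v =>
    Submodule.le_topologicalClosure _ (LinearMap.mem_range_self a v)
  set a' : V →ₗ[ℂ] L := LinearMap.codRestrict L a hmem with ha'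
  have hdense : DenseRange a' := by
    intro x
    rw [closure_subtype]
    have h1 : (Subtype.val '' Set.range a' : Set H) = (LinearMap.range a : Set H) := by
      ext y
      constructor
      · rintro ⟨_, ⟨v, rfl⟩, rfl⟩
        exact ⟨v, rfl⟩
      · rintro ⟨v, rfl⟩
        exact ⟨a' v, ⟨v, rfl⟩, rfl⟩
    rw [h1]
    exact x.2
  have hn : ∀ v, ‖b v‖ ≤ C * ‖a' v‖ := h
  refine ⟨(b.extendOfNorm a').comp L.orthogonalProjectionOnto, ?_, ?_, ?_⟩
  · refine ContinuousLinearMap.opNorm_le_bound _ hC fun x => ?_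
    refine (LinearMap.norm_extendOfNorm_apply_le hdense C hn _).trans ?_
    exact mul_le_mul_of_nonneg_left (L.norm_orthogonalProjectionOnto_apply_le x) hC
  · intro v
    have h1 : L.orthogonalProjectionOnto (a v) = a' v :=
      Submodule.orthogonalProjectionOnto_mem_subspace_eq_self (a' v)
    rw [ContinuousLinearMap.comp_apply, h1]
    exact LinearMap.extendOfNorm_eq hdense ⟨C, hn⟩ v
  · intro x hx
    have h1 : x ∈ Lᗮ := by
      rw [hL, Submodule.orthogonal_closure, Submodule.mem_orthogonal]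
      rintro _ ⟨v, rfl⟩
      exact hx v
    rw [ContinuousLinearMap.comp_apply,
      Submodule.orthogonalProjectionOnto_apply_of_mem_orthogonal h1, map_zero]

/-- The extension of `exists_ext` intertwines what `a` and `b` intertwine. -/
theorem ext_comm (a : V →ₗ[ℂ] H) (b : V →ₗ[ℂ] K) {w : H →L[ℂ] K} (hw : ∀ v, w (a v) = b v)
    (hw0 : ∀ x, (∀ v, ⟪a v, x⟫_ℂ = 0) → w x = 0) (S : H →L[ℂ] H) (S' : K →L[ℂ] K)
    (h1 : ∀ v, ∃ u, S (a v) = a u ∧ S' (b v) = b u) (h2 : ∀ v, ∃ u, star S (a v) = a u) (x : H) :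
    w (S x) = S' (w x) := by
  set L : Submodule ℂ H := (LinearMap.range a).topologicalClosure with hL
  haveI : CompleteSpace L :=
    (LinearMap.range a).isClosed_topologicalClosure.completeSpace_coe
  have hA : ∀ y ∈ L, w (S y) = S' (w y) := by
    intro y hy
    have h3 : (L : Set H) ⊆ {y | w (S y) = S' (w y)} := by
      refine closure_minimal ?_ (isClosed_eq (by fun_prop) (by fun_prop))
      rintro _ ⟨v, rfl⟩
      obtain ⟨u, hu, hu'⟩ := h1 v
      show w (S (a v)) = S' (w (a v))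
      rw [hu, hw, hw, hu']
    exact h3 hy
  have hB : ∀ y ∈ Lᗮ, w (S y) = S' (w y) := by
    intro y hy
    rw [hL, Submodule.orthogonal_closure, Submodule.mem_orthogonal] at hy
    have hy' : ∀ v, ⟪a v, y⟫_ℂ = 0 := fun v => hy _ ⟨v, rfl⟩
    rw [hw0 y hy', map_zero]
    refine hw0 _ fun v => ?_
    obtain ⟨u, hu⟩ := h2 v
    rw [← ContinuousLinearMap.adjoint_inner_left, ← ContinuousLinearMap.star_eq_adjoint, hu]
    exact hy' u
  have h4 : x = L.starProjection x + (x - L.starProjection x) := by abel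
  rw [h4, map_add, map_add, map_add, map_add, hA _ (Submodule.starProjection_apply_mem L x),
    hB _ (Submodule.sub_starProjection_mem_orthogonal x)]

end

variable {K : Type*} [NormedAddCommGroup K] [InnerProductSpace ℂ K] [CompleteSpace K]

/-- Radon-Nikodym lemma: if `‖m ξ‖ ≤ C ‖m ζ‖` for all `m` in the star algebra `𝔓` then `ξ = y ζ`
with `y` in the commutant and `‖y‖ ≤ C`. -/
theorem exists_rn (𝔓 : StarSubalgebra ℂ (K →L[ℂ] K)) (ζ ξ : K) {C : ℝ} (hC : 0 ≤ C)
    (h : ∀ m ∈ 𝔓, ‖m ξ‖ ≤ C * ‖m ζ‖) : ∃ y ∈ Com 𝔓, ‖y‖ ≤ C ∧ y ζ = ξ := by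
  set a : 𝔓 →ₗ[ℂ] K :=
    { toFun := fun m => (m : K →L[ℂ] K) ζ
      map_add' := fun _ _ => rfl
      map_smul' := fun _ _ => rfl } with ha
  set b : 𝔓 →ₗ[ℂ] K :=
    { toFun := fun m => (m : K →L[ℂ] K) ξ
      map_add' := fun _ _ => rfl
      map_smul' := fun _ _ => rfl } with hb
  obtain ⟨w, hw1, hw2, hw3⟩ := exists_ext a b hC (fun v => h v v.2)
  refine ⟨w, ?_, hw1, ?_⟩
  · rw [mem_Com]
    intro m hm
    refine ContinuousLinearMap.ext fun x => ?_
    refine (ext_comm a b hw2 hw3 m m ?_ ?_ x).symm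
    · intro v
      exact ⟨⟨m * v.1, mul_mem hm v.2⟩, rfl, rfl⟩
    · intro v
      exact ⟨⟨star m * v.1, mul_mem (star_mem hm) v.2⟩, rfl⟩
  · exact hw2 1

end Pool.Agent.MP_86f3ed.Sf
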