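import Pool.Agent.H.MP_86f3ed_an.Sf.Amp

open scoped InnerProductSpace Topology ENNReal
open Filter ContinuousLinearMap

namespace Pool.Agent.MP_86f3ed.Sf

open Pin

variable {K : Type*} [NormedAddCommGroup K] [InnerProductSpace ℂ K] [CompleteSpace K]

/-- The commutant of an amplification consists of the matrices over the commutant. -/
theorem mem_Com_amp {𝔅 : StarSubalgebra ℂ (K →L[ℂ] K)} {y : HH K →L[ℂ] HH K} :
    y ∈ Com (Ampl 𝔅) ↔ ∀ i j, ent i j y ∈ Com 𝔅 := by
  constructor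
  · intro h i j
    rw [mem_Com]
    intro b hb
    have h1 := mem_Com.mp h (amp b) (mem_Ampl.mpr ⟨b, hb, rfl⟩)
    refine ContinuousLinearMap.ext fun x => ?_
    have h2 : amp b (y (inc j x)) = y (amp b (inc j x)) :=
      congrArg (fun S : HH K →L[ℂ] HH K => S (inc j x)) h1
    show b (ent i j y x) = ent i j y (b x)
    rw [ent_apply, ent_apply, ← pr_amp, h2, amp_inc]
  · intro h
    rw [mem_Com]
    intro a ha
    obtain ⟨b, hb, rfl⟩ := mem_Ampl.mp ha
    refine ext_inc fun j x => ext_pr fun i => ?_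
    show pr i (amp b (y (inc j x))) = pr i (y (amp b (inc j x)))
    have h1 := mem_Com.mp (h i j) b hb
    have h2 : b (ent i j y x) = ent i j y (b x) :=
      congrArg (fun S : K →L[ℂ] K => S x) h1
    rw [ent_apply, ent_apply] at h2
    rw [pr_amp, amp_inc, h2]

private theorem ampcom_unit (𝔅 : StarSubalgebra ℂ (K →L[ℂ] K)) (i j : ℕ) :
    (inc i).comp (pr j) ∈ Com (Ampl 𝔅) := by
  rw [mem_Com]
  intro a ha
  obtain ⟨b, hb, rfl⟩ := mem_Ampl.mp ha
  refine ContinuousLinearMap.ext fun x => ?_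
  show amp b (inc i (pr j x)) = inc i (pr j (amp b x))
  rw [amp_inc, pr_amp]

private theorem ampcom_amp {𝔅 : StarSubalgebra ℂ (K →L[ℂ] K)} {y : K →L[ℂ] K} (hy : y ∈ Com 𝔅) :
    amp y ∈ Com (Ampl 𝔅) := by
  rw [mem_Com]
  intro a ha
  obtain ⟨b, hb, rfl⟩ := mem_Ampl.mp ha
  rw [← amp_mul, ← amp_mul, mem_Com.mp hy b hb]

/-- The bicommutant of an amplification is the amplification of the bicommutant. -/
theorem mem_Com_Com_amp {𝔅 : StarSubalgebra ℂ (K →L[ℂ] K)} {x : HH K →L[ℂ] HH K} :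
    x ∈ Com (Com (Ampl 𝔅)) ↔ ∃ m ∈ Com (Com 𝔅), x = amp m := by
  constructor
  · intro h
    have hx : x = amp (ent 0 0 x) := by
      refine ext_inc fun j z => ?_
      have h1 := mem_Com.mp h _ (ampcom_unit 𝔅 j 0)
      have h2 : inc j (pr 0 (x (inc 0 z))) = x (inc j (pr 0 (inc 0 z))) :=
        congrArg (fun S : HH K →L[ℂ] HH K => S (inc 0 z)) h1
      rw [pr_inc_same] at h2
      rw [amp_inc, ent_apply, h2]
    refine ⟨ent 0 0 x, ?_, hx⟩
    rw [mem_Com]
    intro y hy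
    have h1 := mem_Com.mp h _ (ampcom_amp hy)
    refine ContinuousLinearMap.ext fun z => ?_
    have h2 : amp y (x (inc 0 z)) = x (amp y (inc 0 z)) :=
      congrArg (fun S : HH K →L[ℂ] HH K => S (inc 0 z)) h1
    show y (ent 0 0 x z) = ent 0 0 x (y z)
    rw [ent_apply, ent_apply, ← pr_amp, h2, amp_inc]
  · rintro ⟨m, hm, rfl⟩
    rw [mem_Com]
    intro y hy
    refine ext_inc fun j x => ext_pr fun i => ?_
    show pr i (y (amp m (inc j x))) = pr i (amp m (y (inc j x)))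
    have h1 := mem_Com.mp hm _ (mem_Com_amp.mp hy i j)
    have h2 : ent i j y (m x) = m (ent i j y x) :=
      congrArg (fun S : K →L[ℂ] K => S x) h1
    rw [ent_apply, ent_apply] at h2
    rw [pr_amp, amp_inc, h2]

/-- The matrix units are in the commutant of every amplification. -/
theorem unit_mem (𝔅 : StarSubalgebra ℂ (K →L[ℂ] K)) (i j : ℕ) :
    (inc i).comp (pr j) ∈ Com (Ampl 𝔅) := ampcom_unit 𝔅 i j

private theorem ampcom_F (σ : ℕ → ℕ) (hσ : Function.Injective σ) :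
    ∃ F : HH K →L[ℂ] HH K, ∀ j x, pr j (F x) = pr (σ j) x := by
  obtain ⟨F, -, hF⟩ := exists_of_coord (H := HH K) (fun j => pr (K := K) (σ j)) zero_le_one
    (fun x s => by
      rw [one_pow, one_mul]
      have h1 : ∑ j ∈ s, ‖pr (σ j) x‖ ^ 2 = ∑ i ∈ s.map ⟨σ, hσ⟩, ‖pr i x‖ ^ 2 := by
        rw [Finset.sum_map]
        rfl
      rw [h1]
      exact sum_le_hasSum _ (fun j _ => by positivity) (hasSum_norm_pr x))
  exact ⟨F, hF⟩

private theorem ampcom_F_mem (𝔅 : StarSubalgebra ℂ (K →L[ℂ] K)) {σ : ℕ → ℕ}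
    {F : HH K →L[ℂ] HH K} (hF : ∀ j x, pr j (F x) = pr (σ j) x) : F ∈ Com (Ampl 𝔅) := by
  rw [mem_Com]
  intro a ha
  obtain ⟨b, hb, rfl⟩ := mem_Ampl.mp ha
  refine ContinuousLinearMap.ext fun x => ext_pr fun j => ?_
  show pr j (amp b (F x)) = pr j (F (amp b x))
  rw [pr_amp, hF, hF, pr_amp]

private theorem ampcom_star {σ : ℕ → ℕ} {F : HH K →L[ℂ] HH K}
    (hF : ∀ j x, pr j (F x) = pr (σ j) x) (j : ℕ) (x : K) : star F (inc j x) = inc (σ j) x := by
  refine ext_inner_left ℂ fun z => ?_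
  rw [star_eq_adjoint, adjoint_inner_right, inner_inc_right, inner_inc_right, hF]

private theorem ampcom_mul {σ τ : ℕ → ℕ} {F G : HH K →L[ℂ] HH K}
    (hF : ∀ j x, pr j (F x) = pr (σ j) x) (hG : ∀ j x, pr j (G x) = pr (τ j) x) (i j : ℕ)
    (x : K) : pr i ((F * star G) (inc j x)) = if σ i = τ j then x else 0 := by
  show pr i (F (star G (inc j x))) = _
  rw [ampcom_star hG, hF, pr_inc]

/-- Two isometries with orthogonal ranges in the commutant of every amplification. -/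
theorem exists_shift (𝔅 : StarSubalgebra ℂ (K →L[ℂ] K)) :
    ∃ v ∈ Com (Ampl 𝔅), ∃ w ∈ Com (Ampl 𝔅), star v * v = 1 ∧ star w * w = 1 ∧
      star v * w = 0 := by
  obtain ⟨F, hF⟩ := ampcom_F (K := K) (fun j => 2 * j) (fun a b h => by
    have h1 : 2 * a = 2 * b := h
    omega)
  obtain ⟨G, hG⟩ := ampcom_F (K := K) (fun j => 2 * j + 1) (fun a b h => by
    have h1 : 2 * a + 1 = 2 * b + 1 := h
    omega)
  refine ⟨star F, star_mem (ampcom_F_mem 𝔅 hF), star G, star_mem (ampcom_F_mem 𝔅 hG), ?_, ?_, ?_⟩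
  · rw [star_star]
    refine ext_inc fun j x => ext_pr fun i => ?_
    rw [ampcom_mul hF hF]
    show _ = pr i (inc j x)
    rw [pr_inc]
    by_cases h : i = j
    · rw [if_pos h, if_pos (by rw [h])]
    · rw [if_neg h, if_neg (fun h1 => h (by omega))]
  · rw [star_star]
    refine ext_inc fun j x => ext_pr fun i => ?_
    rw [ampcom_mul hG hG]
    show _ = pr i (inc j x)
    rw [pr_inc]
    by_cases h : i = j
    · rw [if_pos h, if_pos (by rw [h])]
    · rw [if_neg h, if_neg (fun h1 => h (by omega))]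
  · rw [star_star]
    refine ext_inc fun j x => ext_pr fun i => ?_
    rw [ampcom_mul hF hG]
    show _ = pr i (0 : HH K)
    rw [map_zero, if_neg (fun h1 => by omega)]

namespace TF

variable (T : TF K)

/-- The matrices over `N`. -/
noncomputable abbrev NH : StarSubalgebra ℂ (HH K →L[ℂ] HH K) := Com (Ampl T.M)

/-- The amplification of `M`. -/
noncomputable abbrev MH : StarSubalgebra ℂ (HH K →L[ℂ] HH K) := Com T.NH

theorem mem_NH {y : HH K →L[ℂ] HH K} : y ∈ T.NH ↔ ∀ i j, ent i j y ∈ T.N := by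
  rw [mem_Com_amp, T.bic]

theorem mem_MH {x : HH K →L[ℂ] HH K} : x ∈ T.MH ↔ ∃ m ∈ T.M, x = amp m := by
  rw [mem_Com_Com_amp, T.bic]

theorem amp_mem_MH {m : K →L[ℂ] K} (hm : m ∈ T.M) : amp m ∈ T.MH := T.mem_MH.mpr ⟨m, hm, rfl⟩

/-- If `N` is the commutant of `𝔅` then `NH` is the commutant of the amplification of `𝔅`. -/
theorem Com_amp_eq {𝔅 : StarSubalgebra ℂ (K →L[ℂ] K)} (h : Com 𝔅 = T.N) :
    Com (Ampl 𝔅) = T.NH := by
  ext y
  rw [mem_Com_amp, h, T.mem_NH]

/-- The amplification of an element of `N` is in `NH`. -/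
theorem amp_mem_NH {y : K →L[ℂ] K} (hy : y ∈ T.N) : amp y ∈ T.NH := by
  refine ampcom_amp ?_
  rw [T.bic]
  exact hy

end TF

end Pool.Agent.MP_86f3ed.Sf
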