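import Pool.Agent.H.MP_86f3ed_an.Sf.OSum

open scoped InnerProductSpace Topology ENNReal
open Filter ContinuousLinearMap

namespace Pool.Agent.MP_86f3ed.Sf

open Pin

variable {K : Type*} [NormedAddCommGroup K] [InnerProductSpace ℂ K] [CompleteSpace K]

private theorem iso_one (𝔓 : StarSubalgebra ℂ (K →L[ℂ] K)) {p r : K →L[ℂ] K}
    {V : ℕ → K →L[ℂ] K} (hV : ∀ i, V i ∈ Com 𝔓) (hVV : ∀ i, V i * star (V i) * V i = V i)
    (hVp : ∀ i, V i * p = V i) (hVo : ∀ i j, i ≠ j → star (V i) * V j = 0)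
    (hV1 : ∀ x, HasSum (fun i => (V i * star (V i)) x) x)
    {U : ℕ → K →L[ℂ] K} (hU : ∀ i, U i ∈ Com 𝔓)
    (hUU : ∀ i j, star (U i) * U j = if i = j then p else 0) (hUr : ∀ i, r * U i = U i)
    (σ : ℕ → ℕ) (hσ : Function.Injective σ) :
    ∃ a ∈ Com 𝔓, star a * a = 1 ∧ r * a = a ∧
      (∀ x, HasSum (fun i => (U (σ i) * star (V i)) x) (a x)) ∧
      (∀ x, HasSum (fun i => (V i * star (U (σ i))) x) (star a x)) := by
  have hstar : ∀ i, star (U (σ i) * star (V i)) = V i * star (U (σ i)) := fun i => by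
    rw [star_mul, star_star]
  have hvvv : ∀ i, star (V i) * (V i * star (V i)) = star (V i) := fun i => by
    have h := congrArg star (hVV i)
    rw [star_mul, star_mul, star_star] at h
    exact h
  have hAA : ∀ i, star (U (σ i) * star (V i)) * (U (σ i) * star (V i)) = V i * star (V i) :=
    fun i => by
      rw [hstar, mul_assoc, ← mul_assoc (star (U (σ i))), hUU, if_pos rfl, ← mul_assoc, hVp]
  have hw : ∀ i, (U (σ i) * star (V i)) * star (U (σ i) * star (V i)) * (U (σ i) * star (V i)) =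
      U (σ i) * star (V i) := fun i => by
    rw [mul_assoc, hAA, mul_assoc, hvvv]
  have h1 : ∀ i j, i ≠ j → star (U (σ i) * star (V i)) * (U (σ j) * star (V j)) = 0 :=
    fun i j hij => by
      rw [hstar, mul_assoc, ← mul_assoc (star (U (σ i))), hUU, if_neg (fun h => hij (hσ h)),
        zero_mul, mul_zero]
  have h2 : ∀ i j, i ≠ j → (U (σ i) * star (V i)) * star (U (σ j) * star (V j)) = 0 :=
    fun i j hij => by
      rw [hstar, mul_assoc, ← mul_assoc (star (V i)), hVo i j hij, zero_mul, mul_zero]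
  obtain ⟨a, ha1, ha2, ha3, -, -⟩ := exists_osum (fun i => U (σ i) * star (V i)) hw h1 h2
  refine ⟨a, osum_mem 𝔓 _ (fun i => mul_mem (hU _) (star_mem (hV i))) ha1, ?_, ?_, ha1, ?_⟩
  · refine ContinuousLinearMap.ext fun x => ?_
    refine (ha3 x).unique ?_
    have h3 := hV1 x
    simp only [hAA]
    exact h3
  · refine ContinuousLinearMap.ext fun x => ?_
    have h3 := (ha1 x).mapL r
    have h4 : (fun i => r ((U (σ i) * star (V i)) x)) = fun i => (U (σ i) * star (V i)) x := by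
      funext i
      show r (U (σ i) (star (V i) x)) = U (σ i) (star (V i) x)
      exact congrArg (fun S : K →L[ℂ] K => S (star (V i) x)) (hUr (σ i))
    rw [h4] at h3
    exact h3.unique (ha1 x)
  · intro x
    have h3 := ha2 x
    simp only [hstar] at h3
    exact h3

/-- Two isometries with orthogonal ranges below `r`. -/
theorem exists_iso (𝔓 : StarSubalgebra ℂ (K →L[ℂ] K)) {p r : K →L[ℂ] K}
    {V : ℕ → K →L[ℂ] K} (hV : ∀ i, V i ∈ Com 𝔓) (hVV : ∀ i, V i * star (V i) * V i = V i)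
    (hVp : ∀ i, V i * p = V i) (hVo : ∀ i j, i ≠ j → star (V i) * V j = 0)
    (hV1 : ∀ x, HasSum (fun i => (V i * star (V i)) x) x)
    {U : ℕ → K →L[ℂ] K} (hU : ∀ i, U i ∈ Com 𝔓)
    (hUU : ∀ i j, star (U i) * U j = if i = j then p else 0) (hUr : ∀ i, r * U i = U i) :
    ∃ a ∈ Com 𝔓, ∃ b ∈ Com 𝔓, star a * a = 1 ∧ star b * b = 1 ∧ star a * b = 0 ∧
      r * a = a ∧ r * b = b := by
  obtain ⟨a, ha, ha1, ha2, -, ha4⟩ := iso_one 𝔓 hV hVV hVp hVo hV1 hU hUU hUr (fun i => 2 * i)
    (fun i j h => by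
      have h1 : 2 * i = 2 * j := h
      omega)
  obtain ⟨b, hb, hb1, hb2, hb3, -⟩ := iso_one 𝔓 hV hVV hVp hVo hV1 hU hUU hUr
    (fun i => 2 * i + 1) (fun i j h => by
      have h1 : 2 * i + 1 = 2 * j + 1 := h
      omega)
  refine ⟨a, ha, b, hb, ha1, hb1, ?_, ha2, hb2⟩
  refine ContinuousLinearMap.ext fun x => ?_
  have h1 := (hb3 x).mapL (star a)
  refine h1.unique ?_
  have h2 : (fun j => star a ((U (2 * j + 1) * star (V j)) x)) = fun _ => (0 : K) := by
    funext j
    refine (ha4 ((U (2 * j + 1) * star (V j)) x)).unique ?_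
    have h3 : (fun i => (V i * star (U (2 * i))) ((U (2 * j + 1) * star (V j)) x)) =
        fun _ => (0 : K) := by
      funext i
      have h4 : (V i * star (U (2 * i))) * (U (2 * j + 1) * star (V j)) = 0 := by
        rw [mul_assoc, ← mul_assoc (star (U (2 * i))), hUU, if_neg (by omega), zero_mul, mul_zero]
      exact congrArg (fun S : K →L[ℂ] K => S x) h4
    rw [h3]
    exact hasSum_zero
  rw [h2]
  exact hasSum_zero

end Pool.Agent.MP_86f3ed.Sf
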