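import Pool.Agent.H.MP_86f3ed_an.Sf.Base

open scoped InnerProductSpace Topology
open Filter ContinuousLinearMap

namespace Pool.Agent.MP_86f3ed.Sf

open Pin

variable {K : Type*} [NormedAddCommGroup K] [InnerProductSpace ℂ K] [CompleteSpace K]

private theorem OSum_norm_le {u : K →L[ℂ] K} (hu : u * star u * u = u) : ‖u‖ ≤ 1 := by
  have h1 : (star u * u) * (star u * u) = star u * u := by
    rw [mul_assoc, ← mul_assoc u, hu]
  have h2 : star (star u * u) = star u * u := by rw [star_mul, star_star]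
  have h3 : ‖star u * u‖ = ‖star u * u‖ * ‖star u * u‖ := by
    have h4 := CStarRing.norm_star_mul_self (x := star u * u)
    rw [h2, h1] at h4
    exact h4
  have h5 : ‖star u * u‖ ≤ 1 := by
    rcases (norm_nonneg (star u * u)).eq_or_lt with h0 | h0
    · rw [← h0]; exact zero_le_one
    · exact le_of_mul_le_mul_right (by rw [← h3, one_mul]) h0
  rw [CStarRing.norm_star_mul_self] at h5
  nlinarith [norm_nonneg u]

private theorem OSum_sum_pi {ι : Type*} (w : ι → K →L[ℂ] K)
    (hw : ∀ i, w i * star (w i) * w i = w i)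
    (h1 : ∀ i j, i ≠ j → star (w i) * w j = 0) (h2 : ∀ i j, i ≠ j → w i * star (w j) = 0)
    (s : Finset ι) :
    (∑ i ∈ s, w i) * star (∑ i ∈ s, w i) * (∑ i ∈ s, w i) = ∑ i ∈ s, w i := by
  rw [star_sum, mul_assoc]
  have h3 : (∑ i ∈ s, star (w i)) * (∑ i ∈ s, w i) = ∑ i ∈ s, star (w i) * w i := by
    rw [Finset.sum_mul]
    refine Finset.sum_congr rfl fun i hi => ?_
    rw [Finset.mul_sum, Finset.sum_eq_single i]
    · intro j _ hj
      exact h1 i j (Ne.symm hj)
    · intro hi'
      exact absurd hi hi'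
  rw [h3, Finset.sum_mul]
  refine Finset.sum_congr rfl fun i hi => ?_
  rw [Finset.mul_sum, Finset.sum_eq_single i]
  · rw [← mul_assoc, hw]
  · intro j _ hj
    rw [← mul_assoc, h2 i j (Ne.symm hj), zero_mul]
  · intro hi'
    exact absurd hi hi'

private theorem OSum_partial_le {ι : Type*} (w : ι → K →L[ℂ] K)
    (hw : ∀ i, w i * star (w i) * w i = w i)
    (h1 : ∀ i j, i ≠ j → star (w i) * w j = 0) (h2 : ∀ i j, i ≠ j → w i * star (w j) = 0)
    (s : Finset ι) (x : K) : ‖∑ i ∈ s, w i x‖ ≤ ‖x‖ := by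
  have h3 := OSum_norm_le (OSum_sum_pi w hw h1 h2 s)
  have h4 : ∑ i ∈ s, w i x = (∑ i ∈ s, w i) x := by
    rw [_root_.sum_apply]
  rw [h4]
  calc ‖(∑ i ∈ s, w i) x‖ ≤ ‖∑ i ∈ s, w i‖ * ‖x‖ := ContinuousLinearMap.le_opNorm _ _
    _ ≤ 1 * ‖x‖ := mul_le_mul_of_nonneg_right h3 (norm_nonneg _)
    _ = ‖x‖ := one_mul _

private theorem OSum_pyth {ι : Type*} (w : ι → K →L[ℂ] K)
    (h1 : ∀ i j, i ≠ j → star (w i) * w j = 0) (s : Finset ι) (x : K) :
    ‖∑ i ∈ s, w i x‖ ^ 2 = ∑ i ∈ s, ‖w i x‖ ^ 2 := by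
  have h3 : (⟪∑ i ∈ s, w i x, ∑ i ∈ s, w i x⟫_ℂ) = ∑ i ∈ s, ⟪w i x, w i x⟫_ℂ := by
    rw [sum_inner]
    refine Finset.sum_congr rfl fun i hi => ?_
    rw [inner_sum, Finset.sum_eq_single i]
    · intro j _ hj
      have h4 : ⟪w i x, w j x⟫_ℂ = ⟪x, (star (w i) * w j) x⟫_ℂ := by
        rw [star_eq_adjoint]
        exact (adjoint_inner_right (w i) x (w j x)).symm
      rw [h4, h1 i j (Ne.symm hj)]
      simp
    · intro hi'
      exact absurd hi hi'
  rw [inner_self_eq_norm_sq_to_K] at h3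
  simp only [inner_self_eq_norm_sq_to_K] at h3
  exact_mod_cast h3

private theorem OSum_aux {ι : Type*} (w : ι → K →L[ℂ] K)
    (hw : ∀ i, w i * star (w i) * w i = w i)
    (h1 : ∀ i j, i ≠ j → star (w i) * w j = 0) (h2 : ∀ i j, i ≠ j → w i * star (w j) = 0) :
    ∃ v : K →L[ℂ] K, ∀ x, HasSum (fun i => w i x) (v x) := by
  have hsum : ∀ x, Summable fun i => w i x := by
    intro x
    have h3 : Summable fun i => ‖w i x‖ ^ 2 := by
      refine summable_of_sum_le (c := ‖x‖ ^ 2) (fun i => sq_nonneg _) fun s => ?_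
      rw [← OSum_pyth w h1 s x]
      exact pow_le_pow_left₀ (norm_nonneg _) (OSum_partial_le w hw h1 h2 s x) 2
    rw [summable_iff_vanishing_norm] at h3 ⊢
    intro ε hε
    obtain ⟨s, hs⟩ := h3 (ε ^ 2) (by positivity)
    refine ⟨s, fun t ht => ?_⟩
    have h4 := hs t ht
    rw [← OSum_pyth w h1 t x, Real.norm_eq_abs, abs_of_nonneg (sq_nonneg _)] at h4
    exact lt_of_pow_lt_pow_left₀ 2 hε.le h4
  refine ⟨LinearMap.mkContinuous
    { toFun := fun x => ∑' i, w i x
      map_add' := fun x y => ?_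
      map_smul' := fun c x => ?_ } 1 fun x => ?_, fun x => (hsum x).hasSum⟩
  · simp only [map_add]
    exact (hsum x).tsum_add (hsum y)
  · simp only [map_smul, RingHom.id_apply]
    exact (hsum x).tsum_const_smul c
  · rw [one_mul]
    have h3 : Tendsto (fun s : Finset ι => ‖∑ i ∈ s, w i x‖) atTop (𝓝 ‖∑' i, w i x‖) :=
      (hsum x).hasSum.norm
    exact le_of_tendsto h3 (Eventually.of_forall fun s => OSum_partial_le w hw h1 h2 s x)

/-- Sums of partial isometries with orthogonal initial and final projections. -/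
theorem exists_osum {ι : Type*} (w : ι → K →L[ℂ] K) (hw : ∀ i, w i * star (w i) * w i = w i)
    (h1 : ∀ i j, i ≠ j → star (w i) * w j = 0) (h2 : ∀ i j, i ≠ j → w i * star (w j) = 0) :
    ∃ v : K →L[ℂ] K, (∀ x, HasSum (fun i => w i x) (v x)) ∧
      (∀ x, HasSum (fun i => star (w i) x) (star v x)) ∧
      (∀ x, HasSum (fun i => (star (w i) * w i) x) ((star v * v) x)) ∧
      (∀ x, HasSum (fun i => (w i * star (w i)) x) ((v * star v) x)) ∧
      v * star v * v = v := by
  obtain ⟨v, hv⟩ := OSum_aux w hw h1 h2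
  obtain ⟨v', hv'⟩ := OSum_aux (fun i => star (w i))
    (fun i => by
      have h3 := congrArg star (hw i)
      rw [star_mul, star_mul, star_star, ← mul_assoc] at h3
      rw [star_star]
      exact h3)
    (fun i j hij => by rw [star_star]; exact h2 i j hij)
    (fun i j hij => by rw [star_star]; exact h1 i j hij)
  have hvv : v' = star v := by
    rw [star_eq_adjoint, ContinuousLinearMap.eq_adjoint_iff]
    intro x y
    have h3 : HasSum (fun i => ⟪y, star (w i) x⟫_ℂ) ⟪y, v' x⟫_ℂ :=
      ContinuousLinearMap.hasSum (innerSL ℂ y) (hv' x)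
    have h4 : HasSum (fun i => ⟪x, w i y⟫_ℂ) ⟪x, v y⟫_ℂ :=
      ContinuousLinearMap.hasSum (innerSL ℂ x) (hv y)
    have h5 := h3.star
    have h6 : (fun i => star ⟪y, star (w i) x⟫_ℂ) = fun i => ⟪x, w i y⟫_ℂ := by
      funext i
      rw [star_eq_adjoint, adjoint_inner_right]
      exact inner_conj_symm _ _
    rw [h6] at h5
    have h7 := h5.unique h4
    rw [← h7]
    exact (inner_conj_symm _ _).symm
  rw [hvv] at hv'
  have h3 : ∀ i x, star v (w i x) = star (w i) (w i x) := by
    intro i x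
    have h4 : HasSum (fun j => star (w j) (w i x)) (star (w i) (w i x)) := by
      refine hasSum_single i fun j hj => ?_
      have h5 := congrArg (fun S : K →L[ℂ] K => S x) (h1 j i hj)
      exact h5
    exact (hv' (w i x)).unique h4
  have h3' : ∀ i x, v (star (w i) x) = w i (star (w i) x) := by
    intro i x
    have h4 : HasSum (fun j => w j (star (w i) x)) (w i (star (w i) x)) := by
      refine hasSum_single i fun j hj => ?_
      have h5 := congrArg (fun S : K →L[ℂ] K => S x) (h2 j i hj)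
      exact h5
    exact (hv (star (w i) x)).unique h4
  have h6 : ∀ x, HasSum (fun i => (star (w i) * w i) x) ((star v * v) x) := by
    intro x
    have h4 := ContinuousLinearMap.hasSum (star v) (hv x)
    have h5 : (fun i => star v (w i x)) = fun i => (star (w i) * w i) x := by
      funext i
      exact h3 i x
    rw [h5] at h4
    exact h4
  refine ⟨v, hv, hv', h6, ?_, ?_⟩
  · intro x
    have h4 := ContinuousLinearMap.hasSum v (hv' x)
    have h5 : (fun i => v (star (w i) x)) = fun i => (w i * star (w i)) x := by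
      funext i
      exact h3' i x
    rw [h5] at h4
    exact h4
  · refine ContinuousLinearMap.ext fun x => ?_
    have h4 := ContinuousLinearMap.hasSum v (h6 x)
    have h5 : (fun i => v ((star (w i) * w i) x)) = fun i => w i x := by
      funext i
      have h7 : v ((star (w i) * w i) x) = w i ((star (w i) * w i) x) := h3' i (w i x)
      rw [h7]
      exact congrArg (fun S : K →L[ℂ] K => S x) (hw i)
    rw [h5] at h4
    rw [mul_assoc]
    exact h4.unique (hv x)

theorem osum_mem {ι : Type*} (𝔓 : StarSubalgebra ℂ (K →L[ℂ] K)) (w : ι → K →L[ℂ] K)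
    (hw : ∀ i, w i ∈ Com 𝔓) {v : K →L[ℂ] K} (hv : ∀ x, HasSum (fun i => w i x) (v x)) :
    v ∈ Com 𝔓 := by
  rw [mem_Com]
  intro a ha
  refine ContinuousLinearMap.ext fun x => ?_
  have h4 := ContinuousLinearMap.hasSum a (hv x)
  have h5 : (fun i => a (w i x)) = fun i => w i (a x) := by
    funext i
    exact congrArg (fun S : K →L[ℂ] K => S x) (mem_Com.mp (hw i) a ha)
  rw [h5] at h4
  exact h4.unique (hv (a x))

end Pool.Agent.MP_86f3ed.Sf
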