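import Pool.Agent.H.MP_86f3ed_an.Sf.Comp

open scoped InnerProductSpace Topology ENNReal
open Filter ContinuousLinearMap

namespace Pool.Agent.MP_86f3ed.Sf

open Pin

variable {K : Type*} [NormedAddCommGroup K] [InnerProductSpace ℂ K] [CompleteSpace K]

theorem seq_norm_proj {e : K →L[ℂ] K} (hs : star e = e) (he : e * e = e) : ‖e‖ ≤ 1 := by
  have h := CStarRing.norm_self_mul_star (x := e)
  rw [hs, he] at h
  rcases (norm_nonneg e).eq_or_lt with h0 | h0
  · rw [← h0]; exact zero_le_one
  · nlinarith

theorem seq_norm_le {w p : K →L[ℂ] K} (hs : star p = p) (hp : p * p = p)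
    (h : star w * w = p ∨ w * star w = p) : ‖w‖ ≤ 1 := by
  have h1 : ‖w‖ * ‖w‖ ≤ 1 := by
    rcases h with h | h
    · rw [← CStarRing.norm_star_mul_self (x := w), h]; exact seq_norm_proj hs hp
    · rw [← CStarRing.norm_self_mul_star (x := w), h]; exact seq_norm_proj hs hp
  nlinarith [norm_nonneg w]

theorem seq_mul {w p : K →L[ℂ] K} (hs : star p = p) (hp : p * p = p) (h : star w * w = p) :
    w * p = w := by
  have h1 : star (w - w * p) * (w - w * p) = 0 := by
    rw [star_sub, star_mul, hs, sub_mul, mul_sub, mul_sub, h, ← mul_assoc, h, hp, mul_assoc p,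
      h, hp, mul_assoc p, ← mul_assoc (star w), h, hp, hp]
    simp
  have h2 := (CStarRing.star_mul_self_eq_zero_iff _).mp h1
  exact (sub_eq_zero.mp h2).symm

/-- If `r` is not the sum of finitely many partial copies of `p` then there is an infinite
sequence of orthogonal copies of `p` below `r`. -/
theorem exists_seq (𝔓 : StarSubalgebra ℂ (K →L[ℂ] K))
    (hfac : ∀ x ∈ Com 𝔓, x ∈ Com (Com 𝔓) → ∃ c : ℂ, x = c • (1 : K →L[ℂ] K))
    {p r : K →L[ℂ] K} (hp : p ∈ Com 𝔓) (hps : star p = p) (hpp : p * p = p) (hp0 : p ≠ 0)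
    (hr : r ∈ Com 𝔓) (hrs : star r = r) (hrr : r * r = r)
    (h : ∀ (n : ℕ) (V : Fin n → K →L[ℂ] K), (∀ i, V i ∈ Com 𝔓) → (∀ i, ‖V i‖ ≤ 1) →
      (∀ i, V i * p = V i) → ∑ i, V i * star (V i) ≠ r) :
    ∃ V : ℕ → K →L[ℂ] K, (∀ i, V i ∈ Com 𝔓) ∧
      (∀ i j, star (V i) * V j = if i = j then p else 0) ∧ ∀ i, r * V i = V i := by
  classical
  obtain ⟨F, hF⟩ := zorn_subset {F : Set (K →L[ℂ] K) |
      (∀ w ∈ F, w ∈ Com 𝔓 ∧ star w * w = p ∧ r * w = w) ∧
      ∀ w ∈ F, ∀ w' ∈ F, w ≠ w' → star w * w' = 0} (by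
    intro c hc hch
    refine ⟨⋃₀ c, ⟨?_, ?_⟩, fun s hs => Set.subset_sUnion_of_mem hs⟩
    · rintro w ⟨s, hs, hw⟩
      exact (hc hs).1 w hw
    · rintro w ⟨s, hs, hw⟩ w' ⟨s', hs', hw'⟩ hne
      rcases hch.total hs hs' with h1 | h1
      · exact (hc hs').2 w (h1 hw) w' hw' hne
      · exact (hc hs).2 w hw w' (h1 hw') hne)
  have hF1 := hF.prop.1
  have hF2 := hF.prop.2
  by_cases hfin : F.Finite
  swap
  · let em := Set.Infinite.natEmbedding F hfin
    refine ⟨fun i => (em i : K →L[ℂ] K), fun i => (hF1 _ (em i).2).1, fun i j => ?_,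
      fun i => (hF1 _ (em i).2).2.2⟩
    split_ifs with hij
    · subst hij; exact (hF1 _ (em i).2).2.1
    · refine hF2 _ (em i).2 _ (em j).2 fun he => hij ?_
      exact em.injective (Subtype.ext he)
  · exfalso
    let eq := hfin.toFinset.equivFin
    let n := hfin.toFinset.card
    let V : Fin n → K →L[ℂ] K := fun i => ((eq.symm i : hfin.toFinset) : K →L[ℂ] K)
    have hVF : ∀ i, V i ∈ F := fun i => hfin.mem_toFinset.mp (eq.symm i).2
    have hVs : ∀ w ∈ F, ∃ i, V i = w := by
      intro w hw
      refine ⟨eq ⟨w, hfin.mem_toFinset.mpr hw⟩, ?_⟩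
      show ((eq.symm (eq ⟨w, hfin.mem_toFinset.mpr hw⟩) : hfin.toFinset) : K →L[ℂ] K) = w
      rw [Equiv.symm_apply_apply]
    have hVi : ∀ i j, i ≠ j → V i ≠ V j := by
      intro i j hij he
      exact hij (eq.symm.injective (Subtype.ext he))
    have hVV : ∀ i j, star (V i) * V j = if i = j then p else 0 := by
      intro i j
      split_ifs with hij
      · subst hij; exact (hF1 _ (hVF i)).2.1
      · exact hF2 _ (hVF i) _ (hVF j) (hVi i j hij)
    have hVp : ∀ i, V i * p = V i := fun i => seq_mul hps hpp (hF1 _ (hVF i)).2.1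
    have hpV : ∀ i, p * star (V i) = star (V i) := by
      intro i
      have := congrArg star (hVp i)
      rwa [star_mul, hps] at this
    have hrV : ∀ i, r * V i = V i := fun i => (hF1 _ (hVF i)).2.2
    set S : K →L[ℂ] K := ∑ i, V i * star (V i) with hS
    have hVS : ∀ i, star (V i) * S = star (V i) := by
      intro i
      rw [hS, Finset.mul_sum, Finset.sum_eq_single i]
      · rw [← mul_assoc, hVV, if_pos rfl, hpV]
      · intro j _ hj
        rw [← mul_assoc, hVV, if_neg (Ne.symm hj), zero_mul]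
      · intro hi; exact absurd (Finset.mem_univ i) hi
    have hSs : star S = S := by
      rw [hS, star_sum]
      refine Finset.sum_congr rfl fun i _ => ?_
      rw [star_mul, star_star]
    have hSS : S * S = S := by
      conv_lhs => rw [hS, Finset.sum_mul]
      rw [hS]
      refine Finset.sum_congr rfl fun i _ => ?_
      rw [mul_assoc, ← hS, hVS]
    have hrS : r * S = S := by
      rw [hS, Finset.mul_sum]
      refine Finset.sum_congr rfl fun i _ => ?_
      rw [← mul_assoc, hrV]
    have hSr : S * r = S := by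
      have := congrArg star hrS
      rwa [star_mul, hSs, hrs] at this
    have hScom : S ∈ Com 𝔓 := by
      rw [hS]
      exact sum_mem fun i _ => mul_mem (hF1 _ (hVF i)).1 (star_mem (hF1 _ (hVF i)).1)
    have hr's : star (r - S) = r - S := by rw [star_sub, hrs, hSs]
    have hr'r' : (r - S) * (r - S) = r - S := by
      rw [sub_mul, mul_sub, mul_sub, hrr, hrS, hSr, hSS]; abel
    have hrr' : r * (r - S) = r - S := by rw [mul_sub, hrr, hrS]
    have hVr' : ∀ i, star (V i) * (r - S) = 0 := by
      intro i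
      have h1 := congrArg star (hrV i)
      rw [star_mul, hrs] at h1
      rw [mul_sub, hVS, h1, sub_self]
    rcases comparison 𝔓 hfac hp hps hpp (sub_mem hr hScom) hr's hr'r' with
      ⟨w, hw, hw1, hw2⟩ | ⟨w, hw, hw1, hw2⟩
    · have hVw : ∀ i, star (V i) * w = 0 := by
        intro i
        rw [← hw2, ← mul_assoc, hVr', zero_mul]
      have hwF : w ∉ F := by
        intro hmem
        obtain ⟨i, hi⟩ := hVs w hmem
        have := hVw i
        rw [hi, hw1] at this
        exact hp0 this
      have hins : insert w F ∈ {F : Set (K →L[ℂ] K) |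
          (∀ w ∈ F, w ∈ Com 𝔓 ∧ star w * w = p ∧ r * w = w) ∧
          ∀ w ∈ F, ∀ w' ∈ F, w ≠ w' → star w * w' = 0} := by
        refine ⟨?_, ?_⟩
        · intro u hu
          rcases Set.mem_insert_iff.mp hu with rfl | hu
          · refine ⟨hw, hw1, ?_⟩
            rw [← hw2, ← mul_assoc, hrr']
          · exact hF1 u hu
        · intro u hu u' hu' hne
          rcases Set.mem_insert_iff.mp hu with h1 | h1
          · rcases Set.mem_insert_iff.mp hu' with h2 | h2
            · exact absurd (h1.trans h2.symm) hne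
            · obtain ⟨i, hi⟩ := hVs u' h2
              have h3 := congrArg star (hVw i)
              rw [star_mul, star_star, star_zero] at h3
              rw [h1, ← hi]
              exact h3
          · rcases Set.mem_insert_iff.mp hu' with h2 | h2
            · obtain ⟨i, hi⟩ := hVs u h1
              rw [h2, ← hi]
              exact hVw i
            · exact hF2 u h1 u' h2 hne
      exact hwF (hF.le_of_ge hins (Set.subset_insert w F) (Set.mem_insert w F))
    · refine h (n + 1) (Fin.snoc (α := fun _ => K →L[ℂ] K) V w) ?_ ?_ ?_ ?_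
      · intro i
        refine Fin.lastCases ?_ (fun j => ?_) i
        · rw [Fin.snoc_last]; exact hw
        · rw [Fin.snoc_castSucc]; exact (hF1 _ (hVF j)).1
      · intro i
        refine Fin.lastCases ?_ (fun j => ?_) i
        · rw [Fin.snoc_last]; exact seq_norm_le hr's hr'r' (Or.inr hw1)
        · rw [Fin.snoc_castSucc]; exact seq_norm_le hps hpp (Or.inl (hF1 _ (hVF j)).2.1)
      · intro i
        refine Fin.lastCases ?_ (fun j => ?_) i
        · rw [Fin.snoc_last]; exact hw2
        · rw [Fin.snoc_castSucc]; exact hVp j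
      · rw [Fin.sum_univ_castSucc]
        simp only [Fin.snoc_castSucc, Fin.snoc_last]
        rw [hw1, ← hS]
        abel

end Pool.Agent.MP_86f3ed.Sf
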