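import Pool.Agent.H.MP_86f3ed_an.Sf.Base

open scoped InnerProductSpace Topology ENNReal
open Filter ContinuousLinearMap

namespace Pool.Agent.MP_86f3ed.Sf

open Pin

variable {K : Type*} [NormedAddCommGroup K] [InnerProductSpace ℂ K] [CompleteSpace K]

/-- `q c` is the spectral projection `1_{(c, ∞)}(k)` of the positive operator `k`. -/
structure SpecFam (𝔓 : StarSubalgebra ℂ (K →L[ℂ] K)) (k : K →L[ℂ] K) (q : ℝ → K →L[ℂ] K) :
    Prop where
  mem : ∀ c, 0 ≤ c → q c ∈ Com 𝔓
  star_q : ∀ c, 0 ≤ c → star (q c) = q c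
  idem : ∀ c, 0 ≤ c → q c * q c = q c
  comm : ∀ c, 0 ≤ c → q c * k = k * q c
  low : ∀ c, 0 ≤ c → ∀ x, c * ‖q c x‖ ^ 2 ≤ RCLike.re ⟪q c x, k (q c x)⟫_ℂ
  up : ∀ c, 0 ≤ c → ∀ x, RCLike.re ⟪x - q c x, k (x - q c x)⟫_ℂ ≤ c * ‖x - q c x‖ ^ 2
  norm_up : ∀ c, 0 ≤ c → ∀ x, ‖k (x - q c x)‖ ≤ c * ‖x‖
  nest : ∀ c c', 0 ≤ c → c ≤ c' → q c * q c' = q c' ∧ q c' * q c = q c'
  zero : ∀ c, 0 ≤ c → ‖k‖ ≤ c → q c = 0

/-- the positive part of `k - c` -/
noncomputable def Spec_F (k : K →L[ℂ] K) (c : ℝ) : K →L[ℂ] K :=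
  cfc (fun t : ℝ => max (t - c) 0) k

/-- the minimum of `k` and `c` -/
noncomputable def Spec_G (k : K →L[ℂ] K) (c : ℝ) : K →L[ℂ] K :=
  cfc (fun t : ℝ => min t c) k

/-- the closure of the range -/
noncomputable def Spec_S (k : K →L[ℂ] K) (c : ℝ) : Submodule ℂ K :=
  (LinearMap.range (Spec_F k c : K →ₗ[ℂ] K)).topologicalClosure

instance (k : K →L[ℂ] K) (c : ℝ) : CompleteSpace (Spec_S k c) :=
  (LinearMap.range (Spec_F k c : K →ₗ[ℂ] K)).isClosed_topologicalClosure.completeSpace_coe

theorem Spec_F_mem (k : K →L[ℂ] K) (c : ℝ) (z : K) : Spec_F k c z ∈ Spec_S k c :=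
  Submodule.le_topologicalClosure _ ⟨z, rfl⟩

theorem Spec_F_sa (k : K →L[ℂ] K) (c : ℝ) : star (Spec_F k c) = Spec_F k c := by
  have h : IsSelfAdjoint (Spec_F k c) := cfc_predicate _ _
  exact h

theorem Spec_F_pos (k : K →L[ℂ] K) (c : ℝ) (y : K) : 0 ≤ RCLike.re ⟪y, Spec_F k c y⟫_ℂ := by
  have h : 0 ≤ Spec_F k c := cfc_nonneg fun x _ => le_max_right _ _
  rw [ContinuousLinearMap.nonneg_iff_isPositive] at h
  exact h.re_inner_nonneg_right y

theorem Spec_inv (k : K →L[ℂ] K) (c : ℝ) {a : K →L[ℂ] K} (ha : a * Spec_F k c = Spec_F k c * a)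
    {v : K} (hv : v ∈ Spec_S k c) : a v ∈ Spec_S k c := by
  have h : (Spec_S k c : Set K) ⊆ a ⁻¹' (Spec_S k c) := by
    refine closure_minimal ?_
      ((LinearMap.range (Spec_F k c : K →ₗ[ℂ] K)).isClosed_topologicalClosure.preimage
        a.continuous)
    rintro _ ⟨z, rfl⟩
    have h1 : a (Spec_F k c z) = Spec_F k c (a z) := congrArg (fun S : K →L[ℂ] K => S z) ha
    show a (Spec_F k c z) ∈ Spec_S k c
    rw [h1]
    exact Spec_F_mem k c _
  exact h hv

theorem Spec_star (S : Submodule ℂ K) [S.HasOrthogonalProjection] :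
    star S.starProjection = S.starProjection := by
  rw [ContinuousLinearMap.star_eq_adjoint]
  exact (ContinuousLinearMap.eq_adjoint_iff _ _).mpr
    (fun x y => (S.inner_starProjection_left_eq_right x y)) |>.symm

theorem Spec_comm (S : Submodule ℂ K) [S.HasOrthogonalProjection] {k : K →L[ℂ] K}
    (hks : star k = k) (hk : ∀ v ∈ S, k v ∈ S) :
    S.starProjection * k = k * S.starProjection := by
  have h1 : S.starProjection * k * S.starProjection = k * S.starProjection := by
    ext v
    show S.starProjection (k (S.starProjection v)) = k (S.starProjection v)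
    rw [Submodule.starProjection_eq_self_iff]
    exact hk _ (Submodule.starProjection_apply_mem S v)
  have h3 := congrArg star h1
  rw [star_mul, star_mul, star_mul, hks, Spec_star, ← mul_assoc, h1] at h3
  exact h3.symm

theorem Spec_low_aux {k : K →L[ℂ] K} (hk : IsSelfAdjoint k) (c : ℝ) {y : K}
    (hy : y ∈ Spec_S k c) : c * ‖y‖ ^ 2 ≤ RCLike.re ⟪y, k y⟫_ℂ := by
  have h : (Spec_S k c : Set K) ⊆ {y | c * ‖y‖ ^ 2 ≤ RCLike.re ⟪y, k y⟫_ℂ} := by
    refine closure_minimal ?_ (isClosed_le (by fun_prop)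
      (RCLike.continuous_re.comp (by fun_prop)))
    rintro _ ⟨z, rfl⟩
    show c * ‖Spec_F k c z‖ ^ 2 ≤ RCLike.re ⟪Spec_F k c z, k (Spec_F k c z)⟫_ℂ
    have h1 : k * Spec_F k c = (c : ℝ) • Spec_F k c + Spec_F k c * Spec_F k c := by
      have e1 : k * Spec_F k c = cfc (fun t : ℝ => t * max (t - c) 0) k := by
        unfold Spec_F
        rw [cfc_mul (fun t : ℝ => t) (fun t : ℝ => max (t - c) 0) k (by fun_prop) (by fun_prop),
          cfc_id' ℝ k]
      have e2 : (c : ℝ) • Spec_F k c + Spec_F k c * Spec_F k c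
          = cfc (fun t : ℝ => c • max (t - c) 0 + max (t - c) 0 * max (t - c) 0) k := by
        unfold Spec_F
        rw [cfc_add (a := k) (fun t : ℝ => c • max (t - c) 0)
          (fun t : ℝ => max (t - c) 0 * max (t - c) 0) (by fun_prop) (by fun_prop),
          cfc_smul c _ k (by fun_prop), cfc_mul _ _ k (by fun_prop) (by fun_prop)]
      rw [e1, e2]
      refine cfc_congr fun t _ => ?_
      show t * max (t - c) 0 = c * max (t - c) 0 + max (t - c) 0 * max (t - c) 0
      rcases le_total (t - c) 0 with h | h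
      · rw [max_eq_right h]
        ring
      · rw [max_eq_left h]
        ring
    have h2 : k (Spec_F k c z) = ((c : ℝ) : ℂ) • Spec_F k c z + Spec_F k c (Spec_F k c z) := by
      have := congrArg (fun S : K →L[ℂ] K => S z) h1
      simpa using this
    have h3 := Spec_F_pos k c (Spec_F k c z)
    rw [h2, inner_add_right, inner_smul_right, inner_self_eq_norm_sq_to_K, map_add]
    have h4 : RCLike.re (((c : ℝ) : ℂ) * ((‖Spec_F k c z‖ : ℝ) : ℂ) ^ 2)
        = c * ‖Spec_F k c z‖ ^ 2 := by
      have : ((c : ℝ) : ℂ) * ((‖Spec_F k c z‖ : ℝ) : ℂ) ^ 2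
          = ((c * ‖Spec_F k c z‖ ^ 2 : ℝ) : ℂ) := by push_cast; ring
      rw [this]
      exact Complex.ofReal_re _
    have h5 : RCLike.re (((c : ℝ) : ℂ) * ((RCLike.ofReal ‖Spec_F k c z‖ : ℂ)) ^ 2)
        = c * ‖Spec_F k c z‖ ^ 2 := h4
    rw [h5]
    linarith
  exact h hy

theorem Spec_perp (k : K →L[ℂ] K) (c : ℝ) {x : K} (hx : x ∈ (Spec_S k c)ᗮ) :
    Spec_F k c x = 0 := by
  have h1 : ∀ z, ⟪Spec_F k c x, z⟫_ℂ = 0 := by
    intro z
    have h2 : ⟪Spec_F k c x, z⟫_ℂ = ⟪x, Spec_F k c z⟫_ℂ := by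
      conv_lhs => rw [← Spec_F_sa k c]
      rw [star_eq_adjoint, adjoint_inner_left]
    rw [h2]
    exact (Submodule.mem_orthogonal' _ _).1 hx _ (Spec_F_mem k c z)
  have h3 := h1 (Spec_F k c x)
  rwa [inner_self_eq_zero] at h3

theorem Spec_split {k : K →L[ℂ] K} (hk : IsSelfAdjoint k) (c : ℝ) :
    k = Spec_F k c + Spec_G k c := by
  unfold Spec_F Spec_G
  rw [← cfc_add (a := k) _ _ (by fun_prop) (by fun_prop)]
  conv_lhs => rw [← cfc_id' ℝ k]
  refine cfc_congr fun t _ => ?_
  show t = max (t - c) 0 + min t c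
  rcases le_total t c with h | h
  · rw [max_eq_right (by linarith), min_eq_left h]
    ring
  · rw [max_eq_left (by linarith), min_eq_right h]
    ring

/-- Spectral projections of a positive operator. -/
theorem exists_spec (𝔓 : StarSubalgebra ℂ (K →L[ℂ] K)) {k : K →L[ℂ] K} (hk : k ∈ Com 𝔓)
    (hks : star k = k) (hk0 : ∀ x, 0 ≤ RCLike.re ⟪x, k x⟫_ℂ) :
    ∃ q : ℝ → K →L[ℂ] K, SpecFam 𝔓 k q := by
  have hsa : IsSelfAdjoint k := hks
  have hkpos : 0 ≤ k := by
    rw [ContinuousLinearMap.nonneg_iff_isPositive, ContinuousLinearMap.isPositive_def']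
    refine ⟨hsa, fun x => ?_⟩
    rw [reApplyInnerSelf_apply, inner_re_symm]
    exact hk0 x
  have hspec : ∀ t ∈ spectrum ℝ k, 0 ≤ t := fun t ht => spectrum_nonneg_of_nonneg hkpos ht
  have hGn : ∀ c, 0 ≤ c → ‖Spec_G k c‖ ≤ c := by
    intro c hc
    refine norm_cfc_le hc fun t ht => ?_
    have := hspec t ht
    rw [Real.norm_eq_abs, abs_le]
    exact ⟨le_min (by linarith) (by linarith), min_le_right _ _⟩
  have hkx : ∀ c x, k (x - (Spec_S k c).starProjection x)
      = Spec_G k c (x - (Spec_S k c).starProjection x) := by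
    intro c x
    have h1 := Spec_perp k c (Submodule.sub_starProjection_mem_orthogonal (K := Spec_S k c) x)
    have h2 := congrArg (fun S : K →L[ℂ] K => S (x - (Spec_S k c).starProjection x))
      (Spec_split hsa c)
    simp only [add_apply] at h2
    rw [h1, zero_add] at h2
    exact h2
  have hcomk : ∀ c, k * Spec_F k c = Spec_F k c * k := by
    intro c
    have : Commute (Spec_F k c) k := (Commute.refl k).cfc_real _
    exact this.symm
  have hmemF : ∀ c, ∀ a ∈ 𝔓, a * Spec_F k c = Spec_F k c * a := by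
    intro c a ha
    have h1 : Commute k a := (mem_Com.1 hk a ha).symm
    have : Commute (Spec_F k c) a := h1.cfc_real _
    exact this.symm
  have hsub : ∀ c c', c ≤ c' → Spec_S k c' ≤ Spec_S k c := by
    intro c c' hcc
    rcases eq_or_lt_of_le hcc with rfl | hlt
    · exact le_rfl
    refine Submodule.topologicalClosure_mono ?_
    rintro _ ⟨z, rfl⟩
    have hden : ∀ t : ℝ, max (t - c) (c' - c) ≠ 0 := fun t =>
      (lt_of_lt_of_le (by linarith) (le_max_right _ _)).ne'
    have hcont : Continuous fun t : ℝ => max (t - c') 0 / max (t - c) (c' - c) :=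
      Continuous.div (by fun_prop) (by fun_prop) hden
    have h1 : Spec_F k c' = Spec_F k c *
        cfc (fun t : ℝ => max (t - c') 0 / max (t - c) (c' - c)) k := by
      unfold Spec_F
      rw [← cfc_mul _ _ k (by fun_prop) hcont.continuousOn]
      refine cfc_congr fun t _ => ?_
      show max (t - c') 0 = max (t - c) 0 * (max (t - c') 0 / max (t - c) (c' - c))
      rcases le_total t c' with h | h
      · rw [max_eq_right (show t - c' ≤ 0 by linarith)]
        simp
      · rw [max_eq_left (show 0 ≤ t - c' by linarith), max_eq_left (show 0 ≤ t - c by linarith),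
          max_eq_left (show c' - c ≤ t - c by linarith)]
        have : t - c ≠ 0 := by
          intro h3
          linarith
        field_simp
    refine ⟨cfc (fun t : ℝ => max (t - c') 0 / max (t - c) (c' - c)) k z, ?_⟩
    exact (congrArg (fun S : K →L[ℂ] K => S z) h1).symm
  refine ⟨fun c => (Spec_S k c).starProjection, ?_⟩
  refine ⟨?_, ?_, ?_, ?_, ?_, ?_, ?_, ?_, ?_⟩
  · intro c _
    exact proj_mem_Com 𝔓 _ fun a ha v hv => Spec_inv k c (hmemF c a ha) hv
  · intro c _
    exact Spec_star _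
  · intro c _
    ext x
    show (Spec_S k c).starProjection ((Spec_S k c).starProjection x)
      = (Spec_S k c).starProjection x
    rw [Submodule.starProjection_eq_self_iff]
    exact Submodule.starProjection_apply_mem _ x
  · intro c _
    exact Spec_comm _ hks fun v hv => Spec_inv k c (hcomk c) hv
  · intro c _ x
    exact Spec_low_aux hsa c (Submodule.starProjection_apply_mem _ x)
  · intro c hc x
    show RCLike.re ⟪x - (Spec_S k c).starProjection x, k (x - (Spec_S k c).starProjection x)⟫_ℂ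
      ≤ c * ‖x - (Spec_S k c).starProjection x‖ ^ 2
    rw [hkx c x]
    refine (RCLike.re_le_norm _).trans ((norm_inner_le_norm _ _).trans ?_)
    have h1 := (Spec_G k c).le_of_opNorm_le (hGn c hc) (x - (Spec_S k c).starProjection x)
    have h2 := norm_nonneg (x - (Spec_S k c).starProjection x)
    nlinarith
  · intro c hc x
    show ‖k (x - (Spec_S k c).starProjection x)‖ ≤ c * ‖x‖
    rw [hkx c x]
    refine ((Spec_G k c).le_of_opNorm_le (hGn c hc) _).trans ?_
    refine mul_le_mul_of_nonneg_left ?_ hc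
    have h1 : x - (Spec_S k c).starProjection x = (Spec_S k c)ᗮ.starProjection x := by
      rw [Submodule.starProjection_orthogonal']
      rfl
    rw [h1]
    exact Submodule.norm_starProjection_apply_le _ x
  · intro c c' _ hcc
    have h1 : (Spec_S k c).starProjection * (Spec_S k c').starProjection
        = (Spec_S k c').starProjection := by
      ext x
      show (Spec_S k c).starProjection ((Spec_S k c').starProjection x)
        = (Spec_S k c').starProjection x
      rw [Submodule.starProjection_eq_self_iff]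
      exact hsub c c' hcc (Submodule.starProjection_apply_mem _ x)
    refine ⟨h1, ?_⟩
    have h2 := congrArg star h1
    rwa [star_mul, Spec_star, Spec_star] at h2
  · intro c hc hkc
    have h1 : Spec_F k c = 0 := by
      unfold Spec_F
      rw [← cfc_zero ℝ k]
      refine cfc_congr fun t ht => ?_
      show max (t - c) 0 = 0
      have h2 := spectrum.norm_le_norm_mul_of_mem ht
      have h3 : ‖(1 : K →L[ℂ] K)‖ ≤ 1 := ContinuousLinearMap.norm_id_le
      have h4 : ‖k‖ * ‖(1 : K →L[ℂ] K)‖ ≤ ‖k‖ := by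
        have := norm_nonneg k
        nlinarith
      rw [Real.norm_eq_abs] at h2
      have h5 := le_abs_self t
      exact max_eq_right (by linarith)
    ext x
    have h2 : (Spec_S k c).starProjection x ∈ Spec_S k c :=
      Submodule.starProjection_apply_mem _ x
    have h3 : (Spec_S k c : Set K) ⊆ {0} := by
      refine closure_minimal ?_ isClosed_singleton
      rintro _ ⟨z, rfl⟩
      show Spec_F k c z = 0
      rw [h1]
      rfl
    exact h3 h2

end Pool.Agent.MP_86f3ed.Sf
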