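import Mathlib

open scoped InnerProductSpace Topology
open ContinuousLinearMap

namespace Pool.Agent.MP_86f3ed.Sf

variable {H : Type*} [NormedAddCommGroup H] [InnerProductSpace ℂ H] [CompleteSpace H]

/-- Functional calculus: an element with the property `Q` gives a self-adjoint element with the
property `Q` which is a unit for a nonzero element. -/
theorem exists_corner {A : Type*} [NonUnitalCStarAlgebra A] (π : A →⋆ₙₐ[ℂ] (H →L[ℂ] H))
    (Q : (H →L[ℂ] H) → Prop) (hQ : ∀ x y, Q x → Q (y * x)) {a : A} (ha : π a ≠ 0)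
    (hQa : Q (π a)) :
    ∃ g f : A, star g = g ∧ g * f = f ∧ f * g = f ∧ π f ≠ 0 ∧ Q (π g) := by
  obtain ⟨h, hh⟩ : ∃ h : A, h = star a * a := ⟨_, rfl⟩
  have hsa : IsSelfAdjoint h := by rw [hh]; exact IsSelfAdjoint.star_mul_self a
  have hR : 0 < ‖π h‖ := by
    rw [hh, map_mul, map_star, CStarRing.norm_star_mul_self]
    exact mul_pos (norm_pos_iff.2 ha) (norm_pos_iff.2 ha)
  obtain ⟨d, hd⟩ : ∃ d : ℝ, d = ‖π h‖ / 3 := ⟨_, rfl⟩
  have hd0 : 0 < d := by rw [hd]; positivity
  let F : ℝ → ℝ := fun t => t - max (-(2 * d)) (min t (2 * d))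
  let G : ℝ → ℝ := fun t => min (max (|t| - d) 0 / d) 1
  let k : ℝ → ℝ := fun t => G t * t / max (t ^ 2) (d ^ 2)
  have hmax : ∀ t : ℝ, 0 < max (t ^ 2) (d ^ 2) := fun t => lt_max_of_lt_right (by positivity)
  have cF : Continuous F := by fun_prop
  have cG : Continuous G := by
    apply Continuous.min _ continuous_const
    exact ((continuous_abs.sub continuous_const).max continuous_const).div_const d
  have ck : Continuous k :=
    (cG.mul continuous_id).div₀ (by fun_prop) (fun t => (hmax t).ne')
  have F0 : F 0 = 0 := by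
    show (0 : ℝ) - max (-(2 * d)) (min 0 (2 * d)) = 0
    rw [min_eq_left (by positivity), max_eq_right (by linarith), sub_zero]
  have G0 : G 0 = 0 := by
    show min (max (|(0 : ℝ)| - d) 0 / d) 1 = 0
    rw [abs_zero, max_eq_right (by linarith), zero_div, min_eq_left zero_le_one]
  have k0 : k 0 = 0 := by
    show G 0 * 0 / _ = 0
    rw [mul_zero, zero_div]
  have hGF : ∀ t, G t * F t = F t := by
    intro t
    by_cases ht : |t| ≤ 2 * d
    · have h1 := abs_le.1 ht
      have : F t = 0 := by
        show t - max (-(2 * d)) (min t (2 * d)) = 0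
        rw [min_eq_left h1.2, max_eq_right h1.1, sub_self]
      rw [this, mul_zero]
    · have h1 : G t = 1 := by
        show min (max (|t| - d) 0 / d) 1 = 1
        apply min_eq_right
        rw [le_div_iff₀ hd0]
        exact le_max_of_le_left (by linarith)
      rw [h1, one_mul]
  have hk : ∀ t, k t * t = G t := by
    intro t
    show G t * t / max (t ^ 2) (d ^ 2) * t = G t
    by_cases ht : |t| ≤ d
    · have h1 : G t = 0 := by
        show min (max (|t| - d) 0 / d) 1 = 0
        rw [max_eq_right (by linarith), zero_div, min_eq_left zero_le_one]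
      rw [h1]; simp
    · have h2 : d ^ 2 ≤ t ^ 2 := by
        rw [← sq_abs t]
        exact pow_le_pow_left₀ hd0.le (le_of_lt (not_le.1 ht)) 2
      have h3 : t ≠ 0 := by
        intro h4
        rw [h4, abs_zero] at ht
        exact ht hd0.le
      rw [max_eq_left h2]
      field_simp
  have hF2 : ∀ t, ‖t - F t‖ ≤ 2 * d := by
    intro t
    have : t - F t = max (-(2 * d)) (min t (2 * d)) := by
      show t - (t - max (-(2 * d)) (min t (2 * d))) = _
      ring
    rw [this, Real.norm_eq_abs, abs_le]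
    exact ⟨le_max_left _ _, max_le (by linarith) (min_le_right _ _)⟩
  have hid : cfcₙ (fun t : ℝ => t) h = h := cfcₙ_id' ℝ h
  refine ⟨cfcₙ G h, cfcₙ F h, (cfcₙ_predicate G h : IsSelfAdjoint (cfcₙ G h)), ?_, ?_, ?_, ?_⟩
  · rw [← cfcₙ_mul G F h cG.continuousOn G0 cF.continuousOn F0]
    congr 1
    funext t
    exact hGF t
  · rw [← cfcₙ_mul F G h cF.continuousOn F0 cG.continuousOn G0]
    congr 1
    funext t
    rw [mul_comm]
    exact hGF t
  · intro h0
    have h1 : h - cfcₙ F h = cfcₙ (fun t => t - F t) h := by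
      rw [cfcₙ_sub (fun t : ℝ => t) F h continuous_id.continuousOn rfl cF.continuousOn F0, hid]
    have h2 : ‖h - cfcₙ F h‖ ≤ 2 * d := by
      rw [h1]
      exact norm_cfcₙ_le fun t _ => hF2 t
    have h3 : ‖π (h - cfcₙ F h)‖ ≤ ‖h - cfcₙ F h‖ := NonUnitalStarAlgHom.norm_apply_le π _
    rw [map_sub, h0, sub_zero] at h3
    have h4 : ‖π h‖ = 3 * d := by rw [hd]; ring
    linarith
  · have h1 : cfcₙ G h = cfcₙ k h * h := by
      have h2 := cfcₙ_mul k (fun t : ℝ => t) h ck.continuousOn k0 continuous_id.continuousOn rfl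
      rw [hid] at h2
      rw [← h2]
      congr 1
      funext t
      exact (hk t).symm
    have h2 : π (cfcₙ G h) = (π (cfcₙ k h) * π (star a)) * π a := by
      rw [h1, map_mul, mul_assoc, ← map_mul π (star a) a, ← hh]
    rw [h2]
    exact hQ _ _ hQa

end Pool.Agent.MP_86f3ed.Sf
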