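import Pool.Agent.H.MP_86f3ed_an.Sf.Base

open scoped InnerProductSpace Topology ENNReal
open Filter ContinuousLinearMap

namespace Pool.Agent.MP_86f3ed.Sf

open Pin

set_option linter.unusedSectionVars false

variable {K : Type*} [NormedAddCommGroup K] [InnerProductSpace ℂ K] [CompleteSpace K]

variable (K) in
/-- The space of square summable sequences. -/
abbrev HH : Type _ := lp (fun _ : ℕ => K) 2

/-- The inclusion of a coordinate. -/
noncomputable def inc (j : ℕ) : K →L[ℂ] HH K :=
  LinearMap.mkContinuous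
    { toFun := fun x => lp.single (E := fun _ : ℕ => K) 2 j x
      map_add' := fun x y => lp.single_add (E := fun _ : ℕ => K) 2 j x y
      map_smul' := by
        intro c x
        rw [RingHom.id_apply]
        exact lp.single_smul (E := fun _ : ℕ => K) (𝕜 := ℂ) 2 j c x } 1
    (by
      intro x
      rw [one_mul]
      exact (lp.norm_single (E := fun _ : ℕ => K) (p := 2) (by norm_num) j x).le)

theorem inc_apply (j : ℕ) (x : K) : inc j x = lp.single (E := fun _ : ℕ => K) 2 j x := rfl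

/-- The projection onto a coordinate. -/
noncomputable def pr (j : ℕ) : HH K →L[ℂ] K :=
  LinearMap.mkContinuous
    { toFun := fun f => f j
      map_add' := fun f g => rfl
      map_smul' := fun c f => rfl } 1
    (by
      intro f
      rw [one_mul]
      exact lp.norm_apply_le_norm (by norm_num) f j)

theorem pr_apply (j : ℕ) (f : HH K) : pr j f = f j := rfl

theorem ext_pr {f g : HH K} (h : ∀ j, pr j f = pr j g) : f = g := lp.ext (funext h)

theorem pr_inc_same (j : ℕ) (x : K) : pr j (inc j x) = x := by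
  rw [pr_apply, inc_apply]
  simp

theorem pr_inc_ne {i j : ℕ} (h : i ≠ j) (x : K) : pr i (inc j x) = 0 := by
  rw [pr_apply, inc_apply, lp.single_apply_ne _ _ _ h]

theorem norm_inc (j : ℕ) (x : K) : ‖inc j x‖ = ‖x‖ :=
  lp.norm_single (E := fun _ : ℕ => K) (p := 2) (by norm_num) j x

theorem norm_pr_le (j : ℕ) (f : HH K) : ‖pr j f‖ ≤ ‖f‖ := lp.norm_apply_le_norm (by norm_num) f j

theorem hasSum_inner_pr (f g : HH K) : HasSum (fun j => ⟪pr j f, pr j g⟫_ℂ) ⟪f, g⟫_ℂ :=
  lp.hasSum_inner f g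

theorem inner_inc_left (j : ℕ) (x : K) (f : HH K) : ⟪inc j x, f⟫_ℂ = ⟪x, pr j f⟫_ℂ :=
  lp.inner_single_left (G := fun _ : ℕ => K) j x f

theorem inner_inc_right (j : ℕ) (x : K) (f : HH K) : ⟪f, inc j x⟫_ℂ = ⟪pr j f, x⟫_ℂ :=
  lp.inner_single_right (G := fun _ : ℕ => K) j x f

theorem hasSum_norm_pr (f : HH K) : HasSum (fun j => ‖pr j f‖ ^ 2) (‖f‖ ^ 2) := by
  have h := lp.hasSum_norm (E := fun _ : ℕ => K) (p := 2) (by norm_num) f
  simp only [ENNReal.toReal_ofNat, Real.rpow_ofNat] at h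
  exact h

theorem adjoint_inc (j : ℕ) : adjoint (inc (K := K) j) = pr j := by
  refine (ContinuousLinearMap.eq_adjoint_iff _ _).mpr (fun f x => ?_) |>.symm
  rw [inner_inc_right]

theorem adjoint_pr (j : ℕ) : adjoint (pr (K := K) j) = inc j := by
  rw [← adjoint_inc, adjoint_adjoint]

theorem hasSum_inc_pr (f : HH K) : HasSum (fun j => inc j (pr j f)) f := by
  have h := lp.hasSum_single (E := fun _ : ℕ => K) (p := 2) (by norm_num) f
  exact h

/-- A sequence of operators which is bounded in the sense of rows defines an operator. -/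
theorem exists_of_coord {H : Type*} [NormedAddCommGroup H] [InnerProductSpace ℂ H]
    [CompleteSpace H] (f : ℕ → H →L[ℂ] K) {C : ℝ} (hC : 0 ≤ C)
    (h : ∀ x (s : Finset ℕ), ∑ j ∈ s, ‖f j x‖ ^ 2 ≤ C ^ 2 * ‖x‖ ^ 2) :
    ∃ F : H →L[ℂ] HH K, ‖F‖ ≤ C ∧ ∀ j x, pr j (F x) = f j x := by
  have hmem : ∀ x, Memℓp (fun j => f j x) 2 := by
    intro x
    refine memℓp_gen' (C := C ^ 2 * ‖x‖ ^ 2) fun s => ?_
    simpa using h x s
  let F₀ : H →ₗ[ℂ] HH K :=
    { toFun := fun x => ⟨fun j => f j x, hmem x⟩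
      map_add' := fun x y => lp.ext (funext fun j => map_add (f j) x y)
      map_smul' := fun c x => lp.ext (funext fun j => map_smul (f j) c x) }
  have hF₀ : ∀ x, ‖F₀ x‖ ≤ C * ‖x‖ := by
    intro x
    refine lp.norm_le_of_forall_sum_le (p := 2) (by norm_num) (by positivity) fun s => ?_
    have h1 := h x s
    rw [← mul_pow] at h1
    simp only [ENNReal.toReal_ofNat, Real.rpow_ofNat]
    exact h1
  refine ⟨F₀.mkContinuous C hF₀, LinearMap.mkContinuous_norm_le _ hC _, fun j x => rfl⟩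

theorem amp_bound (S : K →L[ℂ] K) (x : HH K) (s : Finset ℕ) :
    ∑ j ∈ s, ‖(S.comp (pr j)) x‖ ^ 2 ≤ ‖S‖ ^ 2 * ‖x‖ ^ 2 := by
  have h1 : ∀ j, ‖(S.comp (pr j)) x‖ ^ 2 ≤ ‖S‖ ^ 2 * ‖pr j x‖ ^ 2 := by
    intro j
    rw [← mul_pow]
    exact pow_le_pow_left₀ (norm_nonneg _) (S.le_opNorm _) 2
  refine (Finset.sum_le_sum fun j _ => h1 j).trans ?_
  rw [← Finset.mul_sum]
  refine mul_le_mul_of_nonneg_left ?_ (by positivity)
  exact sum_le_hasSum s (fun j _ => by positivity) (hasSum_norm_pr x)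

/-- The amplification of an operator. -/
noncomputable def amp (S : K →L[ℂ] K) : HH K →L[ℂ] HH K :=
  (exists_of_coord (fun j => S.comp (pr j)) (norm_nonneg S) (amp_bound S)).choose

theorem norm_amp_le (S : K →L[ℂ] K) : ‖amp S‖ ≤ ‖S‖ :=
  (exists_of_coord (fun j => S.comp (pr j)) (norm_nonneg S) (amp_bound S)).choose_spec.1

theorem pr_amp (S : K →L[ℂ] K) (j : ℕ) (x : HH K) : pr j (amp S x) = S (pr j x) :=
  (exists_of_coord (fun j => S.comp (pr j)) (norm_nonneg S) (amp_bound S)).choose_spec.2 j x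

theorem amp_one : amp (1 : K →L[ℂ] K) = 1 :=
  ContinuousLinearMap.ext fun x => ext_pr fun j => by rw [pr_amp]; rfl

theorem amp_zero : amp (0 : K →L[ℂ] K) = 0 :=
  ContinuousLinearMap.ext fun x => ext_pr fun j => by
    rw [pr_amp]; show (0 : K) = pr j 0; rw [map_zero]

theorem amp_mul (S S' : K →L[ℂ] K) : amp (S * S') = amp S * amp S' :=
  ContinuousLinearMap.ext fun x => ext_pr fun j => by
    show pr j (amp (S * S') x) = pr j (amp S (amp S' x))
    rw [pr_amp, pr_amp, pr_amp]; rfl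

theorem amp_add (S S' : K →L[ℂ] K) : amp (S + S') = amp S + amp S' :=
  ContinuousLinearMap.ext fun x => ext_pr fun j => by
    rw [pr_amp, add_apply, add_apply, map_add, pr_amp, pr_amp]

theorem amp_sub (S S' : K →L[ℂ] K) : amp (S - S') = amp S - amp S' :=
  ContinuousLinearMap.ext fun x => ext_pr fun j => by
    rw [pr_amp, sub_apply, sub_apply, map_sub, pr_amp, pr_amp]

theorem amp_smul (c : ℂ) (S : K →L[ℂ] K) : amp (c • S) = c • amp S :=
  ContinuousLinearMap.ext fun x => ext_pr fun j => by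
    rw [pr_amp, smul_apply, smul_apply, map_smul, pr_amp]

theorem amp_star (S : K →L[ℂ] K) : amp (star S) = star (amp S) := by
  rw [star_eq_adjoint]
  refine (ContinuousLinearMap.eq_adjoint_iff _ _).mpr fun x y => ?_
  refine (hasSum_inner_pr _ _).unique ?_
  have h := hasSum_inner_pr x (amp S y)
  refine h.congr_fun fun j => ?_
  rw [pr_amp, pr_amp, adjoint_inner_left]

/-- The amplification as a homomorphism. -/
noncomputable def ampHom : (K →L[ℂ] K) →⋆ₐ[ℂ] (HH K →L[ℂ] HH K) where
  toFun := amp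
  map_one' := amp_one
  map_mul' := amp_mul
  map_zero' := amp_zero
  map_add' := amp_add
  commutes' c := by
    rw [Algebra.algebraMap_eq_smul_one, Algebra.algebraMap_eq_smul_one, amp_smul, amp_one]
  map_star' := amp_star

theorem ampHom_apply (S : K →L[ℂ] K) : (ampHom (K := K)) S = amp S := rfl

/-- The amplification of a star algebra. -/
noncomputable def Ampl (𝔅 : StarSubalgebra ℂ (K →L[ℂ] K)) :
    StarSubalgebra ℂ (HH K →L[ℂ] HH K) := 𝔅.map ampHom

theorem mem_Ampl {𝔅 : StarSubalgebra ℂ (K →L[ℂ] K)} {y : HH K →L[ℂ] HH K} :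
    y ∈ Ampl 𝔅 ↔ ∃ b ∈ 𝔅, amp b = y := StarSubalgebra.mem_map

theorem pr_inc (i j : ℕ) (x : K) : pr i (inc j x) = if i = j then x else 0 := by
  split_ifs with h
  · subst h; exact pr_inc_same i x
  · exact pr_inc_ne h x

theorem amp_inc (S : K →L[ℂ] K) (j : ℕ) (x : K) : amp S (inc j x) = inc j (S x) := by
  refine ext_pr fun i => ?_
  rw [pr_amp, pr_inc, pr_inc]
  split_ifs with h
  · rfl
  · exact map_zero S

/-- Operators on the sequence space are determined by their values on the coordinates. -/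
theorem ext_inc {H : Type*} [NormedAddCommGroup H] [InnerProductSpace ℂ H] {S S' : HH K →L[ℂ] H}
    (h : ∀ j x, S (inc j x) = S' (inc j x)) : S = S' := by
  refine ContinuousLinearMap.ext fun f => ?_
  have h1 := (hasSum_inc_pr f).mapL S
  have h2 := (hasSum_inc_pr f).mapL S'
  refine h1.unique ?_
  convert h2 using 2 with j
  exact h j _

/-- The entries of an operator on the sequence space. -/
noncomputable def ent (i j : ℕ) (y : HH K →L[ℂ] HH K) : K →L[ℂ] K := (pr i).comp (y.comp (inc j))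

theorem ent_apply (i j : ℕ) (y : HH K →L[ℂ] HH K) (x : K) : ent i j y x = pr i (y (inc j x)) := rfl

theorem ent_star (i j : ℕ) (y : HH K →L[ℂ] HH K) : ent i j (star y) = star (ent j i y) := by
  refine ContinuousLinearMap.ext fun x => ext_inner_left ℂ fun z => ?_
  rw [ent_apply, star_eq_adjoint, star_eq_adjoint, adjoint_inner_right, ent_apply,
    ← inner_inc_left, adjoint_inner_right, ← inner_inc_right]

end Pool.Agent.MP_86f3ed.Sf
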