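import Pool.Agent.H.MP_86f3ed_an.Sf.Comp

open scoped InnerProductSpace Topology ENNReal
open Filter ContinuousLinearMap

namespace Pool.Agent.MP_86f3ed.Sf

open Pin

variable {K : Type*} [NormedAddCommGroup K] [InnerProductSpace ℂ K] [CompleteSpace K]

/-- families of sub-copies of `p` with orthogonal final projections -/
def Cplt_good (𝔓 : StarSubalgebra ℂ (K →L[ℂ] K)) (p : K →L[ℂ] K) : Set (Set (K →L[ℂ] K)) :=
  {F | (∀ w ∈ F, w ∈ Com 𝔓 ∧ w ≠ 0 ∧ w * star w * w = w ∧ w * p = w) ∧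
    ∀ w ∈ F, ∀ w' ∈ F, w ≠ w' → star w * w' = 0}

theorem Cplt_zorn (𝔓 : StarSubalgebra ℂ (K →L[ℂ] K)) (p : K →L[ℂ] K) :
    ∃ F, Maximal (· ∈ Cplt_good 𝔓 p) F := by
  refine zorn_subset _ fun c hc hch => ⟨⋃₀ c, ⟨?_, ?_⟩, fun s hs => Set.subset_sUnion_of_mem hs⟩
  · rintro w ⟨s, hs, hw⟩
    exact (hc hs).1 w hw
  · rintro w ⟨s, hs, hw⟩ w' ⟨s', hs', hw'⟩ hne
    rcases hch.total hs hs' with h | h
    · exact (hc hs').2 w (h hw) w' hw' hne
    · exact (hc hs).2 w hw w' (h hw') hne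

/-- The final projections of a maximal family sum to the identity. -/
theorem Cplt_sum (𝔓 : StarSubalgebra ℂ (K →L[ℂ] K))
    (hfac : ∀ x ∈ Com 𝔓, x ∈ Com (Com 𝔓) → ∃ c : ℂ, x = c • (1 : K →L[ℂ] K))
    {p : K →L[ℂ] K} (hp : p ∈ Com 𝔓) (hps : star p = p) (hpp : p * p = p) (hp0 : p ≠ 0)
    {F : Set (K →L[ℂ] K)} (hF : Maximal (· ∈ Cplt_good 𝔓 p) F) (x : K) :
    HasSum (fun w : F => ((w : K →L[ℂ] K) * star (w : K →L[ℂ] K)) x) x := by
  obtain ⟨hF1, hF2⟩ := hF.1
  have hss : ∀ w : K →L[ℂ] K, star (w * star w) = w * star w := fun w => by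
    rw [star_mul, star_star]
  have hee : ∀ w ∈ F, w * star w * (w * star w) = w * star w := fun w hw => by
    rw [← mul_assoc, (hF1 w hw).2.2.1]
  have hort : ∀ w ∈ F, ∀ w' ∈ F, w ≠ w' → w * star w * (w' * star w') = 0 := by
    intro w hw w' hw' hne
    rw [mul_assoc, ← mul_assoc (star w), hF2 w hw w' hw' hne, zero_mul, mul_zero]
  obtain ⟨z, hz, hzs, hzz, -, -⟩ := exists_osum
    (fun w : F => (w : K →L[ℂ] K) * star (w : K →L[ℂ] K))
    (fun i => by
      show (i : K →L[ℂ] K) * star (i : K →L[ℂ] K) * star ((i : K →L[ℂ] K) * star (i : K →L[ℂ] K)) *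
        ((i : K →L[ℂ] K) * star (i : K →L[ℂ] K)) = _
      rw [hss, hee i.1 i.2, hee i.1 i.2])
    (fun i j hij => by
      show star ((i : K →L[ℂ] K) * star (i : K →L[ℂ] K)) *
        ((j : K →L[ℂ] K) * star (j : K →L[ℂ] K)) = 0
      rw [hss]
      exact hort i.1 i.2 j.1 j.2 fun h => hij (Subtype.ext h))
    (fun i j hij => by
      show (i : K →L[ℂ] K) * star (i : K →L[ℂ] K) *
        star ((j : K →L[ℂ] K) * star (j : K →L[ℂ] K)) = 0
      rw [hss]
      exact hort i.1 i.2 j.1 j.2 fun h => hij (Subtype.ext h))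
  have hzm : z ∈ Com 𝔓 := osum_mem 𝔓 _
    (fun i : F => mul_mem (hF1 i.1 i.2).1 (star_mem (hF1 i.1 i.2).1)) hz
  have hzs' : star z = z := by
    ext y
    refine (hzs y).unique ?_
    have h1 : (fun i : F => star ((i : K →L[ℂ] K) * star (i : K →L[ℂ] K)) y) =
        fun i : F => ((i : K →L[ℂ] K) * star (i : K →L[ℂ] K)) y := by
      funext i
      rw [hss]
    rw [h1]
    exact hz y
  have hzz' : z * z = z := by
    have h0 : star z * z = z := by
      ext y
      refine (hzz y).unique ?_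
      have h1 : (fun i : F => (star ((i : K →L[ℂ] K) * star (i : K →L[ℂ] K)) *
          ((i : K →L[ℂ] K) * star (i : K →L[ℂ] K))) y) =
          fun i : F => ((i : K →L[ℂ] K) * star (i : K →L[ℂ] K)) y := by
        funext i
        rw [hss, hee i.1 i.2]
      rw [h1]
      exact hz y
    rwa [hzs'] at h0
  have hzu : ∀ u ∈ F, z * u = u := by
    intro u hu
    ext y
    refine (hz (u y)).unique ?_
    have h1 := hasSum_single
      (f := fun i : F => ((i : K →L[ℂ] K) * star (i : K →L[ℂ] K)) (u y)) ⟨u, hu⟩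
      (fun i hi => by
        have h2 : (i : K →L[ℂ] K) * star (i : K →L[ℂ] K) * u = 0 := by
          rw [mul_assoc, hF2 i.1 i.2 u hu (fun h => hi (Subtype.ext h)), mul_zero]
        exact congrArg (fun S : K →L[ℂ] K => S y) h2)
    have h3 : (u * star u) (u y) = u y :=
      congrArg (fun S : K →L[ℂ] K => S y) (hF1 u hu).2.2.1
    change HasSum _ ((u * star u) (u y)) at h1
    rw [h3] at h1
    exact h1
  have hz1 : z = 1 := by
    by_contra hne
    have hq0 : (1 : K →L[ℂ] K) - z ≠ 0 := fun h => hne (sub_eq_zero.1 h).symm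
    have hqs : star ((1 : K →L[ℂ] K) - z) = 1 - z := by rw [star_sub, star_one, hzs']
    have hqq : ((1 : K →L[ℂ] K) - z) * (1 - z) = 1 - z := by
      rw [sub_mul, mul_sub, mul_sub, hzz']
      simp
    obtain ⟨w, hwm, hw0, hww, hwp, hqw⟩ := exists_link 𝔓 hfac hp hps hpp hp0
      (sub_mem (one_mem _) hzm) hqs hqq hq0
    have m1 : ∀ u ∈ F, star u * w = 0 := by
      intro u hu
      have a1 : star u * z = star u := by
        have := congrArg star (hzu u hu)
        rwa [star_mul, hzs'] at this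
      rw [← hqw, ← mul_assoc, mul_sub, mul_one, a1, sub_self, zero_mul]
    have hwF : w ∉ F := by
      intro h
      apply hw0
      rw [← hww, mul_assoc, m1 w h, mul_zero]
    have hins : insert w F ∈ Cplt_good 𝔓 p := by
      refine ⟨?_, ?_⟩
      · rintro u (rfl | hu)
        · exact ⟨hwm, hw0, hww, hwp⟩
        · exact hF1 u hu
      · rintro u (rfl | hu) u' (rfl | hu') hne
        · exact absurd rfl hne
        · have := congrArg star (m1 u' hu')
          rwa [star_mul, star_star, star_zero] at this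
        · exact m1 u hu
        · exact hF2 u hu u' hu' hne
    exact hwF (hF.2 hins (Set.subset_insert w F) (Set.mem_insert w F))
  have h5 := hz x
  rw [hz1] at h5
  exact h5

/-- The maximal family is countable. -/
theorem Cplt_countable [TopologicalSpace.SeparableSpace K] {F : Set (K →L[ℂ] K)}
    (hF0 : ∀ w ∈ F, w ≠ 0 ∧ w * star w * w = w)
    (hs : ∀ x, HasSum (fun w : F => ((w : K →L[ℂ] K) * star (w : K →L[ℂ] K)) x) x) :
    F.Countable := by
  obtain ⟨D, hDc, hDd⟩ := TopologicalSpace.exists_countable_dense K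
  have h1 : ∀ d : K, (Function.support
      (fun w : F => ((w : K →L[ℂ] K) * star (w : K →L[ℂ] K)) d)).Countable := by
    intro d
    exact (hs d).summable.countable_support
  have h2 : (⋃ d ∈ D, Function.support
      (fun w : F => ((w : K →L[ℂ] K) * star (w : K →L[ℂ] K)) d)).Countable :=
    hDc.biUnion fun d _ => h1 d
  have h3 : (⋃ d ∈ D, Function.support
      (fun w : F => ((w : K →L[ℂ] K) * star (w : K →L[ℂ] K)) d)) = Set.univ := by
    refine Set.eq_univ_of_forall fun w => ?_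
    by_contra hw
    simp only [Set.mem_iUnion, Function.mem_support, not_exists, not_not] at hw
    have h4 : Set.EqOn (fun x => ((w : K →L[ℂ] K) * star (w : K →L[ℂ] K)) x)
        (fun _ => (0 : K)) D := fun d hd => hw d hd
    have h5 := Continuous.ext_on hDd
      ((w : K →L[ℂ] K) * star (w : K →L[ℂ] K)).continuous continuous_const h4
    have h6 : (w : K →L[ℂ] K) * star (w : K →L[ℂ] K) = 0 :=
      ContinuousLinearMap.ext fun x => congrFun h5 x
    obtain ⟨h7, h8⟩ := hF0 w.1 w.2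
    rw [h6, zero_mul] at h8
    exact h7 h8.symm
  rw [h3, Set.countable_univ_iff] at h2
  exact Set.countable_coe_iff.1 h2

/-- A complete system of sub-copies of `p`. -/
theorem exists_complete [TopologicalSpace.SeparableSpace K] (𝔓 : StarSubalgebra ℂ (K →L[ℂ] K))
    (hfac : ∀ x ∈ Com 𝔓, x ∈ Com (Com 𝔓) → ∃ c : ℂ, x = c • (1 : K →L[ℂ] K))
    {p : K →L[ℂ] K} (hp : p ∈ Com 𝔓) (hps : star p = p) (hpp : p * p = p) (hp0 : p ≠ 0) :
    ∃ V : ℕ → K →L[ℂ] K, (∀ i, V i ∈ Com 𝔓) ∧ (∀ i, V i * star (V i) * V i = V i) ∧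
      (∀ i, V i * p = V i) ∧ (∀ i j, i ≠ j → star (V i) * V j = 0) ∧
      ∀ x, HasSum (fun i => (V i * star (V i)) x) x := by
  obtain ⟨F, hF⟩ := Cplt_zorn 𝔓 p
  have hs := Cplt_sum 𝔓 hfac hp hps hpp hp0 hF
  obtain ⟨hF1, hF2⟩ := hF.1
  have hc : F.Countable := Cplt_countable (fun w hw => ⟨(hF1 w hw).2.1, (hF1 w hw).2.2.1⟩) hs
  haveI : Countable F := hc.to_subtype
  obtain ⟨f, hf⟩ := exists_injective_nat F
  set V : ℕ → K →L[ℂ] K := Function.extend f (fun w : F => (w : K →L[ℂ] K)) 0 with hV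
  have hV1 : ∀ w : F, V (f w) = w := fun w => hf.extend_apply _ _ w
  have hV0 : ∀ n, (¬ ∃ w, f w = n) → V n = 0 := fun n hn => by
    rw [hV, Function.extend_apply' _ _ _ hn]
    rfl
  have hcase : ∀ n, (∃ w : F, f w = n ∧ V n = w) ∨ V n = 0 := by
    intro n
    by_cases h : ∃ w, f w = n
    · obtain ⟨w, rfl⟩ := h
      exact Or.inl ⟨w, rfl, hV1 w⟩
    · exact Or.inr (hV0 n h)
  refine ⟨V, ?_, ?_, ?_, ?_, ?_⟩
  · intro i
    rcases hcase i with ⟨w, -, h⟩ | h
    · rw [h]; exact (hF1 w.1 w.2).1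
    · rw [h]; exact zero_mem _
  · intro i
    rcases hcase i with ⟨w, -, h⟩ | h
    · rw [h]; exact (hF1 w.1 w.2).2.2.1
    · rw [h]; simp
  · intro i
    rcases hcase i with ⟨w, -, h⟩ | h
    · rw [h]; exact (hF1 w.1 w.2).2.2.2
    · rw [h]; simp
  · intro i j hij
    rcases hcase i with ⟨w, hw, h⟩ | h
    · rcases hcase j with ⟨w', hw', h'⟩ | h'
      · rw [h, h']
        refine hF2 w.1 w.2 w'.1 w'.2 fun he => hij ?_
        rw [← hw, ← hw', Subtype.ext he]
      · rw [h', mul_zero]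
    · rw [h, star_zero, zero_mul]
  · intro x
    have h1 : (fun i => (V i * star (V i)) x) =
        Function.extend f (fun w : F => ((w : K →L[ℂ] K) * star (w : K →L[ℂ] K)) x) 0 := by
      funext n
      by_cases h : ∃ w, f w = n
      · obtain ⟨w, rfl⟩ := h
        rw [hf.extend_apply, hV1 w]
      · rw [hV0 n h, Function.extend_apply' _ _ _ h]
        simp
    rw [h1]
    exact (hasSum_extend_zero hf).2 (hs x)

end Pool.Agent.MP_86f3ed.Sf
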