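import Pool.Agent.H.MP_86f3ed_an.Sf.Count
import Pool.Agent.H.MP_86f3ed_an.Sf.Cplt
import Pool.Agent.H.MP_86f3ed_an.Sf.Seq
import Pool.Agent.H.MP_86f3ed_an.Sf.Amp

open scoped InnerProductSpace Topology ENNReal
open Filter ContinuousLinearMap

namespace Pool.Agent.MP_86f3ed.Sf

open Pin

set_option linter.unusedSectionVars false

variable {K : Type*} [NormedAddCommGroup K] [InnerProductSpace ℂ K] [CompleteSpace K]

/-- An operator of finite trace. -/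
def TF.FinTr (T : TF K) (g : K →L[ℂ] K) : Prop :=
  ∃ C : ℝ, ∀ (m : ℕ) (v : Fin m → K →L[ℂ] K), (∀ i, v i ∈ T.M) → (∀ i, ‖v i‖ ≤ 1) →
    (∀ i j, i ≠ j → star (v i) * v j = 0) → ∑ i, ‖g (v i T.ζ)‖ ^ 2 ≤ C

/-- the operators with a square summable sequence of vectors -/
def CtrF (V : ℕ → K →L[ℂ] K) (ζ : K) (x : K →L[ℂ] K) : Prop :=
  Memℓp (fun i => x (V i ζ)) 2

open Classical in
/-- the sequence of vectors of an operator -/
noncomputable def CtrV (V : ℕ → K →L[ℂ] K) (ζ : K) (x : K →L[ℂ] K) : HH K :=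
  if h : CtrF V ζ x then ⟨fun i => x (V i ζ), h⟩ else 0

theorem Ctr_pr {V : ℕ → K →L[ℂ] K} {ζ : K} {x : K →L[ℂ] K} (h : CtrF V ζ x) (i : ℕ) :
    pr i (CtrV V ζ x) = x (V i ζ) := by
  unfold CtrV
  rw [dif_pos h]
  rfl

theorem CtrF_add {V : ℕ → K →L[ℂ] K} {ζ : K} {x y : K →L[ℂ] K} (hx : CtrF V ζ x)
    (hy : CtrF V ζ y) : CtrF V ζ (x + y) := Memℓp.add hx hy

theorem CtrF_smul {V : ℕ → K →L[ℂ] K} {ζ : K} {x : K →L[ℂ] K} (c : ℂ) (hx : CtrF V ζ x) :
    CtrF V ζ (c • x) := Memℓp.const_smul hx c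

theorem CtrF_mul {V : ℕ → K →L[ℂ] K} {ζ : K} {x : K →L[ℂ] K} (a : K →L[ℂ] K)
    (hx : CtrF V ζ x) : CtrF V ζ (a * x) := by
  have h1 : (fun i => (a * x) (V i ζ)) = fun i => pr i (amp a (CtrV V ζ x)) := by
    funext i
    rw [pr_amp, Ctr_pr hx]
    rfl
  show Memℓp (fun i => (a * x) (V i ζ)) 2
  rw [h1]
  exact (amp a (CtrV V ζ x)).2

theorem CtrV_add {V : ℕ → K →L[ℂ] K} {ζ : K} {x y : K →L[ℂ] K} (hx : CtrF V ζ x)
    (hy : CtrF V ζ y) : CtrV V ζ (x + y) = CtrV V ζ x + CtrV V ζ y := by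
  refine ext_pr fun i => ?_
  rw [map_add, Ctr_pr hx, Ctr_pr hy, Ctr_pr (CtrF_add hx hy)]
  rfl

theorem CtrV_smul {V : ℕ → K →L[ℂ] K} {ζ : K} {x : K →L[ℂ] K} (c : ℂ) (hx : CtrF V ζ x) :
    CtrV V ζ (c • x) = c • CtrV V ζ x := by
  refine ext_pr fun i => ?_
  rw [map_smul, Ctr_pr hx, Ctr_pr (CtrF_smul c hx)]
  rfl

theorem Ctr_amp {V : ℕ → K →L[ℂ] K} {ζ : K} {x : K →L[ℂ] K} (a : K →L[ℂ] K)
    (hx : CtrF V ζ x) : amp a (CtrV V ζ x) = CtrV V ζ (a * x) := by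
  refine ext_pr fun i => ?_
  rw [pr_amp, Ctr_pr hx, Ctr_pr (CtrF_mul a hx)]
  rfl

theorem Ctr_inner_amp (c : K →L[ℂ] K) (f h : HH K) :
    ⟪f, amp c h⟫_ℂ = ⟪amp (star c) f, h⟫_ℂ := by
  rw [amp_star, star_eq_adjoint, adjoint_inner_left]

/-- the sum of the squares as an extended number -/
theorem Ctr_tsum {V : ℕ → K →L[ℂ] K} {ζ : K} {x : K →L[ℂ] K} (hx : CtrF V ζ x) :
    ∑' i, ENNReal.ofReal (‖x (V i ζ)‖ ^ 2) = ENNReal.ofReal (‖CtrV V ζ x‖ ^ 2) := by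
  have h1 := hasSum_norm_pr (CtrV V ζ x)
  have h2 : (fun j => ‖pr j (CtrV V ζ x)‖ ^ 2) = fun j => ‖x (V j ζ)‖ ^ 2 := by
    funext j
    rw [Ctr_pr hx]
  rw [h2] at h1
  rw [← h1.tsum_eq, ENNReal.ofReal_tsum_of_nonneg (fun i => by positivity) h1.summable]

theorem Ctr_of_tsum {V : ℕ → K →L[ℂ] K} {ζ : K} {x : K →L[ℂ] K}
    (h : ∑' i, ENNReal.ofReal (‖x (V i ζ)‖ ^ 2) ≠ ⊤) : CtrF V ζ x := by
  refine memℓp_gen ?_
  have h1 := ENNReal.summable_toReal h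
  have h2 : (fun i => (ENNReal.ofReal (‖x (V i ζ)‖ ^ 2)).toReal) =
      fun i => ‖x (V i ζ)‖ ^ (2 : ℝ≥0∞).toReal := by
    funext i
    rw [ENNReal.toReal_ofReal (by positivity)]
    simp
  rw [h2] at h1
  exact h1

theorem Ctr_polar {V : ℕ → K →L[ℂ] K} {ζ : K} (A : (K →L[ℂ] K) → Prop)
    (hA1 : ∀ x y, A x → A y → A (x + y)) (hA2 : ∀ (c : ℂ) x, A x → A (c • x))
    (hst : ∀ x, A x → CtrF V ζ x → CtrF V ζ (star x) ∧ ‖CtrV V ζ (star x)‖ = ‖CtrV V ζ x‖)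
    {y z : K →L[ℂ] K} (hy : A y) (hz : A z) (fy : CtrF V ζ y) (fz : CtrF V ζ z) :
    ⟪CtrV V ζ y, CtrV V ζ z⟫_ℂ = ⟪CtrV V ζ (star z), CtrV V ζ (star y)⟫_ℂ := by
  have fy' := (hst y hy fy).1
  have fz' := (hst z hz fz).1
  have key : ∀ c : ℂ, ‖CtrV V ζ z + c • CtrV V ζ y‖ =
      ‖CtrV V ζ (star z) + (starRingEnd ℂ c) • CtrV V ζ (star y)‖ := by
    intro c
    have h1 := (hst (z + c • y) (hA1 _ _ hz (hA2 _ _ hy)) (CtrF_add fz (CtrF_smul c fy))).2
    rw [star_add, star_smul, CtrV_add fz' (CtrF_smul _ fy'), CtrV_smul _ fy',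
      CtrV_add fz (CtrF_smul c fy), CtrV_smul _ fy] at h1
    exact h1.symm
  have e1 : ‖CtrV V ζ y + CtrV V ζ z‖ = ‖CtrV V ζ (star z) + CtrV V ζ (star y)‖ := by
    have h := key 1
    rw [map_one, one_smul, one_smul] at h
    rw [add_comm, h]
  have e2 : ‖CtrV V ζ y - CtrV V ζ z‖ = ‖CtrV V ζ (star z) - CtrV V ζ (star y)‖ := by
    have h := key (-1)
    rw [map_neg, map_one, neg_smul, one_smul, neg_smul, one_smul, ← sub_eq_add_neg,
      ← sub_eq_add_neg] at h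
    rw [norm_sub_rev, h]
  have hI : ∀ f h : HH K, ‖f - Complex.I • h‖ = ‖h + Complex.I • f‖ := by
    intro f h
    have : f - Complex.I • h = (-Complex.I) • (h + Complex.I • f) := by
      rw [smul_add, smul_smul]
      simp [sub_eq_add_neg, add_comm]
    rw [this, norm_smul]
    simp
  have hI' : ∀ f h : HH K, ‖f + Complex.I • h‖ = ‖h - Complex.I • f‖ := fun f h => (hI h f).symm
  have e3 : ‖CtrV V ζ y - Complex.I • CtrV V ζ z‖ =
      ‖CtrV V ζ (star z) - Complex.I • CtrV V ζ (star y)‖ := by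
    have h := key Complex.I
    rw [Complex.conj_I, neg_smul, ← sub_eq_add_neg] at h
    rw [hI, h]
  have e4 : ‖CtrV V ζ y + Complex.I • CtrV V ζ z‖ =
      ‖CtrV V ζ (star z) + Complex.I • CtrV V ζ (star y)‖ := by
    have h := key (-Complex.I)
    rw [map_neg, Complex.conj_I, neg_neg, neg_smul, ← sub_eq_add_neg] at h
    rw [hI', h]
  rw [inner_eq_sum_norm_sq_div_four (𝕜 := ℂ) (CtrV V ζ y),
    inner_eq_sum_norm_sq_div_four (𝕜 := ℂ) (CtrV V ζ (star z))]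
  rw [RCLike.I_to_complex, e1, e2, e3, e4]

/-- The vector of an operator of finite trace is central for the elements under it. -/
theorem TF.exists_ctr [TopologicalSpace.SeparableSpace K] (T : TF K) {g : K →L[ℂ] K}
    (hg : g ∈ T.M) (hs : star g = g) (hfin : T.FinTr g) :
    ∃ ξ : HH K, (∀ c ∈ T.M, g * c = c → c * g = c → ∀ x ∈ T.M,
        ⟪ξ, amp c (amp x ξ)⟫_ℂ = ⟪ξ, amp x (amp c ξ)⟫_ℂ) ∧
      ∀ c ∈ T.M, c * g = c → amp c ξ = 0 → c = 0 := by
  have hfac : ∀ x ∈ Com T.N, x ∈ Com (Com T.N) → ∃ c : ℂ, x = c • (1 : K →L[ℂ] K) := by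
    intro x hx hx'
    rw [T.bic] at hx'
    exact T.factor x hx' hx
  obtain ⟨V, hV, hVV, hVp, hVo, hV1⟩ :=
    exists_complete T.N hfac T.e_mem T.e_star T.e_mul_e T.e_ne
  have hVn : ∀ i, ‖V i‖ ≤ 1 := by
    intro i
    refine seq_norm_le (p := star (V i) * V i) ?_ ?_ (Or.inl rfl)
    · rw [star_mul, star_star]
    · rw [mul_assoc, ← mul_assoc (V i), hVV]
  have hVe : ∀ i, T.e * star (V i) = star (V i) := by
    intro i
    have h := congrArg star (hVp i)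
    rw [star_mul, T.e_star] at h
    exact h
  -- sums of squares
  have hsq : ∀ z : K, HasSum (fun j => ‖star (V j) z‖ ^ 2) (‖z‖ ^ 2) := by
    intro z
    have h1 := (innerSL ℂ z).hasSum (hV1 z)
    have h2 : (fun j => (⟪z, (V j * star (V j)) z⟫_ℂ)) =
        fun j => ((‖star (V j) z‖ ^ 2 : ℝ) : ℂ) := by
      funext j
      have : ⟪z, (V j * star (V j)) z⟫_ℂ = ⟪star (V j) z, star (V j) z⟫_ℂ := by
        show ⟪z, V j (star (V j) z)⟫_ℂ = _
        rw [star_eq_adjoint, adjoint_inner_left]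
      rw [this, inner_self_eq_norm_sq_to_K]
      push_cast
      rfl
    have h3 : HasSum (fun j => ((‖star (V j) z‖ ^ 2 : ℝ) : ℂ)) ((‖z‖ ^ 2 : ℝ) : ℂ) := by
      rw [← h2]
      have h4 : ((‖z‖ ^ 2 : ℝ) : ℂ) = ⟪z, z⟫_ℂ := by
        rw [inner_self_eq_norm_sq_to_K]
        push_cast
        rfl
      rw [h4]
      exact h1
    exact_mod_cast h3
  have hsqE : ∀ z : K, ENNReal.ofReal (‖z‖ ^ 2) =
      ∑' j, ENNReal.ofReal (‖star (V j) z‖ ^ 2) := by
    intro z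
    rw [← (hsq z).tsum_eq, ENNReal.ofReal_tsum_of_nonneg (fun i => by positivity)
      (hsq z).summable]
  -- the trace property
  have hsw : ∀ x ∈ T.M, ∀ i j, ‖star (V j) (x (V i T.ζ))‖ = ‖star (V i) (star x (V j T.ζ))‖ := by
    intro x hx i j
    have hb : star (V j) * x * V i ∈ T.M := mul_mem (mul_mem (star_mem (hV j)) hx) (hV i)
    have h1 := T.norm_e_star hb
    have h2 : T.e ((star (V j) * x * V i) T.ζ) = star (V j) (x (V i T.ζ)) := by
      show (T.e * star (V j)) (x (V i T.ζ)) = _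
      rw [hVe]
    have h3 : T.e (star (star (V j) * x * V i) T.ζ) = star (V i) (star x (V j T.ζ)) := by
      rw [star_mul, star_mul, star_star]
      show (T.e * star (V i)) (star x (V j T.ζ)) = _
      rw [hVe]
    rw [h2, h3] at h1
    exact h1.symm
  have ht : ∀ x ∈ T.M, ∑' i, ENNReal.ofReal (‖star x (V i T.ζ)‖ ^ 2) =
      ∑' i, ENNReal.ofReal (‖x (V i T.ζ)‖ ^ 2) := by
    intro x hx
    have h1 : ∀ i, ENNReal.ofReal (‖star x (V i T.ζ)‖ ^ 2) =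
        ∑' j, ENNReal.ofReal (‖star (V i) (x (V j T.ζ))‖ ^ 2) := by
      intro i
      rw [hsqE]
      refine tsum_congr fun j => ?_
      rw [← hsw x hx j i]
    have h2 : ∀ i, ENNReal.ofReal (‖x (V i T.ζ)‖ ^ 2) =
        ∑' j, ENNReal.ofReal (‖star (V j) (x (V i T.ζ))‖ ^ 2) := fun i => hsqE _
    rw [tsum_congr h1, tsum_congr h2, ENNReal.tsum_comm]
  have hst : ∀ x, x ∈ T.M → CtrF V T.ζ x →
      CtrF V T.ζ (star x) ∧ ‖CtrV V T.ζ (star x)‖ = ‖CtrV V T.ζ x‖ := by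
    intro x hx fx
    have h1 := Ctr_tsum fx
    have h2 := ht x hx
    rw [h1] at h2
    have h3 : CtrF V T.ζ (star x) := Ctr_of_tsum (by rw [h2]; exact ENNReal.ofReal_ne_top)
    refine ⟨h3, ?_⟩
    rw [Ctr_tsum h3, ENNReal.ofReal_eq_ofReal_iff (by positivity) (by positivity)] at h2
    exact (sq_eq_sq₀ (norm_nonneg _) (norm_nonneg _)).mp h2
  have hpol : ∀ y ∈ T.M, ∀ z ∈ T.M, CtrF V T.ζ y → CtrF V T.ζ z →
      ⟪CtrV V T.ζ y, CtrV V T.ζ z⟫_ℂ = ⟪CtrV V T.ζ (star z), CtrV V T.ζ (star y)⟫_ℂ :=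
    fun y hy z hz fy fz => Ctr_polar (· ∈ T.M) (fun _ _ h h' => add_mem h h')
      (fun c _ h => SMulMemClass.smul_mem c h) hst hy hz fy fz
  -- finiteness
  have fg : CtrF V T.ζ g := by
    obtain ⟨C, hC⟩ := hfin
    refine Ctr_of_tsum (ne_top_of_le_ne_top (b := ENNReal.ofReal C) ENNReal.ofReal_ne_top ?_)
    refine ENNReal.tsum_le_of_sum_range_le fun n => ?_
    rw [← ENNReal.ofReal_sum_of_nonneg (fun i _ => by positivity), Finset.sum_range]
    exact ENNReal.ofReal_le_ofReal (hC n (fun i => V i) (fun i => hV i) (fun i => hVn i)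
      fun i j hij => hVo i j fun h => hij (Fin.ext h))
  refine ⟨CtrV V T.ζ g, ?_, ?_⟩
  · intro c hc hgc hcg x hx
    have hsc : star c * g = star c := by
      have h := congrArg star hgc
      rw [star_mul, hs] at h
      exact h
    have fc : CtrF V T.ζ c := by
      rw [← hcg]
      exact CtrF_mul c fg
    have fsc : CtrF V T.ζ (star c) := by
      rw [← hsc]
      exact CtrF_mul _ fg
    have fxg : CtrF V T.ζ (x * g) := CtrF_mul x fg
    have fxc : CtrF V T.ζ (x * c) := CtrF_mul x fc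
    have hxg : x * g ∈ T.M := mul_mem hx hg
    have hxc : x * c ∈ T.M := mul_mem hx hc
    have fs := (hst _ hxg fxg).1
    have a1 : ⟪CtrV V T.ζ g, amp c (amp x (CtrV V T.ζ g))⟫_ℂ =
        ⟪CtrV V T.ζ (star c * star x), CtrV V T.ζ g⟫_ℂ := by
      rw [Ctr_inner_amp, Ctr_amp _ fg, Ctr_amp _ fg, hsc,
        hpol _ (star_mem hc) _ hxg fsc fxg, star_star]
      have h1 : CtrV V T.ζ c = amp c (CtrV V T.ζ g) := by rw [Ctr_amp _ fg, hcg]
      rw [h1, Ctr_inner_amp, Ctr_amp _ fs, star_mul, hs, ← mul_assoc, hsc]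
    have a2 : ⟪CtrV V T.ζ g, amp x (amp c (CtrV V T.ζ g))⟫_ℂ =
        ⟪CtrV V T.ζ (star c * star x), CtrV V T.ζ g⟫_ℂ := by
      rw [Ctr_amp _ fg, hcg, Ctr_amp _ fc, hpol _ hg _ hxc fg fxc, hs, star_mul]
    rw [a1, a2]
  · intro c hc hcg h0
    have h1 : ∀ i, c (V i T.ζ) = 0 := by
      intro i
      have h := congrArg (pr i) h0
      rw [Ctr_amp _ fg, hcg, map_zero, Ctr_pr] at h
      · exact h
      · rw [← hcg]
        exact CtrF_mul c fg
    have h2 : ∀ i, c * V i = 0 := by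
      intro i
      have hb : c * V i ∈ T.M := mul_mem hc (hV i)
      have h3 : (T.W : Set K) ⊆ {w | (c * V i) w = 0} := by
        refine closure_minimal ?_ (isClosed_eq (c * V i).continuous continuous_const)
        rintro _ ⟨y, hy, rfl⟩
        show (c * V i) (y T.ζ) = 0
        rw [← T.comm hy hb]
        show y (c (V i T.ζ)) = 0
        rw [h1, map_zero]
      ext w
      have h4 : (c * V i) (T.e w) = 0 := h3 (T.e_apply_mem w)
      have h5 : (c * V i) (T.e w) = (c * V i) w := by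
        show c ((V i * T.e) w) = c (V i w)
        rw [hVp]
      rw [← h5, h4]
      rfl
    ext x
    have h6 := c.hasSum (hV1 x)
    have h7 : (fun i => c ((V i * star (V i)) x)) = fun _ => 0 := by
      funext i
      show (c * V i) (star (V i) x) = 0
      rw [h2]
      rfl
    rw [h7] at h6
    exact h6.unique hasSum_zero

end Pool.Agent.MP_86f3ed.Sf
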