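import Pool.Agent.H.MP_86f3ed_an.Sf.Base

open scoped InnerProductSpace Topology ENNReal
open Filter ContinuousLinearMap

namespace Pool.Agent.MP_86f3ed.Sf

open Pin

variable {K : Type*} [NormedAddCommGroup K] [InnerProductSpace ℂ K] [CompleteSpace K]

private theorem cent_isClosed (A : StarSubalgebra ℂ (K →L[ℂ] K)) :
    IsClosed (Com A : Set (K →L[ℂ] K)) := by
  have h : (Com A : Set (K →L[ℂ] K)) = ⋂ a ∈ A, {x | a * x = x * a} := by
    ext x
    simp only [SetLike.mem_coe, mem_Com, Set.mem_iInter, Set.mem_ofPred_eq]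
  rw [h]
  exact isClosed_biInter fun a _ => isClosed_eq (continuous_const.mul continuous_id)
    (continuous_id.mul continuous_const)

/-- every element of the commutant is a combination of four unitaries of the commutant -/
private theorem cent_four (𝔓 : StarSubalgebra ℂ (K →L[ℂ] K)) {y : K →L[ℂ] K} (hy : y ∈ Com 𝔓) :
    ∃ (u : Fin 4 → K →L[ℂ] K) (c : Fin 4 → ℂ), (∀ i, u i ∈ Com 𝔓 ∧ star (u i) * u i = 1 ∧
      u i * star (u i) = 1) ∧ y = ∑ i, c i • u i := by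
  haveI : IsClosed (Com 𝔓 : Set (K →L[ℂ] K)) := cent_isClosed 𝔓
  obtain ⟨u, c, h, -⟩ := CStarAlgebra.exists_sum_four_unitary (A := Com 𝔓) ⟨y, hy⟩
  refine ⟨fun i => ((u i : Com 𝔓) : K →L[ℂ] K), c, fun i => ⟨(u i : Com 𝔓).2, ?_, ?_⟩, ?_⟩
  · have h1 : star (u i : Com 𝔓) * (u i : Com 𝔓) = 1 := (u i).2.1
    exact congrArg Subtype.val h1
  · have h1 : (u i : Com 𝔓) * star (u i : Com 𝔓) = 1 := (u i).2.2
    exact congrArg Subtype.val h1
  · have h1 := congrArg (Com 𝔓).subtype h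
    rw [map_sum] at h1
    exact h1

/-- Unitary invariance implies centrality. -/
theorem central_of_unitary {φ : (K →L[ℂ] K) →ₗ[ℂ] ℂ} (𝔓 : StarSubalgebra ℂ (K →L[ℂ] K))
    (hu : ∀ u ∈ Com 𝔓, star u * u = 1 → u * star u = 1 → ∀ S, φ (u * S * star u) = φ S)
    {y : K →L[ℂ] K} (hy : y ∈ Com 𝔓) (S : K →L[ℂ] K) : φ (y * S) = φ (S * y) := by
  obtain ⟨u, c, h, rfl⟩ := cent_four 𝔓 hy
  rw [Finset.sum_mul, Finset.mul_sum, map_sum, map_sum]
  refine Finset.sum_congr rfl fun i _ => ?_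
  obtain ⟨h1, h2, h3⟩ := h i
  rw [smul_mul_assoc, mul_smul_comm, map_smul, map_smul]
  congr 1
  have h4 := hu (u i) h1 h2 h3 (S * u i)
  rw [← h4, mul_assoc, mul_assoc, h3, mul_one]

end Pool.Agent.MP_86f3ed.Sf
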