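import Pool.Agent.H.MP_86f3ed_an.Sf.TU2
import Pool.Agent.H.MP_86f3ed_an.Sf.Cent
import Pool.Agent.H.MP_86f3ed_an.Trc.Public

open scoped InnerProductSpace Topology ENNReal
open Filter ContinuousLinearMap

namespace Pool.Agent.MP_86f3ed.Sf

open Pin

variable {K : Type*} [NormedAddCommGroup K] [InnerProductSpace ℂ K] [CompleteSpace K]

namespace TF

variable (T : TF K)

/-- Norms of vectors and the trace. -/
private theorem Inj_norm (z : K →L[ℂ] K) :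
    ((‖z T.ζ‖ ^ 2 : ℝ) : ℂ) = ⟪T.ζ, (star z * z) T.ζ⟫_ℂ := by
  show ((‖z T.ζ‖ ^ 2 : ℝ) : ℂ) = ⟪T.ζ, star z (z T.ζ)⟫_ℂ
  rw [star_eq_adjoint, adjoint_inner_right, inner_self_eq_norm_sq_to_K]
  push_cast
  rfl

private theorem Inj_phi {φ : (K →L[ℂ] K) →ₗ[ℂ] ℂ} (hv : ∀ y ∈ T.N, φ y = ⟪T.ζ, y T.ζ⟫_ℂ)
    {y : K →L[ℂ] K} (hy : y ∈ T.N) : (φ (star y * y)).re = ‖y T.ζ‖ ^ 2 := by
  rw [hv _ (mul_mem (star_mem hy) hy), ← T.Inj_norm, Complex.ofReal_re]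

private theorem Inj_le {φ : (K →L[ℂ] K) →ₗ[ℂ] ℂ} (hφ : IsSt φ) (S : K →L[ℂ] K) :
    (φ (star S * S)).re ≤ ‖S‖ ^ 2 := by
  calc (φ (star S * S)).re ≤ ‖φ (star S * S)‖ := Complex.re_le_norm _
    _ ≤ ‖star S * S‖ := hφ.norm_le _
    _ = ‖S‖ ^ 2 := by rw [CStarRing.norm_star_mul_self, pow_two]

private theorem Inj_abs {a b : ℝ} (hb : 0 ≤ b) (h : a ^ 2 ≤ b ^ 2) : a ≤ b :=
  (le_abs_self a).trans ((sq_le_sq.1 h).trans (abs_of_nonneg hb).le)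

/-- The vector `ξ`. -/
private theorem Inj_xi {φ : (K →L[ℂ] K) →ₗ[ℂ] ℂ} (hφ : IsSt φ)
    (hv : ∀ y ∈ T.N, φ y = ⟪T.ζ, y T.ζ⟫_ℂ) (S : K →L[ℂ] K) :
    ∃ ξ ∈ T.W, ∀ y ∈ T.N, ⟪y T.ζ, ξ⟫_ℂ = φ (star y * S) := by
  let a : T.N →ₗ[ℂ] K :=
    { toFun := fun y => (y : K →L[ℂ] K) T.ζ
      map_add' := fun _ _ => rfl
      map_smul' := fun _ _ => rfl }
  let b : T.N →ₗ[ℂ] ℂ :=
    { toFun := fun y => φ (star S * (y : K →L[ℂ] K))
      map_add' := fun x y => by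
        show φ (star S * ((x : K →L[ℂ] K) + y)) = _
        rw [mul_add, map_add]
      map_smul' := fun c y => by
        show φ (star S * (c • (y : K →L[ℂ] K))) = _
        rw [mul_smul_comm, map_smul]
        rfl }
  have hab : ∀ v, ‖b v‖ ≤ ‖S‖ * ‖a v‖ := by
    intro v
    refine Inj_abs (by positivity) ?_
    calc ‖φ (star S * (v : K →L[ℂ] K))‖ ^ 2
        ≤ (φ (star S * S)).re * (φ (star (v : K →L[ℂ] K) * v)).re := hφ.cs _ _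
      _ ≤ ‖S‖ ^ 2 * ‖(v : K →L[ℂ] K) T.ζ‖ ^ 2 := by
          rw [T.Inj_phi hv v.2]
          exact mul_le_mul_of_nonneg_right (Inj_le hφ S) (by positivity)
      _ = (‖S‖ * ‖a v‖) ^ 2 := by
          rw [mul_pow]
          rfl
  obtain ⟨w, -, hw, -⟩ := exists_ext a b (norm_nonneg S) hab
  refine ⟨T.e ((InnerProductSpace.toDual ℂ K).symm w), T.e_apply_mem _, fun y hy => ?_⟩
  have he : ∀ z x : K, ⟪z, T.e x⟫_ℂ = ⟪T.e z, x⟫_ℂ := fun z x => by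
    conv_lhs => rw [← T.e_star]
    rw [star_eq_adjoint, adjoint_inner_right]
  rw [he, T.e_N hy, ← inner_conj_symm, InnerProductSpace.toDual_symm_apply]
  have h1 : w (y T.ζ) = φ (star S * y) := hw ⟨y, hy⟩
  rw [h1, ← hφ.star, star_mul, star_star]

/-- The norm bound. -/
private theorem Inj_bound {φ : (K →L[ℂ] K) →ₗ[ℂ] ℂ} (hφ : IsSt φ)
    (hc : ∀ y ∈ T.N, ∀ S, φ (y * S) = φ (S * y)) (hv : ∀ y ∈ T.N, φ y = ⟪T.ζ, y T.ζ⟫_ℂ)
    (S : K →L[ℂ] K) {ξ : K} (hξ : ξ ∈ T.W) (h : ∀ y ∈ T.N, ⟪y T.ζ, ξ⟫_ℂ = φ (star y * S))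
    {m : K →L[ℂ] K} (hm : m ∈ T.M) : ‖m ξ‖ ≤ ‖S‖ * ‖m T.ζ‖ := by
  have hxM : m * T.e ∈ T.M := mul_mem hm T.e_mem
  obtain ⟨g, hg, hgs, hgg, hgf⟩ := exists_root T.N (x := m * T.e)
    (mul_mem (star_mem hxM) hxM)
  have hge : g * T.e = g := by
    have h1 : g * (1 - T.e) = 0 := by
      apply hgf
      rw [mul_assoc, mul_assoc m, mul_sub, mul_one, T.e_mul_e, sub_self, mul_zero, mul_zero]
    rw [mul_sub, mul_one, sub_eq_zero] at h1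
    exact h1.symm
  have heg : T.e * g = g := by
    have h1 := congrArg star hge
    rwa [star_mul, T.e_star, hgs] at h1
  have hnorm : ∀ v : K, ‖(m * T.e) v‖ = ‖g v‖ := by
    intro v
    have h1 : ∀ z : K →L[ℂ] K, ((‖z v‖ ^ 2 : ℝ) : ℂ) = ⟪v, (star z * z) v⟫_ℂ := by
      intro z
      show ((‖z v‖ ^ 2 : ℝ) : ℂ) = ⟪v, star z (z v)⟫_ℂ
      rw [star_eq_adjoint, adjoint_inner_right, inner_self_eq_norm_sq_to_K]
      push_cast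
      rfl
    have h2 := h1 (m * T.e)
    rw [← hgg] at h2
    have h3 := h1 g
    rw [hgs, ← h2] at h3
    have h4 : ‖g v‖ ^ 2 = ‖(m * T.e) v‖ ^ 2 := by exact_mod_cast h3
    exact ((sq_eq_sq₀ (norm_nonneg _) (norm_nonneg _)).mp h4).symm
  have n1 : ‖m ξ‖ = ‖g ξ‖ := by
    rw [← hnorm]
    show ‖m ξ‖ = ‖m (T.e ξ)‖
    rw [T.e_eq hξ]
  have n2 : ‖m T.ζ‖ = ‖g T.ζ‖ := by
    rw [← hnorm]
    show ‖m T.ζ‖ = ‖m (T.e T.ζ)‖
    rw [T.e_ζ]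
  have hegv : ∀ v, T.e (g v) = g v := fun v => congrArg (fun A : K →L[ℂ] K => A v) heg
  obtain ⟨q, hq, -, hq1, hq2⟩ := T.exists_tomita hg
  rw [hegv] at hq1
  rw [hgs, hegv] at hq2
  rw [n1, n2]
  have hgW : g ξ ∈ T.W := by
    rw [← hegv]
    exact T.e_apply_mem _
  refine T.W_norm_le hgW (by positivity) fun y hy => ?_
  have e1 : ⟪y T.ζ, g ξ⟫_ℂ = φ (star y * (S * star q)) := by
    have k1 : ⟪y T.ζ, g ξ⟫_ℂ = ⟪g (y T.ζ), ξ⟫_ℂ := by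
      conv_lhs => rw [← hgs]
      rw [star_eq_adjoint, adjoint_inner_right]
    have k2 : g (y T.ζ) = (y * q) T.ζ := by
      show g (y T.ζ) = y (q T.ζ)
      rw [← T.comm hy hg, hq1]
    rw [k1, k2, h _ (mul_mem hy hq), star_mul, mul_assoc, hc _ (star_mem hq), mul_assoc]
  rw [e1]
  refine Inj_abs (by positivity) ?_
  have e2 := hφ.cs y (S * star q)
  have e3 : star (S * star q) * (S * star q) = star (star q) * (star S * S) * star q := by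
    rw [star_mul]
    simp only [mul_assoc]
  have e4 := hφ.mono_mul (star q) S
  rw [← e3, T.Inj_phi hv (star_mem hq), hq2] at e4
  calc ‖φ (star y * (S * star q))‖ ^ 2
      ≤ (φ (star y * y)).re * (φ (star (S * star q) * (S * star q))).re := e2
    _ ≤ ‖y T.ζ‖ ^ 2 * (‖S‖ ^ 2 * ‖g T.ζ‖ ^ 2) := by
        rw [T.Inj_phi hv hy]
        exact mul_le_mul_of_nonneg_left e4 (by positivity)
    _ = (‖S‖ * ‖g T.ζ‖ * ‖y T.ζ‖) ^ 2 := by ring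

/-- A state which is central for `N` and extends the trace gives an expectation. -/
theorem injective_of_central {φ : (K →L[ℂ] K) →ₗ[ℂ] ℂ} (hφ : IsSt φ)
    (hc : ∀ y ∈ T.N, ∀ S, φ (y * S) = φ (S * y)) (hv : ∀ y ∈ T.N, φ y = ⟪T.ζ, y T.ζ⟫_ℂ) :
    IsInjective (T.N : Set (K →L[ℂ] K)) := by
  have hex : ∀ S : K →L[ℂ] K, ∃ E ∈ T.N, ‖E‖ ≤ ‖S‖ ∧
      ∀ y ∈ T.N, ⟪y T.ζ, E T.ζ⟫_ℂ = φ (star y * S) := by
    intro S
    obtain ⟨ξ, hξ, h⟩ := T.Inj_xi hφ hv S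
    obtain ⟨E, hE, hE1, hE2⟩ := exists_rn T.M T.ζ ξ (norm_nonneg S)
      fun m hm => T.Inj_bound hφ hc hv S hξ h hm
    rw [T.bic] at hE
    exact ⟨E, hE, hE1, fun y hy => by rw [hE2]; exact h y hy⟩
  choose E hE1 hE2 hE3 using hex
  have huniq : ∀ A ∈ T.N, ∀ B ∈ T.N, (∀ y ∈ T.N, ⟪y T.ζ, A T.ζ⟫_ℂ = ⟪y T.ζ, B T.ζ⟫_ℂ) →
      A = B := by
    intro A hA B hB h
    have h1 := T.W_ext (T.mem_W hA) (T.mem_W hB) h
    have h2 : (A - B) T.ζ = 0 := by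
      show A T.ζ - B T.ζ = 0
      rw [h1, sub_self]
    exact sub_eq_zero.1 (T.sep (sub_mem hA hB) h2)
  refine ⟨{ toFun := E, map_add' := fun S S' => ?_, map_smul' := fun c S => ?_ }, hE2, hE1,
    fun S hS => ?_⟩
  · refine huniq _ (hE1 _) _ (add_mem (hE1 S) (hE1 S')) fun y hy => ?_
    show ⟪y T.ζ, E (S + S') T.ζ⟫_ℂ = ⟪y T.ζ, E S T.ζ + E S' T.ζ⟫_ℂ
    rw [inner_add_right, hE3 _ y hy, hE3 _ y hy, hE3 _ y hy, mul_add, map_add]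
  · refine huniq _ (hE1 _) _ (SMulMemClass.smul_mem c (hE1 S)) fun y hy => ?_
    show ⟪y T.ζ, E (c • S) T.ζ⟫_ℂ = ⟪y T.ζ, c • E S T.ζ⟫_ℂ
    rw [inner_smul_right, hE3 _ y hy, hE3 _ y hy, mul_smul_comm, map_smul, smul_eq_mul]
  · refine huniq _ (hE1 _) _ hS fun y hy => ?_
    rw [hE3 _ y hy, hv _ (mul_mem (star_mem hy) hS)]
    show ⟪T.ζ, star y (S T.ζ)⟫_ℂ = ⟪y T.ζ, S T.ζ⟫_ℂ
    rw [star_eq_adjoint, adjoint_inner_right]

/-- A unitarily invariant state gives an expectation. -/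
theorem injective_of_invariant {φ : (K →L[ℂ] K) →ₗ[ℂ] ℂ} (hφ : IsSt φ)
    (hu : ∀ u ∈ T.N, star u * u = 1 → u * star u = 1 → ∀ S, φ (u * S * star u) = φ S) :
    IsInjective (T.N : Set (K →L[ℂ] K)) := by
  have hc : ∀ y ∈ T.N, ∀ S, φ (y * S) = φ (S * y) := by
    intro y hy S
    have hy' : y ∈ Com T.M := by rw [T.bic]; exact hy
    refine central_of_unitary T.M (fun u hu' => ?_) hy' S
    rw [T.bic] at hu'
    exact hu u hu'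
  exact T.injective_of_central hφ hc fun y hy =>
    T.trace_unique hφ (fun x hx y _ => hc x hx y) hy

end TF

end Pool.Agent.MP_86f3ed.Sf
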