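import Pool.Agent.H.MP_86f3ed_an.Sf.Base

open scoped InnerProductSpace Topology ENNReal
open Filter ContinuousLinearMap

namespace Pool.Agent.MP_86f3ed.Sf

open Pin

variable {K : Type*} [NormedAddCommGroup K] [InnerProductSpace ℂ K] [CompleteSpace K]

/-- A linear functional of norm at most one with value one at the identity. -/
structure IsSt (φ : (K →L[ℂ] K) →ₗ[ℂ] ℂ) : Prop where
  norm_le : ∀ S, ‖φ S‖ ≤ ‖S‖
  one : φ 1 = 1

theorem pos_norm_add (S : K →L[ℂ] K) (hS : star S = S) (t : ℝ) :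
    ‖S + ((t : ℂ) * Complex.I) • (1 : K →L[ℂ] K)‖ ^ 2 ≤ ‖S‖ ^ 2 + t ^ 2 := by
  have h1 : star (S + ((t : ℂ) * Complex.I) • (1 : K →L[ℂ] K)) *
      (S + ((t : ℂ) * Complex.I) • (1 : K →L[ℂ] K)) = S * S + ((t : ℂ) ^ 2) • (1 : K →L[ℂ] K) := by
    have h2 : star (S + ((t : ℂ) * Complex.I) • (1 : K →L[ℂ] K)) =
        S + (-((t : ℂ) * Complex.I)) • (1 : K →L[ℂ] K) := by
      rw [star_add, hS, star_smul, star_one]
      congr 2
      simp
    have h3 : (-((t : ℂ) * Complex.I)) * ((t : ℂ) * Complex.I) = (t : ℂ) ^ 2 := by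
      linear_combination (-(t : ℂ) ^ 2) * Complex.I_mul_I
    rw [h2, add_mul, mul_add, mul_add, smul_mul_smul_comm, h3, mul_one, mul_smul_comm, mul_one,
      smul_mul_assoc, one_mul]
    module
  have h4 : ‖S + ((t : ℂ) * Complex.I) • (1 : K →L[ℂ] K)‖ ^ 2 =
      ‖S * S + ((t : ℂ) ^ 2) • (1 : K →L[ℂ] K)‖ := by
    rw [← h1, CStarRing.norm_star_mul_self, pow_two]
  rw [h4]
  have h5 : ‖((t : ℂ) ^ 2) • (1 : K →L[ℂ] K)‖ ≤ t ^ 2 := by
    rw [norm_smul, norm_pow, Complex.norm_real, Real.norm_eq_abs, sq_abs]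
    have h6 : ‖(1 : K →L[ℂ] K)‖ ≤ 1 := ContinuousLinearMap.norm_id_le
    nlinarith [sq_nonneg t]
  calc ‖S * S + ((t : ℂ) ^ 2) • (1 : K →L[ℂ] K)‖
      ≤ ‖S * S‖ + ‖((t : ℂ) ^ 2) • (1 : K →L[ℂ] K)‖ := norm_add_le _ _
    _ ≤ ‖S‖ ^ 2 + t ^ 2 := by
      have := norm_mul_le S S
      rw [pow_two ‖S‖]
      linarith

theorem pos_real {φ : (K →L[ℂ] K) →ₗ[ℂ] ℂ} (h : IsSt φ) (S : K →L[ℂ] K) (hS : star S = S) :
    (φ S).im = 0 := by
  by_contra hb
  have h1 := pos_norm_add S hS ((‖S‖ ^ 2 + 1) / (2 * (φ S).im))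
  generalize ht : (‖S‖ ^ 2 + 1) / (2 * (φ S).im) = t at h1
  have h2 : φ (S + ((t : ℂ) * Complex.I) • (1 : K →L[ℂ] K)) = φ S + (t : ℂ) * Complex.I := by
    rw [map_add, map_smul, h.one, smul_eq_mul, mul_one]
  have h3 := h.norm_le (S + ((t : ℂ) * Complex.I) • (1 : K →L[ℂ] K))
  rw [h2] at h3
  have h4 : |(φ S).im + t| ≤ ‖φ S + (t : ℂ) * Complex.I‖ := by
    have h5 := Complex.abs_im_le_norm (φ S + (t : ℂ) * Complex.I)
    have h6 : (φ S + (t : ℂ) * Complex.I).im = (φ S).im + t := by simp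
    rwa [h6] at h5
  have h7 : ((φ S).im + t) ^ 2 ≤ ‖S‖ ^ 2 + t ^ 2 := by
    refine le_trans ?_ h1
    rw [← sq_abs]
    exact pow_le_pow_left₀ (abs_nonneg _) (h4.trans h3) 2
  have h8 : 2 * (φ S).im * t = ‖S‖ ^ 2 + 1 := by
    rw [← ht]
    field_simp
  nlinarith [sq_nonneg (φ S).im]

theorem pos_sub (S : K →L[ℂ] K) :
    ‖((‖S‖ ^ 2 : ℝ) : ℂ) • (1 : K →L[ℂ] K) - star S * S‖ ≤ ‖S‖ ^ 2 := by
  refine ContinuousLinearMap.opNorm_le_bound _ (by positivity) fun x => ?_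
  have hx : (((‖S‖ ^ 2 : ℝ) : ℂ) • (1 : K →L[ℂ] K) - star S * S) x =
      ((‖S‖ ^ 2 : ℝ) : ℂ) • x - star S (S x) := rfl
  rw [hx, ← sq_le_sq₀ (norm_nonneg _) (by positivity)]
  have h1 : ‖((‖S‖ ^ 2 : ℝ) : ℂ) • x - star S (S x)‖ ^ 2 =
      ‖((‖S‖ ^ 2 : ℝ) : ℂ) • x‖ ^ 2 - 2 * (‖S‖ ^ 2 * ‖S x‖ ^ 2) + ‖star S (S x)‖ ^ 2 := by
    rw [norm_sub_sq (𝕜 := ℂ)]
    congr 2
    rw [inner_smul_left, star_eq_adjoint, adjoint_inner_right, inner_self_eq_norm_sq_to_K]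
    have e1 : (starRingEnd ℂ) ((‖S‖ ^ 2 : ℝ) : ℂ) * ((‖S x‖ : ℂ)) ^ 2 =
        ((‖S‖ ^ 2 * ‖S x‖ ^ 2 : ℝ) : ℂ) := by
      rw [Complex.conj_ofReal]
      push_cast
      rfl
    congr 1
    show RCLike.re ((starRingEnd ℂ) ((‖S‖ ^ 2 : ℝ) : ℂ) * ((‖S x‖ : ℂ)) ^ 2) = _
    rw [e1]
    exact Complex.ofReal_re _
  have h2 : ‖star S (S x)‖ ≤ ‖S‖ * ‖S x‖ := by
    have := (star S).le_opNorm (S x)
    rwa [norm_star] at this
  have h3 : ‖star S (S x)‖ ^ 2 ≤ ‖S‖ ^ 2 * ‖S x‖ ^ 2 := by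
    rw [← mul_pow]
    exact pow_le_pow_left₀ (norm_nonneg _) h2 2
  have h4 : ‖((‖S‖ ^ 2 : ℝ) : ℂ) • x‖ = ‖S‖ ^ 2 * ‖x‖ := by
    rw [norm_smul, Complex.norm_real, Real.norm_eq_abs, abs_of_nonneg (by positivity)]
  rw [h1, h4]
  have h5 : 0 ≤ ‖S‖ ^ 2 * ‖S x‖ ^ 2 := by positivity
  linarith

theorem pos_sqrt (S : K →L[ℂ] K) :
    ∃ R : K →L[ℂ] K, ((‖S‖ ^ 2 : ℝ) : ℂ) • (1 : K →L[ℂ] K) - star S * S = star R * R := by
  have h : (0 : K →L[ℂ] K) ≤ ((‖S‖ ^ 2 : ℝ) : ℂ) • (1 : K →L[ℂ] K) - star S * S := by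
    rw [ContinuousLinearMap.nonneg_iff_isPositive, ContinuousLinearMap.isPositive_def']
    refine ⟨?_, fun x => ?_⟩
    · rw [isSelfAdjoint_iff, star_sub, star_smul, star_one, star_mul, star_star]
      congr 2
      exact Complex.conj_ofReal _
    · have hx : (((‖S‖ ^ 2 : ℝ) : ℂ) • (1 : K →L[ℂ] K) - star S * S) x =
          ((‖S‖ ^ 2 : ℝ) : ℂ) • x - star S (S x) := rfl
      have h1 : (((‖S‖ ^ 2 : ℝ) : ℂ) • (1 : K →L[ℂ] K) - star S * S).reApplyInnerSelf x =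
          ‖S‖ ^ 2 * ‖x‖ ^ 2 - ‖S x‖ ^ 2 := by
        rw [ContinuousLinearMap.reApplyInnerSelf_apply, hx, inner_sub_left, inner_smul_left,
          star_eq_adjoint, adjoint_inner_left, inner_self_eq_norm_sq_to_K,
          inner_self_eq_norm_sq_to_K]
        have e1 : (starRingEnd ℂ) ((‖S‖ ^ 2 : ℝ) : ℂ) * ((‖x‖ : ℂ)) ^ 2 - ((‖S x‖ : ℂ)) ^ 2 =
            ((‖S‖ ^ 2 * ‖x‖ ^ 2 - ‖S x‖ ^ 2 : ℝ) : ℂ) := by
          rw [Complex.conj_ofReal]
          push_cast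
          rfl
        show RCLike.re ((starRingEnd ℂ) ((‖S‖ ^ 2 : ℝ) : ℂ) * ((‖x‖ : ℂ)) ^ 2 -
          ((‖S x‖ : ℂ)) ^ 2) = _
        rw [e1]
        exact Complex.ofReal_re _
      rw [h1]
      have h2 := S.le_opNorm x
      have h3 : ‖S x‖ ^ 2 ≤ ‖S‖ ^ 2 * ‖x‖ ^ 2 := by
        rw [← mul_pow]
        exact pow_le_pow_left₀ (norm_nonneg _) h2 2
      linarith
  exact CStarAlgebra.nonneg_iff_eq_star_mul_self.1 h

namespace IsSt

variable {φ : (K →L[ℂ] K) →ₗ[ℂ] ℂ} (h : IsSt φ)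

include h

theorem star (S : K →L[ℂ] K) : φ (star S) = (starRingEnd ℂ) (φ S) := by
  have hA : Star.star ((1 / 2 : ℂ) • (S + Star.star S)) = (1 / 2 : ℂ) • (S + Star.star S) := by
    rw [star_smul, star_add, star_star, add_comm (Star.star S) S]
    congr 1
    simp
  have hB : Star.star ((-(Complex.I / 2)) • (S - Star.star S)) =
      (-(Complex.I / 2)) • (S - Star.star S) := by
    have h1 : Star.star (-(Complex.I / 2)) = Complex.I / 2 := by
      simp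
      ring
    rw [star_smul, star_sub, star_star, h1]
    module
  have hA' := pos_real h _ hA
  have hB' := pos_real h _ hB
  generalize hAd : (1 / 2 : ℂ) • (S + Star.star S) = A at hA hA'
  generalize hBd : (-(Complex.I / 2)) • (S - Star.star S) = B at hB hB'
  have h2 : Complex.I * (-(Complex.I / 2)) = 1 / 2 := by
    linear_combination (-(1 / 2 : ℂ)) * Complex.I_mul_I
  have hIB : Complex.I • B = (1 / 2 : ℂ) • (S - Star.star S) := by
    rw [← hBd, smul_smul, h2]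
  have hS : S = A + Complex.I • B := by
    rw [hIB, ← hAd]
    module
  have hS' : Star.star S = A - Complex.I • B := by
    rw [hIB, ← hAd]
    module
  have e1 : (starRingEnd ℂ) (φ A) = φ A := Complex.conj_eq_iff_im.2 hA'
  have e2 : (starRingEnd ℂ) (φ B) = φ B := Complex.conj_eq_iff_im.2 hB'
  rw [hS', hS, map_sub, map_add, map_smul, smul_eq_mul, map_add, map_mul, Complex.conj_I, e1, e2]
  ring

theorem nonneg (S : K →L[ℂ] K) : 0 ≤ (φ (Star.star S * S)).re ∧ (φ (Star.star S * S)).im = 0 := by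
  refine ⟨?_, pos_real h _ (by rw [star_mul, star_star])⟩
  have h1 := (h.norm_le _).trans (pos_sub S)
  rw [map_sub, map_smul, h.one, smul_eq_mul, mul_one] at h1
  have h2 := (Complex.re_le_norm _).trans h1
  rw [Complex.sub_re, Complex.ofReal_re] at h2
  linarith

/-- The Cauchy-Schwarz inequality. -/
theorem cs (X Y : K →L[ℂ] K) :
    ‖φ (Star.star X * Y)‖ ^ 2 ≤ (φ (Star.star X * X)).re * (φ (Star.star Y * Y)).re := by
  have hw : φ (Star.star Y * X) = (starRingEnd ℂ) (φ (Star.star X * Y)) := by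
    rw [← h.star, star_mul, star_star]
  have ha := h.nonneg X
  have hc := h.nonneg Y
  generalize hwd : φ (Star.star X * Y) = w at hw
  have key : ∀ t : ℝ, 0 ≤ (φ (Star.star X * X)).re + 2 * t * ‖w‖ ^ 2 +
      t ^ 2 * ‖w‖ ^ 2 * (φ (Star.star Y * Y)).re := by
    intro t
    have h1 := (h.nonneg (X + ((t : ℂ) * (starRingEnd ℂ) w) • Y)).1
    have e0 : Star.star ((t : ℂ) * (starRingEnd ℂ) w) = (t : ℂ) * w := by
      show (starRingEnd ℂ) ((t : ℂ) * (starRingEnd ℂ) w) = (t : ℂ) * w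
      rw [map_mul, Complex.conj_ofReal, Complex.conj_conj]
    have h2 : φ (Star.star (X + ((t : ℂ) * (starRingEnd ℂ) w) • Y) *
        (X + ((t : ℂ) * (starRingEnd ℂ) w) • Y)) =
        φ (Star.star X * X) + ((2 * t * ‖w‖ ^ 2 : ℝ) : ℂ) +
          ((t ^ 2 * ‖w‖ ^ 2 : ℝ) : ℂ) * φ (Star.star Y * Y) := by
      have hn : (starRingEnd ℂ) w * w = ((‖w‖ ^ 2 : ℝ) : ℂ) := by
        rw [Complex.conj_mul']
        push_cast
        rfl
      rw [star_add, star_smul, e0, add_mul, mul_add, mul_add, smul_mul_assoc, mul_smul_comm,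
        smul_mul_assoc, mul_smul_comm, map_add, map_add, map_add, map_smul, map_smul, map_smul,
        map_smul, hwd, hw]
      simp only [smul_eq_mul]
      push_cast at hn ⊢
      linear_combination (2 * (t : ℂ) + (t : ℂ) ^ 2 * φ (Star.star Y * Y)) * hn
    rw [h2, Complex.add_re, Complex.add_re, Complex.ofReal_re, Complex.re_ofReal_mul] at h1
    exact h1
  generalize (φ (Star.star X * X)).re = a at key ha
  generalize (φ (Star.star Y * Y)).re = c at key hc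
  rcases hc.1.eq_or_lt with h0 | h0
  · rw [← h0, mul_zero]
    by_contra hW
    push Not at hW
    have h1 := key (-(a + 1) / (2 * ‖w‖ ^ 2))
    rw [← h0] at h1
    have h2 : 2 * (-(a + 1) / (2 * ‖w‖ ^ 2)) * ‖w‖ ^ 2 = -(a + 1) := by
      have hne := hW.ne'
      generalize ‖w‖ ^ 2 = W at hne
      field_simp
    rw [h2] at h1
    linarith
  · have h1 := key (-1 / c)
    have h2 : a + 2 * (-1 / c) * ‖w‖ ^ 2 + (-1 / c) ^ 2 * ‖w‖ ^ 2 * c = a - ‖w‖ ^ 2 / c := by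
      field_simp
      ring
    rw [h2, sub_nonneg, div_le_iff₀ h0] at h1
    exact h1

/-- Monotonicity. -/
theorem mono_mul (X S : K →L[ℂ] K) :
    (φ (Star.star X * (Star.star S * S) * X)).re ≤ ‖S‖ ^ 2 * (φ (Star.star X * X)).re := by
  obtain ⟨R, hR⟩ := pos_sqrt S
  have h1 : Star.star X * (Star.star S * S) * X =
      ((‖S‖ ^ 2 : ℝ) : ℂ) • (Star.star X * X) - Star.star (R * X) * (R * X) := by
    have h2 : Star.star S * S = ((‖S‖ ^ 2 : ℝ) : ℂ) • (1 : K →L[ℂ] K) - Star.star R * R := by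
      rw [← hR]
      abel
    rw [h2, mul_sub, sub_mul, mul_smul_comm, smul_mul_assoc, mul_one, star_mul]
    simp only [mul_assoc]
  have h3 := (h.nonneg (R * X)).1
  rw [h1, map_sub, map_smul, smul_eq_mul, Complex.sub_re, Complex.re_ofReal_mul]
  linarith

end IsSt

end Pool.Agent.MP_86f3ed.Sf
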