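import Pool.Agent.H.MP_86f3ed_an.Sf.AmpCom
import Pool.Agent.H.MP_86f3ed_an.Sf.Pos
import Pool.Agent.H.MP_86f3ed_an.Sf.Inj

open scoped InnerProductSpace Topology ENNReal
open Filter ContinuousLinearMap

namespace Pool.Agent.MP_86f3ed.Sf

open Pin

variable {K : Type*} [NormedAddCommGroup K] [InnerProductSpace ℂ K] [CompleteSpace K]

/-- The operator `S` in the corner of the coordinate `0`. -/
private noncomputable def FinPhi_til (S : K →L[ℂ] K) : HH K →L[ℂ] HH K :=
  (inc 0).comp (S.comp (pr 0))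

private theorem FinPhi_til_apply (S : K →L[ℂ] K) (x : HH K) :
    FinPhi_til S x = inc 0 (S (pr 0 x)) := rfl

private theorem FinPhi_til_mul (S S' : K →L[ℂ] K) :
    FinPhi_til (S * S') = FinPhi_til S * FinPhi_til S' := by
  refine ContinuousLinearMap.ext fun x => ?_
  show inc 0 (S (S' (pr 0 x))) = inc 0 (S (pr 0 (inc 0 (S' (pr 0 x)))))
  rw [pr_inc_same]

private theorem FinPhi_til_one : FinPhi_til (1 : K →L[ℂ] K) = (inc 0).comp (pr 0) := rfl

private theorem FinPhi_til_star (S : K →L[ℂ] K) : star (FinPhi_til S) = FinPhi_til (star S) := by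
  rw [star_eq_adjoint, star_eq_adjoint]
  unfold FinPhi_til
  rw [ContinuousLinearMap.adjoint_comp, ContinuousLinearMap.adjoint_comp, adjoint_inc, adjoint_pr]
  rfl

private theorem FinPhi_til_norm (S : K →L[ℂ] K) : ‖FinPhi_til S‖ ≤ ‖S‖ := by
  refine ContinuousLinearMap.opNorm_le_bound _ (norm_nonneg _) fun x => ?_
  rw [FinPhi_til_apply, norm_inc]
  exact (S.le_opNorm _).trans (mul_le_mul_of_nonneg_left (norm_pr_le 0 x) (norm_nonneg _))

private theorem FinPhi_til_mem (T : TF K) {y : K →L[ℂ] K} (hy : y ∈ T.N) :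
    FinPhi_til y ∈ T.NH := by
  rw [T.mem_NH]
  intro i j
  by_cases h : i = 0 ∧ j = 0
  · obtain ⟨rfl, rfl⟩ := h
    have h1 : ent 0 0 (FinPhi_til y) = y := by
      refine ContinuousLinearMap.ext fun x => ?_
      rw [ent_apply, FinPhi_til_apply, pr_inc_same, pr_inc_same]
    rw [h1]
    exact hy
  · have h1 : ent i j (FinPhi_til y) = 0 := by
      refine ContinuousLinearMap.ext fun x => ?_
      rw [ent_apply, FinPhi_til_apply]
      by_cases hi : i = 0
      · have hj : j ≠ 0 := fun hj => h ⟨hi, hj⟩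
        rw [pr_inc_ne (Ne.symm hj), map_zero, map_zero, map_zero]
        rfl
      · rw [pr_inc_ne hi]
        rfl
    rw [h1]
    exact zero_mem _

/-- The functional on the operators on `K`. -/
private noncomputable def FinPhi_F (Φ : (HH K →L[ℂ] HH K) →ₗ[ℂ] ℂ) {n : ℕ}
    (U : Fin n → HH K →L[ℂ] HH K) : (K →L[ℂ] K) →ₗ[ℂ] ℂ where
  toFun S := ∑ i, Φ (star (U i) * FinPhi_til S * U i)
  map_add' S S' := by
    rw [← Finset.sum_add_distrib]
    refine Finset.sum_congr rfl fun i _ => ?_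
    have h1 : FinPhi_til (S + S') = FinPhi_til S + FinPhi_til S' := by
      refine ContinuousLinearMap.ext fun x => ?_
      show inc 0 (S (pr 0 x) + S' (pr 0 x)) = inc 0 (S (pr 0 x)) + inc 0 (S' (pr 0 x))
      rw [map_add]
    rw [h1, mul_add, add_mul, map_add]
  map_smul' c S := by
    rw [RingHom.id_apply, Finset.smul_sum]
    refine Finset.sum_congr rfl fun i _ => ?_
    have h1 : FinPhi_til (c • S) = c • FinPhi_til S := by
      refine ContinuousLinearMap.ext fun x => ?_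
      show inc 0 (c • (S (pr 0 x))) = c • inc 0 (S (pr 0 x))
      rw [map_smul]
    rw [h1, mul_smul_comm, smul_mul_assoc, map_smul]

private theorem FinPhi_F_apply (Φ : (HH K →L[ℂ] HH K) →ₗ[ℂ] ℂ) {n : ℕ}
    (U : Fin n → HH K →L[ℂ] HH K) (S : K →L[ℂ] K) :
    FinPhi_F Φ U S = ∑ i, Φ (star (U i) * FinPhi_til S * U i) := rfl

/-- The operators `U i` have their values in the coordinate `0`. -/
private theorem FinPhi_left {n : ℕ} {U : Fin n → HH K →L[ℂ] HH K}
    (hUU : ∑ i, U i * star (U i) = (inc 0).comp (pr 0)) (i : Fin n) :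
    FinPhi_til 1 * U i = U i := by
  have hrr : FinPhi_til (1 : K →L[ℂ] K) * FinPhi_til 1 = FinPhi_til 1 := by
    rw [← FinPhi_til_mul, one_mul]
  have h0 : star (U i) * (1 - FinPhi_til 1) = 0 := by
    refine ContinuousLinearMap.ext fun z => ?_
    show star (U i) ((1 - FinPhi_til 1) z) = 0
    generalize hx : (1 - FinPhi_til (1 : K →L[ℂ] K)) z = x
    have hrx : FinPhi_til 1 x = 0 := by
      rw [← hx]
      show (FinPhi_til (1 : K →L[ℂ] K) * (1 - FinPhi_til (1 : K →L[ℂ] K))) z = 0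
      rw [mul_sub, mul_one, hrr, sub_self]
      rfl
    have h1 : ∑ j, ((‖star (U j) x‖ ^ 2 : ℝ) : ℂ) = 0 := by
      have h2 : ⟪x, (∑ j, U j * star (U j)) x⟫_ℂ = 0 := by
        rw [hUU, ← FinPhi_til_one, hrx, inner_zero_right]
      rw [← h2, ContinuousLinearMap.sum_apply, inner_sum]
      refine Finset.sum_congr rfl fun j _ => ?_
      show _ = ⟪x, U j (star (U j) x)⟫_ℂ
      rw [← adjoint_inner_left, ← star_eq_adjoint, inner_self_eq_norm_sq_to_K]
      push_cast
      rfl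
    have h3 : ∑ j, ‖star (U j) x‖ ^ 2 = 0 := by exact_mod_cast h1
    have h4 := (Finset.sum_eq_zero_iff_of_nonneg (fun j _ => by positivity)).1 h3 i
      (Finset.mem_univ i)
    exact norm_eq_zero.1 (pow_eq_zero_iff (two_ne_zero)|>.1 h4)
  have h5 := congrArg star h0
  rw [star_mul, star_star, star_sub, star_one, FinPhi_til_star, star_one, star_zero, sub_mul,
    one_mul, sub_eq_zero] at h5
  exact h5.symm

/-- From a state which is central for a corner of the matrices over `N` to injectivity. -/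
theorem TF.injective_of_phi (T : TF K) {p : HH K →L[ℂ] HH K} {Φ : (HH K →L[ℂ] HH K) →ₗ[ℂ] ℂ}
    (hΦ : IsSt Φ)
    (hc : ∀ y ∈ T.NH, p * y = y → y * p = y → ∀ S, Φ (y * S) = Φ (S * y))
    {n : ℕ} {U : Fin n → HH K →L[ℂ] HH K} (hU : ∀ i, U i ∈ T.NH) (hUp : ∀ i, U i * p = U i)
    (hps : star p = p) (hUU : ∑ i, U i * star (U i) = (inc 0).comp (pr 0))
    (hpos : ∑ i, Φ (star (U i) * U i) ≠ 0) :
    IsInjective (T.N : Set (K →L[ℂ] K)) := by
  have hr : ∀ i, FinPhi_til 1 * U i = U i := FinPhi_left hUU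
  have hpU : ∀ i, p * star (U i) = star (U i) := by
    intro i
    conv_rhs => rw [← hUp i]
    rw [star_mul, hps]
  -- the value at one
  have hF1 : FinPhi_F Φ U 1 = ∑ i, Φ (star (U i) * U i) := by
    rw [FinPhi_F_apply]
    refine Finset.sum_congr rfl fun i _ => ?_
    rw [mul_assoc, hr]
  obtain ⟨t, ht⟩ : ∃ t : ℝ, t = ∑ i, (Φ (star (U i) * U i)).re := ⟨_, rfl⟩
  have hFt : FinPhi_F Φ U 1 = (t : ℂ) := by
    rw [hF1, ht, Complex.ofReal_sum]
    refine Finset.sum_congr rfl fun i _ => ?_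
    refine Complex.ext ?_ ?_
    · rw [Complex.ofReal_re]
    · rw [Complex.ofReal_im, (hΦ.nonneg (U i)).2]
  have ht0 : 0 < t := by
    refine lt_of_le_of_ne ?_ ?_
    · rw [ht]
      exact Finset.sum_nonneg fun i _ => (hΦ.nonneg (U i)).1
    · intro h
      apply hpos
      rw [← hF1, hFt, ← h, Complex.ofReal_zero]
  have hbd : ∀ S, ‖FinPhi_F Φ U S‖ ≤ t * ‖S‖ := by
    intro S
    rw [FinPhi_F_apply, ht, Finset.sum_mul]
    refine (norm_sum_le _ _).trans (Finset.sum_le_sum fun i _ => ?_)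
    have h1 := hΦ.cs (U i) (FinPhi_til S * U i)
    have h2 := hΦ.mono_mul (U i) (FinPhi_til S)
    have h3 : star (FinPhi_til S * U i) * (FinPhi_til S * U i) =
        star (U i) * (star (FinPhi_til S) * FinPhi_til S) * U i := by
      rw [star_mul]
      simp only [mul_assoc]
    rw [h3, ← mul_assoc] at h1
    have h0 := (hΦ.nonneg (U i)).1
    have hn := FinPhi_til_norm S
    have h4 : ‖FinPhi_til S‖ ^ 2 ≤ ‖S‖ ^ 2 := pow_le_pow_left₀ (norm_nonneg _) hn 2
    refine le_of_sq_le_sq ?_ (by positivity)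
    calc ‖Φ (star (U i) * FinPhi_til S * U i)‖ ^ 2
        ≤ (Φ (star (U i) * U i)).re *
          (Φ (star (U i) * (star (FinPhi_til S) * FinPhi_til S) * U i)).re := h1
      _ ≤ (Φ (star (U i) * U i)).re * (‖FinPhi_til S‖ ^ 2 * (Φ (star (U i) * U i)).re) :=
          mul_le_mul_of_nonneg_left h2 h0
      _ ≤ (Φ (star (U i) * U i)).re * (‖S‖ ^ 2 * (Φ (star (U i) * U i)).re) :=
          mul_le_mul_of_nonneg_left (mul_le_mul_of_nonneg_right h4 h0) h0
      _ = ((Φ (star (U i) * U i)).re * ‖S‖) ^ 2 := by ring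
  have hcen : ∀ y ∈ T.N, ∀ S, FinPhi_F Φ U (y * S) = FinPhi_F Φ U (S * y) := by
    intro y hy S
    have hr2 : ∀ A B : K →L[ℂ] K,
        FinPhi_til (A * B) = ∑ j, FinPhi_til A * (U j * star (U j)) * FinPhi_til B := by
      intro A B
      rw [← Finset.sum_mul, ← Finset.mul_sum, hUU, ← FinPhi_til_one, ← FinPhi_til_mul, mul_one,
        ← FinPhi_til_mul]
    have hexp : ∀ A B : K →L[ℂ] K, FinPhi_F Φ U (A * B) =
        ∑ i, ∑ j, Φ ((star (U i) * FinPhi_til A * U j) * (star (U j) * FinPhi_til B * U i)) := by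
      intro A B
      rw [FinPhi_F_apply]
      refine Finset.sum_congr rfl fun i _ => ?_
      rw [hr2, Finset.mul_sum, Finset.sum_mul, map_sum]
      refine Finset.sum_congr rfl fun j _ => ?_
      simp only [mul_assoc]
    rw [hexp, hexp, Finset.sum_comm]
    refine Finset.sum_congr rfl fun j _ => Finset.sum_congr rfl fun i _ => ?_
    refine hc _ ?_ ?_ ?_ _
    · exact mul_mem (mul_mem (star_mem (hU i)) (FinPhi_til_mem T hy)) (hU j)
    · rw [← mul_assoc, ← mul_assoc, hpU]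
    · rw [mul_assoc, hUp]
  -- the state
  have htc : (t : ℂ) ≠ 0 := Complex.ofReal_ne_zero.2 ht0.ne'
  have hst : IsSt ((t : ℂ)⁻¹ • FinPhi_F Φ U) := by
    refine ⟨fun S => ?_, ?_⟩
    · rw [LinearMap.smul_apply, norm_smul, norm_inv, Complex.norm_real, Real.norm_eq_abs,
        abs_of_pos ht0, inv_mul_le_iff₀ ht0]
      exact hbd S
    · rw [LinearMap.smul_apply, hFt, smul_eq_mul, inv_mul_cancel₀ htc]
  refine T.injective_of_invariant hst fun u hu huu _ S => ?_
  rw [LinearMap.smul_apply, LinearMap.smul_apply, ← hcen (star u) (star_mem hu), ← mul_assoc, huu,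
    one_mul]

end Pool.Agent.MP_86f3ed.Sf
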