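import Mathlib

open scoped InnerProductSpace Topology
open ContinuousLinearMap

namespace Pool.Agent.MP_86f3ed.Sf

variable {H : Type*} [NormedAddCommGroup H] [InnerProductSpace ℂ H] [CompleteSpace H]

/-- The map `c ↦ π c ξ`. -/
noncomputable def Gns_L {C : Type*} [NonUnitalCStarAlgebra C] (π : C →⋆ₙₐ[ℂ] (H →L[ℂ] H)) (ξ : H) :
    C →ₗ[ℂ] H where
  toFun c := π c ξ
  map_add' a b := by rw [map_add, add_apply]
  map_smul' a b := by rw [map_smul, smul_apply, RingHom.id_apply]

/-- The closure of the range. -/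
noncomputable def Gns_W {C : Type*} [NonUnitalCStarAlgebra C] (π : C →⋆ₙₐ[ℂ] (H →L[ℂ] H)) (ξ : H) :
    Submodule ℂ H := (LinearMap.range (Gns_L π ξ)).topologicalClosure

theorem Gns_inv {C : Type*} [NonUnitalCStarAlgebra C] (π : C →⋆ₙₐ[ℂ] (H →L[ℂ] H)) (ξ : H) (c : C)
    (w : H) (hw : w ∈ Gns_W π ξ) : π c w ∈ Gns_W π ξ := by
  have h1 : (Gns_W π ξ : Set H) = closure (LinearMap.range (Gns_L π ξ) : Set H) :=
    Submodule.topologicalClosure_coe _
  have h2 : closure (LinearMap.range (Gns_L π ξ) : Set H) ⊆ {w : H | π c w ∈ Gns_W π ξ} := by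
    refine closure_minimal ?_ ?_
    · rintro _ ⟨d, rfl⟩
      refine (LinearMap.range (Gns_L π ξ)).le_topologicalClosure ⟨c * d, ?_⟩
      change π (c * d) ξ = π c (π d ξ)
      rw [map_mul]
      rfl
    · exact (Submodule.isClosed_topologicalClosure _).preimage (π c).continuous
  exact h2 (h1 ▸ hw)

/-- The cyclic subrepresentation of a vector. -/
theorem exists_gns {C : Type*} [NonUnitalCStarAlgebra C] (π : C →⋆ₙₐ[ℂ] (H →L[ℂ] H)) (ξ : H) :
    ∃ (W : Submodule ℂ H) (_ : CompleteSpace W) (σ : C →⋆ₙₐ[ℂ] (W →L[ℂ] W)) (η : W),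
      (∀ c v, ((σ c v : W) : H) = π c v) ∧ (∀ c, ((σ c η : W) : H) = π c ξ) ∧
      (DenseRange fun c => σ c η) ∧ ∀ c, ⟪η, σ c η⟫_ℂ = ⟪ξ, π c ξ⟫_ℂ := by
  have hcl : IsClosed (Gns_W π ξ : Set H) := Submodule.isClosed_topologicalClosure _
  have hcomp : CompleteSpace (Gns_W π ξ) := hcl.completeSpace_coe
  have hstar : ∀ (c : C) (x y : H), ⟪π (star c) x, y⟫_ℂ = ⟪x, π c y⟫_ℂ := by
    intro c x y
    rw [map_star, star_eq_adjoint, adjoint_inner_left]
  let s : C → (Gns_W π ξ →L[ℂ] Gns_W π ξ) := fun c =>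
    ((π c).comp (Gns_W π ξ).subtypeL).codRestrict (Gns_W π ξ) fun v => Gns_inv π ξ c v v.2
  have hs : ∀ c v, ((s c v : Gns_W π ξ) : H) = π c v := fun c v => rfl
  let σ : C →⋆ₙₐ[ℂ] (Gns_W π ξ →L[ℂ] Gns_W π ξ) :=
    { toFun := s
      map_smul' := fun a b => by
        ext v
        rw [hs, map_smul]
        rfl
      map_zero' := by
        ext v
        rw [hs, map_zero]
        rfl
      map_add' := fun a b => by
        ext v
        rw [hs, map_add]
        rfl
      map_mul' := fun a b => by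
        ext v
        rw [hs, map_mul]
        rfl
      map_star' := fun a => by
        rw [star_eq_adjoint, eq_adjoint_iff]
        intro x y
        rw [Submodule.coe_inner, Submodule.coe_inner, hs, hs]
        exact hstar a x y }
  have hσ : ∀ c v, ((σ c v : Gns_W π ξ) : H) = π c v := fun c v => rfl
  let η : Gns_W π ξ := (Gns_W π ξ).orthogonalProjectionOnto ξ
  have horth : ∀ w ∈ Gns_W π ξ, ⟪ξ - (η : H), w⟫_ℂ = 0 := by
    intro w hw
    have h := (Gns_W π ξ).sub_starProjection_mem_orthogonal ξ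
    exact Submodule.inner_left_of_mem_orthogonal hw h
  have hkey : ∀ c, π c (η : H) = π c ξ := by
    intro c
    have hz1 : π c (ξ - η) ∈ Gns_W π ξ := by
      rw [map_sub]
      refine Submodule.sub_mem _ ?_ (Gns_inv π ξ c _ η.2)
      exact (LinearMap.range (Gns_L π ξ)).le_topologicalClosure ⟨c, rfl⟩
    have hz2 : ⟪π c (ξ - η), π c (ξ - η)⟫_ℂ = 0 := by
      have h1 := hstar (star c) (ξ - η) (π c (ξ - η))
      rw [star_star] at h1
      rw [h1]
      exact horth _ (Gns_inv π ξ (star c) _ hz1)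
    have hz3 : π c (ξ - η) = 0 := inner_self_eq_zero.1 hz2
    rw [map_sub, sub_eq_zero] at hz3
    exact hz3.symm
  have hση : ∀ c, ((σ c η : Gns_W π ξ) : H) = π c ξ := fun c => (hσ c η).trans (hkey c)
  refine ⟨Gns_W π ξ, hcomp, σ, η, hσ, hση, ?_, ?_⟩
  · intro w
    rw [closure_subtype]
    have h1 : Subtype.val '' Set.range (fun c => σ c η) =
        (LinearMap.range (Gns_L π ξ) : Set H) := by
      ext x
      constructor
      · rintro ⟨_, ⟨c, rfl⟩, rfl⟩
        exact ⟨c, (hση c).symm⟩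
      · rintro ⟨c, rfl⟩
        exact ⟨σ c η, ⟨c, rfl⟩, hση c⟩
    rw [h1, ← Submodule.topologicalClosure_coe]
    exact w.2
  · intro c
    rw [Submodule.coe_inner, hση]
    have hc : π c ξ ∈ Gns_W π ξ := by
      rw [← hση]
      exact (σ c η).2
    have h2 := horth _ hc
    rw [inner_sub_left, sub_eq_zero] at h2
    exact h2.symm

end Pool.Agent.MP_86f3ed.Sf
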