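import Pool.Agent.H.MP_86f3ed_an.Sf.Base

open scoped InnerProductSpace Topology ENNReal
open Filter ContinuousLinearMap

namespace Pool.Agent.MP_86f3ed.Sf

open Pin

variable {K : Type*} [NormedAddCommGroup K] [InnerProductSpace ℂ K] [CompleteSpace K]

theorem Count_inner_star (a : K →L[ℂ] K) (x y : K) : ⟪x, a y⟫_ℂ = ⟪star a x, y⟫_ℂ := by
  rw [star_eq_adjoint, adjoint_inner_left]

theorem Count_re_self (y : K) : (⟪y, y⟫_ℂ).re = ‖y‖ ^ 2 := by
  rw [inner_self_eq_norm_sq_to_K]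
  norm_cast

/-- Bessel's inequality for contractions with orthogonal ranges. -/
theorem bessel_contr {m : ℕ} (v : Fin m → K →L[ℂ] K) (hv : ∀ i, ‖v i‖ ≤ 1)
    (ho : ∀ i j, i ≠ j → star (v i) * v j = 0) (x : K) : ∑ i, ‖star (v i) x‖ ^ 2 ≤ ‖x‖ ^ 2 := by
  set S : K := ∑ i, v i (star (v i) x) with hS
  set A : ℝ := ∑ i, ‖star (v i) x‖ ^ 2 with hA
  have h1 : (⟪x, S⟫_ℂ).re = A := by
    rw [hS, hA, inner_sum, Complex.re_sum]
    refine Finset.sum_congr rfl fun i _ => ?_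
    rw [Count_inner_star, Count_re_self]
  have h2 : (⟪S, S⟫_ℂ).re = ∑ i, ‖v i (star (v i) x)‖ ^ 2 := by
    have h3 : ∀ i, (⟪v i (star (v i) x), S⟫_ℂ) =
        ⟪v i (star (v i) x), v i (star (v i) x)⟫_ℂ := by
      intro i
      rw [hS, inner_sum]
      refine Finset.sum_eq_single i (fun j _ hj => ?_) (fun h => absurd (Finset.mem_univ i) h)
      rw [Count_inner_star]
      have h4 : star (v j) (v i (star (v i) x)) = 0 := by
        have := congrArg (fun T : K →L[ℂ] K => T (star (v i) x)) (ho j i hj)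
        exact this
      rw [h4, inner_zero_left]
    conv_lhs => rw [hS, sum_inner]
    rw [Complex.re_sum]
    refine Finset.sum_congr rfl fun i _ => ?_
    rw [← Count_re_self, ← h3 i]
  have h5 : ‖S‖ ^ 2 ≤ A := by
    rw [← Count_re_self, h2, hA]
    refine Finset.sum_le_sum fun i _ => ?_
    have h6 : ‖v i (star (v i) x)‖ ≤ ‖star (v i) x‖ := by
      refine ((v i).le_opNorm _).trans ?_
      exact (mul_le_of_le_one_left (norm_nonneg _) (hv i))
    exact pow_le_pow_left₀ (norm_nonneg _) h6 2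
  have h7 : A ≤ ‖x‖ * ‖S‖ := by
    rw [← h1]
    exact (Complex.re_le_norm _).trans (norm_inner_le_norm x S)
  have h8 : 0 ≤ A := Finset.sum_nonneg fun i _ => sq_nonneg _
  rcases h8.eq_or_lt with h0 | h0
  · rw [← h0]; exact sq_nonneg _
  · have h9 : A * A ≤ ‖x‖ ^ 2 * A := by
      calc A * A ≤ (‖x‖ * ‖S‖) * (‖x‖ * ‖S‖) := mul_le_mul h7 h7 h8 (h8.trans h7)
        _ = ‖x‖ ^ 2 * ‖S‖ ^ 2 := by ring
        _ ≤ ‖x‖ ^ 2 * A := mul_le_mul_of_nonneg_left h5 (sq_nonneg _)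
    exact le_of_mul_le_mul_right h9 h0

namespace TF

variable (T : TF K)

/-- The trace of a projection which is the sum of `n` partial copies of `e` is at most `n`. -/
theorem count_le {n m : ℕ} (W : Fin n → K →L[ℂ] K) (hW : ∀ k, W k ∈ T.M)
    (hW1 : ∀ k, ‖W k‖ ≤ 1) (hWe : ∀ k, W k * T.e = W k) (v : Fin m → K →L[ℂ] K)
    (hvM : ∀ i, v i ∈ T.M) (hv : ∀ i, ‖v i‖ ≤ 1) (ho : ∀ i j, i ≠ j → star (v i) * v j = 0)
    {g : K →L[ℂ] K} (hg : g ∈ T.M) (hr : (∑ k, W k * star (W k)) * g = g) :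
    ∑ i, ‖g (v i T.ζ)‖ ^ 2 ≤ n * ‖g‖ ^ 2 := by
  have h1 : ∀ z : K, ‖g z‖ ^ 2 = ∑ k, ‖star (W k) (g z)‖ ^ 2 := by
    intro z
    have h2 : g z = ∑ k, W k (star (W k) (g z)) := by
      have := congrArg (fun S : K →L[ℂ] K => S z) hr
      simp only [ContinuousLinearMap.mul_apply, ContinuousLinearMap.sum_apply] at this
      exact this.symm
    rw [← Count_re_self]
    conv_lhs => rw [show ⟪g z, g z⟫_ℂ = ⟪g z, ∑ k, W k (star (W k) (g z))⟫_ℂ from by rw [← h2]]
    rw [inner_sum, Complex.re_sum]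
    refine Finset.sum_congr rfl fun k _ => ?_
    rw [Count_inner_star, Count_re_self]
  have h3 : ∀ k i, ‖star (W k) (g (v i T.ζ))‖ ≤ ‖star (v i) (star g (W k T.ζ))‖ := by
    intro k i
    have h4 : star (W k) = T.e * star (W k) := by
      conv_lhs => rw [← hWe k]
      rw [star_mul, T.e_star]
    have h5 : star (W k) (g (v i T.ζ)) = T.e ((star (W k) * g * v i) T.ζ) := by
      conv_lhs => rw [h4]
      rfl
    have h6 : star (W k) * g * v i ∈ T.M := mul_mem (mul_mem (star_mem (hW k)) hg) (hvM i)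
    rw [h5, ← T.norm_e_star h6]
    refine (T.norm_e_le _).trans (le_of_eq ?_)
    rw [star_mul, star_mul, star_star]
    rfl
  calc ∑ i, ‖g (v i T.ζ)‖ ^ 2 = ∑ i, ∑ k, ‖star (W k) (g (v i T.ζ))‖ ^ 2 :=
        Finset.sum_congr rfl fun i _ => h1 _
    _ = ∑ k, ∑ i, ‖star (W k) (g (v i T.ζ))‖ ^ 2 := Finset.sum_comm
    _ ≤ ∑ _k : Fin n, ‖g‖ ^ 2 := by
        refine Finset.sum_le_sum fun k _ => ?_
        calc ∑ i, ‖star (W k) (g (v i T.ζ))‖ ^ 2
            ≤ ∑ i, ‖star (v i) (star g (W k T.ζ))‖ ^ 2 :=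
              Finset.sum_le_sum fun i _ => pow_le_pow_left₀ (norm_nonneg _) (h3 k i) 2
          _ ≤ ‖star g (W k T.ζ)‖ ^ 2 := bessel_contr v hv ho _
          _ ≤ ‖g‖ ^ 2 := by
              refine pow_le_pow_left₀ (norm_nonneg _) ?_ 2
              have h7 : ‖W k T.ζ‖ ≤ 1 := by
                refine ((W k).le_opNorm _).trans ?_
                rw [T.norm_ζ, mul_one]
                exact hW1 k
              calc ‖star g (W k T.ζ)‖ ≤ ‖star g‖ * ‖W k T.ζ‖ := (star g).le_opNorm _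
                _ ≤ ‖star g‖ * 1 := mul_le_mul_of_nonneg_left h7 (norm_nonneg _)
                _ = ‖g‖ := by rw [mul_one, norm_star]
    _ = n * ‖g‖ ^ 2 := by simp

end TF

end Pool.Agent.MP_86f3ed.Sf
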