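import Pool.Agent.H.MP_86f3ed_an.Sf.MatTr
import Pool.Agent.H.MP_86f3ed_an.Sf.Seq
import Pool.Agent.H.MP_86f3ed_an.Sf.Count

open scoped InnerProductSpace Topology ENNReal
open Filter ContinuousLinearMap

namespace Pool.Agent.MP_86f3ed.Sf

open Pin

variable {K : Type*} [NormedAddCommGroup K] [InnerProductSpace ℂ K] [CompleteSpace K]

theorem Pack2_factor (T : TF K) :
    ∀ x ∈ T.NH, x ∈ Com T.NH → ∃ c : ℂ, x = c • (1 : HH K →L[ℂ] HH K) := by
  intro x hx hx'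
  obtain ⟨m, hm, rfl⟩ := T.mem_MH.mp hx'
  have h1 : ent 0 0 (amp m) = m := by
    refine ContinuousLinearMap.ext fun z => ?_
    rw [ent_apply, amp_inc, pr_inc_same]
  have h2 := T.mem_NH.mp hx 0 0
  rw [h1] at h2
  obtain ⟨c, hc⟩ := T.factor m h2 hm
  exact ⟨c, by rw [hc, amp_smul, amp_one]⟩

theorem Pack2_norm {H : Type*} [NormedAddCommGroup H] [InnerProductSpace ℂ H] [CompleteSpace H]
    {u p : H →L[ℂ] H} (hps : star p = p) (hpp : p * p = p) (h : star u * u = p) (x : H) :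
    ‖u x‖ ^ 2 = ‖p x‖ ^ 2 := by
  have h1 : ⟪u x, u x⟫_ℂ = ⟪p x, p x⟫_ℂ := by
    have h2 : ⟪u x, u x⟫_ℂ = ⟪star u (u x), x⟫_ℂ := Count_inner_star u (u x) x
    have h3 : ⟪p x, p x⟫_ℂ = ⟪star p (p x), x⟫_ℂ := Count_inner_star p (p x) x
    have h4 : star u (u x) = p x := congrArg (fun S : H →L[ℂ] H => S x) h
    have h5 : star p (p x) = p x := by
      rw [hps]
      exact congrArg (fun S : H →L[ℂ] H => S x) hpp
    rw [h2, h3, h4, h5]
  rw [← Count_re_self, ← Count_re_self, h1]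

theorem Pack2_unit (x : HH K) :
    ((inc 0).comp (pr 0) : HH K →L[ℂ] HH K) x = inc 0 (pr 0 x) := rfl

theorem Pack2_unit_star :
    star ((inc 0).comp (pr 0) : HH K →L[ℂ] HH K) = (inc 0).comp (pr 0) := by
  rw [star_eq_adjoint]
  refine ((ContinuousLinearMap.eq_adjoint_iff _ _).mpr fun x y => ?_).symm
  rw [Pack2_unit, Pack2_unit, inner_inc_left, inner_inc_right]

theorem Pack2_unit_mul :
    ((inc 0).comp (pr 0) : HH K →L[ℂ] HH K) * (inc 0).comp (pr 0) = (inc 0).comp (pr 0) := by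
  refine ContinuousLinearMap.ext fun x => ?_
  show ((inc 0).comp (pr 0) : HH K →L[ℂ] HH K) (((inc 0).comp (pr 0) : HH K →L[ℂ] HH K) x) = _
  rw [Pack2_unit, Pack2_unit, pr_inc_same]

/-- An operator which lives on the first coordinate has the weight of its first column. -/
theorem Pack2_wt_single (ζ : K) {v : HH K →L[ℂ] HH K}
    (hv : v * ((inc 0).comp (pr 0) : HH K →L[ℂ] HH K) = v) :
    wt ζ v = ENNReal.ofReal (‖v (inc 0 ζ)‖ ^ 2) := by
  unfold wt
  refine tsum_eq_single 0 fun j hj => ?_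
  have h1 : v (inc j ζ) = 0 := by
    have h2 : v (((inc 0).comp (pr 0) : HH K →L[ℂ] HH K) (inc j ζ)) = v (inc j ζ) :=
      congrArg (fun S : HH K →L[ℂ] HH K => S (inc j ζ)) hv
    rw [← h2, Pack2_unit, pr_inc_ne (Ne.symm hj), map_zero, map_zero]
  rw [h1, norm_zero]
  simp

theorem Pack2_wt_ne_zero (T : TF K) {p : HH K →L[ℂ] HH K} (hp : p ∈ T.NH) (hp0 : p ≠ 0) :
    wt T.ζ p ≠ 0 := by
  intro h
  apply hp0
  unfold wt at h
  rw [ENNReal.tsum_eq_zero] at h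
  have h1 : ∀ j, p (inc j T.ζ) = 0 := by
    intro j
    have h2 := h j
    rw [ENNReal.ofReal_eq_zero] at h2
    have h3 : ‖p (inc j T.ζ)‖ ^ 2 = 0 := le_antisymm h2 (sq_nonneg _)
    exact norm_eq_zero.mp (pow_eq_zero_iff two_ne_zero |>.mp h3)
  refine ext_inc fun j x => ext_pr fun i => ?_
  have h2 : ent i j p = 0 := by
    refine T.sep (T.mem_NH.mp hp i j) ?_
    rw [ent_apply, h1 j, map_zero]
  have h3 : ent i j p x = 0 := by rw [h2]; rfl
  rw [ent_apply] at h3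
  rw [h3]
  show (0 : K) = pr i (0 : HH K)
  rw [map_zero]

/-- The coordinate projection is a finite sum of partial copies of every nonzero projection. -/
theorem TF.exists_pack2 (T : TF K) {p : HH K →L[ℂ] HH K} (hp : p ∈ T.NH) (hps : star p = p)
    (hpp : p * p = p) (hp0 : p ≠ 0) :
    ∃ (n : ℕ) (U : Fin n → HH K →L[ℂ] HH K), (∀ i, U i ∈ T.NH) ∧ (∀ i, ‖U i‖ ≤ 1) ∧
      (∀ i, U i * p = U i) ∧ ∑ i, U i * star (U i) = (inc 0).comp (pr 0) := by
  by_contra hcon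
  obtain ⟨V, hV1, hV2, hV3⟩ := exists_seq (Ampl T.M) (Pack2_factor T) hp hps hpp hp0
    (unit_mem T.M 0 0) Pack2_unit_star Pack2_unit_mul
    (fun n U h1 h2 h3 h4 => hcon ⟨n, U, h1, h2, h3, h4⟩)
  have hVV : ∀ i, star (V i) * V i = p := fun i => by rw [hV2, if_pos rfl]
  have hVr : ∀ i, star (V i) * ((inc 0).comp (pr 0) : HH K →L[ℂ] HH K) = star (V i) := by
    intro i
    have h1 := congrArg star (hV3 i)
    rw [star_mul, Pack2_unit_star] at h1
    exact h1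
  have hVn : ∀ i, ‖V i‖ ≤ 1 := fun i => seq_norm_le hps hpp (Or.inl (hVV i))
  have hw : ∀ i, ENNReal.ofReal (‖star (V i) (inc 0 T.ζ)‖ ^ 2) = wt T.ζ p := by
    intro i
    rw [← Pack2_wt_single T.ζ (hVr i), T.wt_star_N (hV1 i)]
    unfold wt
    refine tsum_congr fun j => ?_
    rw [Pack2_norm hps hpp (hVV i)]
  have hn : ∀ n : ℕ, (n : ℝ≥0∞) * wt T.ζ p ≤ 1 := by
    intro n
    have h1 := bessel_contr (fun i : Fin n => V i) (fun i => hVn i)
      (fun i j hij => by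
        rw [hV2, if_neg fun h => hij (Fin.ext h)]) (inc 0 T.ζ)
    rw [norm_inc, T.norm_ζ, one_pow] at h1
    calc (n : ℝ≥0∞) * wt T.ζ p = ∑ _i : Fin n, wt T.ζ p := by simp
      _ = ∑ i : Fin n, ENNReal.ofReal (‖star (V i) (inc 0 T.ζ)‖ ^ 2) :=
          Finset.sum_congr rfl fun i _ => (hw i).symm
      _ = ENNReal.ofReal (∑ i : Fin n, ‖star (V i) (inc 0 T.ζ)‖ ^ 2) :=
          (ENNReal.ofReal_sum_of_nonneg fun i _ => sq_nonneg _).symm
      _ ≤ ENNReal.ofReal 1 := ENNReal.ofReal_le_ofReal h1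
      _ = 1 := ENNReal.ofReal_one
  obtain ⟨n, hn2⟩ := ENNReal.exists_nat_mul_gt (Pack2_wt_ne_zero T hp hp0) ENNReal.one_ne_top
  exact absurd (hn n) (not_le.mpr hn2)

end Pool.Agent.MP_86f3ed.Sf
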