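import Pool.Agent.H.MP_86f3ed_an.Pin.PI

open scoped InnerProductSpace Topology
open Filter ContinuousLinearMap

namespace Pool.Agent.MP_86f3ed.Sf

open Pin

variable {H : Type*} [NormedAddCommGroup H] [InnerProductSpace ℂ H] [CompleteSpace H]

/-- The compression to a subspace. -/
private noncomputable def Transfer_cmp (W : Submodule ℂ H) [CompleteSpace W] :
    (H →L[ℂ] H) →ₗ[ℂ] (W →L[ℂ] W) where
  toFun S := (W.orthogonalProjectionOnto).comp (S.comp W.subtypeL)
  map_add' := by
    intro S T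
    ext v
    simp
  map_smul' := by
    intro c S
    ext v
    simp

private theorem Transfer_coe (W : Submodule ℂ H) [CompleteSpace W] (S : H →L[ℂ] H) (v : W) :
    ((Transfer_cmp W S v : W) : H) = W.starProjection (S v) := rfl

private theorem Transfer_norm (W : Submodule ℂ H) [CompleteSpace W] (S : H →L[ℂ] H) :
    ‖Transfer_cmp W S‖ ≤ ‖S‖ := by
  refine ContinuousLinearMap.opNorm_le_bound _ (norm_nonneg _) fun v => ?_
  have h1 : ‖Transfer_cmp W S v‖ = ‖W.starProjection (S v)‖ := by
    rw [← Transfer_coe]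
    rfl
  rw [h1]
  calc ‖W.starProjection (S v)‖ ≤ ‖S v‖ := W.norm_starProjection_apply_le _
    _ ≤ ‖S‖ * ‖(v : H)‖ := S.le_opNorm _
    _ = ‖S‖ * ‖v‖ := rfl

private theorem Transfer_closed (T : H →L[ℂ] H) (L0 K : Submodule ℂ H)
    (hK : IsClosed (K : Set H)) (h : ∀ v ∈ L0, T v ∈ K) :
    ∀ v ∈ L0.topologicalClosure, T v ∈ K := by
  intro v hv
  have : L0.topologicalClosure ≤ K.comap (T : H →ₗ[ℂ] H) :=
    Submodule.topologicalClosure_minimal _ (fun v hv => h v hv) (hK.preimage T.continuous)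
  exact this hv

private theorem Transfer_proj_star (W : Submodule ℂ H) [W.HasOrthogonalProjection] :
    star W.starProjection = W.starProjection := by
  rw [ContinuousLinearMap.star_eq_adjoint]
  exact (ContinuousLinearMap.eq_adjoint_iff _ _).mpr
      (fun x y => (W.inner_starProjection_left_eq_right x y)) |>.symm

private theorem Transfer_comm_proj (W : Submodule ℂ H) [W.HasOrthogonalProjection]
    (x : H →L[ℂ] H) (h1 : ∀ v ∈ W, x v ∈ W) (h2 : ∀ v ∈ W, star x v ∈ W) :
    W.starProjection * x = x * W.starProjection := by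
  have key : ∀ y : H →L[ℂ] H, (∀ v ∈ W, y v ∈ W) →
      W.starProjection * y * W.starProjection = y * W.starProjection := by
    intro y hy
    ext v
    show W.starProjection (y (W.starProjection v)) = y (W.starProjection v)
    rw [Submodule.starProjection_eq_self_iff]
    exact hy _ (Submodule.starProjection_apply_mem W v)
  have e1 := key x h1
  have e2 := congrArg star (key (star x) h2)
  rw [star_mul, star_mul, star_mul, star_star, Transfer_proj_star, ← mul_assoc, e1] at e2
  exact e2.symm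

/-- From a central functional on the cyclic subspace of a hereditary subalgebra to a functional
which is central for a corner of the commutant. -/
theorem exists_phi {𝔄 : StarSubalgebra ℂ (H →L[ℂ] H)} {C : Type*} [NonUnitalCStarAlgebra C]
    (ρ : C →⋆ₙₐ[ℂ] (H →L[ℂ] H)) (hρ : ∀ c, ρ c ∈ 𝔄)
    (hher : ∀ c, ∀ a ∈ 𝔄, ∀ d, ∃ e, ρ c * a * ρ d = ρ e)
    (W : Submodule ℂ H) [CompleteSpace W] (σ : C →⋆ₙₐ[ℂ] (W →L[ℂ] W)) (η : W)
    (hσ : ∀ c v, ((σ c v : W) : H) = ρ c v) (hη : ‖η‖ = 1) (hcyc : DenseRange fun c => σ c η)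
    (f : (W →L[ℂ] W) →ₗ[ℂ] ℂ) (hf : ∀ S, ‖f S‖ ≤ ‖S‖)
    (hfv : ∀ x, (∀ c, x * σ c = σ c * x) → f x = ⟪η, x η⟫_ℂ)
    (hfc : ∀ x, (∀ c, x * σ c = σ c * x) → ∀ S, f (x * S) = f (S * x)) :
    ∃ (p : H →L[ℂ] H) (Φ : (H →L[ℂ] H) →ₗ[ℂ] ℂ), p ∈ Com 𝔄 ∧ star p = p ∧ p * p = p ∧
      p (η : H) = η ∧ (∀ y ∈ Com 𝔄, y (η : H) = 0 → y * p = 0) ∧ (∀ S, ‖Φ S‖ ≤ ‖S‖) ∧
      Φ 1 = 1 ∧ (∀ y ∈ Com 𝔄, Φ y = ⟪(η : H), y (η : H)⟫_ℂ) ∧
      ∀ y ∈ Com 𝔄, p * y = y → y * p = y → ∀ S, Φ (y * S) = Φ (S * y) := by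
  classical
  set L0 : Submodule ℂ H := Submodule.map
    ((ContinuousLinearMap.apply ℂ H (η : H) : (H →L[ℂ] H) →L[ℂ] H) : (H →L[ℂ] H) →ₗ[ℂ] H)
    (Subalgebra.toSubmodule 𝔄.toSubalgebra) with hL0
  set L : Submodule ℂ H := L0.topologicalClosure with hL
  have hLc : IsClosed (L : Set H) := L0.isClosed_topologicalClosure
  haveI : CompleteSpace L := hLc.completeSpace_coe
  have memL0 : ∀ v, v ∈ L0 ↔ ∃ a ∈ 𝔄, a (η : H) = v := by
    intro v
    rw [hL0, Submodule.mem_map]
    rfl
  have hWc : IsClosed (W : Set H) := (completeSpace_coe_iff_isComplete.1 inferInstance).isClosed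
  -- invariance of `L`
  have hLinv : ∀ a ∈ 𝔄, ∀ v ∈ L, a v ∈ L := by
    intro a ha
    refine Transfer_closed a L0 L hLc ?_
    intro v hv
    obtain ⟨b, hb, rfl⟩ := (memL0 v).1 hv
    refine L0.le_topologicalClosure ((memL0 _).2 ⟨a * b, mul_mem ha hb, rfl⟩)
  have hηL : (η : H) ∈ L := L0.le_topologicalClosure ((memL0 _).2 ⟨1, one_mem _, rfl⟩)
  -- commutation with the commutant
  have hcomm : ∀ y ∈ Com 𝔄, ∀ a ∈ 𝔄, ∀ v, y (a v) = a (y v) := by
    intro y hy a ha v
    have h := mem_Com.1 hy a ha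
    have h2 := congrArg (fun z : H →L[ℂ] H => z v) h
    exact h2.symm
  -- the invariance of `W`
  have hWρ : ∀ c, ∀ v ∈ W, ρ c v ∈ W := by
    intro c v hv
    have := hσ c ⟨v, hv⟩
    rw [← this]
    exact (σ c ⟨v, hv⟩).2
  have hPρ : ∀ c, W.starProjection * ρ c = ρ c * W.starProjection := by
    intro c
    refine Transfer_comm_proj W (ρ c) (hWρ c) ?_
    rw [← map_star]
    exact hWρ (star c)
  -- density
  have hdense : ∀ (T : H →L[ℂ] H) (K : Submodule ℂ H), IsClosed (K : Set H) →
      (∀ c, T (ρ c (η : H)) ∈ K) → ∀ w ∈ W, T w ∈ K := by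
    intro T K hK h w hw
    have := hcyc.induction_on (p := fun w : W => T (w : H) ∈ K) ⟨w, hw⟩
      (hK.preimage (T.continuous.comp continuous_subtype_val)) (by
        intro c
        show T ((σ c η : W) : H) ∈ K
        rw [hσ]
        exact h c)
    exact this
  -- `ρ c` maps `L` to `W`
  have hLW : ∀ c, ∀ v ∈ L, ρ c v ∈ W := by
    intro c
    refine Transfer_closed (ρ c) L0 W hWc ?_
    intro v hv
    obtain ⟨a, ha, rfl⟩ := (memL0 v).1 hv
    refine hdense (ρ c * a) W hWc ?_ (η : H) η.2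
    intro d
    obtain ⟨e, he⟩ := hher c a ha d
    have : (ρ c * a) (ρ d (η : H)) = ρ e (η : H) := by
      rw [← he]
      rfl
    rw [this]
    exact hWρ e _ η.2
  -- the compression of the commutant commutes with `σ`
  have hcmp : ∀ y ∈ Com 𝔄, ∀ c, Transfer_cmp W y * σ c = σ c * Transfer_cmp W y := by
    intro y hy c
    ext v
    show ((Transfer_cmp W y (σ c v) : W) : H) = ((σ c (Transfer_cmp W y v) : W) : H)
    rw [Transfer_coe, hσ, hσ, Transfer_coe, hcomm y hy _ (hρ c)]
    exact congrArg (fun z : H →L[ℂ] H => z (y v)) (hPρ c)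
  have hone : Transfer_cmp W (1 : H →L[ℂ] H) = 1 := by
    ext v
    rw [Transfer_coe]
    show W.starProjection (v : H) = (v : H)
    exact Submodule.starProjection_eq_self_iff.2 v.2
  -- the claim for the corner
  set p : H →L[ℂ] H := L.starProjection with hp
  have hps : star p = p := Transfer_proj_star L
  have hyW : ∀ y ∈ Com 𝔄, p * y = y → ∀ w ∈ W, y w ∈ W := by
    intro y hy hpy
    have h1 : y (η : H) ∈ L := by
      have := congrArg (fun z : H →L[ℂ] H => z (η : H)) hpy
      rw [← show p (y (η : H)) = y (η : H) from this]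
      exact Submodule.starProjection_apply_mem L _
    have h2 : y (η : H) ∈ W := by
      refine hdense y W hWc ?_ (η : H) η.2
      intro c
      rw [hcomm y hy _ (hρ c)]
      exact hLW c _ h1
    refine hdense y W hWc ?_
    intro c
    rw [hcomm y hy _ (hρ c)]
    exact hWρ c _ h2
  refine ⟨p, f ∘ₗ Transfer_cmp W, proj_mem_Com 𝔄 L hLinv, hps, ?_, ?_, ?_, ?_, ?_, ?_, ?_⟩
  · exact L.isIdempotentElem_starProjection
  · exact Submodule.starProjection_eq_self_iff.2 hηL
  · intro y hy hyη
    ext v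
    show y (p v) = 0
    have := Transfer_closed y L0 ⊥ (by simp) (by
      intro v hv
      obtain ⟨a, ha, rfl⟩ := (memL0 v).1 hv
      rw [hcomm y hy a ha, hyη, map_zero]
      exact Submodule.zero_mem _) (p v) (Submodule.starProjection_apply_mem L v)
    exact (Submodule.mem_bot ℂ).1 this
  · intro S
    exact (hf _).trans (Transfer_norm W S)
  · show f (Transfer_cmp W 1) = 1
    rw [hone, hfv 1 (by intro c; rw [one_mul, mul_one])]
    show ⟪η, η⟫_ℂ = 1
    rw [inner_self_eq_norm_sq_to_K, hη]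
    norm_num
  · intro y hy
    show f (Transfer_cmp W y) = _
    rw [hfv _ (hcmp y hy)]
    show ⟪(η : H), ((Transfer_cmp W y η : W) : H)⟫_ℂ = _
    rw [Transfer_coe, ← Submodule.inner_starProjection_left_eq_right,
      Submodule.starProjection_eq_self_iff.2 η.2]
  · intro y hy hpy hyp S
    have hys : star y ∈ Com 𝔄 := star_mem hy
    have hpys : p * star y = star y := by
      have := congrArg star hyp
      rwa [star_mul, hps] at this
    have i1 := hyW y hy hpy
    have i2 := hyW (star y) hys hpys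
    have hq := Transfer_comm_proj W y i1 i2
    have c1 : Transfer_cmp W (y * S) = Transfer_cmp W y * Transfer_cmp W S := by
      ext v
      show ((Transfer_cmp W (y * S) v : W) : H) =
        ((Transfer_cmp W y (Transfer_cmp W S v) : W) : H)
      rw [Transfer_coe, Transfer_coe, Transfer_coe]
      have e1 : W.starProjection (y (S v)) = y (W.starProjection (S v)) :=
        congrArg (fun z : H →L[ℂ] H => z (S v)) hq
      have e2 : W.starProjection (y (W.starProjection (S v))) =
          y (W.starProjection (W.starProjection (S v))) :=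
        congrArg (fun z : H →L[ℂ] H => z (W.starProjection (S v))) hq
      have e3 : W.starProjection (W.starProjection (S v)) = W.starProjection (S v) :=
        Submodule.starProjection_eq_self_iff.2 (Submodule.starProjection_apply_mem W _)
      rw [e2, e3]
      exact e1
    have c2 : Transfer_cmp W (S * y) = Transfer_cmp W S * Transfer_cmp W y := by
      ext v
      show ((Transfer_cmp W (S * y) v : W) : H) =
        ((Transfer_cmp W S (Transfer_cmp W y v) : W) : H)
      rw [Transfer_coe, Transfer_coe, Transfer_coe]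
      rw [Submodule.starProjection_eq_self_iff.2 (i1 (v : H) v.2)]
      rfl
    show f (Transfer_cmp W (y * S)) = f (Transfer_cmp W (S * y))
    rw [c1, c2]
    exact hfc _ (hcmp y hy) _

end Pool.Agent.MP_86f3ed.Sf
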