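import Pool.Agent.H.MP_86f3ed_an.Trc.Final

open scoped InnerProductSpace Topology
open Filter ContinuousLinearMap

namespace Pool.Agent.MP_86f3ed.Sf

universe u v w w'

/-- the adjoint of an element of the commutant -/
theorem trcF_adj {C : Type*} [CStarAlgebra C] {K : Type*} [NormedAddCommGroup K]
    [InnerProductSpace ℂ K] [CompleteSpace K] (T : Tr C K) {x : K →L[ℂ] K}
    (hx : ∀ c, x * T.σ c = T.σ c * x) : ‖adjoint x T.η‖ ≤ ‖x T.η‖ := by
  have key : ∀ v : K, ‖⟪adjoint x T.η, v⟫_ℂ‖ ≤ ‖x T.η‖ * ‖v‖ := by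
    intro v
    refine T.e_dense.induction (P := fun v => ‖⟪adjoint x T.η, v⟫_ℂ‖ ≤ ‖x T.η‖ * ‖v‖) ?_
      (isClosed_le (by fun_prop) (by fun_prop)) v
    rintro _ ⟨d, rfl⟩
    have h1 : ⟪adjoint x T.η, T.e d⟫_ℂ = ⟪T.e (star d), x T.η⟫_ℂ := by
      rw [adjoint_inner_left, T.e_apply, ← mulA, hx d, mulA, T.e_apply, T.σ_star,
        adjoint_inner_left]
    rw [h1]
    refine (norm_inner_le_norm _ _).trans ?_
    rw [T.norm_e_star, mul_comm]
  have h := key (adjoint x T.η)
  rw [inner_self_eq_norm_sq_to_K] at h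
  have h2 : ‖adjoint x T.η‖ ^ 2 ≤ ‖x T.η‖ * ‖adjoint x T.η‖ := by
    simpa using h
  rcases (norm_nonneg (adjoint x T.η)).eq_or_lt with h0 | h0
  · rw [← h0]; exact norm_nonneg _
  · nlinarith

/-- from the right multiplications to the commutant -/
theorem trcF_comm {C : Type*} [CStarAlgebra C] {K : Type*} [NormedAddCommGroup K]
    [InnerProductSpace ℂ K] [CompleteSpace K] (T : Tr C K) {x F : K →L[ℂ] K}
    (hx : ∀ c, x * T.σ c = T.σ c * x)
    (hF : ∀ c, ⟪T.η, F (T.R c T.η)⟫_ℂ = ⟪T.η, T.R c (F T.η)⟫_ℂ) :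
    ⟪T.η, x (F T.η)⟫_ℂ = ⟪T.η, F (x T.η)⟫_ℂ := by
  by_contra hne
  have hpos : 0 < ‖⟪T.η, x (F T.η)⟫_ℂ - ⟪T.η, F (x T.η)⟫_ℂ‖ :=
    norm_pos_iff.mpr (sub_ne_zero.mpr hne)
  set δ := ‖⟪T.η, x (F T.η)⟫_ℂ - ⟪T.η, F (x T.η)⟫_ℂ‖ with hδ
  set M := ‖F T.η‖ + ‖adjoint F T.η‖ + 1 with hM
  have hMpos : 0 < M := by positivity
  obtain ⟨c, hc⟩ := T.exists_approx (x T.η) (div_pos hpos hMpos)
  set z := x - T.R c with hz
  have hzc : ∀ d, z * T.σ d = T.σ d * z := by
    intro d
    rw [hz, sub_mul, mul_sub, hx d, T.commute_σ_R]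
  have hzη : ‖z T.η‖ < δ / M := by
    have h1 : z T.η = x T.η - T.e c := by
      rw [hz, sub_apply, T.R_η, T.e_apply]
    rw [h1]
    exact hc
  have h1 : ⟪T.η, x (F T.η)⟫_ℂ - ⟪T.η, F (x T.η)⟫_ℂ =
      ⟪adjoint z T.η, F T.η⟫_ℂ - ⟪adjoint F T.η, z T.η⟫_ℂ := by
    rw [adjoint_inner_left, adjoint_inner_left, hz]
    simp only [sub_apply, map_sub, inner_sub_right]
    rw [hF c]; ring
  have h2 : δ ≤ ‖z T.η‖ * ‖F T.η‖ + ‖adjoint F T.η‖ * ‖z T.η‖ := by
    rw [hδ, h1]
    refine (norm_sub_le _ _).trans (add_le_add ?_ (norm_inner_le_norm _ _))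
    refine (norm_inner_le_norm _ _).trans ?_
    exact mul_le_mul_of_nonneg_right (trcF_adj T hzc) (norm_nonneg _)
  have h3 : ‖z T.η‖ * M < δ := by rwa [lt_div_iff₀ hMpos] at hzη
  have h4 : 0 ≤ ‖z T.η‖ := norm_nonneg _
  nlinarith

/-- The central functional in the standard setting. -/
theorem exists_central_of_D {C : Type*} [CStarAlgebra C] {K : Type*} [NormedAddCommGroup K]
    [InnerProductSpace ℂ K] [CompleteSpace K] {T : Tr C K} {H : Type*} [NormedAddCommGroup H]
    [InnerProductSpace ℂ H] [CompleteSpace H] (D : Central T H) (hη : ‖T.η‖ = 1)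
    (hN : D.NearCentral) :
    ∃ f : (K →L[ℂ] K) →ₗ[ℂ] ℂ, (∀ S, ‖f S‖ ≤ ‖S‖) ∧
      (∀ x, (∀ c, x * T.σ c = T.σ c * x) → f x = ⟪T.η, x T.η⟫_ℂ) ∧
      ∀ x, (∀ c, x * T.σ c = T.σ c * x) → ∀ S, f (x * S) = f (S * x) := by
  obtain ⟨E, hE1, hE2, hE3, hE4⟩ := D.exists_lim hη hN
  have hR : ∀ (c : C) (S : K →L[ℂ] K), ⟪T.η, E (S * T.R c) T.η⟫_ℂ =
      ⟪T.η, E (T.R c * S) T.η⟫_ℂ := by
    intro c S
    have hc : c ∈ Submodule.span ℂ (unitary C : Set C) := by
      rw [CStarAlgebra.span_unitary]; trivial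
    induction hc using Submodule.span_induction with
    | mem u hu =>
      have hu' : u ∈ unitary C := hu
      have h := hE4 u hu' (T.R u * S)
      have h2 : adjoint (T.R u) * (T.R u * S) * T.R u = S * T.R u := by
        rw [T.R_adj, ← mul_assoc, T.R_mul, Unitary.mul_star_self_of_mem hu', T.R_one, one_mul]
      rw [h2] at h
      exact h
    | zero =>
      have : T.R (0 : C) = 0 := by
        have := T.R_smul 0 (0 : C)
        rwa [zero_smul, zero_smul] at this
      rw [this, mul_zero, zero_mul]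
    | add x y _ _ hx hy =>
      rw [T.R_add, mul_add, add_mul, map_add, map_add, add_apply, add_apply, inner_add_right,
        inner_add_right, hx, hy]
    | smul z x _ hx =>
      rw [T.R_smul, mul_smul_comm, smul_mul_assoc, map_smul, map_smul, smul_apply, smul_apply,
        inner_smul_right, inner_smul_right, hx]
  have h1B : T.InB' (1 : K →L[ℂ] K) := fun b _ => by rw [one_mul, mul_one]
  have hxB : ∀ x : K →L[ℂ] K, (∀ c, x * T.σ c = T.σ c * x) → T.InB' x :=
    fun x hx b hb => (T.comm_of_commutant hb hx).symm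
  have hl : ∀ x : K →L[ℂ] K, T.InB' x → ∀ S, E (x * S) = x * E S := by
    intro x hx S
    have h := hE2 x 1 hx h1B S
    rwa [mul_one, mul_one] at h
  have hr : ∀ x : K →L[ℂ] K, T.InB' x → ∀ S, E (S * x) = E S * x := by
    intro x hx S
    have h := hE2 1 x h1B hx S
    rwa [one_mul, one_mul] at h
  let f : (K →L[ℂ] K) →ₗ[ℂ] ℂ :=
    { toFun := fun S => ⟪T.η, E S T.η⟫_ℂ
      map_add' := by
        intro S S'
        rw [map_add, add_apply, inner_add_right]
      map_smul' := by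
        intro z S
        rw [map_smul, smul_apply, inner_smul_right]
        rfl }
  have hf : ∀ S, f S = ⟪T.η, E S T.η⟫_ℂ := fun S => rfl
  refine ⟨f, ?_, ?_, ?_⟩
  · intro S
    rw [hf]
    refine (norm_inner_le_norm _ _).trans ?_
    rw [hη, one_mul]
    refine (le_opNorm _ _).trans ?_
    rw [hη, mul_one]
    exact hE1 S
  · intro x hx
    rw [hf, hE3 x (hxB x hx)]
  · intro x hx S
    rw [hf, hf, hl x (hxB x hx), hr x (hxB x hx), mulA, mulA]
    refine trcF_comm T hx fun c => ?_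
    have h := hR c S
    rw [hr _ (T.InB'_R c), hl _ (T.InB'_R c), mulA, mulA] at h
    exact h

/-- The central functional of a central vector state. -/
theorem exists_central_functional {A : Type u} [NonUnitalCStarAlgebra A]
    (hA : ApproxAmenable.{u, v} A)
    {H : Type v} [NormedAddCommGroup H] [InnerProductSpace ℂ H] [CompleteSpace H]
    (π : A →⋆ₙₐ[ℂ] (H →L[ℂ] H)) (ξ : H)
    {C : Type w} [NonUnitalCStarAlgebra C] (j : C →⋆ₙₐ[ℂ] A)
    (hcent : ∀ c a, ⟪ξ, π (j c) (π a ξ)⟫_ℂ = ⟪ξ, π a (π (j c) ξ)⟫_ℂ)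
    {K : Type w'} [NormedAddCommGroup K] [InnerProductSpace ℂ K] [CompleteSpace K]
    (σ : C →⋆ₙₐ[ℂ] (K →L[ℂ] K)) (η : K) (hη : ‖η‖ = 1) (hcyc : DenseRange fun c => σ c η)
    (hvec : ∀ c, ⟪η, σ c η⟫_ℂ = ⟪ξ, π (j c) ξ⟫_ℂ) :
    ∃ f : (K →L[ℂ] K) →ₗ[ℂ] ℂ, (∀ S, ‖f S‖ ≤ ‖S‖) ∧
      (∀ x, (∀ c, x * σ c = σ c * x) → f x = ⟪η, x η⟫_ℂ) ∧
      ∀ x, (∀ c, x * σ c = σ c * x) → ∀ S, f (x * S) = f (S * x) := by
  classical
  obtain ⟨V, hV, hVin, hVσ⟩ := exists_isometry π ξ j σ η hcyc hvec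
  have hcent' := central_transfer π ξ j σ η hcyc hcent hV hVσ
  let T : Tr (Unitization ℂ C) K :=
    { σ := Unitization.starLift σ
      η := η
      cyc := by
        have h : Set.range (fun c => σ c η) ⊆
            Set.range (fun c : Unitization ℂ C => Unitization.starLift σ c η) := by
          rintro _ ⟨c, rfl⟩
          refine ⟨(c : Unitization ℂ C), ?_⟩
          show Unitization.starLift σ (c : Unitization ℂ C) η = σ c η
          rw [starLift_apply', Unitization.fst_inr, Unitization.snd_inr, zero_smul, zero_add]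
        exact Dense.mono h hcyc
      tr := by
        intro c d
        have h1 : ⟪η, σ c.snd (σ d.snd η)⟫_ℂ = ⟪η, σ d.snd (σ c.snd η)⟫_ℂ := by
          have h2 := hvec (c.snd * d.snd)
          have h3 := hvec (d.snd * c.snd)
          rw [map_mul, map_mul, map_mul, mulA, mulA] at h2 h3
          rw [h2, h3, hcent]
        rw [map_mul, map_mul, mulA, mulA]
        simp only [starLift_apply', map_add, map_smul, inner_add_right, inner_smul_right,
          smul_add, h1]
        ring }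
  have hTσ : ∀ (c : Unitization ℂ C) (v : K), T.σ c v = c.fst • v + σ c.snd v := fun c v => rfl
  have hπ' : ∀ (c : Unitization ℂ C) (v : H), Unitization.starLift (π.comp j) c v =
      c.fst • v + π (j c.snd) v := fun c v => rfl
  let D : Central T H :=
    { π := Unitization.starLift (π.comp j)
      ξ := V η
      A := (Unitization.starLift π).range
      mem := by
        intro c
        refine ⟨⟨c.fst, j c.snd⟩, ?_⟩
        refine ContinuousLinearMap.ext fun v => ?_
        rfl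
      cent := by
        rintro c _ ⟨a, rfl⟩
        show ⟪V η, Unitization.starLift (π.comp j) c (Unitization.starLift π a (V η))⟫_ℂ =
          ⟪V η, Unitization.starLift π a (Unitization.starLift (π.comp j) c (V η))⟫_ℂ
        simp only [hπ', starLift_apply', map_add, map_smul, inner_add_right, inner_smul_right,
          smul_add, hcent']
      vec := by
        intro c
        have h1 : ⟪V η, V η⟫_ℂ = ⟪η, η⟫_ℂ := hVin η η
        have h2 : ⟪V η, π (j c.snd) (V η)⟫_ℂ = ⟪η, σ c.snd η⟫_ℂ := by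
          rw [← hVσ, hVin]
        show ⟪η, T.σ c η⟫_ℂ = ⟪V η, Unitization.starLift (π.comp j) c (V η)⟫_ℂ
        rw [hTσ, hπ', inner_add_right, inner_add_right, inner_smul_right, inner_smul_right, h1,
          h2] }
  have hN : D.NearCentral := by
    intro F ε hε _
    obtain ⟨n, x, y, hx, hy, h1, h2⟩ := exists_near_central hA π
      (F.image fun c : Unitization ℂ C => j c.snd) (min ε (1/2)) (by positivity)
    refine ⟨n, x, y, hx, hy, h1.trans (min_le_right _ _), ?_⟩
    intro c hc S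
    have h3 := h2 (j c.snd) (Finset.mem_image.mpr ⟨c, hc, rfl⟩) S
    have h4 : D.π c = c.fst • (1 : H →L[ℂ] H) + π (j c.snd) := by
      refine ContinuousLinearMap.ext fun v => ?_
      rfl
    have h5 : D.π c * (∑ k, x k * S * y k) - (∑ k, x k * S * y k) * D.π c =
        π (j c.snd) * (∑ k, x k * S * y k) - (∑ k, x k * S * y k) * π (j c.snd) := by
      rw [h4, add_mul, mul_add, smul_mul_assoc, mul_smul_comm, one_mul, mul_one]
      abel
    rw [h5]
    exact h3.trans (mul_le_mul_of_nonneg_right (min_le_left _ _) (norm_nonneg _))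
  have hcomm : ∀ x : K →L[ℂ] K, (∀ c, x * σ c = σ c * x) → ∀ c, x * T.σ c = T.σ c * x := by
    intro x hx c
    have h2 : T.σ c = c.fst • (1 : K →L[ℂ] K) + σ c.snd := by
      refine ContinuousLinearMap.ext fun v => ?_
      rfl
    rw [h2, add_mul, mul_add, smul_mul_assoc, mul_smul_comm, one_mul, mul_one, hx]
  obtain ⟨f, hf1, hf2, hf3⟩ := exists_central_of_D D hη hN
  exact ⟨f, hf1, fun x hx => hf2 x (hcomm x hx), fun x hx S => hf3 x (hcomm x hx) S⟩

end Pool.Agent.MP_86f3ed.Sf
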