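import Pool.Agent.H.MP_86f3ed_an.Sf.Pub
import Pool.Agent.H.MP_86f3ed_an.Sf.Ctr
import Pool.Agent.H.MP_86f3ed_an.Sf.Corner
import Pool.Agent.H.MP_86f3ed_an.Sf.Gns
import Pool.Agent.H.MP_86f3ed_an.Sf.TrcF
import Pool.Agent.H.MP_86f3ed_an.Sf.Transfer
import Pool.Agent.H.MP_86f3ed_an.Sf.Pack2
import Pool.Agent.H.MP_86f3ed_an.Sf.FinPhi

open scoped InnerProductSpace Topology
open Filter ContinuousLinearMap

namespace Pool.Agent.MP_86f3ed.Sf

open Pin

universe u v

section under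

variable {A : Type u} [NonUnitalCStarAlgebra A]

/-- The elements which have the self-adjoint element `g` as a unit. -/
def under (g : A) (hg : star g = g) : NonUnitalStarSubalgebra ℂ A where
  carrier := {c | g * c = c ∧ c * g = c}
  add_mem' := by
    rintro a b ⟨h1, h2⟩ ⟨h3, h4⟩
    exact ⟨by rw [mul_add, h1, h3], by rw [add_mul, h2, h4]⟩
  zero_mem' := ⟨mul_zero _, zero_mul _⟩
  mul_mem' := by
    rintro a b ⟨h1, _⟩ ⟨_, h4⟩
    exact ⟨by rw [← mul_assoc, h1], by rw [mul_assoc, h4]⟩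
  smul_mem' := by
    rintro c a ⟨h1, h2⟩
    exact ⟨by rw [mul_smul_comm, h1], by rw [smul_mul_assoc, h2]⟩
  star_mem' := by
    rintro a ⟨h1, h2⟩
    constructor
    · have h := congrArg star h2
      rwa [star_mul, hg] at h
    · have h := congrArg star h1
      rwa [star_mul, hg] at h

theorem mem_under {g : A} {hg : star g = g} {c : A} :
    c ∈ under g hg ↔ g * c = c ∧ c * g = c := Iff.rfl

instance under_closed (g : A) (hg : star g = g) : IsClosed (under g hg : Set A) := by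
  have h : (under g hg : Set A) = {c | g * c = c} ∩ {c | c * g = c} := rfl
  rw [h]
  exact (isClosed_eq (by fun_prop) continuous_id).inter (isClosed_eq (by fun_prop) continuous_id)

end under

variable {H : Type v} [NormedAddCommGroup H] [InnerProductSpace ℂ H] [CompleteSpace H]
  {A : Type u} [NonUnitalCStarAlgebra A]

theorem TF.FinTr.mul {T : TF H} {x : H →L[ℂ] H} (h : T.FinTr x) (y : H →L[ℂ] H) :
    T.FinTr (y * x) := by
  obtain ⟨C, hC⟩ := h
  refine ⟨‖y‖ ^ 2 * C, fun m v hv hv1 hvo => ?_⟩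
  refine le_trans ?_ (mul_le_mul_of_nonneg_left (hC m v hv hv1 hvo) (by positivity))
  rw [Finset.mul_sum]
  refine Finset.sum_le_sum fun i _ => ?_
  rw [← mul_pow]
  exact pow_le_pow_left₀ (norm_nonneg _) (y.le_opNorm _) 2

/-- The theorem in the presence of an element of finite trace. -/
theorem injective_of_fin [TopologicalSpace.SeparableSpace H]
    (hA : ApproximatelyAmenable.{u, v} A) (π : A →⋆ₙₐ[ℂ] (H →L[ℂ] H)) (T : TF H)
    (hTN : Com (rangeAlg π) = T.N) {a : A} (ha : π a ≠ 0) (hfin : T.FinTr (π a)) :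
    IsInjective (T.N : Set (H →L[ℂ] H)) := by
  obtain ⟨g, f, hgs, hgf, hfg, hf0, hgQ⟩ := exists_corner π T.FinTr (fun x y h => h.mul y) ha hfin
  have hπM : ∀ b, π b ∈ T.M := by
    intro b
    rw [mem_Com, ← hTN]
    intro y hy
    exact (mem_Com.mp hy (π b) (mem_rangeAlg.mpr ⟨0, b, by simp⟩)).symm
  obtain ⟨ξ, h1, h2⟩ := T.exists_ctr (hπM g) (by rw [← map_star, hgs]) hgQ
  let j : under g hgs →⋆ₙₐ[ℂ] A := NonUnitalStarSubalgebraClass.subtype (under g hgs)
  have hj : ∀ c, j c = (c : A) := fun c => rfl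
  let ρ : under g hgs →⋆ₙₐ[ℂ] (HH H →L[ℂ] HH H) := (ampRep π).comp j
  have hρ : ∀ c, ρ c = amp (π (c : A)) := fun c => rfl
  obtain ⟨W, hWc, σ, η, hσ, hση, hcyc, hvec⟩ := exists_gns ρ ξ
  have hη0 : η ≠ 0 := by
    intro h
    have h3 := hση ⟨f, hgf, hfg⟩
    rw [h, map_zero] at h3
    have h4 : amp (π f) ξ = 0 := h3.symm
    exact hf0 (h2 (π f) (hπM f) (by rw [← map_mul, hfg]) h4)
  set r : ℂ := ((‖η‖⁻¹ : ℝ) : ℂ) with hr
  have hn : ‖η‖ ≠ 0 := norm_ne_zero_iff.mpr hη0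
  have hr0 : r ≠ 0 := by
    rw [hr, Complex.ofReal_ne_zero]
    exact inv_ne_zero hn
  have hη1 : ‖r • η‖ = 1 := by
    rw [norm_smul, hr, Complex.norm_real, Real.norm_eq_abs, abs_of_nonneg (by positivity),
      inv_mul_cancel₀ hn]
  have hcyc' : DenseRange fun c => σ c (r • η) := by
    have h3 : (fun c => σ c (r • η)) = (fun v : W => r • v) ∘ fun c => σ c η := by
      funext c
      simp only [Function.comp, map_smul]
    rw [h3]
    refine DenseRange.comp ?_ hcyc (continuous_const_smul r)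
    have h4 : Function.Surjective fun v : W => r • v := fun v =>
      ⟨r⁻¹ • v, by simp only [smul_smul, mul_inv_cancel₀ hr0, one_smul]⟩
    exact h4.denseRange
  obtain ⟨F, hF1, hF2, hF3⟩ := exists_central_functional (approxAmenable_of_public hA) (ampRep π)
    (r • ξ) j (by
      intro c b
      simp only [map_smul, inner_smul_left, inner_smul_right]
      have h3 := h1 (π (c : A)) (hπM _) (by rw [← map_mul, (mem_under.mp c.2).1])
        (by rw [← map_mul, (mem_under.mp c.2).2]) (π b) (hπM b)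
      have h4 : ⟪ξ, ampRep π (j c) (ampRep π b ξ)⟫_ℂ = ⟪ξ, ampRep π b (ampRep π (j c) ξ)⟫_ℂ := h3
      rw [h4]) σ (r • η) hη1 hcyc' (by
      intro c
      simp only [map_smul, inner_smul_left, inner_smul_right]
      rw [hvec]
      rfl)
  have hAmp : Ampl (rangeAlg π) = rangeAlg (ampRep π) := Ampl_rangeAlg π
  obtain ⟨p, Φ, hp, hps, hpp, hpη, hpsep, hΦn, hΦ1, hΦv, hΦc⟩ :=
    exists_phi (𝔄 := Ampl (rangeAlg π)) ρ (fun c => by
      rw [hρ]
      exact mem_Ampl.mpr ⟨π (c : A), mem_rangeAlg.mpr ⟨0, (c : A), by simp⟩, rfl⟩)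
    (by
      intro c x hx d
      obtain ⟨b, hb, rfl⟩ := mem_Ampl.mp hx
      obtain ⟨z, b', rfl⟩ := mem_rangeAlg.mp hb
      refine ⟨⟨z • ((c : A) * d) + (c : A) * b' * d, ?_, ?_⟩, ?_⟩
      · have h3 := (mem_under.mp c.2).1
        rw [mul_add, mul_smul_comm, ← mul_assoc, ← mul_assoc, ← mul_assoc, h3]
      · have h3 := (mem_under.mp d.2).2
        rw [add_mul, smul_mul_assoc, mul_assoc, mul_assoc, h3]
      · rw [hρ, hρ, hρ]
        show amp (π (c : A)) * amp (z • 1 + π b') * amp (π (d : A)) =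
          amp (π (z • ((c : A) * d) + (c : A) * b' * d))
        rw [← amp_mul, ← amp_mul]
        congr 1
        rw [map_add, map_smul, map_mul, map_mul, map_mul, mul_add, add_mul, mul_smul_comm,
          mul_one, smul_mul_assoc]) W σ (r • η) hσ hη1 hcyc' F hF1 hF2 hF3
  have hNH : Com (Ampl (rangeAlg π)) = T.NH := T.Com_amp_eq hTN
  rw [hNH] at hp hpsep hΦv hΦc
  have hp0 : p ≠ 0 := by
    intro h
    rw [h] at hpη
    have h3 : ((r • η : W) : HH H) = 0 := hpη.symm
    have h4 : (r • η : W) = 0 := Subtype.ext h3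
    rw [h4, norm_zero] at hη1
    exact zero_ne_one hη1
  obtain ⟨n, U, hU, hU1, hUp, hUU⟩ := T.exists_pack2 hp hps hpp hp0
  refine T.injective_of_phi (Φ := Φ) ⟨hΦn, hΦ1⟩ hΦc hU hUp hps hUU ?_
  intro hz
  have h3 : ∀ i, Φ (star (U i) * U i) = ((‖U i ((r • η : W) : HH H)‖ ^ 2 : ℝ) : ℂ) := by
    intro i
    rw [hΦv _ (mul_mem (star_mem (hU i)) (hU i))]
    show ⟪((r • η : W) : HH H), star (U i) (U i ((r • η : W) : HH H))⟫_ℂ = _
    rw [star_eq_adjoint, adjoint_inner_right, inner_self_eq_norm_sq_to_K]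
    push_cast
    rfl
  simp_rw [h3] at hz
  have h4 : ∑ i, ‖U i ((r • η : W) : HH H)‖ ^ 2 = 0 := by exact_mod_cast hz
  have h5 : ∀ i, U i = 0 := by
    intro i
    have h6 := (Finset.sum_eq_zero_iff_of_nonneg (fun i _ => by positivity)).mp h4 i
      (Finset.mem_univ i)
    have h7 : U i ((r • η : W) : HH H) = 0 := by
      rw [← norm_eq_zero]
      exact pow_eq_zero_iff (two_ne_zero) |>.mp h6
    rw [← hUp i]
    exact hpsep _ (hU i) h7
  have h6 : (inc 0).comp (pr 0) = (0 : HH H →L[ℂ] HH H) := by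
    rw [← hUU]
    refine Finset.sum_eq_zero fun i _ => ?_
    rw [h5 i, zero_mul]
  have h7 := congrArg (fun S : HH H →L[ℂ] HH H => pr 0 (S (inc 0 T.ζ))) h6
  have h8 : pr 0 (inc 0 (pr 0 (inc 0 T.ζ))) = pr 0 (0 : HH H) := h7
  rw [pr_inc_same, pr_inc_same, map_zero] at h8
  have h9 := T.norm_ζ
  rw [h8, norm_zero] at h9
  exact zero_ne_one h9

/-- Every semifinite factor representation of an approximately amenable C*-algebra is injective. -/
theorem injective_semifinite [TopologicalSpace.SeparableSpace H]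
    (hA : ApproximatelyAmenable.{u, v} A) (π : A →⋆ₙₐ[ℂ] (H →L[ℂ] H)) (ζ : H) (hζ : ‖ζ‖ = 1)
    (hcyc : DenseRange fun a => π a ζ)
    (hfac : ∀ x ∈ (Set.range π).centralizer, x ∈ (Set.range π).centralizer.centralizer →
      ∃ c : ℂ, x = c • (1 : H →L[ℂ] H))
    (htr : ∀ x ∈ (Set.range π).centralizer, ∀ y ∈ (Set.range π).centralizer,
      ⟪ζ, x (y ζ)⟫_ℂ = ⟪ζ, y (x ζ)⟫_ℂ) :
    IsInjective (Set.range π).centralizer := by
  set T : TF H := tfOf π ζ hζ hcyc hfac htr with hT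
  have hTN : Com (rangeAlg π) = T.N := rfl
  by_cases h : ∃ a, π a ≠ 0 ∧ T.FinTr (π a)
  · obtain ⟨a, ha, hfin⟩ := h
    have h1 := injective_of_fin hA π T hTN ha hfin
    rw [← hTN, Com_rangeAlg] at h1
    exact h1
  · push Not at h
    refine injective_of_inf hA π ζ hζ hcyc hfac htr fun a ha C => ?_
    have h1 := h a ha
    unfold TF.FinTr at h1
    push Not at h1
    obtain ⟨m, v, hv, hv1, hvo, hC⟩ := h1 C
    refine ⟨m, v, fun i => ?_, hv1, hvo, hC⟩
    have h2 : v i ∈ (Com (Com (rangeAlg π)) : Set (H →L[ℂ] H)) := hv i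
    rw [Com_Com_rangeAlg] at h2
    exact h2

end Pool.Agent.MP_86f3ed.Sf
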