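import Pool.Agent.H.MP_86f3ed_an.Pin.Pub
import Pool.Agent.H.MP_86f3ed_an.Sf.Amp

open scoped InnerProductSpace Topology
open Filter ContinuousLinearMap

namespace Pool.Agent.MP_86f3ed.Sf

open Pin

universe u v

/-- The elementary nearly central operators as bimodule maps. -/
theorem exists_nc {H : Type v} [NormedAddCommGroup H] [InnerProductSpace ℂ H] [CompleteSpace H]
    {A : Type u} [NonUnitalCStarAlgebra A] (hA : ApproximatelyAmenable.{u, v} A)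
    (π : A →⋆ₙₐ[ℂ] (H →L[ℂ] H)) (G : Finset (H →L[ℂ] H)) (hG : ∀ g ∈ G, g ∈ rangeAlg π) (ε : ℝ)
    (hε : 0 < ε) : ∃ P : X (Com (rangeAlg π)),
      ‖P.ap 1 - 1‖ ≤ ε ∧ ∀ g ∈ G, ∀ S, ‖g * P.ap S - P.ap S * g‖ ≤ ε * ‖S‖ := by
  classical
  have hex : ∀ g : G, ∃ (c : ℂ) (a : A), (g : H →L[ℂ] H) = c • 1 + π a := fun g =>
    mem_rangeAlg.mp (hG g g.2)
  choose c a hca using hex
  obtain ⟨n, x, y, hx, hy, h1, h2⟩ := exists_near_central (approxAmenable_of_public hA) π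
    (Finset.univ.image a) ε hε
  have hcx : ∀ k, ∀ m ∈ Com (rangeAlg π), m * x k = x k * m := fun k m hm =>
    (mem_Com.mp hm _ (hx k)).symm
  have hcy : ∀ k, ∀ m ∈ Com (rangeAlg π), m * y k = y k * m := fun k m hm =>
    (mem_Com.mp hm _ (hy k)).symm
  let P₀ : (H →L[ℂ] H) →L[ℂ] (H →L[ℂ] H) := ∑ k, (Lm (x k)).comp (Rm (y k))
  have hP₀ : ∀ S, P₀ S = ∑ k, x k * S * y k := by
    intro S
    show (∑ k, (Lm (x k)).comp (Rm (y k))) S = _
    rw [sum_apply]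
    refine Finset.sum_congr rfl fun k _ => ?_
    simp [mul_assoc]
  let P : X (Com (rangeAlg π)) := X.mk P₀ (by
    intro m hm T
    rw [hP₀, hP₀, hP₀, Finset.mul_sum, Finset.sum_mul]
    constructor
    · refine Finset.sum_congr rfl fun k _ => ?_
      rw [← mul_assoc, ← hcx k m hm]
      simp only [mul_assoc]
    · refine Finset.sum_congr rfl fun k _ => ?_
      rw [mul_assoc, mul_assoc, hcy k m hm]
      simp only [mul_assoc])
  refine ⟨P, ?_, ?_⟩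
  · show ‖P₀ 1 - 1‖ ≤ ε
    rw [hP₀]
    simpa using h1
  · intro g hg S
    show ‖g * P₀ S - P₀ S * g‖ ≤ ε * ‖S‖
    have h3 := h2 (a ⟨g, hg⟩) (Finset.mem_image_of_mem _ (Finset.mem_univ _)) S
    have h4 : g * P₀ S - P₀ S * g = π (a ⟨g, hg⟩) * P₀ S - P₀ S * π (a ⟨g, hg⟩) := by
      have h5 := hca ⟨g, hg⟩
      simp only at h5
      nth_rewrite 1 2 [h5]
      rw [add_mul, mul_add, smul_mul_assoc, mul_smul_comm, one_mul, mul_one]
      abel
    rw [h4, hP₀]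
    exact h3

/-- The amplified representation. -/
noncomputable def ampRep {K : Type v} [NormedAddCommGroup K] [InnerProductSpace ℂ K]
    [CompleteSpace K] {A : Type u} [NonUnitalCStarAlgebra A] (π : A →⋆ₙₐ[ℂ] (K →L[ℂ] K)) :
    A →⋆ₙₐ[ℂ] (HH K →L[ℂ] HH K) := (ampHom (K := K) : _ →⋆ₙₐ[ℂ] _).comp π

theorem ampRep_apply {K : Type v} [NormedAddCommGroup K] [InnerProductSpace ℂ K]
    [CompleteSpace K] {A : Type u} [NonUnitalCStarAlgebra A] (π : A →⋆ₙₐ[ℂ] (K →L[ℂ] K)) (a : A) :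
    ampRep π a = amp (π a) := rfl

theorem Ampl_rangeAlg {K : Type v} [NormedAddCommGroup K] [InnerProductSpace ℂ K]
    [CompleteSpace K] {A : Type u} [NonUnitalCStarAlgebra A] (π : A →⋆ₙₐ[ℂ] (K →L[ℂ] K)) :
    Ampl (rangeAlg π) = rangeAlg (ampRep π) := by
  ext y
  rw [mem_Ampl, mem_rangeAlg]
  constructor
  · rintro ⟨b, hb, rfl⟩
    obtain ⟨c, a, rfl⟩ := mem_rangeAlg.mp hb
    exact ⟨c, a, by rw [amp_add, amp_smul, amp_one, ampRep_apply]⟩
  · rintro ⟨c, a, rfl⟩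
    exact ⟨c • 1 + π a, mem_rangeAlg.mpr ⟨c, a, rfl⟩, by
      rw [amp_add, amp_smul, amp_one, ampRep_apply]⟩

end Pool.Agent.MP_86f3ed.Sf
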