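import Pool.Agent.H.MP_86f3ed_an.Sf.Main
import Pool.Agent.H.MP_86f3ed_an.Sf.NC

open scoped InnerProductSpace Topology
open Filter ContinuousLinearMap

namespace Pool.Agent.MP_86f3ed.Sf

open Pin

universe u v

variable {H : Type v} [NormedAddCommGroup H] [InnerProductSpace ℂ H] [CompleteSpace H]
  {A : Type u} [NonUnitalCStarAlgebra A]

theorem Com_Com_Com {H : Type*} [NormedAddCommGroup H] [InnerProductSpace ℂ H] [CompleteSpace H]
    (𝔅 : StarSubalgebra ℂ (H →L[ℂ] H)) : Com (Com (Com 𝔅)) = Com 𝔅 := by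
  apply le_antisymm
  · intro x hx
    rw [mem_Com] at hx ⊢
    intro a ha
    exact hx a (mem_Com.mpr fun y hy => (mem_Com.mp hy a ha).symm)
  · intro x hx
    rw [mem_Com]
    intro y hy
    exact (mem_Com.mp hy x hx).symm

/-- The factor with trace vector of a representation. -/
noncomputable def tfOf (π : A →⋆ₙₐ[ℂ] (H →L[ℂ] H)) (ζ : H) (hζ : ‖ζ‖ = 1)
    (hcyc : DenseRange fun a => π a ζ)
    (hfac : ∀ x ∈ (Set.range π).centralizer, x ∈ (Set.range π).centralizer.centralizer →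
      ∃ c : ℂ, x = c • (1 : H →L[ℂ] H))
    (htr : ∀ x ∈ (Set.range π).centralizer, ∀ y ∈ (Set.range π).centralizer,
      ⟪ζ, x (y ζ)⟫_ℂ = ⟪ζ, y (x ζ)⟫_ℂ) : TF H where
  N := Com (rangeAlg π)
  bic := Com_Com_Com _
  factor := by
    intro x hx hx'
    have h1 : x ∈ (Com (rangeAlg π) : Set (H →L[ℂ] H)) := hx
    have h2 : x ∈ (Com (Com (rangeAlg π)) : Set (H →L[ℂ] H)) := hx'
    rw [Com_rangeAlg] at h1
    rw [Com_Com_rangeAlg] at h2
    exact hfac x h1 h2
  ζ := ζ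
  norm_ζ := hζ
  cyc := by
    refine Dense.mono ?_ hcyc
    rintro _ ⟨a, rfl⟩
    refine ⟨π a, ?_, rfl⟩
    rw [mem_Com]
    intro y hy
    exact (mem_Com.mp hy (π a) (mem_rangeAlg.mpr ⟨0, a, by simp⟩)).symm
  tr := by
    intro x hx y hy
    have h1 : x ∈ (Com (rangeAlg π) : Set (H →L[ℂ] H)) := hx
    have h2 : y ∈ (Com (rangeAlg π) : Set (H →L[ℂ] H)) := hy
    rw [Com_rangeAlg] at h1 h2
    exact htr x h1 y h2

/-- The theorem on semifinite factors in the absence of elements of finite trace. -/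
theorem injective_of_inf [TopologicalSpace.SeparableSpace H]
    (hA : ApproximatelyAmenable.{u, v} A) (π : A →⋆ₙₐ[ℂ] (H →L[ℂ] H)) (ζ : H) (hζ : ‖ζ‖ = 1)
    (hcyc : DenseRange fun a => π a ζ)
    (hfac : ∀ x ∈ (Set.range π).centralizer, x ∈ (Set.range π).centralizer.centralizer →
      ∃ c : ℂ, x = c • (1 : H →L[ℂ] H))
    (htr : ∀ x ∈ (Set.range π).centralizer, ∀ y ∈ (Set.range π).centralizer,
      ⟪ζ, x (y ζ)⟫_ℂ = ⟪ζ, y (x ζ)⟫_ℂ)
    (hinf : ∀ a, π a ≠ 0 → ∀ C : ℝ, ∃ (m : ℕ) (v : Fin m → H →L[ℂ] H),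
      (∀ i, v i ∈ (Set.range π).centralizer.centralizer) ∧ (∀ i, ‖v i‖ ≤ 1) ∧
      (∀ i j, i ≠ j → star (v i) * v j = 0) ∧ C < ∑ i, ‖π a (v i ζ)‖ ^ 2) :
    IsInjective (Set.range π).centralizer := by
  set T : TF H := tfOf π ζ hζ hcyc hfac htr with hT
  have hTN : T.N = Com (rangeAlg π) := rfl
  have hTζ : T.ζ = ζ := rfl
  have hInf : T.Inf (rangeAlg π) := by
    intro g hg hg0 C
    obtain ⟨c, a, rfl⟩ := mem_rangeAlg.mp hg
    obtain ⟨b, hb⟩ : ∃ b : A, π b * (c • 1 + π a) ≠ 0 := by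
      by_contra hcon
      push Not at hcon
      apply hg0
      refine ContinuousLinearMap.ext fun x => ?_
      refine DenseRange.eq_of_inner_right (𝕜 := ℂ) hcyc (fun b => ?_)
      have h1 := congrArg (fun S : H →L[ℂ] H => S x) (hcon (star b))
      have h2 : π (star b) ((c • (1 : H →L[ℂ] H) + π a) x) = 0 := h1
      show ⟪π b ζ, (c • (1 : H →L[ℂ] H) + π a) x⟫_ℂ = ⟪π b ζ, (0 : H)⟫_ℂ
      rw [inner_zero_right, ← star_star b, map_star, star_eq_adjoint, adjoint_inner_left, h2,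
        inner_zero_right]
    have hd : π b * (c • 1 + π a) = π (c • b + b * a) := by
      rw [mul_add, mul_smul_comm, mul_one, map_add, map_smul, map_mul]
    have hb0 : 0 < ‖π b‖ := by
      rw [norm_pos_iff]
      intro h
      exact hb (by rw [h, zero_mul])
    obtain ⟨m, v, hv, hv1, hvo, hC⟩ := hinf (c • b + b * a) (by rw [← hd]; exact hb)
      (C * ‖π b‖ ^ 2)
    refine ⟨m, v, fun i => ?_, hv1, hvo, ?_⟩
    · have h1 := hv i
      rw [← Com_Com_rangeAlg] at h1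
      exact h1
    · have h1 : ∑ i, ‖π (c • b + b * a) (v i ζ)‖ ^ 2 ≤
          (∑ i, ‖(c • (1 : H →L[ℂ] H) + π a) (v i ζ)‖ ^ 2) * ‖π b‖ ^ 2 := by
        rw [Finset.sum_mul]
        refine Finset.sum_le_sum fun i _ => ?_
        rw [← hd, ← mul_pow, mul_comm]
        exact pow_le_pow_left₀ (norm_nonneg _) ((π b).le_opNorm _) 2
      have h2 := hC.trans_le h1
      exact lt_of_mul_lt_mul_right h2 (by positivity)
  have h := T.injective_of_near_central (𝔅 := rangeAlg π) hTN.symm hInf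
    (by rw [Ampl_rangeAlg]; exact isClosed_range _)
    (by
      rw [Ampl_rangeAlg]
      intro F hF ε hε
      exact exists_nc hA (ampRep π) F hF ε hε)
  rw [← Com_rangeAlg]
  exact h

end Pool.Agent.MP_86f3ed.Sf
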