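import Pool.Agent.H.MP_86f3ed_an.Pin.PI

open scoped InnerProductSpace Topology
open Filter ContinuousLinearMap

namespace Pool.Agent.MP_86f3ed.Sf

open Pin

/-- A factor `N` on `K` with a unit vector `ζ` which is cyclic for the commutant of `N` and whose
vector state is a trace on `N`. -/
structure TF (K : Type*) [NormedAddCommGroup K] [InnerProductSpace ℂ K] [CompleteSpace K] where
  N : StarSubalgebra ℂ (K →L[ℂ] K)
  bic : Com (Com N) = N
  factor : ∀ x ∈ N, x ∈ Com N → ∃ c : ℂ, x = c • (1 : K →L[ℂ] K)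
  ζ : K
  norm_ζ : ‖ζ‖ = 1
  cyc : Dense {x : K | ∃ m ∈ Com N, x = m ζ}
  tr : ∀ x ∈ N, ∀ y ∈ N, ⟪ζ, x (y ζ)⟫_ℂ = ⟪ζ, y (x ζ)⟫_ℂ

namespace TF

variable {K : Type*} [NormedAddCommGroup K] [InnerProductSpace ℂ K] [CompleteSpace K] (T : TF K)

/-- The commutant. -/
noncomputable abbrev M : StarSubalgebra ℂ (K →L[ℂ] K) := Com T.N

theorem comm {y b : K →L[ℂ] K} (hy : y ∈ T.N) (hb : b ∈ T.M) (x : K) : y (b x) = b (y x) :=
  congrArg (fun S : K →L[ℂ] K => S x) (mem_Com.mp hb y hy)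

theorem mem_N_of {y : K →L[ℂ] K} (h : ∀ b ∈ T.M, ∀ x, y (b x) = b (y x)) : y ∈ T.N := by
  rw [← T.bic, mem_Com]
  intro b hb
  exact ContinuousLinearMap.ext fun x => (h b hb x).symm

/-- The subspace `N ζ`. -/
noncomputable def V : Submodule ℂ K where
  carrier := {x | ∃ y ∈ T.N, y T.ζ = x}
  add_mem' := by
    rintro _ _ ⟨y, hy, rfl⟩ ⟨y', hy', rfl⟩
    exact ⟨y + y', add_mem hy hy', rfl⟩
  zero_mem' := ⟨0, zero_mem _, rfl⟩
  smul_mem' := by
    rintro c _ ⟨y, hy, rfl⟩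
    exact ⟨c • y, SMulMemClass.smul_mem c hy, rfl⟩

/-- The closure of `N ζ`. -/
noncomputable def W : Submodule ℂ K := T.V.topologicalClosure

instance : CompleteSpace T.W := T.V.isClosed_topologicalClosure.completeSpace_coe

/-- The projection onto the closure of `N ζ`. -/
noncomputable def e : K →L[ℂ] K := T.W.starProjection

theorem mem_W {y : K →L[ℂ] K} (hy : y ∈ T.N) : y T.ζ ∈ T.W :=
  Submodule.le_topologicalClosure _ ⟨y, hy, rfl⟩

theorem e_star : star T.e = T.e := by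
  rw [ContinuousLinearMap.star_eq_adjoint]
  exact (ContinuousLinearMap.eq_adjoint_iff _ _).mpr
    (fun x y => (T.W.inner_starProjection_left_eq_right x y)) |>.symm

theorem e_mul_e : T.e * T.e = T.e := by
  ext x
  show T.W.starProjection (T.W.starProjection x) = T.W.starProjection x
  rw [Submodule.starProjection_eq_self_iff]
  exact Submodule.starProjection_apply_mem T.W x

theorem e_apply_mem (x : K) : T.e x ∈ T.W := Submodule.starProjection_apply_mem T.W x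

theorem e_eq {x : K} (hx : x ∈ T.W) : T.e x = x := Submodule.starProjection_eq_self_iff.2 hx

theorem e_N {y : K →L[ℂ] K} (hy : y ∈ T.N) : T.e (y T.ζ) = y T.ζ := T.e_eq (T.mem_W hy)

theorem e_ζ : T.e T.ζ = T.ζ := T.e_N (one_mem T.N)

theorem W_inv {y : K →L[ℂ] K} (hy : y ∈ T.N) {x : K} (hx : x ∈ T.W) : y x ∈ T.W := by
  have h : (T.W : Set K) ⊆ y ⁻¹' T.W := by
    refine closure_minimal ?_ (T.V.isClosed_topologicalClosure.preimage y.continuous)
    rintro _ ⟨z, hz, rfl⟩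
    exact T.mem_W (mul_mem hy hz)
  exact h hx

theorem e_mem : T.e ∈ T.M := proj_mem_Com T.N T.W fun _ ha _ hv => T.W_inv ha hv

theorem e_ne : T.e ≠ 0 := by
  intro h
  have h1 := T.e_ζ
  rw [h] at h1
  have h2 := T.norm_ζ
  rw [← h1] at h2
  simp at h2

theorem norm_e_le (x : K) : ‖T.e x‖ ≤ ‖x‖ := T.W.norm_starProjection_apply_le x

/-- Vectors of `W` are determined by the inner products with `N ζ`. -/
theorem W_ext {x x' : K} (hx : x ∈ T.W) (hx' : x' ∈ T.W)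
    (h : ∀ y ∈ T.N, ⟪y T.ζ, x⟫_ℂ = ⟪y T.ζ, x'⟫_ℂ) : x = x' := by
  have h1 : ∀ z ∈ T.W, ⟪z, x - x'⟫_ℂ = 0 := by
    intro z hz
    have h2 : (T.W : Set K) ⊆ {z | ⟪z, x - x'⟫_ℂ = 0} := by
      refine closure_minimal ?_ (isClosed_eq (by fun_prop) continuous_const)
      rintro _ ⟨y, hy, rfl⟩
      show ⟪y T.ζ, x - x'⟫_ℂ = 0
      rw [inner_sub_right, h y hy, sub_self]
    exact h2 hz
  have h3 := h1 _ (sub_mem hx hx')
  rw [inner_self_eq_zero, sub_eq_zero] at h3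
  exact h3

/-- A norm bound for vectors of `W`. -/
theorem W_norm_le {x : K} (hx : x ∈ T.W) {c : ℝ} (hc : 0 ≤ c)
    (h : ∀ y ∈ T.N, ‖⟪y T.ζ, x⟫_ℂ‖ ≤ c * ‖y T.ζ‖) : ‖x‖ ≤ c := by
  have h1 : ∀ z ∈ T.W, ‖⟪z, x⟫_ℂ‖ ≤ c * ‖z‖ := by
    intro z hz
    have h2 : (T.W : Set K) ⊆ {z | ‖⟪z, x⟫_ℂ‖ ≤ c * ‖z‖} := by
      refine closure_minimal ?_ (isClosed_le (by fun_prop) (by fun_prop))
      rintro _ ⟨y, hy, rfl⟩
      exact h y hy
    exact h2 hz
  have h3 := h1 x hx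
  rw [inner_self_eq_norm_sq_to_K] at h3
  have h4 : ‖((‖x‖ : ℂ)) ^ 2‖ = ‖x‖ * ‖x‖ := by
    rw [norm_pow, Complex.norm_real, norm_norm, pow_two]
  have h5 : ‖x‖ * ‖x‖ ≤ c * ‖x‖ := h4 ▸ h3
  rcases (norm_nonneg x).eq_or_lt with h0 | h0
  · rw [← h0]; exact hc
  · exact le_of_mul_le_mul_right h5 h0

/-- The vector `ζ` is separating for `N`. -/
theorem sep {y : K →L[ℂ] K} (hy : y ∈ T.N) (h : y T.ζ = 0) : y = 0 := by
  have h1 : Set.EqOn (fun x => y x) (fun _ => (0 : K)) {x : K | ∃ m ∈ Com T.N, x = m T.ζ} := by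
    rintro _ ⟨m, hm, rfl⟩
    show y (m T.ζ) = 0
    rw [T.comm hy hm, h, map_zero]
  have h2 := Continuous.ext_on T.cyc y.continuous continuous_const h1
  exact ContinuousLinearMap.ext fun x => congrFun h2 x

/-- The trace property in terms of norms. -/
theorem norm_star_ζ {y : K →L[ℂ] K} (hy : y ∈ T.N) : ‖star y T.ζ‖ = ‖y T.ζ‖ := by
  have h1 : ∀ z : K →L[ℂ] K, ((‖z T.ζ‖ ^ 2 : ℝ) : ℂ) = ⟪T.ζ, star z (z T.ζ)⟫_ℂ := by
    intro z
    rw [star_eq_adjoint, adjoint_inner_right, inner_self_eq_norm_sq_to_K]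
    push_cast
    rfl
  have h2 := h1 (star y)
  rw [star_star, T.tr y hy (star y) (star_mem hy), ← h1 y] at h2
  have h3 : ‖star y T.ζ‖ ^ 2 = ‖y T.ζ‖ ^ 2 := by exact_mod_cast h2
  exact (sq_eq_sq₀ (norm_nonneg _) (norm_nonneg _)).mp h3

/-- The trace property on the side of the commutant. -/
theorem norm_e_star {b : K →L[ℂ] K} (hb : b ∈ T.M) :
    ‖T.e (star b T.ζ)‖ = ‖T.e (b T.ζ)‖ := by
  have key : ∀ b ∈ T.M, ‖T.e (star b T.ζ)‖ ≤ ‖T.e (b T.ζ)‖ := by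
    intro b hb
    refine T.W_norm_le (T.e_apply_mem _) (norm_nonneg _) fun y hy => ?_
    have he : ∀ z x : K, ⟪z, T.e x⟫_ℂ = ⟪T.e z, x⟫_ℂ := fun z x => by
      conv_lhs => rw [← T.e_star]
      rw [star_eq_adjoint, adjoint_inner_right]
    have h1 : ⟪y T.ζ, T.e (star b T.ζ)⟫_ℂ = ⟪T.e (b T.ζ), star y T.ζ⟫_ℂ := by
      rw [he, T.e_N hy, star_eq_adjoint, adjoint_inner_right, ← T.comm hy hb,
        ← adjoint_inner_right, ← star_eq_adjoint]
      conv_rhs => rw [← T.e_star, star_eq_adjoint, adjoint_inner_left]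
      rw [T.e_N (star_mem hy)]
    rw [h1, ← T.norm_star_ζ hy]
    exact norm_inner_le_norm _ _
  have h1 := key b hb
  have h2 := key (star b) (star_mem hb)
  rw [star_star] at h2
  exact le_antisymm h1 h2

end TF

end Pool.Agent.MP_86f3ed.Sf
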