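import Pool.Agent.H.MP_86f3ed_an.Sf.Rows
import Pool.Agent.H.MP_86f3ed_an.Pin.Conv

open scoped InnerProductSpace Topology ENNReal
open Filter ContinuousLinearMap

namespace Pool.Agent.MP_86f3ed.Sf

open Pin

variable {K : Type*} [NormedAddCommGroup K] [InnerProductSpace ℂ K] [CompleteSpace K]

namespace TF

variable (T : TF K)

theorem Bd.nonneg {T : TF K} {C : ℝ} {ξ : HH K} (h : T.Bd C ξ) : 0 ≤ C := h.1

theorem Bd_zero : T.Bd 0 0 := by
  refine ⟨le_rfl, fun y _ => ?_⟩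
  rw [map_zero, norm_zero]
  simp

theorem Bd.mono {T : TF K} {C C' : ℝ} {ξ : HH K} (h : T.Bd C ξ) (hC : C ≤ C') : T.Bd C' ξ := by
  refine ⟨h.1.trans hC, fun y hy => (h.2 y hy).trans ?_⟩
  exact mul_le_mul_left (ENNReal.ofReal_le_ofReal (pow_le_pow_left₀ h.1 hC 2)) _

/-- The square root form of the inequality. -/
theorem bdprops_iff {C r : ℝ} (hC : 0 ≤ C) (hr : 0 ≤ r) (W : ℝ≥0∞) :
    ENNReal.ofReal (r ^ 2) ≤ ENNReal.ofReal (C ^ 2) * W ↔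
      ENNReal.ofReal r ≤ ENNReal.ofReal C * W ^ (1 / 2 : ℝ) := by
  have h1 : W = (W ^ (1 / 2 : ℝ)) ^ 2 := by
    rw [← ENNReal.rpow_natCast, ← ENNReal.rpow_mul]
    norm_num
  conv_lhs => rw [h1]
  rw [ENNReal.ofReal_pow hr, ENNReal.ofReal_pow hC, ← mul_pow]
  constructor
  · intro h
    by_contra h2
    rw [not_le] at h2
    exact absurd h (not_le.2 (ENNReal.pow_lt_pow_left two_ne_zero h2))
  · intro h
    exact pow_le_pow_left' h 2

theorem Bd.add {T : TF K} {C C' : ℝ} {ξ ξ' : HH K} (h : T.Bd C ξ) (h' : T.Bd C' ξ') :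
    T.Bd (C + C') (ξ + ξ') := by
  refine ⟨add_nonneg h.1 h'.1, fun y hy => ?_⟩
  rw [bdprops_iff (add_nonneg h.1 h'.1) (norm_nonneg _), map_add,
    ENNReal.ofReal_add h.1 h'.1, add_mul]
  have h1 := (bdprops_iff h.1 (norm_nonneg _) _).1 (h.2 y hy)
  have h2 := (bdprops_iff h'.1 (norm_nonneg _) _).1 (h'.2 y hy)
  refine (ENNReal.ofReal_le_ofReal (norm_add_le _ _)).trans ?_
  rw [ENNReal.ofReal_add (norm_nonneg _) (norm_nonneg _)]
  exact add_le_add h1 h2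

/-- Scaling. -/
theorem bdprops_scale {C r c u : ℝ} {W : ℝ≥0∞}
    (h : ENNReal.ofReal (r ^ 2) ≤ ENNReal.ofReal (C ^ 2) * W) (hu : 0 ≤ u) (hur : u ≤ c * r) :
    ENNReal.ofReal (u ^ 2) ≤ ENNReal.ofReal ((c * C) ^ 2) * W := by
  have h1 : ENNReal.ofReal (u ^ 2) ≤ ENNReal.ofReal (c ^ 2) * ENNReal.ofReal (r ^ 2) := by
    rw [← ENNReal.ofReal_mul (by positivity), ← mul_pow]
    exact ENNReal.ofReal_le_ofReal (pow_le_pow_left₀ hu hur 2)
  refine h1.trans ?_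
  rw [mul_pow, ENNReal.ofReal_mul (by positivity), mul_assoc]
  exact mul_le_mul_right h _

theorem Bd.smul {T : TF K} {C : ℝ} {ξ : HH K} (c : ℂ) (h : T.Bd C ξ) :
    T.Bd (‖c‖ * C) (c • ξ) := by
  refine ⟨mul_nonneg (norm_nonneg _) h.1, fun y hy => ?_⟩
  refine bdprops_scale (h.2 y hy) (norm_nonneg _) ?_
  rw [map_smul, norm_smul]

theorem Bd.left {T : TF K} {C : ℝ} {ξ : HH K} (h : T.Bd C ξ) {x : HH K →L[ℂ] HH K}
    (hx : x ∈ T.MH) : T.Bd (‖x‖ * C) (x ξ) := by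
  refine ⟨mul_nonneg (norm_nonneg _) h.1, fun y hy => ?_⟩
  refine bdprops_scale (h.2 y hy) (norm_nonneg _) ?_
  have h1 : y (x ξ) = x (y ξ) :=
    congrArg (fun S : HH K →L[ℂ] HH K => S ξ) (mem_Com.mp hx y hy)
  rw [h1]
  exact x.le_opNorm _

theorem Bd.right {T : TF K} {C : ℝ} {ξ : HH K} (h : T.Bd C ξ) {y : HH K →L[ℂ] HH K}
    (hy : y ∈ T.NH) : T.Bd (‖y‖ * C) (y ξ) := by
  refine ⟨mul_nonneg (norm_nonneg _) h.1, fun y' hy' => ?_⟩
  refine (h.2 (y' * y) (mul_mem hy' hy)).trans ?_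
  refine (mul_le_mul_right (T.wt_mul_le hy' hy) _).trans (le_of_eq ?_)
  rw [mul_pow, ENNReal.ofReal_mul (by positivity), ← mul_assoc,
    mul_comm (ENNReal.ofReal (C ^ 2))]

theorem bdprops_real {C C' p q a b : ℝ} (ha : 0 ≤ a) (hb : 0 ≤ b)
    (h1 : p ^ 2 ≤ C ^ 2 * a) (h2 : q ^ 2 ≤ C' ^ 2 * b) :
    (p + q) ^ 2 ≤ (C ^ 2 + C' ^ 2) * (a + b) := by
  have hX : 0 ≤ C ^ 2 * b := by positivity
  have hY : 0 ≤ C' ^ 2 * a := by positivity
  have h3 : (2 * (p * q)) ^ 2 ≤ (C ^ 2 * b + C' ^ 2 * a) ^ 2 := by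
    have h4 : p ^ 2 * q ^ 2 ≤ (C ^ 2 * a) * (C' ^ 2 * b) :=
      mul_le_mul h1 h2 (by positivity) (by positivity)
    nlinarith [sq_nonneg (C ^ 2 * b - C' ^ 2 * a)]
  have h5 : 2 * (p * q) ≤ C ^ 2 * b + C' ^ 2 * a :=
    le_trans (le_abs_self _) (abs_le_of_sq_le_sq h3 (by positivity))
  nlinarith

theorem Bd.merge {T : TF K} {C C' : ℝ} {ξ ξ' : HH K} (h : T.Bd C ξ) (h' : T.Bd C' ξ')
    {v w : HH K →L[ℂ] HH K} (hv : v ∈ T.NH) (hw : w ∈ T.NH) (hvv : star v * v = 1)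
    (hww : star w * w = 1) (hvw : star v * w = 0) :
    T.Bd (Real.sqrt (C ^ 2 + C' ^ 2)) (v ξ + w ξ') := by
  refine ⟨Real.sqrt_nonneg _, fun y hy => ?_⟩
  rw [Real.sq_sqrt (by positivity)]
  have h1 := h.2 (y * v) (mul_mem hy hv)
  have h2 := h'.2 (y * w) (mul_mem hy hw)
  have h3 := T.wt_merge hy hv hw hvv hww hvw
  have e1 : (y * v) ξ = y (v ξ) := rfl
  have e2 : (y * w) ξ' = y (w ξ') := rfl
  rw [e1] at h1
  rw [e2] at h2
  rw [map_add]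
  set A := wt T.ζ (y * v)
  set B := wt T.ζ (y * w)
  set W := wt T.ζ y
  have hp : 0 ≤ ‖y (v ξ)‖ := norm_nonneg _
  have hq : 0 ≤ ‖y (w ξ')‖ := norm_nonneg _
  have hn : ‖y (v ξ) + y (w ξ')‖ ^ 2 ≤ (‖y (v ξ)‖ + ‖y (w ξ')‖) ^ 2 :=
    pow_le_pow_left₀ (norm_nonneg _) (norm_add_le _ _) 2
  refine (ENNReal.ofReal_le_ofReal hn).trans ?_
  by_cases hW : W = ⊤
  · by_cases hC : C ^ 2 + C' ^ 2 = 0
    · have hC1 : C ^ 2 = 0 := by nlinarith [sq_nonneg C, sq_nonneg C']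
      have hC2 : C' ^ 2 = 0 := by nlinarith [sq_nonneg C, sq_nonneg C']
      rw [hC1, ENNReal.ofReal_zero, zero_mul, nonpos_iff_eq_zero, ENNReal.ofReal_eq_zero] at h1
      rw [hC2, ENNReal.ofReal_zero, zero_mul, nonpos_iff_eq_zero, ENNReal.ofReal_eq_zero] at h2
      have h4 : ‖y (v ξ)‖ = 0 := by nlinarith [sq_nonneg ‖y (v ξ)‖]
      have h5 : ‖y (w ξ')‖ = 0 := by nlinarith [sq_nonneg ‖y (w ξ')‖]
      rw [h4, h5]
      simp
    · rw [hW, ENNReal.mul_top]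
      · exact le_top
      · have : 0 < C ^ 2 + C' ^ 2 := lt_of_le_of_ne (by positivity) (Ne.symm hC)
        simpa using this
  · have hA : A ≠ ⊤ := fun e => hW (top_le_iff.1 (by
      refine le_trans ?_ h3
      rw [e]
      simp))
    have hB : B ≠ ⊤ := fun e => hW (top_le_iff.1 (by
      refine le_trans ?_ h3
      rw [e]
      simp))
    have h4 : ‖y (v ξ)‖ ^ 2 ≤ C ^ 2 * A.toReal := by
      rw [← ENNReal.ofReal_toReal hA, ← ENNReal.ofReal_mul (by positivity),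
        ENNReal.ofReal_le_ofReal_iff (by positivity)] at h1
      exact h1
    have h5 : ‖y (w ξ')‖ ^ 2 ≤ C' ^ 2 * B.toReal := by
      rw [← ENNReal.ofReal_toReal hB, ← ENNReal.ofReal_mul (by positivity),
        ENNReal.ofReal_le_ofReal_iff (by positivity)] at h2
      exact h2
    have h6 := bdprops_real ENNReal.toReal_nonneg ENNReal.toReal_nonneg h4 h5
    refine (ENNReal.ofReal_le_ofReal h6).trans ?_
    rw [ENNReal.ofReal_mul (by positivity), ENNReal.ofReal_add ENNReal.toReal_nonneg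
      ENNReal.toReal_nonneg, ENNReal.ofReal_toReal hA, ENNReal.ofReal_toReal hB]
    exact mul_le_mul_right h3 _

theorem Bd.shift {T : TF K} {C : ℝ} {ξ : HH K} (h : T.Bd C ξ)
    {v w : HH K →L[ℂ] HH K} (hv : v ∈ T.NH) (hw : w ∈ T.NH) (hvv : star v * v = 1)
    (hww : star w * w = 1) (hvw : star v * w = 0) {a b : HH K →L[ℂ] HH K} (ha : a ∈ T.MH)
    (hb : b ∈ T.MH) (haa : star a * a = 1) (hbb : star b * b = 1) (hab : star a * b = 0) :
    T.Bd C (v (a ξ) + w (b ξ)) := by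
  refine ⟨h.1, fun y hy => ?_⟩
  have e1 : y (v (a ξ)) = a (y (v ξ)) :=
    congrArg (fun S : HH K →L[ℂ] HH K => S ξ) (mem_Com.mp ha (y * v) (mul_mem hy hv))
  have e2 : y (w (b ξ)) = b (y (w ξ)) :=
    congrArg (fun S : HH K →L[ℂ] HH K => S ξ) (mem_Com.mp hb (y * w) (mul_mem hy hw))
  rw [map_add, e1, e2, norm_sq_orth haa hbb hab, ENNReal.ofReal_add (by positivity)
    (by positivity)]
  have h1 := h.2 (y * v) (mul_mem hy hv)
  have h2 := h.2 (y * w) (mul_mem hy hw)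
  have h3 := T.wt_merge hy hv hw hvv hww hvw
  refine (add_le_add h1 h2).trans ?_
  rw [← mul_add]
  exact mul_le_mul_right h3 _

theorem Bd_e (j : ℕ) : T.Bd 1 (inc j T.ζ) := by
  refine ⟨zero_le_one, fun y _ => ?_⟩
  rw [one_pow, ENNReal.ofReal_one, one_mul]
  exact ENNReal.le_tsum (f := fun j => ENNReal.ofReal (‖y (inc j T.ζ)‖ ^ 2)) j

end TF

end Pool.Agent.MP_86f3ed.Sf
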