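import Pool.Agent.H.MP_86f3ed_an.Sf.Tom

open scoped InnerProductSpace Topology
open Filter ContinuousLinearMap

namespace Pool.Agent.MP_86f3ed.Sf

open Pin

variable {K : Type*} [NormedAddCommGroup K] [InnerProductSpace ℂ K] [CompleteSpace K]

theorem polar_ext (g : K →L[ℂ] K) {S S' : K →L[ℂ] K} (h1 : ∀ v, S (g v) = S' (g v))
    (h2 : ∀ x, (∀ v, ⟪g v, x⟫_ℂ = 0) → S x = S' x) : S = S' := by
  let L : Submodule ℂ K := (LinearMap.range (g : K →ₗ[ℂ] K)).topologicalClosure
  haveI : CompleteSpace L :=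
    (LinearMap.range (g : K →ₗ[ℂ] K)).isClosed_topologicalClosure.completeSpace_coe
  have hL : ∀ x ∈ L, S x = S' x := by
    intro x hx
    have h : (L : Set K) ⊆ {x | S x = S' x} := by
      refine closure_minimal ?_ (isClosed_eq S.continuous S'.continuous)
      rintro _ ⟨v, rfl⟩
      exact h1 v
    exact h hx
  ext x
  have hx : x = L.starProjection x + (x - L.starProjection x) := by abel
  have hx1 : S (L.starProjection x) = S' (L.starProjection x) :=
    hL _ (Submodule.starProjection_apply_mem L x)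
  have hx2 : S (x - L.starProjection x) = S' (x - L.starProjection x) := by
    refine h2 _ fun v => ?_
    have h3 : x - L.starProjection x ∈ Lᗮ := L.sub_starProjection_mem_orthogonal x
    exact (Submodule.mem_orthogonal L _).mp h3 (g v)
      (Submodule.le_topologicalClosure _ ⟨v, rfl⟩)
  rw [hx, map_add, map_add, hx1, hx2]

/-- The partial isometry of a nonzero operator of a von Neumann algebra. -/
theorem exists_polar (𝔓 : StarSubalgebra ℂ (K →L[ℂ] K)) {b : K →L[ℂ] K} (hb : b ∈ Com 𝔓)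
    (hb0 : b ≠ 0) :
    ∃ w ∈ Com 𝔓, w ≠ 0 ∧ w * star w * w = w ∧
      (∀ p : K →L[ℂ] K, star p = p → b * p = b → w * p = w) ∧
      (∀ q : K →L[ℂ] K, q * b = b → q * w = w) := by
  obtain ⟨g, hg, hgs, hgg, hg0⟩ := exists_root 𝔓 (x := b) (mul_mem (star_mem hb) hb)
  have hadj : ∀ x y, ⟪g x, y⟫_ℂ = ⟪x, g y⟫_ℂ := by
    intro x y
    conv_lhs => rw [← hgs]
    rw [star_eq_adjoint, adjoint_inner_left]
  have hggb : ∀ x, g (g x) = star b (b x) := fun x =>
    congrArg (fun T : K →L[ℂ] K => T x) hgg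
  have hnorm : ∀ x, ‖b x‖ = ‖g x‖ := by
    intro x
    have h1 : ⟪b x, b x⟫_ℂ = ⟪g x, g x⟫_ℂ := by
      rw [hadj x (g x), hggb, star_eq_adjoint, adjoint_inner_right]
    rw [inner_self_eq_norm_sq_to_K, inner_self_eq_norm_sq_to_K] at h1
    have h2 : ‖b x‖ ^ 2 = ‖g x‖ ^ 2 := by exact_mod_cast h1
    exact (sq_eq_sq₀ (norm_nonneg _) (norm_nonneg _)).mp h2
  obtain ⟨w, hw1, hwg, hw0⟩ := exists_ext (g : K →ₗ[ℂ] K) (b : K →ₗ[ℂ] K) (C := 1)
    zero_le_one (fun v => by rw [one_mul]; exact (hnorm v).le)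
  replace hwg : ∀ v, w (g v) = b v := hwg
  replace hw0 : ∀ x, (∀ v, ⟪g v, x⟫_ℂ = 0) → w x = 0 := hw0
  have hcomg : ∀ m ∈ 𝔓, ∀ v, m (g v) = g (m v) := fun m hm v =>
    congrArg (fun T : K →L[ℂ] K => T v) (mem_Com.mp hg m hm)
  have hcomb : ∀ m ∈ 𝔓, ∀ v, m (b v) = b (m v) := fun m hm v =>
    congrArg (fun T : K →L[ℂ] K => T v) (mem_Com.mp hb m hm)
  have hwcom : w ∈ Com 𝔓 := by
    rw [mem_Com]
    intro m hm
    ext x
    exact (ext_comm (g : K →ₗ[ℂ] K) (b : K →ₗ[ℂ] K) hwg hw0 m m
      (fun v => ⟨m v, hcomg m hm v, hcomb m hm v⟩)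
      (fun v => ⟨star m v, hcomg (star m) (star_mem hm) v⟩) x).symm
  have hker : ∀ x, (∀ v, ⟪g v, x⟫_ℂ = 0) → g x = 0 := by
    intro x hx
    have h1 := hx (g x)
    rw [hadj] at h1
    exact inner_self_eq_zero.mp h1
  have hbw : star b * w = g := by
    refine polar_ext g (fun v => ?_) (fun x hx => ?_)
    · show star b (w (g v)) = g (g v)
      rw [hwg, hggb]
    · show star b (w x) = g x
      rw [hw0 x hx, hker x hx, map_zero]
  have hwb : star w * b = g := by
    have := congrArg star hbw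
    rwa [star_mul, star_star, hgs] at this
  have hwb' : ∀ x, star w (b x) = g x := fun x => congrArg (fun T : K →L[ℂ] K => T x) hwb
  refine ⟨w, hwcom, ?_, ?_, ?_, ?_⟩
  · intro h
    apply hb0
    ext x
    rw [← hwg, h]
    rfl
  · refine polar_ext g (fun v => ?_) (fun x hx => ?_)
    · show w (star w (w (g v))) = w (g v)
      rw [hwg, hwb', hwg]
    · show w (star w (w x)) = w x
      rw [hw0 x hx, map_zero, map_zero]
  · intro p hps hbp
    have h1 : star b * b * (1 - p) = 0 := by
      rw [mul_assoc, mul_sub, mul_one, hbp, sub_self, mul_zero]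
    have h2 := hg0 _ h1
    have h3 : g * p = g := by
      rw [mul_sub, mul_one, sub_eq_zero] at h2
      exact h2.symm
    have h4 : p * g = g := by
      have := congrArg star h3
      rwa [star_mul, hps, hgs] at this
    have h5 : ∀ v, p (g v) = g v := fun v => congrArg (fun T : K →L[ℂ] K => T v) h4
    refine polar_ext g (fun v => ?_) (fun x hx => ?_)
    · show w (p (g v)) = w (g v)
      rw [h5]
    · show w (p x) = w x
      rw [hw0 x hx]
      refine hw0 _ fun v => ?_
      have h6 : ⟪g v, p x⟫_ℂ = ⟪p (g v), x⟫_ℂ := by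
        conv_rhs => rw [← hps]
        rw [star_eq_adjoint, adjoint_inner_left]
      rw [h6, h5, hx v]
  · intro q hqb
    have h1 : ∀ v, q (b v) = b v := fun v => congrArg (fun T : K →L[ℂ] K => T v) hqb
    refine polar_ext g (fun v => ?_) (fun x hx => ?_)
    · show q (w (g v)) = w (g v)
      rw [hwg, h1]
    · show q (w x) = w x
      rw [hw0 x hx, map_zero]

/-- Two nonzero projections of a factor are linked by a nonzero partial isometry. -/
theorem exists_link (𝔓 : StarSubalgebra ℂ (K →L[ℂ] K))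
    (hfac : ∀ x ∈ Com 𝔓, x ∈ Com (Com 𝔓) → ∃ c : ℂ, x = c • (1 : K →L[ℂ] K))
    {p q : K →L[ℂ] K} (hp : p ∈ Com 𝔓) (hps : star p = p) (hpp : p * p = p) (hp0 : p ≠ 0)
    (hq : q ∈ Com 𝔓) (hqs : star q = q) (hqq : q * q = q) (hq0 : q ≠ 0) :
    ∃ w ∈ Com 𝔓, w ≠ 0 ∧ w * star w * w = w ∧ w * p = w ∧ q * w = w := by
  have key : ∃ x ∈ Com 𝔓, q * x * p ≠ 0 := by
    by_contra hcon
    push Not at hcon
    let L₀ : Submodule ℂ K := Submodule.span ℂ {y | ∃ x ∈ Com 𝔓, ∃ v, y = x (p v)}
    let L : Submodule ℂ K := L₀.topologicalClosure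
    haveI : CompleteSpace L := L₀.isClosed_topologicalClosure.completeSpace_coe
    have hinv : ∀ a : K →L[ℂ] K, (∀ x ∈ Com 𝔓, ∀ v, ∃ x' ∈ Com 𝔓, ∃ v', a (x (p v)) = x' (p v')) →
        ∀ v ∈ L, a v ∈ L := by
      intro a ha
      have h0 : ∀ v ∈ L₀, a v ∈ L₀ := by
        intro v hv
        refine Submodule.span_induction (p := fun v _ => a v ∈ L₀) ?_ ?_ ?_ ?_ hv
        · rintro _ ⟨x, hx, v, rfl⟩
          obtain ⟨x', hx', v', h'⟩ := ha x hx v
          rw [h']
          exact Submodule.subset_span ⟨x', hx', v', rfl⟩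
        · rw [map_zero]; exact zero_mem _
        · intro u v _ _ hu hv
          rw [map_add]; exact add_mem hu hv
        · intro c u _ hu
          rw [map_smul]; exact Submodule.smul_mem _ c hu
      have h1 : (L : Set K) ⊆ a ⁻¹' L := by
        refine closure_minimal ?_ (L₀.isClosed_topologicalClosure.preimage a.continuous)
        intro v hv
        exact Submodule.le_topologicalClosure _ (h0 v hv)
      exact fun v hv => h1 hv
    have hz1 : L.starProjection ∈ Com 𝔓 := by
      refine proj_mem_Com 𝔓 L fun m hm v hv => hinv m (fun x hx v => ⟨x, hx, m v, ?_⟩) v hv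
      have h1 : m * x = x * m := mem_Com.mp hx m hm
      have h2 : m * p = p * m := mem_Com.mp hp m hm
      have h3 : m * (x * p) = x * p * m := by
        rw [← mul_assoc, h1, mul_assoc, h2, mul_assoc]
      exact congrArg (fun T : K →L[ℂ] K => T v) h3
    have hz2 : L.starProjection ∈ Com (Com 𝔓) := by
      refine proj_mem_Com (Com 𝔓) L fun a ha v hv => hinv a (fun x hx v => ⟨a * x, ?_, v, rfl⟩) v hv
      exact mul_mem ha hx
    obtain ⟨c, hc⟩ := hfac _ hz1 hz2
    have hpne : ∃ v, p v ≠ 0 := by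
      by_contra hno
      push Not at hno
      exact hp0 (ContinuousLinearMap.ext hno)
    obtain ⟨v, hv⟩ := hpne
    have h1 : L.starProjection (p v) = p v := by
      rw [Submodule.starProjection_eq_self_iff]
      exact Submodule.le_topologicalClosure _ (Submodule.subset_span ⟨1, one_mem _, v, rfl⟩)
    rw [hc] at h1
    have h2 : (c - 1) • p v = 0 := by
      rw [sub_smul, one_smul, sub_eq_zero]
      exact h1
    have hc1 : c = 1 := by
      rcases smul_eq_zero.mp h2 with h3 | h3
      · exact sub_eq_zero.mp h3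
      · exact absurd h3 hv
    rw [hc1, one_smul] at hc
    have hq1 : (L : Set K) ⊆ {y | q y = 0} := by
      refine closure_minimal ?_ (isClosed_eq q.continuous continuous_const)
      intro y hy
      refine Submodule.span_induction (p := fun y _ => q y = 0) ?_ ?_ ?_ ?_ hy
      · rintro _ ⟨x, hx, v, rfl⟩
        exact congrArg (fun T : K →L[ℂ] K => T v) (hcon x hx)
      · exact map_zero q
      · intro u v _ _ hu hv
        rw [map_add, hu, hv, add_zero]
      · intro c u _ hu
        rw [map_smul, hu, smul_zero]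
    apply hq0
    ext y
    have h3 : L.starProjection y = y := by rw [hc]; rfl
    have h4 : y ∈ L := by rw [← h3]; exact Submodule.starProjection_apply_mem L y
    exact hq1 h4
  obtain ⟨x, hx, hne⟩ := key
  obtain ⟨w, hw, hw0, hww, hwp, hwq⟩ := exists_polar 𝔓 (mul_mem (mul_mem hq hx) hp) hne
  refine ⟨w, hw, hw0, hww, hwp p hps ?_, hwq q ?_⟩
  · rw [mul_assoc, hpp]
  · rw [← mul_assoc, ← mul_assoc, hqq]

end Pool.Agent.MP_86f3ed.Sf
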