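import Pool.Agent.H.MP_86f3ed_an.Sf.OSum
import Pool.Agent.H.MP_86f3ed_an.Sf.Polar

open scoped InnerProductSpace Topology
open Filter ContinuousLinearMap

namespace Pool.Agent.MP_86f3ed.Sf

open Pin

variable {K : Type*} [NormedAddCommGroup K] [InnerProductSpace ℂ K] [CompleteSpace K]

/-- families with orthogonal initial and final projections -/
def Comp_good (𝔓 : StarSubalgebra ℂ (K →L[ℂ] K)) (p q : K →L[ℂ] K) : Set (Set (K →L[ℂ] K)) :=
  {F | (∀ w ∈ F, w ∈ Com 𝔓 ∧ w ≠ 0 ∧ w * star w * w = w ∧ w * p = w ∧ q * w = w) ∧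
    ∀ w ∈ F, ∀ w' ∈ F, w ≠ w' → star w * w' = 0 ∧ w * star w' = 0}

theorem Comp_zorn (𝔓 : StarSubalgebra ℂ (K →L[ℂ] K)) (p q : K →L[ℂ] K) :
    ∃ F, Maximal (· ∈ Comp_good 𝔓 p q) F := by
  refine zorn_subset _ fun c hc hch => ⟨⋃₀ c, ⟨?_, ?_⟩, fun s hs => Set.subset_sUnion_of_mem hs⟩
  · rintro w ⟨s, hs, hw⟩
    exact (hc hs).1 w hw
  · rintro w ⟨s, hs, hw⟩ w' ⟨s', hs', hw'⟩ hne
    rcases hch.total hs hs' with h | h
    · exact (hc hs').2 w (h hw) w' hw' hne
    · exact (hc hs).2 w hw w' (h hw') hne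

/-- The comparison theorem for the projections of a factor. -/
theorem comparison (𝔓 : StarSubalgebra ℂ (K →L[ℂ] K))
    (hfac : ∀ x ∈ Com 𝔓, x ∈ Com (Com 𝔓) → ∃ c : ℂ, x = c • (1 : K →L[ℂ] K))
    {p q : K →L[ℂ] K} (hp : p ∈ Com 𝔓) (hps : star p = p) (hpp : p * p = p)
    (hq : q ∈ Com 𝔓) (hqs : star q = q) (hqq : q * q = q) :
    (∃ w ∈ Com 𝔓, star w * w = p ∧ q * w = w) ∨ (∃ w ∈ Com 𝔓, w * star w = q ∧ w * p = w) := by
  obtain ⟨F, hF⟩ := Comp_zorn 𝔓 p q
  obtain ⟨hF1, hF2⟩ := hF.1
  obtain ⟨v, hv, hvs, -, -, hvv⟩ := exists_osum (fun i : F => (i : K →L[ℂ] K))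
    (fun i => (hF1 i.1 i.2).2.2.1)
    (fun i j hij => (hF2 i.1 i.2 j.1 j.2 (fun h => hij (Subtype.ext h))).1)
    (fun i j hij => (hF2 i.1 i.2 j.1 j.2 (fun h => hij (Subtype.ext h))).2)
  have hvm : v ∈ Com 𝔓 := osum_mem 𝔓 _ (fun i : F => (hF1 i.1 i.2).1) hv
  have hvp : v * p = v := by
    ext x
    refine (hv (p x)).unique ?_
    have h1 : (fun i : F => (i : K →L[ℂ] K) (p x)) = fun i : F => (i : K →L[ℂ] K) x := by
      funext i
      exact congrArg (fun S : K →L[ℂ] K => S x) (hF1 i.1 i.2).2.2.2.1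
    rw [h1]
    exact hv x
  have hqv : q * v = v := by
    ext x
    have h2 := q.hasSum (hv x)
    have h1 : (fun i : F => q ((i : K →L[ℂ] K) x)) = fun i : F => (i : K →L[ℂ] K) x := by
      funext i
      exact congrArg (fun S : K →L[ℂ] K => S x) (hF1 i.1 i.2).2.2.2.2
    rw [h1] at h2
    exact h2.unique (hv x)
  have hpvs : p * star v = star v := by
    have := congrArg star hvp
    rwa [star_mul, hps] at this
  have hvsq : star v * q = star v := by
    have := congrArg star hqv
    rwa [star_mul, hqs] at this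
  -- sums tested against members
  have k1 : ∀ u ∈ F, v * star u = u * star u := by
    intro u hu
    ext x
    refine (hv (star u x)).unique ?_
    have h1 := hasSum_single (f := fun i : F => (i : K →L[ℂ] K) (star u x)) ⟨u, hu⟩
      (fun i hi => by
        have := (hF2 i.1 i.2 u hu (fun h => hi (Subtype.ext h))).2
        exact congrArg (fun S : K →L[ℂ] K => S x) this)
    exact h1
  have k2 : ∀ u ∈ F, star v * u = star u * u := by
    intro u hu
    ext x
    refine (hvs (u x)).unique ?_
    have h1 := hasSum_single (f := fun i : F => star (i : K →L[ℂ] K) (u x)) ⟨u, hu⟩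
      (fun i hi => by
        have := (hF2 i.1 i.2 u hu (fun h => hi (Subtype.ext h))).1
        exact congrArg (fun S : K →L[ℂ] K => S x) this)
    exact h1
  set p' : K →L[ℂ] K := p - star v * v with hp'
  set q' : K →L[ℂ] K := q - v * star v with hq'
  by_cases hp0 : p' = 0
  · left
    exact ⟨v, hvm, (sub_eq_zero.1 hp0).symm, hqv⟩
  by_cases hq0 : q' = 0
  · right
    exact ⟨v, hvm, (sub_eq_zero.1 hq0).symm, hvp⟩
  exfalso
  have hvsm : star v ∈ Com 𝔓 := star_mem hvm
  have e1 : star v * v * (star v * v) = star v * v := by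
    rw [mul_assoc, ← mul_assoc v, hvv]
  have e2 : v * star v * (v * star v) = v * star v := by
    rw [← mul_assoc, hvv]
  have p1 : star p' = p' := by
    rw [hp', star_sub, hps, star_mul, star_star]
  have q1 : star q' = q' := by
    rw [hq', star_sub, hqs, star_mul, star_star]
  have p2 : p' * p' = p' := by
    rw [hp', sub_mul, mul_sub, mul_sub, hpp, ← mul_assoc p, hpvs, mul_assoc (star v) v p, hvp, e1]
    simp
  have q2 : q' * q' = q' := by
    rw [hq', sub_mul, mul_sub, mul_sub, hqq, ← mul_assoc q, hqv, mul_assoc v (star v) q, hvsq, e2]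
    simp
  obtain ⟨w, hwm, hw0, hww, hwp, hqw⟩ := exists_link 𝔓 hfac
    (sub_mem hp (mul_mem hvsm hvm)) p1 p2 hp0 (sub_mem hq (mul_mem hvm hvsm)) q1 q2 hq0
  have m1 : ∀ u ∈ F, w * star u = 0 := by
    intro u hu
    have a1 : p * star u = star u := by
      have := congrArg star (hF1 u hu).2.2.2.1
      rwa [star_mul, hps] at this
    have a2 : star u * u * star u = star u := by
      have := congrArg star (hF1 u hu).2.2.1
      rwa [star_mul, star_mul, star_star, ← mul_assoc] at this
    have a3 : p' * star u = 0 := by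
      rw [hp', sub_mul, a1, mul_assoc, k1 u hu, ← mul_assoc, k2 u hu, a2, sub_self]
    rw [← hwp, mul_assoc, a3, mul_zero]
  have m2 : ∀ u ∈ F, star u * w = 0 := by
    intro u hu
    have a1 : star u * q = star u := by
      have := congrArg star (hF1 u hu).2.2.2.2
      rwa [star_mul, hqs] at this
    have a2 : star u * u * star u = star u := by
      have := congrArg star (hF1 u hu).2.2.1
      rwa [star_mul, star_mul, star_star, ← mul_assoc] at this
    have a4 : star u * v = star u * u := by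
      have := congrArg star (k2 u hu)
      rwa [star_mul, star_star, star_mul, star_star] at this
    have a5 : u * star v = u * star u := by
      have := congrArg star (k1 u hu)
      rwa [star_mul, star_star, star_mul, star_star] at this
    have a3 : star u * q' = 0 := by
      rw [hq', mul_sub, a1, ← mul_assoc, a4, mul_assoc, a5, ← mul_assoc, a2, sub_self]
    rw [← hqw, ← mul_assoc, a3, zero_mul]
  have hwF : w ∉ F := by
    intro h
    apply hw0
    rw [← hww, m1 w h, zero_mul]
  have hwp2 : w * p = w := by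
    have a1 : p' * p = p' := by
      rw [hp', sub_mul, hpp, mul_assoc, hvp]
    rw [← hwp, mul_assoc, a1]
  have hqw2 : q * w = w := by
    have a1 : q * q' = q' := by
      rw [hq', mul_sub, hqq, ← mul_assoc, hqv]
    rw [← hqw, ← mul_assoc, a1]
  have hins : insert w F ∈ Comp_good 𝔓 p q := by
    refine ⟨?_, ?_⟩
    · rintro u (rfl | hu)
      · exact ⟨hwm, hw0, hww, hwp2, hqw2⟩
      · exact hF1 u hu
    · rintro u (rfl | hu) u' (rfl | hu') hne
      · exact absurd rfl hne
      · refine ⟨?_, m1 u' hu'⟩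
        have := congrArg star (m2 u' hu')
        rwa [star_mul, star_star, star_zero] at this
      · refine ⟨m2 u hu, ?_⟩
        have := congrArg star (m1 u hu)
        rwa [star_mul, star_star, star_zero] at this
      · exact hF2 u hu u' hu' hne
  exact hwF (hF.2 hins (Set.subset_insert w F) (Set.mem_insert w F))

end Pool.Agent.MP_86f3ed.Sf
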