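import Pool.Agent.H.MP_86f3ed_an.Sf.Comp

open scoped InnerProductSpace Topology ENNReal
open Filter ContinuousLinearMap

namespace Pool.Agent.MP_86f3ed.Sf

open Pin

variable {K : Type*} [NormedAddCommGroup K] [InnerProductSpace ℂ K] [CompleteSpace K]

/-- Orthogonal copies of `p` below `s`. -/
def Copies (𝔓 : StarSubalgebra ℂ (K →L[ℂ] K)) (p s : K →L[ℂ] K) {n : ℕ}
    (V : Fin n → K →L[ℂ] K) : Prop :=
  (∀ i, V i ∈ Com 𝔓) ∧ (∀ i j, star (V i) * V j = if i = j then p else 0) ∧ ∀ i, s * V i = V i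

/-- If the number of orthogonal copies of `p` below `s` is bounded by `B` then `s` is the sum of at
most `B` copies of `p` and one incomplete copy. -/
theorem exists_pack (𝔓 : StarSubalgebra ℂ (K →L[ℂ] K))
    (hfac : ∀ x ∈ Com 𝔓, x ∈ Com (Com 𝔓) → ∃ c : ℂ, x = c • (1 : K →L[ℂ] K))
    {p s : K →L[ℂ] K} (hp : p ∈ Com 𝔓) (hps : star p = p) (hpp : p * p = p)
    (hs : s ∈ Com 𝔓) (hss : star s = s) (hsm : s * s = s) (B : ℕ)
    (hB : ∀ (n : ℕ) (V : Fin n → K →L[ℂ] K), Copies 𝔓 p s V → n ≤ B) :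
    ∃ (n : ℕ) (V : Fin n → K →L[ℂ] K) (W : K →L[ℂ] K), Copies 𝔓 p s V ∧ W ∈ Com 𝔓 ∧
      (∀ i, star (V i) * W = 0) ∧ W * star W * W = W ∧ W * p = W ∧ s * W = W ∧
      ∑ i, V i * star (V i) + W * star W = s := by
  let S : Set ℕ := {n | ∃ V : Fin n → K →L[ℂ] K, Copies 𝔓 p s V}
  have hS0 : (0 : ℕ) ∈ S :=
    ⟨fun i => i.elim0, fun i => i.elim0, fun i => i.elim0, fun i => i.elim0⟩
  have hSb : BddAbove S := ⟨B, fun n ⟨V, hV⟩ => hB n V hV⟩
  obtain ⟨V, hV⟩ := Nat.sSup_mem ⟨0, hS0⟩ hSb
  have hmax : ∀ m ∈ S, m ≤ sSup S := fun m hm => le_csSup hSb hm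
  generalize sSup S = n at V hV hmax
  obtain ⟨hV1, hV2, hV3⟩ := hV
  -- `V i p = V i`
  have hVp : ∀ i, V i * p = V i := by
    intro i
    have h1 : star (V i * (1 - p)) * (V i * (1 - p)) = 0 := by
      have h2 : star (V i) * V i = p := by rw [hV2, if_pos rfl]
      calc star (V i * (1 - p)) * (V i * (1 - p))
          = (1 - star p) * (star (V i) * V i) * (1 - p) := by
            rw [star_mul, star_sub, star_one]; noncomm_ring
        _ = 0 := by
            rw [h2, hps, sub_mul, one_mul, hpp, sub_self, zero_mul]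
    have h3 := (CStarRing.star_mul_self_eq_zero_iff _).1 h1
    rw [mul_sub, mul_one, sub_eq_zero] at h3
    exact h3.symm
  have hRmem : ∑ i, V i * star (V i) ∈ Com 𝔓 :=
    sum_mem fun i _ => mul_mem (hV1 i) (star_mem (hV1 i))
  have hRV : ∀ j, (∑ i, V i * star (V i)) * V j = V j := by
    intro j
    rw [Finset.sum_mul, Finset.sum_eq_single j]
    · rw [mul_assoc, hV2, if_pos rfl, hVp]
    · intro i _ hij
      rw [mul_assoc, hV2, if_neg hij, mul_zero]
    · intro h
      exact absurd (Finset.mem_univ j) h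
  have hRs : star (∑ i, V i * star (V i)) = ∑ i, V i * star (V i) := by
    rw [star_sum]
    exact Finset.sum_congr rfl fun i _ => by rw [star_mul, star_star]
  have hsR : s * (∑ i, V i * star (V i)) = ∑ i, V i * star (V i) := by
    rw [Finset.mul_sum]
    exact Finset.sum_congr rfl fun i _ => by rw [← mul_assoc, hV3]
  have hRsR : (∑ i, V i * star (V i)) * s = ∑ i, V i * star (V i) := by
    have h1 := congrArg star hsR
    rw [star_mul, hRs, hss] at h1
    exact h1
  have hRR : (∑ i, V i * star (V i)) * (∑ i, V i * star (V i)) = ∑ i, V i * star (V i) := by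
    conv_lhs => rw [Finset.mul_sum]
    exact Finset.sum_congr rfl fun i _ => by rw [← mul_assoc, hRV]
  generalize hRdef : ∑ i, V i * star (V i) = R at hRmem hRV hRs hsR hRsR hRR
  have hrmem : s - R ∈ Com 𝔓 := sub_mem hs hRmem
  have hrs : star (s - R) = s - R := by rw [star_sub, hss, hRs]
  have hrr : (s - R) * (s - R) = s - R := by
    rw [sub_mul, mul_sub, mul_sub, hsm, hsR, hRsR, hRR]
    abel
  have hsr : s * (s - R) = s - R := by rw [mul_sub, hsm, hsR]
  have hrV : ∀ j, (s - R) * V j = 0 := by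
    intro j
    rw [sub_mul, hV3, hRV, sub_self]
  have hVr : ∀ j, star (V j) * (s - R) = 0 := by
    intro j
    have h1 := congrArg star (hrV j)
    rw [star_mul, hrs, star_zero] at h1
    exact h1
  rcases comparison 𝔓 hfac hp hps hpp hrmem hrs hrr with ⟨w, hw, hw1, hw2⟩ | ⟨w, hw, hw1, hw2⟩
  · exfalso
    have hVw : ∀ j, star (V j) * w = 0 := by
      intro j
      rw [← hw2, ← mul_assoc, hVr, zero_mul]
    have hwV : ∀ j, star w * V j = 0 := by
      intro j
      have h1 := congrArg star (hVw j)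
      rw [star_mul, star_star, star_zero] at h1
      exact h1
    have hsw : s * w = w := by
      rw [← hw2, ← mul_assoc, hsr]
    have hmem : n + 1 ∈ S := by
      refine ⟨Fin.snoc V w, ?_, ?_, ?_⟩
      · intro i
        refine Fin.lastCases ?_ (fun i => ?_) i
        · rw [Fin.snoc_last]; exact hw
        · rw [Fin.snoc_castSucc]; exact hV1 i
      · intro i j
        refine Fin.lastCases ?_ (fun i => ?_) i
        · refine Fin.lastCases ?_ (fun j => ?_) j
          · rw [Fin.snoc_last, if_pos rfl, hw1]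
          · rw [Fin.snoc_last, Fin.snoc_castSucc, hwV, if_neg (Fin.castSucc_lt_last j).ne']
        · refine Fin.lastCases ?_ (fun j => ?_) j
          · rw [Fin.snoc_last, Fin.snoc_castSucc, hVw, if_neg (Fin.castSucc_lt_last i).ne]
          · rw [Fin.snoc_castSucc, Fin.snoc_castSucc, hV2]
            simp only [Fin.castSucc_inj]
      · intro i
        refine Fin.lastCases ?_ (fun i => ?_) i
        · rw [Fin.snoc_last]; exact hsw
        · rw [Fin.snoc_castSucc]; exact hV3 i
    have := hmax _ hmem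
    omega
  · have hrw : (s - R) * w = w := by
      have h1 : ((1 - (s - R)) * w) * star ((1 - (s - R)) * w) = 0 := by
        calc ((1 - (s - R)) * w) * star ((1 - (s - R)) * w)
            = (1 - (s - R)) * (w * star w) * (1 - star (s - R)) := by
              rw [star_mul, star_sub 1 (s - R), star_one]; noncomm_ring
          _ = 0 := by
              rw [hw1, hrs, sub_mul 1 (s - R) (s - R), one_mul, hrr, sub_self, zero_mul]
      have h2 := (CStarRing.mul_star_self_eq_zero_iff _).1 h1
      rw [sub_mul 1 (s - R) w, one_mul, sub_eq_zero] at h2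
      exact h2.symm
    refine ⟨n, V, w, ⟨hV1, hV2, hV3⟩, hw, ?_, ?_, hw2, ?_, ?_⟩
    · intro j
      rw [← hrw, ← mul_assoc, hVr, zero_mul]
    · rw [hw1, hrw]
    · rw [← hrw, ← mul_assoc, hsr]
    · rw [hRdef, hw1]
      abel

end Pool.Agent.MP_86f3ed.Sf
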