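import Pool.Agent.H.MP_86f3ed_an.Sf.IsRow
import Pool.Agent.H.MP_86f3ed_an.Sf.Pack
import Pool.Agent.H.MP_86f3ed_an.Sf.Count

open scoped InnerProductSpace Topology ENNReal
open Filter ContinuousLinearMap

namespace Pool.Agent.MP_86f3ed.Sf

open Pin

variable {K : Type*} [NormedAddCommGroup K] [InnerProductSpace ℂ K] [CompleteSpace K]

namespace TF

variable (T : TF K)

/-- The number of copies of `e` in a projection on which `Z Z*` is at least `c`. -/
theorem copies_le {Z : HH K →L[ℂ] K} {ξ : HH K} (h : T.IsRow Z ξ) {s : K →L[ℂ] K}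
    (hs : s ∈ T.M) (hss : star s = s) (hsm : s * s = s) {c : ℝ}
    (hc : ∀ x, c * ‖s x‖ ^ 2 ≤ ‖adjoint Z (s x)‖ ^ 2) {n : ℕ} (V : Fin n → K →L[ℂ] K)
    (hV : Copies T.N T.e s V) : n * c ≤ ‖amp s ξ‖ ^ 2 := by
  obtain ⟨hVM, hVV, hsV⟩ := hV
  have hxapp : ∀ j (x : K), (Z.comp (inc j)) x = Z (inc j x) := fun j x => rfl
  have hxM : ∀ j, Z.comp (inc j) ∈ T.M := by
    intro j
    refine mem_Com.mpr fun y hy => ContinuousLinearMap.ext fun x => ?_
    show y (Z (inc j x)) = Z (inc j (y x))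
    rw [← h.N y hy, amp_inc]
  have hxe : ∀ j, Z.comp (inc j) * T.e = Z.comp (inc j) := by
    intro j
    refine ContinuousLinearMap.ext fun x => ?_
    show Z (inc j (T.e x)) = Z (inc j x)
    rw [← amp_inc, h.e]
  have hxstar : ∀ j (x : K), star (Z.comp (inc j)) x = pr j (adjoint Z x) := by
    intro j x
    rw [star_eq_adjoint, adjoint_comp, adjoint_inc]
    rfl
  have hes : ∀ j, T.e * star (Z.comp (inc j)) = star (Z.comp (inc j)) := by
    intro j
    conv_rhs => rw [← hxe j]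
    rw [star_mul, T.e_star]
  have hVs : ∀ i, star (V i) * s = star (V i) := by
    intro i
    conv_rhs => rw [← hsV i]
    rw [star_mul, hss]
  have hnorme : ‖T.e‖ ≤ 1 := by
    refine ContinuousLinearMap.opNorm_le_bound _ zero_le_one fun x => ?_
    rw [one_mul]
    exact T.norm_e_le x
  have hVn : ∀ i, ‖V i‖ ≤ 1 := by
    intro i
    have h1 : ‖V i‖ * ‖V i‖ = ‖T.e‖ := by
      rw [← CStarRing.norm_star_mul_self, hVV, if_pos rfl]
    nlinarith [norm_nonneg (V i)]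
  have hVζ : ∀ i, ‖V i T.ζ‖ = 1 := by
    intro i
    have h1 : (⟪V i T.ζ, V i T.ζ⟫_ℂ) = 1 := by
      rw [Count_inner_star]
      have h2 : star (V i) (V i T.ζ) = T.ζ := by
        have h3 := congrArg (fun S : K →L[ℂ] K => S T.ζ) (hVV i i)
        rw [if_pos rfl] at h3
        exact h3.trans T.e_ζ
      rw [h2, inner_self_eq_norm_sq_to_K, T.norm_ζ]
      simp
    have h4 : ‖V i T.ζ‖ ^ 2 = 1 := by
      rw [← Count_re_self, h1, Complex.one_re]
    nlinarith [norm_nonneg (V i T.ζ)]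
  have hsVζ : ∀ i, s (V i T.ζ) = V i T.ζ := fun i =>
    congrArg (fun S : K →L[ℂ] K => S T.ζ) (hsV i)
  have hkey : ∀ i j, ‖pr j (adjoint Z (V i T.ζ))‖ ≤ ‖star (V i) (s (pr j ξ))‖ := by
    intro i j
    have hb : star (V i) * Z.comp (inc j) ∈ T.M := mul_mem (star_mem (hVM i)) (hxM j)
    have h1 : pr j (adjoint Z (V i T.ζ)) = T.e (star (star (V i) * Z.comp (inc j)) T.ζ) := by
      rw [← hxstar, ← hes j, star_mul, star_star]
      rfl
    rw [h1, T.norm_e_star hb]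
    refine (T.norm_e_le _).trans (le_of_eq ?_)
    have h2 : (star (V i) * Z.comp (inc j)) T.ζ = star (V i) (s (pr j ξ)) := by
      show star (V i) (Z (inc j T.ζ)) = star (V i) (s (pr j ξ))
      rw [h.ζ j]
      conv_lhs => rw [← hVs i]
      rfl
    rw [h2]
  have hsum1 : HasSum (fun j => ∑ i, ‖pr j (adjoint Z (V i T.ζ))‖ ^ 2)
      (∑ i, ‖adjoint Z (V i T.ζ)‖ ^ 2) :=
    hasSum_sum fun i _ => hasSum_norm_pr (adjoint Z (V i T.ζ))
  have hsum2 : HasSum (fun j => ‖pr j (amp s ξ)‖ ^ 2) (‖amp s ξ‖ ^ 2) := hasSum_norm_pr _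
  have hle : ∀ j, ∑ i, ‖pr j (adjoint Z (V i T.ζ))‖ ^ 2 ≤ ‖pr j (amp s ξ)‖ ^ 2 := by
    intro j
    rw [pr_amp]
    refine le_trans (Finset.sum_le_sum fun i _ =>
      pow_le_pow_left₀ (norm_nonneg _) (hkey i j) 2) ?_
    exact bessel_contr V hVn (fun i j hij => by rw [hVV, if_neg hij]) _
  have h1 : (∑ i, ‖adjoint Z (V i T.ζ)‖ ^ 2) ≤ ‖amp s ξ‖ ^ 2 := hasSum_le hle hsum1 hsum2
  refine le_trans ?_ h1
  have h2 : ∀ i : Fin n, c ≤ ‖adjoint Z (V i T.ζ)‖ ^ 2 := by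
    intro i
    have h3 := hc (V i T.ζ)
    rw [hsVζ i, hVζ i] at h3
    simpa using h3
  calc (n : ℝ) * c = ∑ _i : Fin n, c := by simp
    _ ≤ _ := Finset.sum_le_sum fun i _ => h2 i

end TF

end Pool.Agent.MP_86f3ed.Sf
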