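import Pool.Agent.H.MP_86f3ed_an.Sf.Ext

open scoped InnerProductSpace Topology
open Filter ContinuousLinearMap

namespace Pool.Agent.MP_86f3ed.Sf

open Pin

variable {K : Type*} [NormedAddCommGroup K] [InnerProductSpace ℂ K] [CompleteSpace K]

/-- A square root: for a positive operator `w = star x * x` of the star algebra `Com 𝔓` there is a
self-adjoint `g` in `Com 𝔓` with `g * g = w`, and `g * f = 0` whenever `w * f = 0`. -/
theorem exists_root (𝔓 : StarSubalgebra ℂ (K →L[ℂ] K)) {x : K →L[ℂ] K}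
    (hx : star x * x ∈ Com 𝔓) :
    ∃ g ∈ Com 𝔓, star g = g ∧ g * g = star x * x ∧
      ∀ f : K →L[ℂ] K, star x * x * f = 0 → g * f = 0 := by
  have h0 : (0 : K →L[ℂ] K) ≤ star x * x := star_mul_self_nonneg x
  have hg : CFC.sqrt (star x * x) * CFC.sqrt (star x * x) = star x * x :=
    CFC.sqrt_mul_sqrt_self _ h0
  have hsa : star (CFC.sqrt (star x * x)) = CFC.sqrt (star x * x) :=
    (CFC.sqrt_nonneg (star x * x)).isSelfAdjoint.star_eq
  refine ⟨CFC.sqrt (star x * x), ?_, hsa, hg, ?_⟩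
  · rw [mem_Com]
    intro a ha
    have h1 : Commute (star x * x) a := (mem_Com.1 hx a ha).symm
    exact (h1.cfcₙ_nnreal _).symm
  · intro f hf
    rw [← CStarRing.star_mul_self_eq_zero_iff, star_mul, hsa]
    calc star f * CFC.sqrt (star x * x) * (CFC.sqrt (star x * x) * f)
        = star f * (CFC.sqrt (star x * x) * CFC.sqrt (star x * x) * f) := by
          simp only [mul_assoc]
      _ = 0 := by rw [hg, hf, mul_zero]

namespace TF

variable (T : TF K)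

theorem Tom_inner_e (z x : K) : ⟪z, T.e x⟫_ℂ = ⟪T.e z, x⟫_ℂ := by
  conv_lhs => rw [← T.e_star]
  rw [star_eq_adjoint, adjoint_inner_right]

theorem Tom_inner_star (y : K →L[ℂ] K) (z x : K) : ⟪z, star y x⟫_ℂ = ⟪y z, x⟫_ℂ := by
  rw [star_eq_adjoint, adjoint_inner_right]

theorem Tom_inner_star' (y : K →L[ℂ] K) (z x : K) : ⟪y z, x⟫_ℂ = ⟪z, star y x⟫_ℂ := by
  rw [star_eq_adjoint, adjoint_inner_right]

theorem Tom_tr' {y z : K →L[ℂ] K} (hy : y ∈ T.N) (hz : z ∈ T.N) :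
    ⟪z (y T.ζ), T.ζ⟫_ℂ = ⟪y (z T.ζ), T.ζ⟫_ℂ := by
  rw [← inner_conj_symm, T.tr z hz y hy, inner_conj_symm]

/-- the map `z ↦ z ζ` on `N` -/
noncomputable def Tom_a (x : K) : T.N →ₗ[ℂ] K where
  toFun z := (z : K →L[ℂ] K) x
  map_add' _ _ := rfl
  map_smul' _ _ := rfl

theorem Tom_a_apply (x : K) (z : T.N) : T.Tom_a x z = (z : K →L[ℂ] K) x := rfl

/-- For `b` in `M` there is `q` in `N` with `q ζ = e b ζ` and `star q ζ = e (star b) ζ`. -/
theorem exists_tomita {b : K →L[ℂ] K} (hb : b ∈ T.M) :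
    ∃ q ∈ T.N, ‖q‖ ≤ ‖b‖ ∧ q T.ζ = T.e (b T.ζ) ∧ star q T.ζ = T.e (star b T.ζ) := by
  have hbs : star b ∈ T.M := star_mem hb
  have key : ∀ m ∈ T.M, ‖m (T.e (b T.ζ))‖ ≤ ‖b‖ * ‖m T.ζ‖ := by
    intro m hm
    have hxM : m * T.e ∈ T.M := mul_mem hm T.e_mem
    obtain ⟨g, hgM, hgs, hgg, hg0⟩ := exists_root T.N (mul_mem (star_mem hxM) hxM)
    have hx0 : star (m * T.e) * (m * T.e) * (1 - T.e) = 0 := by
      have h1 : T.e * (1 - T.e) = 0 := by rw [mul_sub, mul_one, T.e_mul_e, sub_self]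
      rw [mul_assoc, mul_assoc m, h1, mul_zero, mul_zero]
    have hge : g * T.e = g := by
      have h1 := hg0 _ hx0
      rw [mul_sub, mul_one, sub_eq_zero] at h1
      exact h1.symm
    have heg : T.e * g = g := by
      have h1 := congrArg star hge
      rw [star_mul, T.e_star, hgs] at h1
      exact h1
    have hnorm : ∀ v : K, ‖g v‖ = ‖(m * T.e) v‖ := by
      intro v
      have h1 : ∀ z : K →L[ℂ] K, ((‖z v‖ ^ 2 : ℝ) : ℂ) = ⟪v, (star z * z) v⟫_ℂ := by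
        intro z
        show ((‖z v‖ ^ 2 : ℝ) : ℂ) = ⟪v, star z (z v)⟫_ℂ
        rw [Tom_inner_star, inner_self_eq_norm_sq_to_K]
        push_cast
        rfl
      have h2 := h1 g
      rw [hgs, hgg, ← h1 (m * T.e)] at h2
      have h3 : ‖g v‖ ^ 2 = ‖(m * T.e) v‖ ^ 2 := by exact_mod_cast h2
      exact (sq_eq_sq₀ (norm_nonneg _) (norm_nonneg _)).mp h3
    have h1 : ‖m (T.e (b T.ζ))‖ = ‖g (b T.ζ)‖ := (hnorm (b T.ζ)).symm
    have h2 : g (b T.ζ) = T.e ((g * b) T.ζ) := by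
      show g (b T.ζ) = (T.e * g) (b T.ζ)
      rw [heg]
    have h3 := T.norm_e_star (mul_mem hgM hb)
    have h4 : star (g * b) T.ζ = star b (g T.ζ) := by
      rw [star_mul, hgs]
      rfl
    have h5 : ‖g T.ζ‖ = ‖m T.ζ‖ := by
      rw [hnorm]
      show ‖m (T.e T.ζ)‖ = _
      rw [T.e_ζ]
    rw [h1, h2, ← h3, h4]
    calc ‖T.e (star b (g T.ζ))‖ ≤ ‖star b (g T.ζ)‖ := T.norm_e_le _
      _ ≤ ‖star b‖ * ‖g T.ζ‖ := (star b).le_opNorm _
      _ = ‖b‖ * ‖m T.ζ‖ := by rw [norm_star, h5]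
  obtain ⟨q, hq, hqn, hqζ⟩ := exists_rn T.M T.ζ (T.e (b T.ζ)) (norm_nonneg b) key
  have hqN : q ∈ T.N := by
    rw [← T.bic]
    exact hq
  refine ⟨q, hqN, hqn, hqζ, ?_⟩
  apply T.W_ext (T.mem_W (star_mem hqN)) (T.e_apply_mem _)
  intro y hy
  rw [Tom_inner_star, ← T.Tom_tr' hqN hy, hqζ, Tom_inner_e, T.e_N hy, Tom_inner_star]
  have h1 : ⟪y (T.e (b T.ζ)), T.ζ⟫_ℂ = ⟪T.e (b T.ζ), star y T.ζ⟫_ℂ := by
    rw [Tom_inner_star']
  rw [h1, ← Tom_inner_e, T.e_N (star_mem hy), ← Tom_inner_star', T.comm hy hb]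

/-- For `y` in `N` there is `b` in `M` with `b ζ = y ζ`, `star b ζ = star y ζ` and
`b = b e = e b`. -/
theorem exists_pair {y : K →L[ℂ] K} (hy : y ∈ T.N) :
    ∃ b ∈ T.M, ‖b‖ ≤ ‖y‖ ∧ b T.ζ = y T.ζ ∧ star b T.ζ = star y T.ζ ∧ b * T.e = b ∧
      T.e * b = b := by
  have hbd : ∀ z : T.N, ‖T.Tom_a (y T.ζ) z‖ ≤ ‖y‖ * ‖T.Tom_a T.ζ z‖ := by
    intro z
    rw [Tom_a_apply, Tom_a_apply]
    have h1 := T.norm_star_ζ (mul_mem z.2 hy)
    have h2 : ((z : K →L[ℂ] K) * y) T.ζ = (z : K →L[ℂ] K) (y T.ζ) := rfl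
    have h3 : star ((z : K →L[ℂ] K) * y) T.ζ = star y (star (z : K →L[ℂ] K) T.ζ) := by
      rw [star_mul]
      rfl
    rw [h2, h3] at h1
    rw [← h1]
    calc ‖star y (star (z : K →L[ℂ] K) T.ζ)‖ ≤ ‖star y‖ * ‖star (z : K →L[ℂ] K) T.ζ‖ :=
          (star y).le_opNorm _
      _ = ‖y‖ * ‖(z : K →L[ℂ] K) T.ζ‖ := by rw [norm_star, T.norm_star_ζ z.2]
  obtain ⟨w, hwn, hw, hw0⟩ := exists_ext (T.Tom_a T.ζ) (T.Tom_a (y T.ζ)) (norm_nonneg y) hbd
  have hwz : ∀ z ∈ T.N, w (z T.ζ) = z (y T.ζ) := fun z hz => hw ⟨z, hz⟩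
  have hwM : w ∈ T.M := by
    rw [mem_Com]
    intro z hz
    refine ContinuousLinearMap.ext fun x => ?_
    have h1 := ext_comm (T.Tom_a T.ζ) (T.Tom_a (y T.ζ)) hw hw0 z z
      (fun v => ⟨⟨z * v, mul_mem hz v.2⟩, rfl, rfl⟩)
      (fun v => ⟨⟨star z * v, mul_mem (star_mem hz) v.2⟩, rfl⟩) x
    exact h1.symm
  have hwe : w * T.e = w := by
    refine ContinuousLinearMap.ext fun x => ?_
    show w (T.e x) = w x
    have h1 : w (x - T.e x) = 0 := by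
      apply hw0
      intro v
      rw [Tom_a_apply, inner_sub_right, Tom_inner_e, T.e_N v.2, sub_self]
    rw [map_sub, sub_eq_zero] at h1
    exact h1.symm
  have hmemW : ∀ x : K, w x ∈ T.W := by
    intro x
    have h1 : (T.W : Set K) ⊆ w ⁻¹' T.W := by
      refine closure_minimal ?_ (T.V.isClosed_topologicalClosure.preimage w.continuous)
      rintro _ ⟨z, hz, rfl⟩
      show w (z T.ζ) ∈ T.W
      rw [hwz z hz]
      exact T.mem_W (mul_mem hz hy)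
    rw [← hwe]
    exact h1 (T.e_apply_mem x)
  have hew : T.e * w = w := ContinuousLinearMap.ext fun x => T.e_eq (hmemW x)
  refine ⟨w, hwM, hwn, ?_, ?_, hwe, hew⟩
  · have h1 := hwz 1 (one_mem _)
    exact h1
  · apply T.W_ext _ (T.mem_W (star_mem hy))
    · intro z hz
      rw [Tom_inner_star, hwz z hz, Tom_inner_star, T.Tom_tr' hy hz]
    · have h1 := congrArg star hwe
      rw [star_mul, T.e_star] at h1
      rw [← h1]
      exact T.e_apply_mem _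

end TF

end Pool.Agent.MP_86f3ed.Sf
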