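import Pool.Agent.H.MP_86f3ed_an.Sf.MatTr
import Pool.Agent.H.MP_86f3ed_an.Sf.Tom

open scoped InnerProductSpace Topology ENNReal
open Filter ContinuousLinearMap

namespace Pool.Agent.MP_86f3ed.Sf

open Pin

variable {K : Type*} [NormedAddCommGroup K] [InnerProductSpace ℂ K] [CompleteSpace K]

theorem dom_inner_amp (y : K →L[ℂ] K) (f g : HH K) :
    ⟪amp y f, g⟫_ℂ = ⟪f, amp (star y) g⟫_ℂ := by
  rw [amp_star, star_eq_adjoint, adjoint_inner_right]

/-- Douglas factorization. -/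
theorem exists_douglas (R Z : HH K →L[ℂ] K) {C : ℝ} (hC : 0 ≤ C)
    (h : ∀ x, ‖adjoint Z x‖ ≤ C * ‖adjoint R x‖)
    (P : Set (K →L[ℂ] K)) (hP : ∀ y ∈ P, star y ∈ P)
    (hR : ∀ y ∈ P, ∀ f, R (amp y f) = y (R f)) (hZ : ∀ y ∈ P, ∀ f, Z (amp y f) = y (Z f)) :
    ∃ Y : HH K →L[ℂ] HH K, ‖Y‖ ≤ C ∧ (∀ f, R (Y f) = Z f) ∧
      ∀ y ∈ P, ∀ f, Y (amp y f) = amp y (Y f) := by
  have key : ∀ Q : HH K →L[ℂ] K, (∀ y ∈ P, ∀ f, Q (amp y f) = y (Q f)) →
      ∀ y ∈ P, ∀ x, amp y (adjoint Q x) = adjoint Q (y x) := by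
    intro Q hQ y hy x
    refine ext_inner_left ℂ fun f => ?_
    rw [adjoint_inner_right]
    have h1 := dom_inner_amp (star y) f (adjoint Q x)
    rw [star_star] at h1
    rw [← h1, adjoint_inner_right, hQ _ (hP y hy), star_eq_adjoint, adjoint_inner_left]
  have hRs := key R hR
  have hZs := key Z hZ
  obtain ⟨w, hw1, hw2, hw3⟩ := exists_ext (adjoint R).toLinearMap (adjoint Z).toLinearMap hC h
  have hw2' : ∀ x, w (adjoint R x) = adjoint Z x := hw2
  refine ⟨adjoint w, ?_, ?_, ?_⟩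
  · rw [LinearIsometryEquiv.norm_map]; exact hw1
  · intro f
    refine ext_inner_right ℂ fun x => ?_
    rw [← adjoint_inner_right, adjoint_inner_left, hw2', adjoint_inner_right]
  · intro y hy f
    refine ext_inner_right ℂ fun g => ?_
    have hc : w (amp (star y) g) = amp (star y) (w g) := by
      refine ext_comm (adjoint R).toLinearMap (adjoint Z).toLinearMap hw2 hw3 (amp (star y))
        (amp (star y)) ?_ ?_ g
      · intro v
        exact ⟨star y v, hRs _ (hP y hy) v, hZs _ (hP y hy) v⟩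
      · intro v
        refine ⟨y v, ?_⟩
        rw [← amp_star, star_star]
        exact hRs y hy v
    rw [adjoint_inner_left, dom_inner_amp, dom_inner_amp, adjoint_inner_left, hc]

theorem dom_tsum (m : K →L[ℂ] K) (ξ : HH K) :
    ∑' j, ENNReal.ofReal (‖m (pr j ξ)‖ ^ 2) = ENNReal.ofReal (‖amp m ξ‖ ^ 2) := by
  have h := hasSum_norm_pr (amp m ξ)
  rw [← h.tsum_eq, ENNReal.ofReal_tsum_of_nonneg (fun _ => by positivity) h.summable]
  exact tsum_congr fun j => by rw [pr_amp]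

theorem dom_mem_Com {𝔅 : StarSubalgebra ℂ (K →L[ℂ] K)} {x : HH K →L[ℂ] HH K}
    (h : ∀ y ∈ 𝔅, ∀ f, x (amp y f) = amp y (x f)) : x ∈ Com (Ampl 𝔅) := by
  rw [mem_Com]
  intro z hz
  obtain ⟨y, hy, rfl⟩ := mem_Ampl.mp hz
  exact ContinuousLinearMap.ext fun f => (h y hy f).symm

namespace TF

variable (T : TF K)

/-- The domination lemma. `R` and `Z` intertwine `N`, live on the range of `e`, and the adjoint of
`Z` is dominated by the adjoint of `R`. Then the vector `(Z e_j)` is the image of the vector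
`(R e_j)` under a matrix over `N`. -/
theorem exists_dom (R Z : HH K →L[ℂ] K) {C : ℝ} (hC : 0 ≤ C)
    (h : ∀ x, ‖adjoint Z x‖ ≤ C * ‖adjoint R x‖)
    (hR : ∀ y ∈ T.N, ∀ f, R (amp y f) = y (R f)) (hZ : ∀ y ∈ T.N, ∀ f, Z (amp y f) = y (Z f))
    (hRe : ∀ f, R (amp T.e f) = R f)
    {ξ ζp : HH K} (hξ : ∀ j, pr j ξ = Z (inc j T.ζ)) (hζp : ∀ j, pr j ζp = R (inc j T.ζ)) :
    ∃ y ∈ T.NH, ‖y‖ ≤ C ∧ y ζp = ξ := by
  obtain ⟨Y, hY1, hY2, hY3⟩ := exists_douglas R Z hC h (T.N : Set (K →L[ℂ] K))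
    (fun y hy => star_mem hy) hR hZ
  have hYc : Y ∈ Com (Ampl T.N) := dom_mem_Com hY3
  refine exists_rn (Ampl T.M) ζp ξ hC fun m' hm' => ?_
  obtain ⟨m, hm, rfl⟩ := mem_Ampl.mp hm'
  -- the operator `x0`
  let x0 : HH K →L[ℂ] HH K := (inc 0).comp (m.comp R)
  have hx0 : ∀ f, x0 f = inc 0 (m (R f)) := fun f => rfl
  have hx0c : x0 ∈ Com (Ampl T.N) := by
    refine dom_mem_Com fun y hy f => ?_
    rw [hx0, hx0, hR y hy, amp_inc, T.comm hy hm]
  obtain ⟨g, hg, hgs, hgg, hgf⟩ := exists_root (Ampl T.N) (x := x0) (mul_mem (star_mem hx0c) hx0c)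
  have hgn : ∀ z, ‖g z‖ ^ 2 = ‖m (R z)‖ ^ 2 := by
    intro z
    have h1 : ((‖g z‖ ^ 2 : ℝ) : ℂ) = ((‖m (R z)‖ ^ 2 : ℝ) : ℂ) := by
      have h2 : ((‖g z‖ ^ 2 : ℝ) : ℂ) = ⟪g z, g z⟫_ℂ := by
        rw [inner_self_eq_norm_sq_to_K]; push_cast; rfl
      have h3 : ((‖m (R z)‖ ^ 2 : ℝ) : ℂ) = ⟪x0 z, x0 z⟫_ℂ := by
        rw [inner_self_eq_norm_sq_to_K, hx0, norm_inc]; push_cast; rfl
      rw [h2, h3]
      have h4 : ⟪g z, g z⟫_ℂ = ⟪z, (g * g) z⟫_ℂ := by
        show _ = ⟪z, g (g z)⟫_ℂ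
        conv_rhs => rw [← hgs]
        rw [star_eq_adjoint, adjoint_inner_right, ← star_eq_adjoint, hgs]
      rw [h4, hgg]
      show ⟪z, star x0 (x0 z)⟫_ℂ = _
      rw [star_eq_adjoint, adjoint_inner_right]
    exact_mod_cast h1
  have hge : g * amp T.e = g := by
    have h1 : star x0 * x0 * (1 - amp T.e) = 0 := by
      have h2 : x0 * (1 - amp T.e) = 0 := by
        refine ContinuousLinearMap.ext fun f => ?_
        show x0 (f - amp T.e f) = 0
        rw [map_sub, hx0, hx0, hRe, sub_self]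
      rw [mul_assoc, h2, mul_zero]
    have h3 := hgf _ h1
    rw [mul_sub, mul_one, sub_eq_zero] at h3
    exact h3.symm
  have heg : amp T.e * g = g := by
    have h1 := congrArg star hge
    rw [star_mul, hgs, ← amp_star, T.e_star] at h1
    exact h1
  let b : HH K →L[ℂ] HH K := g * Y
  have hb : ∀ i j, ent i j b ∈ T.M := mem_Com_amp.mp (mul_mem hg hYc)
  have hw := T.wt_star_M hb
  have h1 : wt T.ζ (amp T.e * b) = ENNReal.ofReal (‖amp m ξ‖ ^ 2) := by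
    rw [← dom_tsum]
    refine tsum_congr fun j => ?_
    have h2 : (amp T.e * b) (inc j T.ζ) = g (Y (inc j T.ζ)) := by
      have h3 : amp T.e * b = g * Y := by
        show amp T.e * (g * Y) = g * Y
        rw [← mul_assoc, heg]
      rw [h3]; rfl
    rw [h2, hgn, hY2, hξ]
  have h2 : wt T.ζ (amp T.e * star b) ≤ ENNReal.ofReal (C ^ 2 * ‖amp m ζp‖ ^ 2) := by
    rw [ENNReal.ofReal_mul (by positivity), ← dom_tsum, ← ENNReal.tsum_mul_left]
    refine ENNReal.tsum_le_tsum fun j => ?_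
    rw [← ENNReal.ofReal_mul (by positivity)]
    refine ENNReal.ofReal_le_ofReal ?_
    have h3 : (amp T.e * star b) (inc j T.ζ) = amp T.e (star Y (g (inc j T.ζ))) := by
      show amp T.e (star (g * Y) (inc j T.ζ)) = _
      rw [star_mul, hgs]; rfl
    have h4 : ‖star Y (g (inc j T.ζ))‖ ≤ C * ‖g (inc j T.ζ)‖ := by
      refine ((star Y).le_opNorm _).trans ?_
      refine mul_le_mul_of_nonneg_right ?_ (norm_nonneg _)
      rw [star_eq_adjoint, LinearIsometryEquiv.norm_map]; exact hY1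
    have h5 : ‖amp T.e (star Y (g (inc j T.ζ)))‖ ≤ ‖star Y (g (inc j T.ζ))‖ := by
      refine ((amp T.e).le_opNorm _).trans ?_
      have h6 : ‖amp T.e‖ ≤ 1 := by
        refine (norm_amp_le _).trans ?_
        refine ContinuousLinearMap.opNorm_le_bound _ zero_le_one fun x => ?_
        rw [one_mul]; exact T.norm_e_le x
      calc _ ≤ 1 * ‖star Y (g (inc j T.ζ))‖ := mul_le_mul_of_nonneg_right h6 (norm_nonneg _)
        _ = _ := one_mul _
    rw [h3, hζp, ← hgn, ← mul_pow]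
    exact pow_le_pow_left₀ (norm_nonneg _) (h5.trans h4) 2
  rw [hw, h1] at h2
  have h3 : ‖amp m ξ‖ ^ 2 ≤ C ^ 2 * ‖amp m ζp‖ ^ 2 :=
    (ENNReal.ofReal_le_ofReal_iff (by positivity)).mp h2
  rw [← mul_pow] at h3
  exact (sq_le_sq₀ (norm_nonneg _) (by positivity)).mp h3

end TF

end Pool.Agent.MP_86f3ed.Sf
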