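import Pool.Agent.H.MP_86f3ed_an.Sf.Zp
import Pool.Agent.H.MP_86f3ed_an.Sf.BdProps
import Pool.Agent.H.MP_86f3ed_an.Sf.Tom
import Pool.Agent.H.MP_86f3ed_an.Sf.Count

open scoped InnerProductSpace Topology ENNReal
open Filter ContinuousLinearMap

namespace Pool.Agent.MP_86f3ed.Sf

open Pin

variable {K : Type*} [NormedAddCommGroup K] [InnerProductSpace ℂ K] [CompleteSpace K]

theorem zpB_pyth {H : Type*} [NormedAddCommGroup H] [InnerProductSpace ℂ H] {m : ℕ}
    (w : Fin m → H) (h : ∀ i j, i ≠ j → ⟪w i, w j⟫_ℂ = 0) :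
    ‖∑ i, w i‖ ^ 2 = ∑ i, ‖w i‖ ^ 2 := by
  have key : ∀ s : Finset (Fin m), ‖∑ i ∈ s, w i‖ ^ 2 = ∑ i ∈ s, ‖w i‖ ^ 2 := by
    intro s
    induction s using Finset.induction_on with
    | empty => simp
    | insert a s ha ih =>
      rw [Finset.sum_insert ha, Finset.sum_insert ha, ← ih]
      have h1 : ⟪w a, ∑ i ∈ s, w i⟫_ℂ = 0 := by
        rw [inner_sum]
        refine Finset.sum_eq_zero fun i hi => h a i ?_
        rintro rfl
        exact ha hi
      have h2 := norm_add_sq_eq_norm_sq_add_norm_sq_of_inner_eq_zero (w a) (∑ i ∈ s, w i) h1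
      rw [pow_two, pow_two, pow_two]
      exact h2
  exact key Finset.univ

set_option linter.unusedSectionVars false

namespace TF

variable (T : TF K)

variable {m : ℕ} {U : Fin m → K →L[ℂ] K} {l : Fin m → ℝ} (hU : ∀ i, U i ∈ T.M)
  (hUU : ∀ i j, star (U i) * U j = if i = j then T.e else 0) (hl : ∀ i, 0 ≤ l i ∧ l i ≤ 1)

include hUU in
theorem zpB_norm_le (i : Fin m) : ‖U i‖ ≤ 1 := by
  refine opNorm_le_bound _ zero_le_one fun x => ?_
  rw [one_mul]
  have h1 : ⟪U i x, U i x⟫_ℂ = ⟪x, T.e x⟫_ℂ := by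
    have h2 : ⟪U i x, U i x⟫_ℂ = ⟪x, (star (U i) * U i) x⟫_ℂ := by
      show _ = ⟪x, star (U i) (U i x)⟫_ℂ
      rw [star_eq_adjoint, adjoint_inner_right]
    rw [h2, hUU, if_pos rfl]
  have h3 : ‖U i x‖ * ‖U i x‖ ≤ ‖x‖ * ‖x‖ := by
    have h6 := norm_inner_le_norm (𝕜 := ℂ) x (T.e x)
    rw [← h1, inner_self_eq_norm_sq_to_K] at h6
    have h7 : ‖((‖U i x‖ : ℂ)) ^ 2‖ = ‖U i x‖ * ‖U i x‖ := by
      rw [norm_pow, Complex.norm_real, norm_norm, pow_two]
    rw [← h7]
    exact h6.trans (mul_le_mul_of_nonneg_left (T.norm_e_le x) (norm_nonneg _))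
  exact (mul_self_le_mul_self_iff (norm_nonneg _) (norm_nonneg _)).mpr h3

include hU hUU hl

theorem Bd_zp : T.Bd 1 (T.zp U l) := by
  refine ⟨zero_le_one, fun y hy => ?_⟩
  have e1 : y (T.zp U l) =
      ∑ i : Fin m, ((Real.sqrt (l i) : ℝ) : ℂ) • amp (U i) (y (inc (i : ℕ) T.ζ)) := by
    unfold zp
    rw [map_sum]
    refine Finset.sum_congr rfl fun i _ => ?_
    rw [map_smul, map_smul, ← amp_inc]
    have h1 : amp (U i) * y = y * amp (U i) :=
      mem_Com.mp hy (amp (U i)) (mem_Ampl.mpr ⟨U i, hU i, rfl⟩)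
    have h2 := congrArg (fun S : HH K →L[ℂ] HH K => S (inc (i : ℕ) T.ζ)) h1
    have h3 : amp (U i) (y (inc (i : ℕ) T.ζ)) = y (amp (U i) (inc (i : ℕ) T.ζ)) := h2
    rw [h3]
  have e2 : ‖y (T.zp U l)‖ ^ 2 ≤ ∑ i : Fin m, ‖y (inc (i : ℕ) T.ζ)‖ ^ 2 := by
    rw [e1, zpB_pyth]
    · refine Finset.sum_le_sum fun i _ => ?_
      refine pow_le_pow_left₀ (norm_nonneg _) ?_ 2
      rw [norm_smul]
      have h1 : ‖((Real.sqrt (l i) : ℝ) : ℂ)‖ ≤ 1 := by
        rw [Complex.norm_real, Real.norm_eq_abs, abs_of_nonneg (Real.sqrt_nonneg _)]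
        exact Real.sqrt_le_one.mpr (hl i).2
      have h2 : ‖amp (U i) (y (inc (i : ℕ) T.ζ))‖ ≤ ‖y (inc (i : ℕ) T.ζ)‖ := by
        refine ((amp (U i)).le_opNorm _).trans ?_
        have h3 := (norm_amp_le (U i)).trans (T.zpB_norm_le hUU i)
        exact (mul_le_mul_of_nonneg_right h3 (norm_nonneg _)).trans (one_mul _).le
      exact (mul_le_mul h1 h2 (norm_nonneg _) zero_le_one).trans (one_mul _).le
    · intro i j hij
      rw [inner_smul_left, inner_smul_right]
      have h1 : ⟪amp (U i) (y (inc (i : ℕ) T.ζ)), amp (U j) (y (inc (j : ℕ) T.ζ))⟫_ℂ = 0 := by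
        rw [← adjoint_inner_right, ← star_eq_adjoint, ← amp_star]
        show ⟪_, (amp (star (U i)) * amp (U j)) _⟫_ℂ = 0
        rw [← amp_mul, hUU, if_neg hij, amp_zero, zero_apply, inner_zero_right]
      rw [h1, mul_zero, mul_zero]
  refine (ENNReal.ofReal_le_ofReal e2).trans ?_
  rw [one_pow, ENNReal.ofReal_one, one_mul, ENNReal.ofReal_sum_of_nonneg (fun i _ => by positivity)]
  unfold wt
  rw [Fin.sum_univ_eq_sum_range (fun i : ℕ => ENNReal.ofReal (‖y (inc i T.ζ)‖ ^ 2)) m]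
  exact ENNReal.sum_le_tsum _

theorem zpB_act {y b : K →L[ℂ] K} (hy : y ∈ T.N) (hb : b T.ζ = y T.ζ) :
    amp y (T.zp U l) = amp (∑ i, U i * b * star (U i)) (T.zp U l) := by
  unfold zp
  rw [map_sum, map_sum]
  refine Finset.sum_congr rfl fun j _ => ?_
  rw [amp_inc, amp_inc]
  congr 1
  rw [map_smul, map_smul]
  congr 1
  rw [T.comm hy (hU j), ← hb, ContinuousLinearMap.sum_apply]
  rw [Finset.sum_eq_single j]
  · show U j (b T.ζ) = U j (b ((star (U j) * U j) T.ζ))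
    rw [hUU, if_pos rfl, T.e_ζ]
  · intro i _ hij
    show U i (b ((star (U i) * U j) T.ζ)) = 0
    rw [hUU, if_neg hij, zero_apply, map_zero, map_zero]
  · intro h
    exact absurd (Finset.mem_univ j) h

/-- Elements of `N` act on the vector as elements of `M`. -/
theorem pair_zp {y : K →L[ℂ] K} (hy : y ∈ T.N) :
    ∃ x ∈ T.MH, ‖x‖ ≤ ‖y‖ ∧ amp y (T.zp U l) = x (T.zp U l) ∧
      star (amp y) (T.zp U l) = star x (T.zp U l) := by
  obtain ⟨b, hbM, hby, hb1, hb2, _, _⟩ := T.exists_pair hy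
  refine ⟨amp (∑ i, U i * b * star (U i)), T.amp_mem_MH ?_, ?_, ?_, ?_⟩
  · exact sum_mem fun i _ => mul_mem (mul_mem (hU i) hbM) (star_mem (hU i))
  · refine (norm_amp_le _).trans (le_trans ?_ hby)
    refine opNorm_le_bound _ (norm_nonneg _) fun z => ?_
    refine (mul_self_le_mul_self_iff (norm_nonneg _) (by positivity)).mpr ?_
    rw [← pow_two, ContinuousLinearMap.sum_apply, zpB_pyth]
    · calc ∑ i, ‖(U i * b * star (U i)) z‖ ^ 2 ≤ ∑ i, ‖b‖ ^ 2 * ‖star (U i) z‖ ^ 2 := by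
            refine Finset.sum_le_sum fun i _ => ?_
            rw [← mul_pow]
            refine pow_le_pow_left₀ (norm_nonneg _) ?_ 2
            show ‖U i (b (star (U i) z))‖ ≤ _
            have h1 := (U i).le_opNorm (b (star (U i) z))
            have h2 := b.le_opNorm (star (U i) z)
            have h3 := T.zpB_norm_le hUU i
            calc ‖U i (b (star (U i) z))‖ ≤ ‖U i‖ * ‖b (star (U i) z)‖ := h1
              _ ≤ 1 * ‖b (star (U i) z)‖ := mul_le_mul_of_nonneg_right h3 (norm_nonneg _)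
              _ = ‖b (star (U i) z)‖ := one_mul _
              _ ≤ _ := h2
        _ = ‖b‖ ^ 2 * ∑ i, ‖star (U i) z‖ ^ 2 := by rw [Finset.mul_sum]
        _ ≤ ‖b‖ ^ 2 * ‖z‖ ^ 2 := by
            refine mul_le_mul_of_nonneg_left ?_ (by positivity)
            refine bessel_contr U (fun i => T.zpB_norm_le hUU i) (fun i j hij => ?_) z
            rw [hUU, if_neg hij]
        _ = ‖b‖ * ‖z‖ * (‖b‖ * ‖z‖) := by ring
    · intro i j hij
      show ⟪U i (b (star (U i) z)), U j (b (star (U j) z))⟫_ℂ = 0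
      rw [← adjoint_inner_right, ← star_eq_adjoint]
      show ⟪_, (star (U i) * U j) _⟫_ℂ = 0
      rw [hUU, if_neg hij, zero_apply, inner_zero_right]
  · exact T.zpB_act hU hUU hl hy hb1
  · have h1 : star (amp (∑ i, U i * b * star (U i))) = amp (∑ i, U i * star b * star (U i)) := by
      rw [← amp_star, star_sum]
      congr 1
      refine Finset.sum_congr rfl fun i _ => ?_
      rw [star_mul, star_mul, star_star, mul_assoc]
    rw [h1, ← amp_star]
    exact T.zpB_act hU hUU hl (star_mem hy) hb2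

end TF

end Pool.Agent.MP_86f3ed.Sf
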