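import Pool.Agent.H.MP_86f3ed_an.Sf.Slices
import Pool.Agent.H.MP_86f3ed_an.Sf.ZpB
import Pool.Agent.H.MP_86f3ed_an.Sf.Dom

open scoped InnerProductSpace Topology ENNReal
open Filter ContinuousLinearMap

namespace Pool.Agent.MP_86f3ed.Sf

open Pin

variable {K : Type*} [NormedAddCommGroup K] [InnerProductSpace ℂ K] [CompleteSpace K]

/-- An isometry has norm at most one on vectors. -/
theorem DL_isom {H : Type*} [NormedAddCommGroup H] [InnerProductSpace ℂ H] [CompleteSpace H]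
    {a : H →L[ℂ] H} (haa : star a * a = 1) (x : H) : ‖a x‖ = ‖x‖ := by
  have h1 : ⟪a x, a x⟫_ℂ = ⟪x, x⟫_ℂ := by
    rw [← adjoint_inner_right, ← star_eq_adjoint]
    have h2 : star a (a x) = (star a * a) x := rfl
    rw [h2, haa]
    rfl
  rw [inner_self_eq_norm_sq_to_K, inner_self_eq_norm_sq_to_K] at h1
  have h3 : ‖a x‖ ^ 2 = ‖x‖ ^ 2 := by exact_mod_cast h1
  exact (sq_eq_sq₀ (norm_nonneg _) (norm_nonneg _)).mp h3

/-- A projection does not increase norms. -/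
theorem DL_proj {H : Type*} [NormedAddCommGroup H] [InnerProductSpace ℂ H] [CompleteSpace H]
    {q : H →L[ℂ] H} (hs : star q = q) (hq : q * q = q) (x : H) : ‖q x‖ ≤ ‖x‖ := by
  have h1 : ⟪q x, q x⟫_ℂ = ⟪x, q x⟫_ℂ := by
    have h0 : ⟪q x, q x⟫_ℂ = ⟪x, star q (q x)⟫_ℂ := by
      rw [star_eq_adjoint, adjoint_inner_right]
    have h2 : star q (q x) = (q * q) x := by rw [hs]; rfl
    rw [h0, h2, hq]
  have h3 : ‖q x‖ * ‖q x‖ ≤ ‖x‖ * ‖q x‖ := by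
    have h4 : ‖⟪q x, q x⟫_ℂ‖ = ‖q x‖ * ‖q x‖ := by
      rw [inner_self_eq_norm_sq_to_K, norm_pow]
      simp [pow_two]
    rw [← h4, h1]
    exact norm_inner_le_norm _ _
  rcases (norm_nonneg (q x)).eq_or_lt with h0 | h0
  · rw [← h0]; exact norm_nonneg x
  · exact le_of_mul_le_mul_right h3 h0

/-- The amplification of a contraction is a contraction. -/
theorem DL_amp {S : K →L[ℂ] K} (h : ∀ x, ‖S x‖ ≤ ‖x‖) (x : HH K) : ‖amp S x‖ ≤ ‖x‖ := by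
  have h1 : ‖S‖ ≤ 1 := S.opNorm_le_bound zero_le_one fun x => by rw [one_mul]; exact h x
  calc ‖amp S x‖ ≤ ‖amp S‖ * ‖x‖ := (amp S).le_opNorm x
    _ ≤ 1 * ‖x‖ := mul_le_mul_of_nonneg_right ((norm_amp_le S).trans h1) (norm_nonneg _)
    _ = ‖x‖ := one_mul _

namespace TF

variable (T : TF K)

/-- The domination theorem: every bounded vector is, after an isometry of `M` and up to `δ`, the
image under a matrix over `N` of a vector on which `N` acts as `M`. -/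
theorem exists_dl {a b : K →L[ℂ] K} (ha : a ∈ T.M) (hb : b ∈ T.M) (haa : star a * a = 1)
    (hbb : star b * b = 1) (hab : star a * b = 0) {ξ : HH K} (hξ : ‖ξ‖ ≤ 1) (hBd : T.Bd 2 ξ)
    {δ : ℝ} (hδ : 0 < δ) :
    ∃ y ∈ T.NH, ‖y‖ ≤ 4 ∧ ∃ ζp : HH K, ‖ζp‖ ≤ 1 ∧ T.Bd 1 ζp ∧ ‖amp a ξ - y ζp‖ ≤ δ ∧
      ∀ u ∈ T.N, ∃ x ∈ T.MH, ‖x‖ ≤ ‖u‖ ∧ amp u ζp = x ζp ∧ star (amp u) ζp = star x ζp := by
  obtain ⟨Z, hZ, hrow⟩ := T.exists_row hBd
  have hks : star (Z.comp (adjoint Z)) = Z.comp (adjoint Z) := by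
    rw [star_eq_adjoint, adjoint_comp, adjoint_adjoint]
  have hk0 : ∀ x, 0 ≤ RCLike.re ⟪x, (Z.comp (adjoint Z)) x⟫_ℂ := by
    intro x
    have h1 : ⟪x, (Z.comp (adjoint Z)) x⟫_ℂ = ⟪adjoint Z x, adjoint Z x⟫_ℂ := by
      rw [adjoint_inner_left]
      rfl
    rw [h1]
    exact inner_self_nonneg
  obtain ⟨q, hq⟩ := exists_spec T.N hrow.mem hks hk0
  obtain ⟨c₀, hc₀, htr⟩ := T.exists_trunc hrow hq hδ
  obtain ⟨L, hL⟩ : ∃ L : ℕ, (4 : ℝ) / 2 ^ L ≤ c₀ := by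
    obtain ⟨L, hL⟩ := pow_unbounded_of_one_lt (4 / c₀) (one_lt_two (α := ℝ))
    refine ⟨L, ?_⟩
    rw [div_le_iff₀ (by positivity)]
    rw [div_lt_iff₀ hc₀] at hL
    linarith
  obtain ⟨m, U, μ, hU, hqU, hμ, hsum, hdom⟩ := T.exists_slices hrow hq (by norm_num : (0:ℝ) < 2)
    hZ L
  have h22 : (2 : ℝ) ^ 2 / 2 ^ L = 4 / 2 ^ L := by norm_num
  rw [h22] at hqU hsum hdom
  have hc : (0 : ℝ) ≤ 4 / 2 ^ L := by positivity
  have htr' := htr _ hc hL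
  have hqs := hq.star_q _ hc
  have hqi := hq.idem _ hc
  have hqm := hq.mem _ hc
  generalize hQ : q (4 / 2 ^ L) = Q at hqU hsum hdom htr' hqs hqi hqm
  obtain ⟨U', hU'm, hU'o, hU'd⟩ := exists_full T.N T.e_mem T.e_star T.e_mul_e ha hb haa hbb hab hU
  have hμ4 : ∀ i, 0 ≤ μ i ∧ μ i ≤ 4 := fun i => ⟨(hμ i).1, by
    have := (hμ i).2
    norm_num at this
    exact this⟩
  have hl : ∀ i, 0 ≤ μ i / 16 ∧ μ i / 16 ≤ 1 := fun i =>
    ⟨by have := (hμ4 i).1; positivity, by have := (hμ4 i).2; linarith⟩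
  have hampQ : ‖amp Q ξ‖ ≤ 1 := (DL_amp (DL_proj hqs hqi) ξ).trans hξ
  have hl1 : ∑ i, μ i / 16 ≤ 1 := by
    rw [← Finset.sum_div]
    have h1 : ‖amp Q ξ‖ ^ 2 ≤ 1 := pow_le_one₀ (norm_nonneg _) hampQ
    have h2 : ∑ i, μ i ≤ 10 := by
      refine hsum.trans ?_
      have h3 : (2 : ℝ) ^ 2 = 4 := by norm_num
      rw [h3]
      linarith
    linarith
  -- the domination
  have hdom' : ∀ x, ‖adjoint ((a * Q).comp Z) x‖ ≤
      4 * ‖adjoint (zpR U' (fun i => μ i / 16)) x‖ := by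
    intro x
    have h1 : adjoint ((a * Q).comp Z) x = adjoint Z (Q (star a x)) := by
      rw [adjoint_comp]
      show adjoint Z (adjoint (a * Q) x) = adjoint Z (Q (star a x))
      have h2 : adjoint (a * Q) = Q * star a := by
        rw [← star_eq_adjoint, star_mul, hqs]
      rw [h2]
      rfl
    have h2 : ‖adjoint Z (Q (star a x))‖ ^ 2 ≤
        16 * ‖adjoint (zpR U' (fun i => μ i / 16)) x‖ ^ 2 := by
      rw [T.norm_adjoint_zpR hU'm hU'o hl]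
      refine (hdom (star a x)).trans ?_
      rw [Finset.mul_sum]
      refine Finset.sum_le_sum fun i _ => ?_
      have h3 : ‖star (U i) (star a x)‖ ^ 2 ≤ ‖star (U' i) x‖ ^ 2 :=
        pow_le_pow_left₀ (norm_nonneg _) (hU'd i x) 2
      have h4 := mul_le_mul_of_nonneg_left h3 (hμ4 i).1
      calc μ i * ‖star (U i) (star a x)‖ ^ 2 ≤ μ i * ‖star (U' i) x‖ ^ 2 := h4
        _ = 16 * (μ i / 16 * ‖star (U' i) x‖ ^ 2) := by ring
    rw [h1]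
    refine abs_le_of_sq_le_sq' ?_ (by positivity) |>.2
    calc ‖adjoint Z (Q (star a x))‖ ^ 2 ≤
        16 * ‖adjoint (zpR U' (fun i => μ i / 16)) x‖ ^ 2 := h2
      _ = (4 * ‖adjoint (zpR U' (fun i => μ i / 16)) x‖) ^ 2 := by ring
  have haQ : a * Q ∈ T.M := mul_mem ha hqm
  have hZ'N : ∀ y ∈ T.N, ∀ f, ((a * Q).comp Z) (amp y f) = y (((a * Q).comp Z) f) := by
    intro y hy f
    show (a * Q) (Z (amp y f)) = y ((a * Q) (Z f))
    rw [hrow.N y hy f, T.comm hy haQ]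
  have hξ' : ∀ j, pr j (amp (a * Q) ξ) = ((a * Q).comp Z) (inc j T.ζ) := by
    intro j
    rw [pr_amp]
    show (a * Q) (pr j ξ) = (a * Q) (Z (inc j T.ζ))
    rw [hrow.ζ j]
  obtain ⟨y, hy, hyn, hyζ⟩ := T.exists_dom (zpR U' (fun i => μ i / 16)) ((a * Q).comp Z)
    (by norm_num : (0 : ℝ) ≤ 4) hdom' (fun y hy f => T.zpR_N hU'm hU'o hl hy f) hZ'N
    (fun f => T.zpR_e hU'm hU'o hl f) hξ' (fun j => T.pr_zp hU'm hU'o hl j)
  refine ⟨y, hy, hyn, T.zp U' (fun i => μ i / 16), T.norm_zp hU'm hU'o hl hl1,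
    T.Bd_zp hU'm hU'o hl, ?_, fun u hu => T.pair_zp hU'm hU'o hl hu⟩
  rw [hyζ, amp_mul]
  have h5 : amp a ξ - (amp a * amp Q) ξ = amp a (ξ - amp Q ξ) := by
    rw [map_sub]
    rfl
  rw [h5]
  exact (DL_amp (fun x => (DL_isom haa x).le) _).trans htr'

end TF

end Pool.Agent.MP_86f3ed.Sf
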