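import Pool.Agent.H.MP_86f3ed_an.Sf.Forms

open scoped InnerProductSpace Topology ENNReal
open Filter ContinuousLinearMap

namespace Pool.Agent.MP_86f3ed.Sf

open Pin

variable {H : Type*} [NormedAddCommGroup H] [InnerProductSpace ℂ H] [CompleteSpace H]
variable {N : StarSubalgebra ℂ (H →L[ℂ] H)} (G : Gauge N)

/-- Right multiplication of the output. -/
noncomputable def rX0 (x : Com N) (Λ : XE G) : XE G :=
  XE.mk (fun T ξ η => Λ.ap T (G.mD x ξ) η)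
    { add1 := fun T T' ξ η => Λ.ap_add1 _ _ _ _
      smul1 := fun c T ξ η => Λ.ap_smul1 _ _ _ _
      add2 := fun T ξ ξ' η => by rw [map_add, Λ.ap_add2]
      smul2 := fun c T ξ η => by rw [map_smul, Λ.ap_smul2]
      add3 := fun T ξ η η' => Λ.ap_add3 _ _ _ _
      smul3 := fun c T ξ η => Λ.ap_smul3 _ _ _ _
      left := fun y T ξ η => Λ.left _ _ _ _
      right := fun y T ξ η => by rw [Λ.right, mD_nD]
      bdd := ⟨‖Λ‖ * ‖x‖, fun T ξ η hξ hη => by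
        have h := Λ.norm_ap_le T (In_mD G hξ x) hη
        calc _ ≤ _ := h
          _ = ‖Λ‖ * ‖x‖ * ‖T‖ := by ring⟩ }

@[simp] theorem rX0_ap (x : Com N) (Λ : XE G) (T : H →L[ℂ] H) (ξ η : G.D) :
    (rX0 G x Λ).ap T ξ η = Λ.ap T (G.mD x ξ) η := rfl

theorem norm_rX0_le (x : Com N) (Λ : XE G) : ‖rX0 G x Λ‖ ≤ ‖x‖ * ‖Λ‖ := by
  refine XE.norm_le (by positivity) fun T ξ η hT hξ hη => ?_
  rw [rX0_ap]
  have h := Λ.norm_ap_le T (In_mD G hξ x) hη
  rw [mul_one, mul_one] at h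
  refine h.trans ?_
  calc ‖Λ‖ * ‖T‖ * ‖x‖ = (‖x‖ * ‖Λ‖) * ‖T‖ := by ring
    _ ≤ (‖x‖ * ‖Λ‖) * 1 := mul_le_mul_of_nonneg_left hT (by positivity)
    _ = _ := mul_one _

/-- Right multiplication as a bounded bilinear map. -/
noncomputable def rX : Com N →L[ℂ] XE G →L[ℂ] XE G :=
  LinearMap.mkContinuous₂ (LinearMap.mk₂ ℂ (rX0 G)
    (by intro x y Λ; apply XE.ext; intro T ξ η
        rw [XE.add_ap, rX0_ap, rX0_ap, rX0_ap, mD_add, XE.ap_add2])
    (by intro c x Λ; apply XE.ext; intro T ξ η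
        rw [XE.smul_ap, rX0_ap, rX0_ap, mD_smul, XE.ap_smul2])
    (by intro x Λ Λ'; apply XE.ext; intro T ξ η; rfl)
    (by intro c x Λ; apply XE.ext; intro T ξ η; rfl)) 1
    (by intro x Λ; rw [one_mul]; exact norm_rX0_le G x Λ)

@[simp] theorem rX_ap (x : Com N) (Λ : XE G) (T : H →L[ℂ] H) (ξ η : G.D) :
    (rX G x Λ).ap T ξ η = Λ.ap T (G.mD x ξ) η := rfl

theorem norm_rX_le (x : Com N) : ‖rX G x‖ ≤ ‖x‖ :=
  ContinuousLinearMap.opNorm_le_bound _ (norm_nonneg _) fun Λ => norm_rX0_le G x Λ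

end Pool.Agent.MP_86f3ed.Sf
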