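import Pool.Agent.H.MP_86f3ed_an.Sf.FBimL
import Pool.Agent.H.MP_86f3ed_an.Sf.FBimR
import Pool.Agent.H.MP_86f3ed_an.Pin.Enc

open scoped InnerProductSpace Topology ENNReal
open Filter ContinuousLinearMap

namespace Pool.Agent.MP_86f3ed.Sf

open Pin

variable {H : Type*} [NormedAddCommGroup H] [InnerProductSpace ℂ H] [CompleteSpace H]
variable {N : StarSubalgebra ℂ (H →L[ℂ] H)} (G : Gauge N)

/-- The evaluation functional. -/
noncomputable def ev (T : H →L[ℂ] H) (ξ η : G.D) : StrongDual ℂ (XE G) :=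
  LinearMap.mkContinuousOfExistsBound
    { toFun := fun Λ : XE G => Λ.ap T ξ η
      map_add' := fun _ _ => rfl
      map_smul' := fun _ _ => rfl } (by
      obtain ⟨s, _, hξ⟩ := Gauge.exists_In ξ.2
      obtain ⟨t, _, hη⟩ := Gauge.exists_In η.2
      refine ⟨‖T‖ * s * t, fun Λ => ?_⟩
      calc _ ≤ _ := Λ.norm_ap_le T hξ hη
        _ = ‖T‖ * s * t * ‖Λ‖ := by ring)

@[simp] theorem ev_apply (T : H →L[ℂ] H) (ξ η : G.D) (Λ : XE G) : ev G T ξ η Λ = Λ.ap T ξ η := rfl

theorem norm_ev_le (T : H →L[ℂ] H) {ξ η : G.D} {s t : ℝ} (hξ : G.In s ξ) (hη : G.In t η) :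
    ‖ev G T ξ η‖ ≤ ‖T‖ * s * t := by
  have h1 := hξ.nonneg
  have h2 := hη.nonneg
  refine ContinuousLinearMap.opNorm_le_bound _ (by positivity) fun Λ => ?_
  calc _ ≤ _ := Λ.norm_ap_le T hξ hη
    _ = ‖T‖ * s * t * ‖Λ‖ := by ring

/-- The predual of `XE`: the closed span of the evaluations. -/
noncomputable def FSub : Submodule ℂ (StrongDual ℂ (XE G)) :=
  (Submodule.span ℂ {f | ∃ T ξ η, f = ev G T ξ η}).topologicalClosure

/-- The predual of `XE`. -/
def FE : Type _ := ↥(FSub G)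

noncomputable instance : NormedAddCommGroup (FE G) := inferInstanceAs (NormedAddCommGroup (FSub G))
noncomputable instance : NormedSpace ℂ (FE G) := inferInstanceAs (NormedSpace ℂ (FSub G))
instance : CompleteSpace (FE G) :=
  (Submodule.isClosed_topologicalClosure _).completeSpace_coe

/-- The inclusion of the predual in the dual. -/
noncomputable def inF : FE G →ₗᵢ[ℂ] StrongDual ℂ (XE G) := (FSub G).subtypeₗᵢ

theorem ev_mem (T : H →L[ℂ] H) (ξ η : G.D) : ev G T ξ η ∈ FSub G :=
  Submodule.le_topologicalClosure _ (Submodule.subset_span ⟨T, ξ, η, rfl⟩)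

/-- The evaluation as an element of the predual. -/
noncomputable def evF (T : H →L[ℂ] H) (ξ η : G.D) : FE G := (⟨ev G T ξ η, ev_mem G T ξ η⟩ : FSub G)

@[simp] theorem inF_evF (T : H →L[ℂ] H) (ξ η : G.D) : inF G (evF G T ξ η) = ev G T ξ η := rfl

theorem norm_evF_le (T : H →L[ℂ] H) {ξ η : G.D} {s t : ℝ} (hξ : G.In s ξ) (hη : G.In t η) :
    ‖evF G T ξ η‖ ≤ ‖T‖ * s * t := norm_ev_le G T hξ hη

theorem inF_mem (f : FE G) : inF G f ∈ FSub G := f.2

theorem comp_mem (Φ : XE G →L[ℂ] XE G) (hΦ : ∀ T ξ η, (ev G T ξ η).comp Φ ∈ FSub G)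
    (f : StrongDual ℂ (XE G)) (hf : f ∈ FSub G) : f.comp Φ ∈ FSub G := by
  let P : StrongDual ℂ (XE G) →L[ℂ] StrongDual ℂ (XE G) :=
    (ContinuousLinearMap.compL ℂ (XE G) (XE G) ℂ).flip Φ
  have hle : (Submodule.span ℂ {f | ∃ T ξ η, f = ev G T ξ η}) ≤ (FSub G).comap P.toLinearMap := by
    rw [Submodule.span_le]
    rintro _ ⟨T, ξ, η, rfl⟩
    exact hΦ T ξ η
  have hcl : IsClosed (P ⁻¹' (FSub G : Set (StrongDual ℂ (XE G)))) :=
    (Submodule.isClosed_topologicalClosure _).preimage P.continuous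
  have h2 : (FSub G : Set (StrongDual ℂ (XE G))) ⊆ P ⁻¹' (FSub G : Set (StrongDual ℂ (XE G))) := by
    have : (FSub G : Set (StrongDual ℂ (XE G))) =
        closure ((Submodule.span ℂ {f | ∃ T ξ η, f = ev G T ξ η} :
          Submodule ℂ (StrongDual ℂ (XE G))) : Set (StrongDual ℂ (XE G))) := by
      rw [FSub, Submodule.topologicalClosure_coe]
    conv_lhs => rw [this]
    exact closure_minimal hle hcl
  exact h2 hf

theorem ev_comp_lX (x : Com N) (T : H →L[ℂ] H) (ξ η : G.D) :
    (ev G T ξ η).comp (lX G x) = ev G T ξ (G.mD (star x) η) := rfl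

theorem ev_comp_rX (x : Com N) (T : H →L[ℂ] H) (ξ η : G.D) :
    (ev G T ξ η).comp (rX G x) = ev G T (G.mD x ξ) η := rfl

/-- The left action on the predual. -/
noncomputable def L0 (x : Com N) (f : FE G) : FE G :=
  (⟨(inF G f).comp (lX G x), comp_mem G _ (fun T ξ η => by
    rw [ev_comp_lX]; exact ev_mem G _ _ _) _ (inF_mem G f)⟩ : FSub G)

/-- The right action on the predual. -/
noncomputable def R0 (x : Com N) (f : FE G) : FE G :=
  (⟨(inF G f).comp (rX G x), comp_mem G _ (fun T ξ η => by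
    rw [ev_comp_rX]; exact ev_mem G _ _ _) _ (inF_mem G f)⟩ : FSub G)

theorem inF_L0 (x : Com N) (f : FE G) : inF G (L0 G x f) = (inF G f).comp (lX G x) := rfl
theorem inF_R0 (x : Com N) (f : FE G) : inF G (R0 G x f) = (inF G f).comp (rX G x) := rfl

theorem F_ext {f g : FE G} (h : ∀ Λ, inF G f Λ = inF G g Λ) : f = g :=
  (inF G).injective (ContinuousLinearMap.ext h)

theorem norm_F (f : FE G) : ‖f‖ = ‖inF G f‖ := rfl

theorem norm_L0 (x : Com N) (f : FE G) : ‖L0 G x f‖ ≤ ‖x‖ * ‖f‖ := by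
  rw [norm_F, inF_L0, mul_comm]
  exact (ContinuousLinearMap.opNorm_comp_le _ _).trans
    (mul_le_mul_of_nonneg_left (norm_lX_le G x) (norm_nonneg _))

theorem norm_R0 (x : Com N) (f : FE G) : ‖R0 G x f‖ ≤ ‖x‖ * ‖f‖ := by
  rw [norm_F, inF_R0, mul_comm]
  exact (ContinuousLinearMap.opNorm_comp_le _ _).trans
    (mul_le_mul_of_nonneg_left (norm_rX_le G x) (norm_nonneg _))

/-- The bimodule structure of the predual over the commutant of `N`. -/
noncomputable def bmE : BM (Com N) (FE G) where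
  L := LinearMap.mkContinuous₂ (LinearMap.mk₂ ℂ (L0 G)
    (by intro x y f; apply F_ext; intro Λ
        simp only [map_add, inF_L0, add_apply, ContinuousLinearMap.comp_apply])
    (by intro c x f; apply F_ext; intro Λ
        simp only [map_smul, inF_L0, smul_apply, ContinuousLinearMap.comp_apply])
    (by intro x f f'; apply F_ext; intro Λ
        simp only [map_add, inF_L0, add_apply, ContinuousLinearMap.comp_apply])
    (by intro c x f; apply F_ext; intro Λ
        simp only [map_smul, inF_L0, smul_apply, ContinuousLinearMap.comp_apply])) 1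
    (by intro x f; rw [one_mul]; exact norm_L0 G x f)
  R := LinearMap.mkContinuous₂ (LinearMap.mk₂ ℂ (R0 G)
    (by intro x y f; apply F_ext; intro Λ
        simp only [map_add, inF_R0, add_apply, ContinuousLinearMap.comp_apply])
    (by intro c x f; apply F_ext; intro Λ
        simp only [map_smul, inF_R0, smul_apply, ContinuousLinearMap.comp_apply])
    (by intro x f f'; apply F_ext; intro Λ
        simp only [map_add, inF_R0, add_apply, ContinuousLinearMap.comp_apply])
    (by intro c x f; apply F_ext; intro Λ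
        simp only [map_smul, inF_R0, smul_apply, ContinuousLinearMap.comp_apply])) 1
    (by intro x f; rw [one_mul]; exact norm_R0 G x f)
  L_one := by
    intro f
    apply F_ext; intro Λ
    show inF G f (lX G 1 Λ) = inF G f Λ
    have h : lX G 1 Λ = Λ := XE.ext fun T ξ η => by rw [lX_ap, star_one, mD_one]
    rw [h]
  L_mul := by
    intro x y f
    apply F_ext; intro Λ
    show inF G f (lX G (x * y) Λ) = inF G f (lX G x (lX G y Λ))
    have h : lX G (x * y) Λ = lX G x (lX G y Λ) := XE.ext fun T ξ η => by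
      rw [lX_ap, lX_ap, lX_ap, star_mul, mD_mul]
    rw [h]
  R_mul := by
    intro x y f
    apply F_ext; intro Λ
    show inF G f (rX G (x * y) Λ) = inF G f (rX G y (rX G x Λ))
    have h : rX G (x * y) Λ = rX G y (rX G x Λ) := XE.ext fun T ξ η => by
      rw [rX_ap, rX_ap, rX_ap, mD_mul]
    rw [h]
  LR := by
    intro x y f
    apply F_ext; intro Λ
    show inF G f (rX G y (lX G x Λ)) = inF G f (lX G x (rX G y Λ))
    have h : rX G y (lX G x Λ) = lX G x (rX G y Λ) := XE.ext fun T ξ η => rfl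
    rw [h]
  norm_L := norm_L0 G
  norm_R := norm_R0 G

theorem bmE_L_evF (x : Com N) (T : H →L[ℂ] H) (ξ η : G.D) :
    (bmE G).L x (evF G T ξ η) = evF G T ξ (G.mD (star x) η) := by
  apply (inF G).injective
  exact ev_comp_lX G x T ξ η

theorem bmE_R_evF (x : Com N) (T : H →L[ℂ] H) (ξ η : G.D) :
    (bmE G).R x (evF G T ξ η) = evF G T (G.mD x ξ) η := by
  apply (inF G).injective
  exact ev_comp_rX G x T ξ η

theorem inF_D (x : Com N) (f : FE G) (Λ : XE G) :
    inF G ((bmE G).D x f) Λ = inF G f (lX G x Λ - rX G x Λ) := by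
  rw [BM.D_apply, map_sub, map_sub]
  rfl

/-- The finite sums of evaluations are dense in the predual. -/
theorem F_dense (f : FE G) {δ : ℝ} (hδ : 0 < δ) :
    ∃ (m : ℕ) (T : Fin m → H →L[ℂ] H) (ξ η : Fin m → G.D),
      ‖f - ∑ k, evF G (T k) (ξ k) (η k)‖ ≤ δ := by
  have h1 : inF G f ∈ closure ((Submodule.span ℂ {f | ∃ T ξ η, f = ev G T ξ η} :
    Submodule ℂ (StrongDual ℂ (XE G))) : Set (StrongDual ℂ (XE G))) := by
    have := inF_mem G f
    rw [FSub, ← SetLike.mem_coe, Submodule.topologicalClosure_coe] at this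
    exact this
  obtain ⟨g, hg, hgf⟩ := Metric.mem_closure_iff.mp h1 δ hδ
  obtain ⟨m, c, e, hce⟩ := Submodule.mem_span_set'.mp hg
  choose T ξ η he using fun k => (e k).2
  refine ⟨m, fun k => c k • T k, ξ, η, ?_⟩
  have h2 : inF G (∑ k, evF G (c k • T k) (ξ k) (η k)) = g := by
    rw [map_sum, ← hce]
    refine Finset.sum_congr rfl fun k _ => ?_
    rw [inF_evF, he k]
    ext Λ
    rw [ev_apply, smul_apply, ev_apply, XE.ap_smul1]
    rfl
  rw [norm_F, map_sub, h2, ← dist_eq_norm]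
  exact hgf.le

end Pool.Agent.MP_86f3ed.Sf
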