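import Pool.Agent.H.MP_86f3ed_an.Pin.Kap2
import Pool.Agent.H.MP_86f3ed_an.Sf.FBim
import Pool.Agent.H.MP_86f3ed_an.Pin.Slot

open scoped InnerProductSpace Topology ENNReal
open Filter ContinuousLinearMap

namespace Pool.Agent.MP_86f3ed.Sf

open Pin

variable {H : Type*} [NormedAddCommGroup H] [InnerProductSpace ℂ H] [CompleteSpace H]

/-- A bounded vector which is moved to a short vector by an element of norm at most two is moved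
to a vector which is small for the gauge. -/
theorem FAppr_In {N : StarSubalgebra ℂ (H →L[ℂ] H)} {G : Gauge N} {ξ : G.D} {C δ : ℝ}
    (hC : 1 ≤ C) (h : G.Bd C (ξ : H)) (hδ : 0 < δ) (hδ1 : δ ≤ 1) (z : Com N) (hz : ‖z‖ ≤ 2)
    (hzξ : ‖(z : H →L[ℂ] H) (ξ : H)‖ ≤ δ) :
    G.In (Real.sqrt (2 * C) * Real.sqrt δ) (G.mD z ξ : H) := by
  rw [← Real.sqrt_mul (by positivity)]
  refine Gauge.In_of_small (C := 2 * C) ?_ hzξ hδ (by linarith)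
  exact G.mono (G.left h z.2) (mul_le_mul_of_nonneg_right hz (by linarith))

theorem FAppr_L {N : StarSubalgebra ℂ (H →L[ℂ] H)} {G : Gauge N} (z : Com N) (hz : ‖z‖ ≤ 2)
    {m : ℕ} (T : Fin m → H →L[ℂ] H) (ξ η : Fin m → G.D) {s C : Fin m → ℝ}
    (hs : ∀ k, G.In (s k) (ξ k : H)) (hC1 : ∀ k, 1 ≤ C k) (hC : ∀ k, G.Bd (C k) (η k : H))
    {δ : ℝ} (hδ : 0 < δ) (hδ1 : δ ≤ 1) (h : ∀ k, ‖star (z : H →L[ℂ] H) (η k : H)‖ ≤ δ) :
    ‖(bmE G).L z (∑ k, evF G (T k) (ξ k) (η k))‖ ≤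
      (∑ k, ‖T k‖ * s k * Real.sqrt (2 * C k)) * Real.sqrt δ := by
  rw [map_sum, Finset.sum_mul]
  refine (norm_sum_le _ _).trans (Finset.sum_le_sum fun k _ => ?_)
  rw [bmE_L_evF]
  have hz' : ‖star z‖ ≤ 2 := by rw [norm_star]; exact hz
  have h1 := FAppr_In (hC1 k) (hC k) hδ hδ1 (star z) hz' (h k)
  refine (norm_evF_le G (T k) (hs k) h1).trans (le_of_eq ?_)
  ring

theorem FAppr_R {N : StarSubalgebra ℂ (H →L[ℂ] H)} {G : Gauge N} (z : Com N) (hz : ‖z‖ ≤ 2)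
    {m : ℕ} (T : Fin m → H →L[ℂ] H) (ξ η : Fin m → G.D) {s C : Fin m → ℝ}
    (hs : ∀ k, G.In (s k) (η k : H)) (hC1 : ∀ k, 1 ≤ C k) (hC : ∀ k, G.Bd (C k) (ξ k : H))
    {δ : ℝ} (hδ : 0 < δ) (hδ1 : δ ≤ 1) (h : ∀ k, ‖(z : H →L[ℂ] H) (ξ k : H)‖ ≤ δ) :
    ‖(bmE G).R z (∑ k, evF G (T k) (ξ k) (η k))‖ ≤
      (∑ k, ‖T k‖ * s k * Real.sqrt (2 * C k)) * Real.sqrt δ := by
  rw [map_sum, Finset.sum_mul]
  refine (norm_sum_le _ _).trans (Finset.sum_le_sum fun k _ => ?_)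
  rw [bmE_R_evF]
  have h1 := FAppr_In (hC1 k) (hC k) hδ hδ1 z hz (h k)
  refine (norm_evF_le G (T k) h1 (hs k)).trans (le_of_eq ?_)
  ring

/-- Bounds for a finite family of bounded vectors. -/
theorem FAppr_bd {N : StarSubalgebra ℂ (H →L[ℂ] H)} {G : Gauge N} {m : ℕ} (ξ : Fin m → G.D) :
    ∃ C : Fin m → ℝ, (∀ k, 1 ≤ C k) ∧ ∀ k, G.Bd (C k) (ξ k : H) := by
  have h : ∀ k, ∃ C : ℝ, 1 ≤ C ∧ G.Bd C (ξ k : H) := fun k => by
    obtain ⟨C, hC⟩ := (ξ k).2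
    exact ⟨max 1 C, le_max_left _ _, G.mono hC (le_max_right _ _)⟩
  choose C h1 h2 using h
  exact ⟨C, h1, h2⟩

/-- Sizes for a finite family of bounded vectors. -/
theorem FAppr_size {N : StarSubalgebra ℂ (H →L[ℂ] H)} {G : Gauge N} {m : ℕ} (ξ : Fin m → G.D) :
    ∃ s : Fin m → ℝ, (∀ k, 0 ≤ s k) ∧ ∀ k, G.In (s k) (ξ k : H) := by
  choose s h1 h2 using fun k => Gauge.exists_In (ξ k).2
  exact ⟨s, fun k => (h1 k).le, h2⟩

/-- Elements of the algebra approximate contractions of the bicommutant. -/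
theorem apprE {𝔄 : StarSubalgebra ℂ (H →L[ℂ] H)} (hcl : IsClosed (𝔄 : Set (H →L[ℂ] H)))
    (G : Gauge (Com 𝔄)) : (bmE G).Appr (SubA 𝔄) := by
  intro x hx f₁ f₂ δ hδ
  obtain ⟨m₁, T₁, ξ₁, η₁, h₁⟩ := F_dense G f₁ (show 0 < δ / 4 by positivity)
  obtain ⟨m₂, T₂, ξ₂, η₂, h₂⟩ := F_dense G f₂ (show 0 < δ / 4 by positivity)
  set g₁ := ∑ k, evF G (T₁ k) (ξ₁ k) (η₁ k) with hg₁
  set g₂ := ∑ k, evF G (T₂ k) (ξ₂ k) (η₂ k) with hg₂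
  obtain ⟨s₁, hs₁0, hs₁⟩ := FAppr_size ξ₁
  obtain ⟨C₁, hC₁1, hC₁⟩ := FAppr_bd η₁
  obtain ⟨s₂, hs₂0, hs₂⟩ := FAppr_size η₂
  obtain ⟨C₂, hC₂1, hC₂⟩ := FAppr_bd ξ₂
  set S₁ : ℝ := ∑ k, ‖T₁ k‖ * s₁ k * Real.sqrt (2 * C₁ k) with hS₁
  set S₂ : ℝ := ∑ k, ‖T₂ k‖ * s₂ k * Real.sqrt (2 * C₂ k) with hS₂
  have hS₁0 : 0 ≤ S₁ := Finset.sum_nonneg fun k _ =>
    mul_nonneg (mul_nonneg (norm_nonneg _) (hs₁0 k)) (Real.sqrt_nonneg _)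
  have hS₂0 : 0 ≤ S₂ := Finset.sum_nonneg fun k _ =>
    mul_nonneg (mul_nonneg (norm_nonneg _) (hs₂0 k)) (Real.sqrt_nonneg _)
  set K : ℝ := 1 + S₁ + S₂ with hK
  have hK0 : 0 < K := by positivity
  have hr0 : 0 < δ / (2 * K) := by positivity
  set ε : ℝ := min 1 ((δ / (2 * K)) ^ 2) with hε
  have hε0 : 0 < ε := lt_min one_pos (by positivity)
  have hε1 : ε ≤ 1 := min_le_left _ _
  have hεs : Real.sqrt ε ≤ δ / (2 * K) := Real.sqrt_le_iff.mpr ⟨hr0.le, min_le_right _ _⟩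
  obtain ⟨a, ha, ha1, hak⟩ := kaplansky 𝔄 hcl x.2 hx
    (Fin.append (fun k => (η₁ k : H)) (fun k => (ξ₂ k : H))) hε0
  have haM : a ∈ Com (Com 𝔄) := mem_Com.mpr fun n hn => (mem_Com.mp hn a ha).symm
  set a' : Com (Com 𝔄) := ⟨a, haM⟩ with ha'
  have hz : ‖x - a'‖ ≤ 2 := by
    refine (norm_sub_le _ _).trans ?_
    have : ‖a'‖ ≤ 1 := ha1
    linarith
  have hKδ : K * (δ / (2 * K)) = δ / 2 := by field_simp
  refine ⟨a', ha, ha1, ?_, ?_⟩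
  · have e1 : f₁ = (f₁ - g₁) + g₁ := by abel
    rw [e1, map_add]
    refine (norm_add_le _ _).trans ?_
    have e2 : ‖(bmE G).L (x - a') (f₁ - g₁)‖ ≤ 2 * (δ / 4) :=
      ((bmE G).norm_L _ _).trans (mul_le_mul hz h₁ (norm_nonneg _) (by norm_num))
    have e3 := FAppr_L (x - a') hz T₁ ξ₁ η₁ hs₁ hC₁1 hC₁ hε0 hε1 (fun k => by
      have := (hak (Fin.castAdd m₂ k)).2
      rw [Fin.append_left] at this
      exact this)
    have e4 : S₁ * Real.sqrt ε ≤ δ / 2 := by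
      rw [← hKδ]
      exact mul_le_mul (by linarith) hεs (Real.sqrt_nonneg _) hK0.le
    have e5 : ‖(bmE G).L (x - a') g₁‖ ≤ δ / 2 := e3.trans e4
    linarith
  · have e1 : f₂ = (f₂ - g₂) + g₂ := by abel
    rw [e1, map_add]
    refine (norm_add_le _ _).trans ?_
    have e2 : ‖(bmE G).R (x - a') (f₂ - g₂)‖ ≤ 2 * (δ / 4) :=
      ((bmE G).norm_R _ _).trans (mul_le_mul hz h₂ (norm_nonneg _) (by norm_num))
    have e3 := FAppr_R (x - a') hz T₂ ξ₂ η₂ hs₂ hC₂1 hC₂ hε0 hε1 (fun k => by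
      have := (hak (Fin.natAdd m₁ k)).1
      rw [Fin.append_right] at this
      exact this)
    have e4 : S₂ * Real.sqrt ε ≤ δ / 2 := by
      rw [← hKδ]
      exact mul_le_mul (by linarith) hεs (Real.sqrt_nonneg _) hK0.le
    have e5 : ‖(bmE G).R (x - a') g₂‖ ≤ δ / 2 := e3.trans e4
    linarith

end Pool.Agent.MP_86f3ed.Sf
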