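import Pool.Agent.H.MP_86f3ed_an.Sf.FBim

open scoped InnerProductSpace Topology ENNReal
open Filter ContinuousLinearMap

namespace Pool.Agent.MP_86f3ed.Sf

open Pin

variable {H : Type*} [NormedAddCommGroup H] [InnerProductSpace ℂ H] [CompleteSpace H]
variable {N : StarSubalgebra ℂ (H →L[ℂ] H)} (G : Gauge N)

theorem evF_add1 (T T' : H →L[ℂ] H) (ξ η : G.D) :
    evF G (T + T') ξ η = evF G T ξ η + evF G T' ξ η := F_ext G fun Λ => by
  rw [map_add, inF_evF, inF_evF, inF_evF, add_apply, ev_apply, ev_apply, ev_apply, XE.ap_add1]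

theorem evF_smul1 (c : ℂ) (T : H →L[ℂ] H) (ξ η : G.D) :
    evF G (c • T) ξ η = c • evF G T ξ η := F_ext G fun Λ => by
  rw [map_smul, inF_evF, inF_evF, smul_apply, ev_apply, ev_apply, XE.ap_smul1]; rfl

theorem evF_add2 (T : H →L[ℂ] H) (ξ ξ' η : G.D) :
    evF G T (ξ + ξ') η = evF G T ξ η + evF G T ξ' η := F_ext G fun Λ => by
  rw [map_add, inF_evF, inF_evF, inF_evF, add_apply, ev_apply, ev_apply, ev_apply, XE.ap_add2]

theorem evF_smul2 (c : ℂ) (T : H →L[ℂ] H) (ξ η : G.D) :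
    evF G T (c • ξ) η = c • evF G T ξ η := F_ext G fun Λ => by
  rw [map_smul, inF_evF, inF_evF, smul_apply, ev_apply, ev_apply, XE.ap_smul2]; rfl

theorem evF_add3 (T : H →L[ℂ] H) (ξ η η' : G.D) :
    evF G T ξ (η + η') = evF G T ξ η + evF G T ξ η' := F_ext G fun Λ => by
  rw [map_add, inF_evF, inF_evF, inF_evF, add_apply, ev_apply, ev_apply, ev_apply, XE.ap_add3]

theorem evF_smul3 (c : ℂ) (T : H →L[ℂ] H) (ξ η : G.D) :
    evF G T ξ (c • η) = (starRingEnd ℂ) c • evF G T ξ η := F_ext G fun Λ => by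
  rw [map_smul, inF_evF, inF_evF, smul_apply, ev_apply, ev_apply, XE.ap_smul3]; rfl

theorem evF_left (y : N) (T : H →L[ℂ] H) (ξ η : G.D) :
    evF G ((y : H →L[ℂ] H) * T) ξ η = evF G T ξ (G.nD (star y) η) := F_ext G fun Λ => by
  rw [inF_evF, inF_evF, ev_apply, ev_apply, XE.left]

theorem evF_right (y : N) (T : H →L[ℂ] H) (ξ η : G.D) :
    evF G (T * (y : H →L[ℂ] H)) ξ η = evF G T (G.nD y ξ) η := F_ext G fun Λ => by
  rw [inF_evF, inF_evF, ev_apply, ev_apply, XE.right]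

theorem evF_zero2 (T : H →L[ℂ] H) (η : G.D) : evF G T 0 η = 0 := by
  have := evF_smul2 G 0 T 0 η
  rwa [zero_smul, zero_smul] at this

theorem norm_evF_one {T : H →L[ℂ] H} {ξ η : G.D} (hT : ‖T‖ ≤ 1) (hξ : G.In 1 ξ) (hη : G.In 1 η) :
    ‖evF G T ξ η‖ ≤ 1 := by
  have := norm_evF_le G T hξ hη
  rw [mul_one, mul_one] at this
  exact this.trans hT

/-- Every bounded functional on the predual is the evaluation at a form. -/
theorem dual_repr (φ : StrongDual ℂ (FE G)) :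
    ∃ Λ : XE G, ‖Λ‖ ≤ ‖φ‖ ∧ ∀ f : FE G, φ f = inF G f Λ := by
  let Λ : XE G := XE.mk (fun T ξ η => φ (evF G T ξ η))
    { add1 := fun T T' ξ η => by rw [evF_add1, map_add]
      smul1 := fun c T ξ η => by rw [evF_smul1, map_smul]; rfl
      add2 := fun T ξ ξ' η => by rw [evF_add2, map_add]
      smul2 := fun c T ξ η => by rw [evF_smul2, map_smul]; rfl
      add3 := fun T ξ η η' => by rw [evF_add3, map_add]
      smul3 := fun c T ξ η => by rw [evF_smul3, map_smul]; rfl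
      left := fun y T ξ η => by rw [evF_left]
      right := fun y T ξ η => by rw [evF_right]
      bdd := ⟨‖φ‖, fun T ξ η hξ hη => by
        refine (φ.le_opNorm _).trans (mul_le_mul_of_nonneg_left ?_ (norm_nonneg _))
        have := norm_evF_le G T hξ hη
        rwa [mul_one, mul_one] at this⟩ }
  have hΛ : ‖Λ‖ ≤ ‖φ‖ := XE.norm_le (norm_nonneg _) fun T ξ η hT hξ hη => by
    show ‖φ (evF G T ξ η)‖ ≤ ‖φ‖
    refine (φ.le_opNorm _).trans ?_
    exact mul_le_of_le_one_right (norm_nonneg _) (norm_evF_one G hT hξ hη)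
  refine ⟨Λ, hΛ, fun f => ?_⟩
  have hev : ∀ T ξ η, φ (evF G T ξ η) = inF G (evF G T ξ η) Λ := fun T ξ η => rfl
  refine eq_of_forall_dist_le fun ε hε => ?_
  set c : ℝ := ‖φ‖ + ‖Λ‖ + 1 with hc
  have hc0 : 0 < c := by positivity
  obtain ⟨m, T, ξ, η, h⟩ := F_dense G f (show 0 < ε / c by positivity)
  set g := ∑ k, evF G (T k) (ξ k) (η k) with hg
  have h1 : φ g = inF G g Λ := by
    rw [hg, map_sum, map_sum, sum_apply]
    exact Finset.sum_congr rfl fun k _ => hev _ _ _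
  have h2 : φ f - inF G f Λ = φ (f - g) - inF G (f - g) Λ := by
    rw [map_sub, map_sub, sub_apply, h1]; ring
  rw [dist_eq_norm, h2]
  refine (norm_sub_le _ _).trans ?_
  have h3 : ‖φ (f - g)‖ ≤ ‖φ‖ * (ε / c) :=
    (φ.le_opNorm _).trans (mul_le_mul_of_nonneg_left h (norm_nonneg _))
  have h4 : ‖inF G (f - g) Λ‖ ≤ (ε / c) * ‖Λ‖ :=
    (ContinuousLinearMap.le_opNorm _ _).trans (mul_le_mul_of_nonneg_right h (norm_nonneg _))
  have h5 : (ε / c) * c = ε := div_mul_cancel₀ _ hc0.ne'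
  have h6 : 0 < ε / c := by positivity
  nlinarith

/-- The norm one generators. -/
def Gen : Set (FE G) :=
  {e | ∃ (T : H →L[ℂ] H) (ξ η : G.D), ‖T‖ ≤ 1 ∧ G.In 1 (ξ : H) ∧ G.In 1 (η : H) ∧
    e = evF G T ξ η}

theorem Gen_smul {c : ℂ} (hc : ‖c‖ ≤ 1) {e : FE G} (he : e ∈ Gen G) : c • e ∈ Gen G := by
  obtain ⟨T, ξ, η, hT, hξ, hη, rfl⟩ := he
  refine ⟨c • T, ξ, η, ?_, hξ, hη, (evF_smul1 G c T ξ η).symm⟩
  rw [norm_smul]
  exact mul_le_one₀ hc (norm_nonneg _) hT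

theorem In_zero : G.In 1 ((0 : G.D) : H) :=
  ⟨1, le_refl _, by simp, G.mono G.zero (by norm_num)⟩

theorem Gen_zero : (0 : FE G) ∈ Gen G :=
  ⟨0, 0, 0, by simp, In_zero G, In_zero G, (evF_zero2 G 0 0).symm⟩

/-- The unit ball of the predual is the closed convex hull of the generators. -/
theorem ball_mem {f : FE G} (hf : ‖f‖ ≤ 1) : f ∈ closure (convexHull ℝ (Gen G)) := by
  by_contra hf'
  obtain ⟨φ, u, h1, h2⟩ := RCLike.geometric_hahn_banach_closed_point (𝕜 := ℂ)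
    (convex_convexHull ℝ (Gen G)).closure isClosed_closure hf'
  have hsub : ∀ e ∈ Gen G, e ∈ closure (convexHull ℝ (Gen G)) := fun e he =>
    subset_closure (subset_convexHull ℝ _ he)
  have hbd : ∀ e ∈ Gen G, ‖φ e‖ ≤ u := by
    intro e he
    by_cases h0 : φ e = 0
    · rw [h0, norm_zero]
      have := h1 0 (hsub 0 (Gen_zero G))
      rw [map_zero] at this
      exact le_of_lt (by simpa using this)
    · have hn : 0 < ‖φ e‖ := norm_pos_iff.mpr h0
      set c : ℂ := (starRingEnd ℂ) (φ e) / (‖φ e‖ : ℂ) with hc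
      have hcn : ‖c‖ ≤ 1 := by
        rw [hc, norm_div, RCLike.norm_conj, Complex.norm_real, norm_norm, div_self hn.ne']
      have h3 := h1 _ (hsub _ (Gen_smul G hcn he))
      have h4 : φ (c • e) = (‖φ e‖ : ℂ) := by
        rw [map_smul, smul_eq_mul, hc, div_mul_eq_mul_div, Complex.conj_mul', pow_two,
          mul_div_assoc, div_self (by exact_mod_cast hn.ne'), mul_one]
      rw [h4] at h3
      exact le_of_lt (by simpa using h3)
  have hu : 0 ≤ u := (norm_nonneg _).trans (hbd 0 (Gen_zero G))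
  obtain ⟨Λ, _, hΛ⟩ := dual_repr G φ
  have hΛn : ‖Λ‖ ≤ u := XE.norm_le hu fun T ξ η hT hξ hη => by
    have := hbd _ ⟨T, ξ, η, hT, hξ, hη, rfl⟩
    rwa [hΛ, inF_evF, ev_apply] at this
  have h5 : ‖φ f‖ ≤ u := by
    rw [hΛ]
    refine (le_opNorm _ _).trans ?_
    calc ‖inF G f‖ * ‖Λ‖ ≤ 1 * u := mul_le_mul hf hΛn (norm_nonneg _) zero_le_one
      _ = u := one_mul u
  have h6 : RCLike.re (φ f) ≤ u := (RCLike.re_le_norm _).trans h5
  exact absurd h2 (not_lt.mpr h6)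

end Pool.Agent.MP_86f3ed.Sf
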