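import Pool.Agent.H.MP_86f3ed_an.Sf.FTE
import Pool.Agent.H.MP_86f3ed_an.Pin.Main

open scoped InnerProductSpace Topology ENNReal
open Filter ContinuousLinearMap

namespace Pool.Agent.MP_86f3ed.Sf

open Pin

variable {H : Type*} [NormedAddCommGroup H] [InnerProductSpace ℂ H] [CompleteSpace H]

/-- The form of a bimodule map. -/
noncomputable def ofX {N : StarSubalgebra ℂ (H →L[ℂ] H)} (G : Gauge N) (P : X N) : XE G :=
  XE.mk (fun T ξ η => ⟪(η : H), P.ap T ξ⟫_ℂ)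
    { add1 := fun T T' ξ η => by rw [X.ap_add, add_apply, inner_add_right]
      smul1 := fun c T ξ η => by rw [X.ap_smul, smul_apply, inner_smul_right]
      add2 := fun T ξ ξ' η => by rw [Submodule.coe_add, map_add, inner_add_right]
      smul2 := fun c T ξ η => by rw [Submodule.coe_smul, map_smul, inner_smul_right]
      add3 := fun T ξ η η' => by rw [Submodule.coe_add, inner_add_left]
      smul3 := fun c T ξ η => by rw [Submodule.coe_smul, inner_smul_left]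
      left := fun y T ξ η => by
        rw [X.left P y.2]
        show ⟪(η : H), (y : H →L[ℂ] H) (P.ap T ξ)⟫_ℂ = ⟪star (y : H →L[ℂ] H) (η : H), _⟫_ℂ
        rw [star_eq_adjoint, adjoint_inner_left]
      right := fun y T ξ η => by rw [X.right P y.2]; rfl
      bdd := ⟨‖P‖, fun T ξ η hξ hη => by
        refine (norm_inner_le_norm _ _).trans ?_
        have h1 : ‖P.ap T ξ‖ ≤ ‖P‖ * ‖T‖ * ‖(ξ : H)‖ :=
          (ContinuousLinearMap.le_opNorm _ _).trans (mul_le_mul_of_nonneg_right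
            (X.norm_ap_le P T) (norm_nonneg _))
        have h2 := hξ.norm_le
        have h3 := hη.norm_le
        have h4 : 0 ≤ ‖P‖ * ‖T‖ := by positivity
        calc ‖(η : H)‖ * ‖P.ap T ξ‖ ≤ 1 * (‖P‖ * ‖T‖ * ‖(ξ : H)‖) :=
              mul_le_mul h3 h1 (norm_nonneg _) zero_le_one
          _ ≤ 1 * (‖P‖ * ‖T‖ * 1) := by gcongr
          _ = ‖P‖ * ‖T‖ := by ring⟩ }

@[simp] theorem ofX_ap {N : StarSubalgebra ℂ (H →L[ℂ] H)} (G : Gauge N) (P : X N)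
    (T : H →L[ℂ] H) (ξ η : G.D) : (ofX G P).ap T ξ η = ⟪(η : H), P.ap T ξ⟫_ℂ := rfl

/-- In the presence of slots and nearly central maps the open mapping property fails. -/
theorem not_sft {𝔄 : StarSubalgebra ℂ (H →L[ℂ] H)} (hcl : IsClosed (𝔄 : Set (H →L[ℂ] H)))
    (G : Gauge (Com 𝔄)) {v w a b : H →L[ℂ] H} (hv : v ∈ Com 𝔄) (hw : w ∈ Com 𝔄)
    (hvv : star v * v = 1) (hww : star w * w = 1) (hvw : star v * w = 0)
    (ha : a ∈ Com (Com 𝔄)) (hb : b ∈ Com (Com 𝔄)) (haa : star a * a = 1) (hbb : star b * b = 1)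
    (hab : star a * b = 0) (s : BM.Slots (SubA 𝔄)) {ζ : H} (hζ : ζ ≠ 0) (hζD : ζ ∈ G.D)
    (hnc : ∀ (F : Finset (H →L[ℂ] H)), (∀ g ∈ F, g ∈ 𝔄) → ∀ ε : ℝ, 0 < ε → ∃ P : X (Com 𝔄),
      ‖P.ap 1 - 1‖ ≤ ε ∧ ∀ g ∈ F, ∀ S, ‖g * P.ap S - P.ap S * g‖ ≤ ε * ‖S‖)
    (n : ℕ) {C : ℝ} (hC : 0 < C) : ¬ SFT G (SubA 𝔄) n C := by
  classical
  intro hsft
  obtain ⟨m, C', θ, hC', hθ0, hθ1, hFT⟩ :=
    ft_of_sft hcl G hv hw hvv hww hvw ha hb haa hbb hab hC hsft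
  have hcomp : CompleteSpace (Com (Com 𝔄)) := (isClosed_Com (Com 𝔄)).completeSpace_coe
  have hSc : IsClosed (SubA 𝔄 : Set (Com (Com 𝔄))) := by
    exact hcl.preimage continuous_subtype_val
  set z : G.D := ⟨ζ, hζD⟩ with hz
  obtain ⟨r, c, φ, hcS, hφ⟩ := BM.encode_of_lt_one hSc (apprE hcl G) s hC' hθ0 hθ1 hFT
    (evF G 1 z z)
  set K : ℝ := ‖ζ‖ ^ 2 + ∑ k, ‖φ k‖ with hK
  have hζn : 0 < ‖ζ‖ := norm_pos_iff.mpr hζ
  have hs : 0 ≤ ∑ k, ‖φ k‖ := Finset.sum_nonneg fun k _ => norm_nonneg _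
  have hK0 : 0 < K := by positivity
  set ε : ℝ := ‖ζ‖ ^ 2 / (2 * K) with hε
  have hε0 : 0 < ε := by positivity
  obtain ⟨P, hP1, hP2⟩ := hnc (Finset.univ.image fun k => (c k : H →L[ℂ] H)) (by
    intro g hg
    obtain ⟨k, _, rfl⟩ := Finset.mem_image.mp hg
    exact hcS k) ε hε0
  set Λ : XE G := ofX G P with hΛ
  have e1 : inF G (evF G 1 z z) Λ = ∑ k, inF G (φ k) (lX G (c k) Λ - rX G (c k) Λ) := by
    rw [hφ, map_sum, sum_apply]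
    exact Finset.sum_congr rfl fun k _ => inF_D G (c k) (φ k) Λ
  have e2 : ‖∑ k, inF G (φ k) (lX G (c k) Λ - rX G (c k) Λ)‖ ≤ (∑ k, ‖φ k‖) * ε := by
    rw [Finset.sum_mul]
    refine (norm_sum_le _ _).trans (Finset.sum_le_sum fun k _ => ?_)
    refine (le_opNorm _ _).trans ?_
    have e3 : ‖lX G (c k) Λ - rX G (c k) Λ‖ ≤ ε := by
      refine XE.norm_le hε0.le fun T ξ η hT hξ hη => ?_
      have f1 : (lX G (c k) Λ - rX G (c k) Λ).ap T ξ η =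
          ⟪(η : H), (((c k : H →L[ℂ] H) * P.ap T - P.ap T * (c k : H →L[ℂ] H)) (ξ : H))⟫_ℂ := by
        rw [XE.sub_ap, lX_ap, rX_ap, hΛ, ofX_ap, ofX_ap, sub_apply, inner_sub_right]
        congr 1
        show ⟪star (c k : H →L[ℂ] H) (η : H), P.ap T (ξ : H)⟫_ℂ =
          ⟪(η : H), (c k : H →L[ℂ] H) (P.ap T (ξ : H))⟫_ℂ
        rw [star_eq_adjoint, adjoint_inner_left]
      rw [f1]
      have f2 := hP2 _ (Finset.mem_image_of_mem (fun k => (c k : H →L[ℂ] H))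
        (Finset.mem_univ k)) T
      have f3 : ‖(c k : H →L[ℂ] H) * P.ap T - P.ap T * (c k : H →L[ℂ] H)‖ ≤ ε :=
        f2.trans (mul_le_of_le_one_right hε0.le hT)
      have f4 := hξ.norm_le
      have f5 := hη.norm_le
      refine (norm_inner_le_norm _ _).trans ?_
      have f6 : ‖((c k : H →L[ℂ] H) * P.ap T - P.ap T * (c k : H →L[ℂ] H)) (ξ : H)‖ ≤ ε := by
        refine (le_opNorm _ _).trans ?_
        calc _ ≤ ε * 1 := mul_le_mul f3 f4 (norm_nonneg _) hε0.le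
          _ = ε := mul_one _
      calc _ ≤ 1 * ε := mul_le_mul f5 f6 (norm_nonneg _) zero_le_one
        _ = ε := one_mul _
    exact mul_le_mul_of_nonneg_left e3 (norm_nonneg _)
  have e4 : ‖ζ‖ ^ 2 - ε * ‖ζ‖ ^ 2 ≤ ‖inF G (evF G 1 z z) Λ‖ := by
    have e0 : inF G (evF G 1 z z) Λ = ⟪ζ, P.ap 1 ζ⟫_ℂ := rfl
    rw [e0]
    have e5 : ⟪ζ, P.ap 1 ζ⟫_ℂ = ⟪ζ, ζ⟫_ℂ + ⟪ζ, (P.ap 1 - 1) ζ⟫_ℂ := by
      rw [← inner_add_right, sub_apply]
      congr 1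
      show P.ap 1 ζ = ζ + (P.ap 1 ζ - ζ)
      abel
    have e6 : ‖⟪ζ, (P.ap 1 - 1) ζ⟫_ℂ‖ ≤ ε * ‖ζ‖ ^ 2 := by
      refine (norm_inner_le_norm _ _).trans ?_
      have := (le_opNorm (P.ap 1 - 1) ζ).trans (mul_le_mul_of_nonneg_right hP1 (norm_nonneg _))
      calc ‖ζ‖ * ‖(P.ap 1 - 1) ζ‖ ≤ ‖ζ‖ * (ε * ‖ζ‖) :=
            mul_le_mul_of_nonneg_left this (norm_nonneg _)
        _ = ε * ‖ζ‖ ^ 2 := by ring
    have e7 : ‖⟪ζ, ζ⟫_ℂ‖ = ‖ζ‖ ^ 2 := by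
      rw [inner_self_eq_norm_sq_to_K, norm_pow]
      simp
    rw [e5]
    have e8 := norm_sub_norm_le ⟪ζ, ζ⟫_ℂ (-⟪ζ, (P.ap 1 - 1) ζ⟫_ℂ)
    rw [sub_neg_eq_add, norm_neg, e7] at e8
    linarith
  rw [e1] at e4
  have e9 : ‖ζ‖ ^ 2 ≤ K * ε := by
    have := e4.trans e2
    rw [hK]; nlinarith
  have e10 : K * ε = ‖ζ‖ ^ 2 / 2 := by rw [hε]; field_simp
  rw [e10] at e9
  have : 0 < ‖ζ‖ ^ 2 := by positivity
  linarith

end Pool.Agent.MP_86f3ed.Sf
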