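import Pool.Agent.H.MP_86f3ed_an.Sf.FSep

open scoped InnerProductSpace Topology ENNReal
open Filter ContinuousLinearMap

namespace Pool.Agent.MP_86f3ed.Sf

open Pin

variable {H : Type*} [NormedAddCommGroup H] [InnerProductSpace ℂ H] [CompleteSpace H]

variable {N : StarSubalgebra ℂ (H →L[ℂ] H)} (G : Gauge N)

theorem near_sub2 (Λ : XE G) (T : H →L[ℂ] H) (ξ ξ' η : G.D) :
    Λ.ap T ξ η - Λ.ap T ξ' η = Λ.ap T (ξ - ξ') η := by
  have h := Λ.ap_add2 T (ξ - ξ') ξ' η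
  rw [sub_add_cancel] at h
  rw [h]
  ring

theorem near_sub3 (Λ : XE G) (T : H →L[ℂ] H) (ξ η η' : G.D) :
    Λ.ap T ξ η - Λ.ap T ξ η' = Λ.ap T ξ (η - η') := by
  have h := Λ.ap_add3 T ξ (η - η') η'
  rw [sub_add_cancel] at h
  rw [h]
  ring

theorem near_bd_sub {C C' : ℝ} {ξ ξ' : H} (h : G.Bd C ξ) (h' : G.Bd C' ξ') :
    G.Bd (C + C') (ξ - ξ') := by
  have h1 := G.smul (-1) h'
  rw [norm_neg, norm_one, one_mul, neg_one_smul] at h1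
  rw [sub_eq_add_neg]
  exact G.add h h1

theorem near_bd_left {C : ℝ} {ξ : H} (h : G.Bd C ξ) {x : H →L[ℂ] H} (hx : x ∈ Com N)
    (hx1 : ‖x‖ ≤ 1) : G.Bd C (x ξ) :=
  G.mono (G.left h hx) (mul_le_of_le_one_left (G.nonneg h) hx1)

theorem near_norm_left {c : ℝ} {ξ : H} (h : ‖ξ‖ ≤ c) {x : H →L[ℂ] H}
    (hx1 : ‖x‖ ≤ 1) : ‖x ξ‖ ≤ c :=
  (x.le_opNorm ξ).trans ((mul_le_of_le_one_left (norm_nonneg _) hx1).trans h)

theorem near_diff (Λ : XE G) (hΛ : ‖Λ‖ ≤ 1) (T : H →L[ℂ] H) {ξ ξ' : G.D} {s t r : ℝ}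
    (hs : G.In s (ξ : H)) (ht : G.In t (ξ' : H)) (hr : G.In r ((ξ - ξ' : G.D) : H)) :
    ‖Λ.ap T ξ ξ - Λ.ap T ξ' ξ'‖ ≤ (s + t) * r * ‖T‖ := by
  have e : Λ.ap T ξ ξ - Λ.ap T ξ' ξ' = Λ.ap T (ξ - ξ') ξ + Λ.ap T ξ' (ξ - ξ') := by
    rw [← near_sub2, ← near_sub3]
    ring
  rw [e]
  refine (norm_add_le _ _).trans ?_
  have h1 := Λ.norm_ap_le T hr hs
  have h2 := Λ.norm_ap_le T ht hr
  have hs0 := hs.nonneg
  have ht0 := ht.nonneg
  have hr0 := hr.nonneg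
  have h3 : ‖Λ‖ * (‖T‖ * (r * s)) ≤ 1 * (‖T‖ * (r * s)) :=
    mul_le_mul_of_nonneg_right hΛ (by positivity)
  have h4 : ‖Λ‖ * (‖T‖ * (t * r)) ≤ 1 * (‖T‖ * (t * r)) :=
    mul_le_mul_of_nonneg_right hΛ (by positivity)
  nlinarith

theorem near_sqrt4 (δ : ℝ) : Real.sqrt (4 * δ) = 2 * Real.sqrt δ := by
  rw [Real.sqrt_mul (by norm_num)]
  congr 1
  rw [show (4 : ℝ) = 2 ^ 2 by norm_num, Real.sqrt_sq (by norm_num)]

theorem near_sqrt2 {δ : ℝ} (hδ : 0 ≤ δ) : 2 * Real.sqrt (2 * δ) ≤ 3 * Real.sqrt δ := by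
  have h1 := Real.mul_self_sqrt hδ
  have h2 := Real.mul_self_sqrt (show 0 ≤ 2 * δ by positivity)
  have h3 := Real.sqrt_nonneg δ
  have h4 := Real.sqrt_nonneg (2 * δ)
  nlinarith

/-- Replacing a vector by an almost isometric image. -/
theorem near_isom (Λ : XE G) (hΛ : ‖Λ‖ ≤ 1) {a : Com N} (ha : ‖a‖ ≤ 1) {τ : ℝ}
    (hτ : ‖lX G a Λ - rX G a Λ‖ ≤ τ) {ζ z : G.D} (hζ : ‖(ζ : H)‖ ≤ 1) (hζB : G.Bd 2 (ζ : H))
    {C : ℝ} (hC : 2 ≤ C) (hz : ‖(z : H)‖ ≤ C) (hzB : G.Bd C (z : H)) {δ : ℝ} (hδ : 0 < δ)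
    (hδ1 : δ ≤ 1) (h1 : ‖star (a : H →L[ℂ] H) ((a : H →L[ℂ] H) ζ) - ζ‖ ≤ δ)
    (h2 : ‖(a : H →L[ℂ] H) ζ - z‖ ≤ δ) {T : H →L[ℂ] H} (hT : ‖T‖ ≤ 1) :
    ‖Λ.ap T ζ ζ - Λ.ap T z z‖ ≤ 4 * τ + 4 * Real.sqrt δ +
      (2 + C) * Real.sqrt ((2 + C) * δ) := by
  have ha' : ‖star (a : H →L[ℂ] H)‖ ≤ 1 := by rw [norm_star]; exact ha
  have haC : star (a : H →L[ℂ] H) ∈ Com N := star_mem a.2
  set A : G.D := G.mD a ζ with hA
  set W : G.D := G.mD (star a) A with hW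
  have hAc : (A : H) = (a : H →L[ℂ] H) ζ := rfl
  have hWc : (W : H) = star (a : H →L[ℂ] H) ((a : H →L[ℂ] H) ζ) := rfl
  have hAB : G.Bd 2 (A : H) := near_bd_left G hζB a.2 ha
  have hAn : ‖(A : H)‖ ≤ 1 := near_norm_left hζ ha
  have hWB : G.Bd 2 (W : H) := near_bd_left G hAB haC ha'
  have hζI : G.In 2 (ζ : H) := Gauge.In_of_bd hζB (hζ.trans (by norm_num))
  have hAI : G.In 2 (A : H) := Gauge.In_of_bd hAB (hAn.trans (by norm_num))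
  have hzI : G.In C (z : H) := Gauge.In_of_bd hzB hz
  have hζW : G.In (Real.sqrt (4 * δ)) ((ζ - W : G.D) : H) := by
    refine Gauge.In_of_small ?_ ?_ hδ (by linarith)
    · have := near_bd_sub G hζB hWB
      norm_num at this
      exact this
    · rw [← norm_neg]
      have : -((ζ - W : G.D) : H) = star (a : H →L[ℂ] H) ((a : H →L[ℂ] H) ζ) - ζ := by
        rw [Submodule.coe_sub, hWc]
        abel
      rw [this]
      exact h1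
  have hAz : G.In (Real.sqrt ((2 + C) * δ)) ((A - z : G.D) : H) := by
    refine Gauge.In_of_small ?_ ?_ hδ (by linarith)
    · exact near_bd_sub G hAB hzB
    · exact h2
  have s1 : ‖Λ.ap T ζ ζ - Λ.ap T ζ W‖ ≤ 4 * Real.sqrt δ := by
    rw [near_sub3]
    have h := Λ.norm_ap_le T hζI hζW
    rw [near_sqrt4] at h
    refine h.trans ?_
    have h3 := Real.sqrt_nonneg δ
    have h4 : ‖Λ‖ * ‖T‖ ≤ 1 := mul_le_one₀ hΛ (norm_nonneg _) hT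
    have h5 : ‖Λ‖ * ‖T‖ * (4 * Real.sqrt δ) ≤ 1 * (4 * Real.sqrt δ) :=
      mul_le_mul_of_nonneg_right h4 (by positivity)
    linarith
  have s2 : ‖Λ.ap T ζ W - Λ.ap T A A‖ ≤ 4 * τ := by
    have e : Λ.ap T ζ W - Λ.ap T A A = (lX G a Λ - rX G a Λ).ap T ζ A := rfl
    rw [e]
    refine ((lX G a Λ - rX G a Λ).norm_ap_le T hζI hAI).trans ?_
    have h4 : ‖lX G a Λ - rX G a Λ‖ * ‖T‖ ≤ τ * 1 :=
      mul_le_mul hτ hT (norm_nonneg _) ((norm_nonneg _).trans hτ)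
    linarith
  have s3 : ‖Λ.ap T A A - Λ.ap T z z‖ ≤ (2 + C) * Real.sqrt ((2 + C) * δ) := by
    refine (near_diff G Λ hΛ T hAI hzI hAz).trans ?_
    exact mul_le_of_le_one_right (by positivity) hT
  have e : Λ.ap T ζ ζ - Λ.ap T z z = (Λ.ap T ζ ζ - Λ.ap T ζ W) + (Λ.ap T ζ W - Λ.ap T A A) +
      (Λ.ap T A A - Λ.ap T z z) := by ring
  rw [e]
  refine (norm_add₃_le).trans ?_
  linarith

/-- Almost invariance. -/
theorem near_inv (Λ : XE G) (hΛ : ‖Λ‖ ≤ 1) {b : Com N} (hb : ‖b‖ ≤ 1) {τ : ℝ}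
    (hτ : ‖lX G b Λ - rX G b Λ‖ ≤ τ) {ζ : G.D} (hζ : ‖(ζ : H)‖ ≤ 1) (hζB : G.Bd 1 (ζ : H))
    {u x : H →L[ℂ] H} (hu : u ∈ N) (huu : star u * u = 1) (hx : x ∈ Com N) (hx1 : ‖x‖ ≤ 1)
    (h1 : u ζ = x ζ) (h2 : star u ζ = star x ζ) {δ : ℝ} (hδ : 0 < δ) (hδ1 : δ ≤ 1)
    (h3 : ‖(star x - (b : H →L[ℂ] H)) ζ‖ ≤ δ)
    (h4 : ‖star (star x - (b : H →L[ℂ] H)) (star x (ζ : H))‖ ≤ δ) (S : H →L[ℂ] H) :
    ‖Λ.ap (u * S * star u) ζ ζ - Λ.ap S ζ ζ‖ ≤ (τ + 5 * Real.sqrt δ) * ‖S‖ := by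
  have hb' : ‖star (b : H →L[ℂ] H)‖ ≤ 1 := by rw [norm_star]; exact hb
  have hbC : star (b : H →L[ℂ] H) ∈ Com N := star_mem b.2
  have hxC : star x ∈ Com N := star_mem hx
  have hx' : ‖star x‖ ≤ 1 := by rw [norm_star]; exact hx1
  set y : N := ⟨u, hu⟩ with hy
  set c : Com N := ⟨x, hx⟩ with hc
  set X : G.D := G.mD (star c) ζ with hX
  set B : G.D := G.mD b ζ with hB
  set W : G.D := G.mD (star b) B with hW
  have hXc : (X : H) = star x (ζ : H) := rfl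
  have hBc : (B : H) = (b : H →L[ℂ] H) ζ := rfl
  have hWc : (W : H) = star (b : H →L[ℂ] H) ((b : H →L[ℂ] H) ζ) := rfl
  have hyX : G.nD (star y) ζ = X := Subtype.ext h2
  have hXB : G.Bd 1 (X : H) := near_bd_left G hζB hxC hx'
  have hXn : ‖(X : H)‖ ≤ 1 := near_norm_left hζ hx'
  have hBB : G.Bd 1 (B : H) := near_bd_left G hζB b.2 hb
  have hBn : ‖(B : H)‖ ≤ 1 := near_norm_left hζ hb
  have hWB : G.Bd 1 (W : H) := near_bd_left G hBB hbC hb'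
  have hζI : G.In 1 (ζ : H) := Gauge.In_of_bd hζB hζ
  have hXI : G.In 1 (X : H) := Gauge.In_of_bd hXB hXn
  have hBI : G.In 1 (B : H) := Gauge.In_of_bd hBB hBn
  have hXBI : G.In (Real.sqrt (2 * δ)) ((X - B : G.D) : H) := by
    refine Gauge.In_of_small ?_ ?_ hδ (by linarith)
    · have := near_bd_sub G hXB hBB
      norm_num at this
      exact this
    · exact h3
  have hfix : x (star x (ζ : H)) = ζ := by
    rw [← h2]
    have e1 : x (star u (ζ : H)) = star u (x (ζ : H)) := by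
      have := mem_Com.mp hx (star u) (star_mem hu)
      exact (congrArg (fun S : H →L[ℂ] H => S (ζ : H)) this).symm
    rw [e1, ← h1]
    exact congrArg (fun S : H →L[ℂ] H => S (ζ : H)) huu
  have hWζ : G.In (Real.sqrt (2 * (2 * δ))) ((W - ζ : G.D) : H) := by
    refine Gauge.In_of_small ?_ ?_ (by linarith) (by linarith)
    · have := near_bd_sub G hWB hζB
      norm_num at this
      exact this
    · have e1 : ((W - ζ : G.D) : H) = -(star (b : H →L[ℂ] H) ((star x - (b : H →L[ℂ] H)) ζ)) -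
          star (star x - (b : H →L[ℂ] H)) (star x (ζ : H)) := by
        have e2 : ((W - ζ : G.D) : H) =
            star (b : H →L[ℂ] H) ((b : H →L[ℂ] H) ζ) - x (star x (ζ : H)) := by
          rw [hfix, Submodule.coe_sub, hWc]
        rw [e2, star_sub, star_star, sub_apply, sub_apply, map_sub]
        abel
      rw [e1]
      refine (norm_sub_le _ _).trans ?_
      rw [norm_neg]
      have h5 := near_norm_left h3 hb'
      linarith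
  have s0 : Λ.ap (u * S * star u) ζ ζ = Λ.ap S X X := by
    have e1 : u * S * star u = (y : H →L[ℂ] H) * (S * ((star y : N) : H →L[ℂ] H)) := by
      rw [← mul_assoc]
      rfl
    rw [e1, Λ.left, Λ.right, hyX]
  have s1 : ‖Λ.ap S X X - Λ.ap S B B‖ ≤ 3 * Real.sqrt δ * ‖S‖ := by
    refine (near_diff G Λ hΛ S hXI hBI hXBI).trans ?_
    refine mul_le_mul_of_nonneg_right ?_ (norm_nonneg _)
    have := near_sqrt2 hδ.le
    linarith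
  have s2 : ‖Λ.ap S ζ W - Λ.ap S B B‖ ≤ τ * ‖S‖ := by
    have e : Λ.ap S ζ W - Λ.ap S B B = (lX G b Λ - rX G b Λ).ap S ζ B := rfl
    rw [e]
    refine ((lX G b Λ - rX G b Λ).norm_ap_le S hζI hBI).trans ?_
    rw [mul_one, mul_one]
    exact mul_le_mul_of_nonneg_right hτ (norm_nonneg _)
  have s3 : ‖Λ.ap S ζ W - Λ.ap S ζ ζ‖ ≤ 2 * Real.sqrt δ * ‖S‖ := by
    rw [near_sub3]
    refine (Λ.norm_ap_le S hζI hWζ).trans ?_
    rw [show 2 * (2 * δ) = 4 * δ by ring, near_sqrt4, mul_one]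
    have h3 := Real.sqrt_nonneg δ
    have h4 : ‖Λ‖ * (‖S‖ * (2 * Real.sqrt δ)) ≤ 1 * (‖S‖ * (2 * Real.sqrt δ)) :=
      mul_le_mul_of_nonneg_right hΛ (by positivity)
    linarith
  rw [s0]
  have e : Λ.ap S X X - Λ.ap S ζ ζ = (Λ.ap S X X - Λ.ap S B B) + -(Λ.ap S ζ W - Λ.ap S B B) +
      (Λ.ap S ζ W - Λ.ap S ζ ζ) := by ring
  rw [e]
  refine (norm_add₃_le).trans ?_
  rw [norm_neg]
  linarith

end Pool.Agent.MP_86f3ed.Sf
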