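import Pool.Agent.H.MP_86f3ed_an.Sf.Neg
import Pool.Agent.H.MP_86f3ed_an.Sf.Near

open scoped InnerProductSpace Topology ENNReal
open Filter ContinuousLinearMap

namespace Pool.Agent.MP_86f3ed.Sf

open Pin

variable {H : Type*} [NormedAddCommGroup H] [InnerProductSpace ℂ H] [CompleteSpace H]

/-- The domination property of a gauge. -/
def HasDL {N : StarSubalgebra ℂ (H →L[ℂ] H)} (G : Gauge N) (C : ℝ) (𝒬 : Set (H →L[ℂ] H)) : Prop :=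
  ∀ ξ : H, ‖ξ‖ ≤ 1 → G.Bd 2 ξ → ∀ δ : ℝ, 0 < δ → ∃ a ∈ Com N, star a * a = 1 ∧ ∃ y ∈ N, ‖y‖ ≤ C ∧
    ∃ ζ : H, ‖ζ‖ ≤ 1 ∧ G.Bd 1 ζ ∧ ‖a ξ - y ζ‖ ≤ δ ∧
      ∀ u ∈ 𝒬, ∃ x ∈ Com N, ‖x‖ ≤ 1 ∧ u ζ = x ζ ∧ star u ζ = star x ζ

/-- The choice of the constants. -/
theorem FOut_const {C τ : ℝ} (hC : 2 ≤ C) (hτ : 0 < τ) :
    ∃ δ : ℝ, 0 < δ ∧ δ ≤ 1 / 2 ∧ 5 * Real.sqrt δ ≤ τ / 2 ∧
      4 * Real.sqrt (2 * δ) + (2 + C) * Real.sqrt ((2 + C) * (2 * δ)) ≤ 1 / 128 := by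
  have hC2 : 0 < 2 + C := by linarith
  set s : ℝ := min (τ / 10) (1 / (1024 * (2 + C) ^ 2)) with hs
  have hs0 : 0 < s := lt_min (by positivity) (by positivity)
  have hs1 : s ≤ τ / 10 := min_le_left _ _
  have hs2 : s ≤ 1 / (1024 * (2 + C) ^ 2) := min_le_right _ _
  have hs3 : s * (2 + C) ^ 2 ≤ 1 / 1024 := by
    have h1 := mul_le_mul_of_nonneg_right hs2 (show (0:ℝ) ≤ (2 + C) ^ 2 by positivity)
    have h2 : 1 / (1024 * (2 + C) ^ 2) * (2 + C) ^ 2 = 1 / 1024 := by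
      have : (2 + C) ^ 2 ≠ 0 := by positivity
      field_simp
    rwa [h2] at h1
  have hs4 : s * 16 ≤ s * (2 + C) ^ 2 := mul_le_mul_of_nonneg_left (by nlinarith) hs0.le
  have hs5 : s ≤ 1 / 16384 := by linarith
  have hδ : Real.sqrt (s ^ 2) = s := Real.sqrt_sq hs0.le
  have h2 : Real.sqrt (2 * s ^ 2) ≤ 2 * s := by
    rw [Real.sqrt_le_left (by positivity)]
    nlinarith [sq_nonneg s]
  have h3 : Real.sqrt ((2 + C) * (2 * s ^ 2)) ≤ (2 + C) * s := by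
    rw [Real.sqrt_le_left (by positivity)]
    have h4 : (2 + C) * (2 * s ^ 2) = (2 * (2 + C)) * s ^ 2 := by ring
    have h5 : ((2 + C) * s) ^ 2 = ((2 + C) * (2 + C)) * s ^ 2 := by ring
    rw [h4, h5]
    refine mul_le_mul_of_nonneg_right ?_ (sq_nonneg s)
    exact mul_le_mul_of_nonneg_right (by linarith) hC2.le
  refine ⟨s ^ 2, by positivity, by nlinarith, ?_, ?_⟩
  · rw [hδ]
    linarith
  · have h6 : (2 + C) * Real.sqrt ((2 + C) * (2 * s ^ 2)) ≤ (2 + C) * ((2 + C) * s) :=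
      mul_le_mul_of_nonneg_left h3 hC2.le
    have h7 : (2 + C) * ((2 + C) * s) = s * (2 + C) ^ 2 := by ring
    linarith

/-- The evaluation of a form at a vector as a linear functional. -/
noncomputable def FOut_g {N : StarSubalgebra ℂ (H →L[ℂ] H)} {G : Gauge N} (Λ : XE G) (z : G.D) :
    (H →L[ℂ] H) →ₗ[ℂ] ℂ where
  toFun S := Λ.ap S z z
  map_add' S S' := Λ.ap_add1 S S' z z
  map_smul' c S := Λ.ap_smul1 c S z z

/-- Approximation of an almost isometric element. -/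
theorem FOut_isom {𝔄 : StarSubalgebra ℂ (H →L[ℂ] H)} (hcl : IsClosed (𝔄 : Set (H →L[ℂ] H)))
    {a₀ : H →L[ℂ] H} (ha₀ : a₀ ∈ Com (Com 𝔄)) (haa : star a₀ * a₀ = 1) (ζ z : H) {δ : ℝ}
    (hδ : 0 < δ) (h : ‖a₀ ζ - z‖ ≤ δ) :
    ∃ a ∈ 𝔄, ‖a‖ ≤ 1 ∧ ‖star a (a ζ) - ζ‖ ≤ 2 * δ ∧ ‖a ζ - z‖ ≤ 2 * δ := by
  obtain ⟨a, ha, ha1, hk⟩ := kaplansky 𝔄 hcl ha₀ (Slot_norm haa)
    (fun i : Fin 2 => if i = 0 then ζ else a₀ ζ) (half_pos hδ)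
  have k0 := (hk 0).1
  have k1 := (hk 1).2
  simp only [if_true, Fin.isValue, one_ne_zero, if_false] at k0 k1
  have hfix : star a₀ (a₀ ζ) = ζ := congrArg (fun S : H →L[ℂ] H => S ζ) haa
  refine ⟨a, ha, ha1, ?_, ?_⟩
  · have e : star a (a ζ) - ζ = -(star a ((a₀ - a) ζ)) - star (a₀ - a) (a₀ ζ) := by
      rw [star_sub, sub_apply, sub_apply, map_sub, hfix]
      abel
    rw [e]
    refine (norm_sub_le _ _).trans ?_
    rw [norm_neg]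
    have h1 : ‖star a ((a₀ - a) ζ)‖ ≤ δ / 2 :=
      near_norm_left k0 (by rw [norm_star]; exact ha1)
    linarith
  · have e : a ζ - z = -((a₀ - a) ζ) + (a₀ ζ - z) := by
      rw [sub_apply]
      abel
    rw [e]
    refine (norm_add_le _ _).trans ?_
    rw [norm_neg]
    linarith

/-- Approximation of the elements which implement the unitaries. -/
theorem FOut_inv {𝔄 : StarSubalgebra ℂ (H →L[ℂ] H)} (hcl : IsClosed (𝔄 : Set (H →L[ℂ] H)))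
    {x : H →L[ℂ] H} (hx : x ∈ Com (Com 𝔄)) (hx1 : ‖x‖ ≤ 1) (z : H) {δ : ℝ} (hδ : 0 < δ) :
    ∃ b ∈ 𝔄, ‖b‖ ≤ 1 ∧ ‖(star x - b) z‖ ≤ δ ∧ ‖star (star x - b) (star x z)‖ ≤ δ := by
  obtain ⟨b, hb, hb1, hk⟩ := kaplansky 𝔄 hcl (x := star x) (star_mem hx)
    (by rw [norm_star]; exact hx1) (fun i : Fin 2 => if i = 0 then z else star x z) hδ
  have k0 := (hk 0).1
  have k1 := (hk 1).2
  simp only [if_true, Fin.isValue, one_ne_zero, if_false] at k0 k1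
  exact ⟨b, hb, hb1, k0, k1⟩

/-- Almost invariant functionals which are bounded from below. -/
theorem exists_functional {𝔄 : StarSubalgebra ℂ (H →L[ℂ] H)}
    (hcl : IsClosed (𝔄 : Set (H →L[ℂ] H))) (G : Gauge (Com 𝔄)) {v w : H →L[ℂ] H}
    (hv : v ∈ Com 𝔄) (hw : w ∈ Com 𝔄) (hvv : star v * v = 1) (hww : star w * w = 1)
    (hvw : star v * w = 0) {C : ℝ} (hC : 2 ≤ C) {𝒬 : Set (H →L[ℂ] H)} (hDL : HasDL G C 𝒬)
    (hno : ∀ (n : ℕ) (R : ℝ), 0 < R → ¬ SFT G (SubA 𝔄) n R)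
    (h𝒬 : ∀ u ∈ 𝒬, u ∈ Com 𝔄 ∧ star u * u = 1 ∧ u * star u = 1)
    (Q : Finset (H →L[ℂ] H)) (hQ : ∀ u ∈ Q, u ∈ 𝒬) {τ : ℝ} (hτ : 0 < τ) :
    ∃ g : (H →L[ℂ] H) →ₗ[ℂ] ℂ, (∀ S, ‖g S‖ ≤ ‖S‖) ∧ (∃ S, ‖S‖ ≤ 1 ∧ 1 / (64 * C ^ 2) ≤ ‖g S‖) ∧
      ∀ u ∈ Q, ∀ S, ‖g (u * S * star u) - g S‖ ≤ τ * ‖S‖ := by
  classical
  obtain ⟨δ, hδ, hδ1, hδ2, hδ3⟩ := FOut_const hC hτ
  set R : ℝ := 2048 + 8 / τ with hR
  have hR0 : 0 < R := by positivity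
  have hR1 : 4 / R ≤ τ / 2 := by
    rw [div_le_iff₀ hR0, hR]
    have h1 : τ / 2 * (2048 + 8 / τ) = 1024 * τ + 4 := by field_simp; ring
    rw [h1]
    linarith
  have hR2 : 4 * (4 / R) ≤ 1 / 128 := by
    have h1 : 4 * (4 / R) = 16 / R := by ring
    rw [h1, div_le_iff₀ hR0, hR]
    have h2 : 0 < 8 / τ := by positivity
    linarith
  obtain ⟨T, ζ₀, hT, hζ₀, hζ₀B, hfam⟩ := exists_of_not_sft G (SubA 𝔄) hv hw hvv hww hvw hR0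
    (hno (Q.card + 1) R hR0)
  obtain ⟨a₀, ha₀, haa, y, hy, hyC, zp, hzp, hzpB, hyz, hux⟩ := hDL (ζ₀ : H) hζ₀ hζ₀B δ hδ
  obtain ⟨a, ha, ha1, ha2, ha3⟩ := FOut_isom hcl ha₀ haa (ζ₀ : H) (y zp) hδ hyz
  have hex : ∀ u : Q, ∃ b ∈ 𝔄, ‖b‖ ≤ 1 ∧ ∃ x ∈ Com (Com 𝔄), ‖x‖ ≤ 1 ∧
      (u : H →L[ℂ] H) zp = x zp ∧ star (u : H →L[ℂ] H) zp = star x zp ∧
      ‖(star x - b) zp‖ ≤ δ ∧ ‖star (star x - b) (star x zp)‖ ≤ δ := by
    intro u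
    obtain ⟨x, hx, hx1, h1, h2⟩ := hux u (hQ u u.2)
    obtain ⟨b, hb, hb1, h3, h4⟩ := FOut_inv hcl hx hx1 zp hδ
    exact ⟨b, hb, hb1, x, hx, hx1, h1, h2, h3, h4⟩
  choose b hb hb1 x hx hx1 h1 h2 h3 h4 using hex
  set e := Q.equivFin with he
  set fam : Fin (Q.card + 1) → Com (Com 𝔄) :=
    Fin.cons ⟨a, Slot_sub 𝔄 ha⟩ (fun i => ⟨b (e.symm i), Slot_sub 𝔄 (hb (e.symm i))⟩) with hfamdef
  obtain ⟨Λ, hΛ, hΛc, hΛT⟩ := hfam fam (by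
    intro k
    refine Fin.cases ?_ (fun i => ?_) k
    · exact ⟨mem_SubA.2 ha, ha1⟩
    · exact ⟨mem_SubA.2 (hb (e.symm i)), hb1 (e.symm i)⟩)
  set z : G.D := ⟨zp, ⟨1, hzpB⟩⟩ with hz
  have hzI : G.In 1 (z : H) := Gauge.In_of_bd hzpB hzp
  set y' : Com 𝔄 := ⟨y, hy⟩ with hy'
  set Y : G.D := G.nD y' z with hY
  have hYB : G.Bd C (Y : H) := by
    have h5 := G.right hzpB hy
    rw [mul_one] at h5
    exact G.mono h5 hyC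
  have hYn : ‖(Y : H)‖ ≤ C := by
    refine (y.le_opNorm zp).trans ?_
    calc ‖y‖ * ‖zp‖ ≤ C * 1 := mul_le_mul hyC hzp (norm_nonneg _) (by linarith)
      _ = C := mul_one C
  refine ⟨FOut_g Λ z, ?_, ?_, ?_⟩
  · intro S
    have h5 := Λ.norm_ap_le S hzI hzI
    rw [mul_one, mul_one] at h5
    exact h5.trans (mul_le_of_le_one_left (norm_nonneg _) hΛ)
  · have c0 := hΛc 0
    have h5 := near_isom G Λ hΛ (a := ⟨a, Slot_sub 𝔄 ha⟩) ha1 c0 hζ₀ hζ₀B hC (z := Y) hYn hYB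
      (δ := 2 * δ) (by linarith) (by linarith) ha2 ha3 hT
    have h6 : 1 / 64 ≤ ‖Λ.ap T Y Y‖ := by
      have h7 := norm_sub_norm_le (Λ.ap T ζ₀ ζ₀) (Λ.ap T Y Y)
      linarith
    have h8 : Λ.ap (star y * (T * y)) z z = Λ.ap T Y Y := by
      have e1 := Λ.left (star y') (T * y) z z
      have e2 := Λ.right y' T z Y
      rw [star_star] at e1
      exact e1.trans e2
    have hC0 : 0 < C := by linarith
    have hcn : ‖((((C ^ 2)⁻¹ : ℝ)) : ℂ)‖ = (C ^ 2)⁻¹ := by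
      rw [Complex.norm_real, Real.norm_of_nonneg (by positivity)]
    refine ⟨(((C ^ 2)⁻¹ : ℝ) : ℂ) • (star y * (T * y)), ?_, ?_⟩
    · rw [norm_smul, hcn, inv_mul_le_iff₀ (by positivity), mul_one]
      refine (norm_mul_le _ _).trans ?_
      rw [norm_star]
      have h9 : ‖T * y‖ ≤ C := (norm_mul_le _ _).trans
        ((mul_le_mul hT hyC (norm_nonneg _) zero_le_one).trans (by rw [one_mul]))
      calc ‖y‖ * ‖T * y‖ ≤ C * C := mul_le_mul hyC h9 (norm_nonneg _) hC0.le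
        _ = C ^ 2 := by ring
    · show 1 / (64 * C ^ 2) ≤ ‖Λ.ap ((((C ^ 2)⁻¹ : ℝ) : ℂ) • (star y * (T * y))) z z‖
      rw [Λ.ap_smul1, h8, norm_mul, hcn]
      have h9 : 1 / (64 * C ^ 2) = (C ^ 2)⁻¹ * (1 / 64) := by
        rw [one_div, mul_inv, one_div, mul_comm]
      rw [h9]
      exact mul_le_mul_of_nonneg_left h6 (by positivity)
  · intro u hu S
    set u' : Q := ⟨u, hu⟩ with hu'
    have c1 := hΛc (Fin.succ (e u'))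
    have hfe : fam (Fin.succ (e u')) = ⟨b u', Slot_sub 𝔄 (hb u')⟩ := by
      rw [hfamdef, Fin.cons_succ]
      apply Subtype.ext
      show b (e.symm (e u')) = b u'
      rw [Equiv.symm_apply_apply]
    rw [hfe] at c1
    obtain ⟨q1, q2, -⟩ := h𝒬 u (hQ u hu)
    have h5 := near_inv G Λ hΛ (b := ⟨b u', Slot_sub 𝔄 (hb u')⟩) (hb1 u') c1 (ζ := z) hzp hzpB q1
      q2 (hx u') (hx1 u') (h1 u') (h2 u') hδ (by linarith) (h3 u') (h4 u') S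
    refine h5.trans (mul_le_mul_of_nonneg_right ?_ (norm_nonneg _))
    linarith

end Pool.Agent.MP_86f3ed.Sf
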