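import Pool.Agent.H.MP_86f3ed_an.Sf.FDual
import Pool.Agent.H.MP_86f3ed_an.Pin.Enc

open scoped InnerProductSpace Topology
open Filter ContinuousLinearMap

namespace Pool.Agent.MP_86f3ed.Sf

open Pin

variable {H : Type*} [NormedAddCommGroup H] [InnerProductSpace ℂ H] [CompleteSpace H]
variable {N : StarSubalgebra ℂ (H →L[ℂ] H)} (G : Gauge N)

/-- Separation: a functional which is far from the commutators with the given elements is large
at a map which almost commutes with them. -/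
theorem separate {n : ℕ} (a : Fin n → Com N) {C θ : ℝ} (hC : 0 < C) (hθ : 0 < θ) (e : FE G)
    (h : ∀ φ : Fin n → FE G, (∀ k, ‖φ k‖ ≤ C) → θ < ‖e - ∑ k, (bmE G).D (a k) (φ k)‖) :
    ∃ Ψ : XE G, ‖Ψ‖ ≤ 1 ∧ θ ≤ ‖inF G e Ψ‖ ∧
      ∀ k, C * ‖lX G (a k) Ψ - rX G (a k) Ψ‖ ≤ ‖inF G e Ψ‖ := by
  classical
  set K : Set (FE G) := {z | ∃ φ : Fin n → FE G, (∀ k, ‖φ k‖ ≤ C) ∧
    z = ∑ k, (bmE G).D (a k) (φ k)} with hK
  have hKc : Convex ℝ K := by
    rintro _ ⟨φ, hφ, rfl⟩ _ ⟨φ', hφ', rfl⟩ s t hs ht hst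
    refine ⟨fun k => s • φ k + t • φ' k, fun k => ?_, ?_⟩
    · refine (norm_add_le _ _).trans ?_
      rw [norm_smul, norm_smul, Real.norm_of_nonneg hs, Real.norm_of_nonneg ht]
      nlinarith [hφ k, hφ' k]
    · rw [Finset.smul_sum, Finset.smul_sum, ← Finset.sum_add_distrib]
      refine Finset.sum_congr rfl fun k _ => ?_
      have e1 : ∀ (r : ℝ) (z : FE G), r • z = (r : ℂ) • z := fun r z => rfl
      rw [map_add, e1, e1, e1, e1, map_smul, map_smul]
  have hdisj : Disjoint (Metric.ball e θ) K := by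
    rw [Set.disjoint_left]
    rintro z hz ⟨φ, hφ, rfl⟩
    have h1 := h φ hφ
    rw [mem_ball_iff_norm'] at hz
    linarith
  obtain ⟨φ, u, hφ1, hφ2⟩ := RCLike.geometric_hahn_banach_open (𝕜 := ℂ) (convex_ball e θ)
    Metric.isOpen_ball hKc hdisj
  have h0K : (0 : FE G) ∈ K := ⟨fun _ => 0, fun k => by simpa using hC.le, by simp⟩
  have hu : u ≤ 0 := by simpa using hφ2 0 h0K
  have hKneg : ∀ (c : ℂ), ‖c‖ ≤ 1 → ∀ z ∈ K, c • z ∈ K := by
    rintro c hc _ ⟨ψ, hψ, rfl⟩
    refine ⟨fun k => c • ψ k, fun k => ?_, ?_⟩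
    · rw [norm_smul]
      exact (mul_le_of_le_one_left (norm_nonneg _) hc).trans (hψ k)
    · rw [Finset.smul_sum]
      refine Finset.sum_congr rfl fun k _ => ?_
      rw [map_smul]
  have hKb : ∀ z ∈ K, ‖φ z‖ ≤ -u := by
    intro z hz
    by_cases h0 : φ z = 0
    · rw [h0, norm_zero]; linarith
    · have hn : 0 < ‖φ z‖ := norm_pos_iff.mpr h0
      set c : ℂ := -((starRingEnd ℂ) (φ z) / (‖φ z‖ : ℂ)) with hc
      have hcn : ‖c‖ ≤ 1 := by
        rw [hc, norm_neg, norm_div, RCLike.norm_conj, Complex.norm_real, norm_norm,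
          div_self hn.ne']
      have h3 := hφ2 _ (hKneg c hcn z hz)
      have h4 : φ (c • z) = -(‖φ z‖ : ℂ) := by
        rw [map_smul, smul_eq_mul, hc, neg_mul, div_mul_eq_mul_div, Complex.conj_mul', pow_two,
          mul_div_assoc, div_self (by exact_mod_cast hn.ne'), mul_one]
      rw [h4] at h3
      have h5 : RCLike.re (-(‖φ z‖ : ℂ)) = -‖φ z‖ := by simp
      rw [h5] at h3
      linarith
  have hφ0 : φ ≠ 0 := by
    rintro rfl
    have h1 := hφ1 e (Metric.mem_ball_self hθ)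
    simp at h1
    linarith
  have hφn : 0 < ‖φ‖ := norm_pos_iff.mpr hφ0
  -- lower bound at e
  have hlow : θ * ‖φ‖ - u ≤ -RCLike.re (φ e) := by
    have h1 : ∀ z : FE G, ‖z‖ < 1 → ‖φ z‖ * θ ≤ u - RCLike.re (φ e) := by
      intro z hz
      by_cases h0 : φ z = 0
      · rw [h0, norm_zero, zero_mul]
        have := hφ1 e (Metric.mem_ball_self hθ)
        linarith
      · have hn : 0 < ‖φ z‖ := norm_pos_iff.mpr h0
        set c : ℂ := (θ : ℂ) * ((starRingEnd ℂ) (φ z) / (‖φ z‖ : ℂ)) with hc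
        have hcn : ‖c‖ = θ := by
          rw [hc, norm_mul, norm_div, RCLike.norm_conj, Complex.norm_real, Complex.norm_real,
            norm_norm, div_self hn.ne', mul_one, Real.norm_of_nonneg hθ.le]
        have hmem : e + c • z ∈ Metric.ball e θ := by
          rw [mem_ball_iff_norm, add_sub_cancel_left, norm_smul, hcn]
          calc θ * ‖z‖ < θ * 1 := mul_lt_mul_of_pos_left hz hθ
            _ = θ := mul_one θ
        have h3 := hφ1 _ hmem
        have h4 : φ (c • z) = ((‖φ z‖ * θ : ℝ) : ℂ) := by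
          rw [map_smul, smul_eq_mul, hc, mul_assoc, div_mul_eq_mul_div, Complex.conj_mul', pow_two,
            mul_div_assoc, div_self (by exact_mod_cast hn.ne'), mul_one]
          push_cast
          ring
        rw [map_add, h4, map_add] at h3
        have h5 : RCLike.re (((‖φ z‖ * θ : ℝ) : ℂ)) = ‖φ z‖ * θ := RCLike.ofReal_re _
        rw [h5] at h3
        linarith
    have h2 : ‖φ‖ ≤ (u - RCLike.re (φ e)) / θ := by
      rw [← sSup_unit_ball_eq_norm φ]
      refine csSup_le ⟨_, ⟨0, Metric.mem_ball_self one_pos, rfl⟩⟩ ?_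
      rintro _ ⟨z, hz, rfl⟩
      rw [le_div_iff₀ hθ]
      exact h1 z (by simpa using hz)
    rw [le_div_iff₀ hθ] at h2
    linarith
  obtain ⟨Ψ, hΨn, hΨ⟩ := dual_repr G φ
  set c : ℂ := ((‖φ‖⁻¹ : ℝ) : ℂ) with hc
  have hcn : ‖c‖ = ‖φ‖⁻¹ := by
    rw [hc, Complex.norm_real, Real.norm_of_nonneg (inv_nonneg.mpr hφn.le)]
  have hre : -RCLike.re (φ e) ≤ ‖φ e‖ := by
    have := RCLike.abs_re_le_norm (φ e)
    exact (neg_le_abs _).trans this
  have hcΨ : ∀ f : FE G, ‖inF G f (c • Ψ)‖ = ‖φ‖⁻¹ * ‖φ f‖ := by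
    intro f
    rw [map_smul, norm_smul, hcn, ← hΨ]
  refine ⟨c • Ψ, ?_, ?_, ?_⟩
  · rw [norm_smul, hcn]
    calc ‖φ‖⁻¹ * ‖Ψ‖ ≤ ‖φ‖⁻¹ * ‖φ‖ := mul_le_mul_of_nonneg_left hΨn (inv_nonneg.mpr hφn.le)
      _ = 1 := inv_mul_cancel₀ hφn.ne'
  · rw [hcΨ, ← div_eq_inv_mul, le_div_iff₀ hφn]
    linarith
  · intro k
    have hk : ∀ f : FE G, ‖f‖ ≤ C → ‖inF G f (lX G (a k) (c • Ψ) - rX G (a k) (c • Ψ))‖ ≤
        ‖φ‖⁻¹ * ‖φ e‖ := by
      intro f hf
      have hmem : (bmE G).D (a k) f ∈ K := by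
        refine ⟨fun l => if l = k then f else 0, fun l => ?_, ?_⟩
        · by_cases hl : l = k
          · simpa [hl] using hf
          · simpa [hl] using hC.le
        · rw [Finset.sum_eq_single k]
          · simp
          · intro l _ hl
            simp [hl]
          · intro hk
            exact absurd (Finset.mem_univ k) hk
      rw [← inF_D, hcΨ]
      refine mul_le_mul_of_nonneg_left ?_ (inv_nonneg.mpr hφn.le)
      have h3 := hKb _ hmem
      have h4 : 0 < θ * ‖φ‖ := by positivity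
      linarith
    rw [hcΨ]
    set r : ℝ := ‖φ‖⁻¹ * ‖φ e‖ with hr
    have hr0 : 0 ≤ r := by positivity
    have h5 : ‖lX G (a k) (c • Ψ) - rX G (a k) (c • Ψ)‖ ≤ r / C := by
      refine XE.norm_le (by positivity) fun T ξ η hT hξ hη => ?_
      set g : FE G := evF G T ξ η with hg
      have hgn : ‖g‖ ≤ 1 := norm_evF_one G hT hξ hη
      have h6 := hk ((C : ℂ) • g) (by
        rw [norm_smul, Complex.norm_real, Real.norm_of_nonneg hC.le]
        exact mul_le_of_le_one_right hC.le hgn)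
      rw [map_smul, smul_apply, norm_smul, Complex.norm_real,
        Real.norm_of_nonneg hC.le] at h6
      rw [le_div_iff₀ hC, mul_comm]
      exact h6
    rw [le_div_iff₀ hC, mul_comm] at h5
    exact h5

end Pool.Agent.MP_86f3ed.Sf
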