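import Pool.Agent.H.MP_86f3ed_an.Sf.Split
import Pool.Agent.H.MP_86f3ed_an.Sf.FAppr

open scoped InnerProductSpace Topology ENNReal
open Filter ContinuousLinearMap

namespace Pool.Agent.MP_86f3ed.Sf

open Pin

variable {H : Type*} [NormedAddCommGroup H] [InnerProductSpace ℂ H] [CompleteSpace H]

/-- The finite open mapping property for the small evaluations. -/
def SFT {N : StarSubalgebra ℂ (H →L[ℂ] H)} (G : Gauge N) (S : Subalgebra ℂ (Com N)) (n : ℕ)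
    (C : ℝ) : Prop :=
  ∀ (T : H →L[ℂ] H) (ξ η : G.D), ‖T‖ ≤ 1 → ‖(ξ : H)‖ ≤ 1 → ‖(η : H)‖ ≤ 1 → G.Bd 2 (ξ : H) →
    G.Bd 2 (η : H) → ∃ (a : Fin n → Com N) (φ : Fin n → FE G), (∀ k, a k ∈ S ∧ ‖a k‖ ≤ 1) ∧
      (∀ k, ‖φ k‖ ≤ C) ∧ ‖evF G T ξ η - ∑ k, (bmE G).D (a k) (φ k)‖ ≤ 1 / 16

theorem FTE_norm {a : H →L[ℂ] H} (h : star a * a = 1) : ‖a‖ ≤ 1 := by
  have h1 := CStarRing.norm_star_mul_self (x := a)
  rw [h] at h1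
  have h2 : ‖(1 : H →L[ℂ] H)‖ ≤ 1 := ContinuousLinearMap.norm_id_le
  rw [h1] at h2
  nlinarith [norm_nonneg a]

theorem FTE_zero {N : StarSubalgebra ℂ (H →L[ℂ] H)} (G : Gauge N) : (0 : FE G) ∈ Sm G := by
  refine ⟨0, 0, 0, by simp, by simp, by simp, ?_, ?_, (evF_zero2 G 0 0).symm⟩
  · exact G.mono G.zero (by norm_num)
  · exact G.mono G.zero (by norm_num)

/-- The convex set which contains the generators. -/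
def FTE_GG {N : StarSubalgebra ℂ (H →L[ℂ] H)} (G : Gauge N) (A B : Com N) : Set (FE G) :=
  {z | ∃ s ∈ Sm G, ∃ ψ₁ ψ₂ g : FE G, ‖ψ₁‖ ≤ 1 ∧ ‖ψ₂‖ ≤ 1 ∧ ‖g‖ ≤ 1 ∧
    z = s + (1 / 2 : ℂ) • (bmE G).D A ψ₁ + (1 / 2 : ℂ) • (bmE G).D B ψ₂ + (7 / 8 : ℂ) • g}

theorem FTE_convex {N : StarSubalgebra ℂ (H →L[ℂ] H)} (G : Gauge N) (A B : Com N)
    (hS : Convex ℝ (Sm G)) : Convex ℝ (FTE_GG G A B) := by
  rintro _ ⟨s, hs, ψ₁, ψ₂, g, h1, h2, h3, rfl⟩ _ ⟨s', hs', ψ₁', ψ₂', g', h1', h2', h3', rfl⟩ r t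
    hr ht hrt
  have e1 : ∀ (r : ℝ) (z : FE G), r • z = (r : ℂ) • z := fun r z => rfl
  have hn : ∀ x x' : FE G, ‖x‖ ≤ 1 → ‖x'‖ ≤ 1 → ‖(r : ℂ) • x + (t : ℂ) • x'‖ ≤ 1 := by
    intro x x' hx hx'
    refine (norm_add_le _ _).trans ?_
    rw [norm_smul, norm_smul, Complex.norm_real, Complex.norm_real, Real.norm_of_nonneg hr,
      Real.norm_of_nonneg ht]
    nlinarith
  refine ⟨r • s + t • s', hS hs hs' hr ht hrt, (r : ℂ) • ψ₁ + (t : ℂ) • ψ₁',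
    (r : ℂ) • ψ₂ + (t : ℂ) • ψ₂', (r : ℂ) • g + (t : ℂ) • g', hn _ _ h1 h1', hn _ _ h2 h2',
    hn _ _ h3 h3', ?_⟩
  rw [e1, e1, e1, e1, map_add, map_add, map_smul, map_smul, map_smul, map_smul]
  module

/-- The case of the unit ball. -/
theorem FTE_unit {𝔄 : StarSubalgebra ℂ (H →L[ℂ] H)} (hcl : IsClosed (𝔄 : Set (H →L[ℂ] H)))
    (G : Gauge (Com 𝔄)) {v w a b : H →L[ℂ] H} (hv : v ∈ Com 𝔄) (hw : w ∈ Com 𝔄)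
    (hvv : star v * v = 1) (hww : star w * w = 1) (hvw : star v * w = 0)
    (ha : a ∈ Com (Com 𝔄)) (hb : b ∈ Com (Com 𝔄)) (haa : star a * a = 1) (hbb : star b * b = 1)
    (hab : star a * b = 0) {n : ℕ} {C : ℝ} (h : SFT G (SubA 𝔄) n C) {f : FE G} (hf : ‖f‖ ≤ 1) :
    ∃ (a : Fin (n + 1 + 1) → Com (Com 𝔄)) (φ : Fin (n + 1 + 1) → FE G),
      (∀ k, a k ∈ SubA 𝔄 ∧ ‖a k‖ ≤ 1) ∧ (∀ k, ‖φ k‖ ≤ max C 1) ∧
      ‖f - ∑ k, (bmE G).D (a k) (φ k)‖ ≤ 31 / 32 := by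
  have hsub : Gen G ⊆ FTE_GG G ⟨a, ha⟩ ⟨b, hb⟩ := by
    intro e he
    rcases Gen_split G hv hw hvv hww hvw ha hb haa hbb hab he with h1 | h1
    · refine ⟨e, h1, 0, 0, 0, by simp, by simp, by simp, ?_⟩
      rw [map_zero, map_zero, smul_zero, smul_zero, add_zero, add_zero, add_zero]
    · obtain ⟨ψ₁, ψ₂, g, k1, k2, k3, k4⟩ := h1
      refine ⟨0, FTE_zero G, ψ₁, ψ₂, g, k1, k2, k3, ?_⟩
      rw [zero_add]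
      exact k4
  have hconv := convexHull_min hsub
    (FTE_convex G ⟨a, ha⟩ ⟨b, hb⟩ (Sm_convex G hv hw hvv hww hvw))
  obtain ⟨z, hz, hfz⟩ := Metric.mem_closure_iff.1 (ball_mem G hf) (1 / 64) (by norm_num)
  obtain ⟨s, ⟨T, ξ, η, hT, hξ, hη, hξ2, hη2, hs⟩, ψ₁, ψ₂, g, h1, h2, h3, hzz⟩ := hconv hz
  obtain ⟨a₀, φ₀, ha₀, hφ₀, hr₀⟩ := h T ξ η hT hξ hη hξ2 hη2
  rw [← hs] at hr₀
  obtain ⟨a', ha'S, ha'n, ha'L, ha'R⟩ := apprE hcl G ⟨a, ha⟩ (FTE_norm haa) ψ₁ ψ₁ (1 / 128)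
    (by norm_num)
  obtain ⟨b', hb'S, hb'n, hb'L, hb'R⟩ := apprE hcl G ⟨b, hb⟩ (FTE_norm hbb) ψ₂ ψ₂ (1 / 128)
    (by norm_num)
  have hDa : ‖(bmE G).D (⟨a, ha⟩ - a') ψ₁‖ ≤ 1 / 64 := by
    rw [BM.D_apply]
    refine (norm_sub_le _ _).trans ?_
    linarith
  have hDb : ‖(bmE G).D (⟨b, hb⟩ - b') ψ₂‖ ≤ 1 / 64 := by
    rw [BM.D_apply]
    refine (norm_sub_le _ _).trans ?_
    linarith
  refine ⟨Fin.cons a' (Fin.cons b' a₀), Fin.cons ((1 / 2 : ℂ) • ψ₁)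
    (Fin.cons ((1 / 2 : ℂ) • ψ₂) φ₀), ?_, ?_, ?_⟩
  · intro k
    refine Fin.cases ⟨ha'S, ha'n⟩ (fun k => ?_) k
    refine Fin.cases ⟨hb'S, hb'n⟩ (fun k => ?_) k
    exact ha₀ k
  · have hhalf : ∀ ψ : FE G, ‖ψ‖ ≤ 1 → ‖(1 / 2 : ℂ) • ψ‖ ≤ max C 1 := by
      intro ψ hψ
      rw [norm_smul]
      have h5 : ‖(1 / 2 : ℂ)‖ = 1 / 2 := by norm_num
      rw [h5]
      have h6 : (1 : ℝ) ≤ max C 1 := le_max_right _ _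
      linarith
    intro k
    refine Fin.cases (hhalf ψ₁ h1) (fun k => ?_) k
    refine Fin.cases (hhalf ψ₂ h2) (fun k => ?_) k
    exact (hφ₀ k).trans (le_max_left _ _)
  · rw [Fin.sum_univ_succ, Fin.sum_univ_succ]
    simp only [Fin.cons_zero, Fin.cons_succ]
    have hsplit : f - ((bmE G).D a' ((1 / 2 : ℂ) • ψ₁) + ((bmE G).D b' ((1 / 2 : ℂ) • ψ₂) +
        ∑ k, (bmE G).D (a₀ k) (φ₀ k))) = (f - z) + (s - ∑ k, (bmE G).D (a₀ k) (φ₀ k)) +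
        (1 / 2 : ℂ) • (bmE G).D (⟨a, ha⟩ - a') ψ₁ + (1 / 2 : ℂ) • (bmE G).D (⟨b, hb⟩ - b') ψ₂ +
        (7 / 8 : ℂ) • g := by
      rw [hzz, map_smul, map_smul, map_sub, map_sub, sub_apply, sub_apply, smul_sub, smul_sub]
      abel
    rw [hsplit]
    have n1 : ‖f - z‖ ≤ 1 / 64 := by
      rw [← dist_eq_norm]
      exact hfz.le
    have n2 : ‖(1 / 2 : ℂ) • (bmE G).D (⟨a, ha⟩ - a') ψ₁‖ ≤ 1 / 128 := by
      rw [norm_smul]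
      have h5 : ‖(1 / 2 : ℂ)‖ = 1 / 2 := by norm_num
      rw [h5]
      linarith
    have n3 : ‖(1 / 2 : ℂ) • (bmE G).D (⟨b, hb⟩ - b') ψ₂‖ ≤ 1 / 128 := by
      rw [norm_smul]
      have h5 : ‖(1 / 2 : ℂ)‖ = 1 / 2 := by norm_num
      rw [h5]
      linarith
    have n4 : ‖(7 / 8 : ℂ) • g‖ ≤ 7 / 8 := by
      rw [norm_smul]
      have h5 : ‖(7 / 8 : ℂ)‖ = 7 / 8 := by norm_num
      rw [h5]
      linarith
    have m1 := norm_add_le ((f - z) + (s - ∑ k, (bmE G).D (a₀ k) (φ₀ k)) +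
        (1 / 2 : ℂ) • (bmE G).D (⟨a, ha⟩ - a') ψ₁ + (1 / 2 : ℂ) • (bmE G).D (⟨b, hb⟩ - b') ψ₂)
        ((7 / 8 : ℂ) • g)
    have m2 := norm_add_le ((f - z) + (s - ∑ k, (bmE G).D (a₀ k) (φ₀ k)) +
        (1 / 2 : ℂ) • (bmE G).D (⟨a, ha⟩ - a') ψ₁) ((1 / 2 : ℂ) • (bmE G).D (⟨b, hb⟩ - b') ψ₂)
    have m3 := norm_add_le ((f - z) + (s - ∑ k, (bmE G).D (a₀ k) (φ₀ k)))
        ((1 / 2 : ℂ) • (bmE G).D (⟨a, ha⟩ - a') ψ₁)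
    have m4 := norm_add_le (f - z) (s - ∑ k, (bmE G).D (a₀ k) (φ₀ k))
    linarith

/-- The finite open mapping property from the one for small evaluations. -/
theorem ft_of_sft {𝔄 : StarSubalgebra ℂ (H →L[ℂ] H)} (hcl : IsClosed (𝔄 : Set (H →L[ℂ] H)))
    (G : Gauge (Com 𝔄)) {v w a b : H →L[ℂ] H} (hv : v ∈ Com 𝔄) (hw : w ∈ Com 𝔄)
    (hvv : star v * v = 1) (hww : star w * w = 1) (hvw : star v * w = 0)
    (ha : a ∈ Com (Com 𝔄)) (hb : b ∈ Com (Com 𝔄)) (haa : star a * a = 1) (hbb : star b * b = 1)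
    (hab : star a * b = 0) {n : ℕ} {C : ℝ} (hC : 0 < C) (h : SFT G (SubA 𝔄) n C) :
    ∃ (m : ℕ) (C' θ : ℝ), 0 ≤ C' ∧ 0 ≤ θ ∧ θ < 1 ∧ (bmE G).FT (SubA 𝔄) m C' θ := by
  refine ⟨n + 1 + 1, max C 1, 31 / 32, hC.le.trans (le_max_left _ _), by norm_num, by norm_num, ?_⟩
  intro f
  by_cases hf0 : f = 0
  · subst hf0
    refine ⟨fun _ => 0, fun _ => 0, fun k => ⟨(SubA 𝔄).zero_mem, by simp⟩, fun k => by simp, ?_⟩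
    simp
  have hfn : 0 < ‖f‖ := norm_pos_iff.mpr hf0
  obtain ⟨e, he⟩ : ∃ e : FE G, e = ((‖f‖⁻¹ : ℝ) : ℂ) • f := ⟨_, rfl⟩
  have hen : ‖e‖ ≤ 1 := by
    rw [he, norm_smul, Complex.norm_real, Real.norm_of_nonneg (inv_nonneg.mpr hfn.le),
      inv_mul_cancel₀ hfn.ne']
  have hfe : f = ((‖f‖ : ℝ) : ℂ) • e := by
    rw [he, smul_smul, ← Complex.ofReal_mul, mul_inv_cancel₀ hfn.ne', Complex.ofReal_one,
      one_smul]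
  obtain ⟨a₁, φ₁, ha₁, hφ₁, hr₁⟩ := FTE_unit hcl G hv hw hvv hww hvw ha hb haa hbb hab h hen
  refine ⟨a₁, fun k => ((‖f‖ : ℝ) : ℂ) • φ₁ k, ha₁, fun k => ?_, ?_⟩
  · rw [norm_smul, Complex.norm_real, norm_norm, mul_comm]
    exact mul_le_mul_of_nonneg_right (hφ₁ k) (norm_nonneg _)
  · have h2 : f - ∑ k, (bmE G).D (a₁ k) (((‖f‖ : ℝ) : ℂ) • φ₁ k) =
        ((‖f‖ : ℝ) : ℂ) • (e - ∑ k, (bmE G).D (a₁ k) (φ₁ k)) := by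
      rw [smul_sub, ← hfe, Finset.smul_sum]
      congr 1
      refine Finset.sum_congr rfl fun k _ => ?_
      rw [map_smul]
    rw [h2, norm_smul, Complex.norm_real, norm_norm, mul_comm]
    exact mul_le_mul_of_nonneg_right hr₁ (norm_nonneg _)

end Pool.Agent.MP_86f3ed.Sf
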