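import Pool.Agent.H.MP_86f3ed_an.Sf.Gauge

open scoped InnerProductSpace Topology ENNReal
open Filter ContinuousLinearMap

namespace Pool.Agent.MP_86f3ed.Sf

open Pin

variable {H : Type*} [NormedAddCommGroup H] [InnerProductSpace ℂ H] [CompleteSpace H]
variable {N : StarSubalgebra ℂ (H →L[ℂ] H)} (G : Gauge N)

/-- Bounded modular trilinear forms. -/
structure IsForm (Λ : (H →L[ℂ] H) → G.D → G.D → ℂ) : Prop where
  add1 : ∀ T T' ξ η, Λ (T + T') ξ η = Λ T ξ η + Λ T' ξ η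
  smul1 : ∀ (c : ℂ) T ξ η, Λ (c • T) ξ η = c * Λ T ξ η
  add2 : ∀ T ξ ξ' η, Λ T (ξ + ξ') η = Λ T ξ η + Λ T ξ' η
  smul2 : ∀ (c : ℂ) T ξ η, Λ T (c • ξ) η = c * Λ T ξ η
  add3 : ∀ T ξ η η', Λ T ξ (η + η') = Λ T ξ η + Λ T ξ η'
  smul3 : ∀ (c : ℂ) T ξ η, Λ T ξ (c • η) = (starRingEnd ℂ) c * Λ T ξ η
  left : ∀ (y : N) T ξ η, Λ ((y : H →L[ℂ] H) * T) ξ η = Λ T ξ (G.nD (star y) η)
  right : ∀ (y : N) T ξ η, Λ (T * (y : H →L[ℂ] H)) ξ η = Λ T (G.nD y ξ) η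
  bdd : ∃ C : ℝ, ∀ T (ξ η : G.D), G.In 1 ξ → G.In 1 η → ‖Λ T ξ η‖ ≤ C * ‖T‖

/-- The bounded modular trilinear forms. -/
def XSub : Submodule ℂ ((H →L[ℂ] H) → G.D → G.D → ℂ) where
  carrier := {Λ | IsForm G Λ}
  add_mem' := by
    rintro Λ Λ' h h'
    obtain ⟨C, hC⟩ := h.bdd
    obtain ⟨C', hC'⟩ := h'.bdd
    constructor
    · intro T T' ξ η; simp only [Pi.add_apply]; rw [h.add1, h'.add1]; ring
    · intro c T ξ η; simp only [Pi.add_apply]; rw [h.smul1, h'.smul1]; ring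
    · intro T ξ ξ' η; simp only [Pi.add_apply]; rw [h.add2, h'.add2]; ring
    · intro c T ξ η; simp only [Pi.add_apply]; rw [h.smul2, h'.smul2]; ring
    · intro T ξ η η'; simp only [Pi.add_apply]; rw [h.add3, h'.add3]; ring
    · intro c T ξ η; simp only [Pi.add_apply]; rw [h.smul3, h'.smul3]; ring
    · intro y T ξ η; simp only [Pi.add_apply]; rw [h.left, h'.left]
    · intro y T ξ η; simp only [Pi.add_apply]; rw [h.right, h'.right]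
    · refine ⟨C + C', fun T ξ η hξ hη => ?_⟩
      simp only [Pi.add_apply]
      refine (norm_add_le _ _).trans ?_
      have := hC T ξ η hξ hη
      have := hC' T ξ η hξ hη
      linarith
  zero_mem' := by
    constructor
    · intro T T' ξ η; simp
    · intro c T ξ η; simp
    · intro T ξ ξ' η; simp
    · intro c T ξ η; simp
    · intro T ξ η η'; simp
    · intro c T ξ η; simp
    · intro y T ξ η; simp
    · intro y T ξ η; simp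
    · exact ⟨0, fun T ξ η _ _ => by simp⟩
  smul_mem' := by
    rintro d Λ h
    obtain ⟨C, hC⟩ := h.bdd
    constructor
    · intro T T' ξ η; simp only [Pi.smul_apply, smul_eq_mul]; rw [h.add1]; ring
    · intro c T ξ η; simp only [Pi.smul_apply, smul_eq_mul]; rw [h.smul1]; ring
    · intro T ξ ξ' η; simp only [Pi.smul_apply, smul_eq_mul]; rw [h.add2]; ring
    · intro c T ξ η; simp only [Pi.smul_apply, smul_eq_mul]; rw [h.smul2]; ring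
    · intro T ξ η η'; simp only [Pi.smul_apply, smul_eq_mul]; rw [h.add3]; ring
    · intro c T ξ η; simp only [Pi.smul_apply, smul_eq_mul]; rw [h.smul3]; ring
    · intro y T ξ η; simp only [Pi.smul_apply, smul_eq_mul]; rw [h.left]
    · intro y T ξ η; simp only [Pi.smul_apply, smul_eq_mul]; rw [h.right]
    · refine ⟨‖d‖ * C, fun T ξ η hξ hη => ?_⟩
      simp only [Pi.smul_apply, smul_eq_mul]
      rw [norm_mul, mul_assoc]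
      exact mul_le_mul_of_nonneg_left (hC T ξ η hξ hη) (norm_nonneg _)

/-- The space of bounded modular forms. -/
def XE : Type _ := ↥(XSub G)

noncomputable instance : AddCommGroup (XE G) := inferInstanceAs (AddCommGroup (XSub G))
noncomputable instance : Module ℂ (XE G) := inferInstanceAs (Module ℂ (XSub G))

variable {G}

/-- The value of a form. -/
noncomputable def XE.ap (Λ : XE G) (T : H →L[ℂ] H) (ξ η : G.D) : ℂ := Λ.1 T ξ η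

theorem XE.isForm (Λ : XE G) : IsForm G Λ.ap := Λ.2

theorem XE.ext {Λ Λ' : XE G} (h : ∀ T ξ η, Λ.ap T ξ η = Λ'.ap T ξ η) : Λ = Λ' := by
  apply Subtype.ext
  funext T ξ η
  exact h T ξ η

@[simp] theorem XE.add_ap (Λ Λ' : XE G) (T : H →L[ℂ] H) (ξ η : G.D) :
    (Λ + Λ').ap T ξ η = Λ.ap T ξ η + Λ'.ap T ξ η := rfl
@[simp] theorem XE.sub_ap (Λ Λ' : XE G) (T : H →L[ℂ] H) (ξ η : G.D) :
    (Λ - Λ').ap T ξ η = Λ.ap T ξ η - Λ'.ap T ξ η := rfl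
@[simp] theorem XE.smul_ap (c : ℂ) (Λ : XE G) (T : H →L[ℂ] H) (ξ η : G.D) :
    (c • Λ).ap T ξ η = c * Λ.ap T ξ η := rfl
@[simp] theorem XE.zero_ap (T : H →L[ℂ] H) (ξ η : G.D) : (0 : XE G).ap T ξ η = 0 := rfl

theorem XE.ap_add1 (Λ : XE G) (T T' : H →L[ℂ] H) (ξ η : G.D) :
    Λ.ap (T + T') ξ η = Λ.ap T ξ η + Λ.ap T' ξ η := Λ.isForm.add1 T T' ξ η
theorem XE.ap_smul1 (Λ : XE G) (c : ℂ) (T : H →L[ℂ] H) (ξ η : G.D) :
    Λ.ap (c • T) ξ η = c * Λ.ap T ξ η := Λ.isForm.smul1 c T ξ η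
theorem XE.ap_add2 (Λ : XE G) (T : H →L[ℂ] H) (ξ ξ' η : G.D) :
    Λ.ap T (ξ + ξ') η = Λ.ap T ξ η + Λ.ap T ξ' η := Λ.isForm.add2 T ξ ξ' η
theorem XE.ap_smul2 (Λ : XE G) (c : ℂ) (T : H →L[ℂ] H) (ξ η : G.D) :
    Λ.ap T (c • ξ) η = c * Λ.ap T ξ η := Λ.isForm.smul2 c T ξ η
theorem XE.ap_add3 (Λ : XE G) (T : H →L[ℂ] H) (ξ η η' : G.D) :
    Λ.ap T ξ (η + η') = Λ.ap T ξ η + Λ.ap T ξ η' := Λ.isForm.add3 T ξ η η'
theorem XE.ap_smul3 (Λ : XE G) (c : ℂ) (T : H →L[ℂ] H) (ξ η : G.D) :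
    Λ.ap T ξ (c • η) = (starRingEnd ℂ) c * Λ.ap T ξ η := Λ.isForm.smul3 c T ξ η

theorem XE.left (Λ : XE G) (y : N) (T : H →L[ℂ] H) (ξ η : G.D) :
    Λ.ap ((y : H →L[ℂ] H) * T) ξ η = Λ.ap T ξ (G.nD (star y) η) := Λ.isForm.left y T ξ η

theorem XE.right (Λ : XE G) (y : N) (T : H →L[ℂ] H) (ξ η : G.D) :
    Λ.ap (T * (y : H →L[ℂ] H)) ξ η = Λ.ap T (G.nD y ξ) η := Λ.isForm.right y T ξ η

variable (G) in
/-- The index set of the norm. -/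
def Idx : Type _ := {p : (H →L[ℂ] H) × G.D × G.D // ‖p.1‖ ≤ 1 ∧ G.In 1 p.2.1 ∧ G.In 1 p.2.2}

theorem XE.memlp (Λ : XE G) :
    Memℓp (fun p : Idx G => (Λ.ap p.1.1 p.1.2.1 p.1.2.2 : ℂ)) ∞ := by
  obtain ⟨C, h⟩ := Λ.isForm.bdd
  refine memℓp_infty ⟨|C|, ?_⟩
  rintro _ ⟨p, rfl⟩
  refine (h p.1.1 p.1.2.1 p.1.2.2 p.2.2.1 p.2.2.2).trans ?_
  calc C * ‖p.1.1‖ ≤ |C| * ‖p.1.1‖ := mul_le_mul_of_nonneg_right (le_abs_self C) (norm_nonneg _)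
    _ ≤ |C| * 1 := mul_le_mul_of_nonneg_left p.2.1 (abs_nonneg C)
    _ = |C| := mul_one _

variable (G) in
/-- The embedding in a space of bounded functions. -/
noncomputable def emb : XE G →ₗ[ℂ] lp (fun _ : Idx G => ℂ) ∞ where
  toFun Λ := ⟨fun p => Λ.ap p.1.1 p.1.2.1 p.1.2.2, Λ.memlp⟩
  map_add' _ _ := rfl
  map_smul' _ _ := rfl

theorem emb_apply (Λ : XE G) (p : Idx G) : emb G Λ p = Λ.ap p.1.1 p.1.2.1 p.1.2.2 := rfl

theorem emb_injective : Function.Injective (emb G) := by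
  intro Λ Λ' h
  refine XE.ext fun T ξ η => ?_
  obtain ⟨s, hs, hξ⟩ := Gauge.exists_In ξ.2
  obtain ⟨t, ht, hη⟩ := Gauge.exists_In η.2
  set u : ℝ := ‖T‖ + 1 with hu
  have hu0 : 0 < u := by positivity
  have inv_norm : ∀ r : ℝ, 0 < r → ‖((r⁻¹ : ℝ) : ℂ)‖ = r⁻¹ := fun r hr => by
    rw [Complex.norm_real, Real.norm_of_nonneg (inv_nonneg.mpr hr.le)]
  have hT : ‖((u⁻¹ : ℝ) : ℂ) • T‖ ≤ 1 := by
    rw [norm_smul, inv_norm u hu0, inv_mul_le_iff₀ hu0]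
    linarith
  have hξ' : G.In 1 (((s⁻¹ : ℝ) : ℂ) • ξ : G.D) := by
    have := hξ.smul ((s⁻¹ : ℝ) : ℂ)
    rwa [inv_norm s hs, inv_mul_cancel₀ hs.ne'] at this
  have hη' : G.In 1 (((t⁻¹ : ℝ) : ℂ) • η : G.D) := by
    have := hη.smul ((t⁻¹ : ℝ) : ℂ)
    rwa [inv_norm t ht, inv_mul_cancel₀ ht.ne'] at this
  have h1 := congrArg (fun f : lp (fun _ : Idx G => ℂ) ∞ => f
    (⟨(((u⁻¹ : ℝ) : ℂ) • T, ((s⁻¹ : ℝ) : ℂ) • ξ, ((t⁻¹ : ℝ) : ℂ) • η), hT, hξ', hη'⟩ : Idx G)) h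
  simp only [emb_apply, XE.ap_smul1, XE.ap_smul2, XE.ap_smul3, Complex.conj_ofReal] at h1
  have hne : ∀ r : ℝ, 0 < r → ((r⁻¹ : ℝ) : ℂ) ≠ 0 := fun r hr => by
    rw [Complex.ofReal_ne_zero]
    exact inv_ne_zero hr.ne'
  have h2 := mul_left_cancel₀ (hne t ht) h1
  have h3 := mul_left_cancel₀ (hne s hs) h2
  exact mul_left_cancel₀ (hne u hu0) h3

noncomputable instance : NormedAddCommGroup (XE G) :=
  NormedAddCommGroup.induced (XE G) (lp (fun _ : Idx G => ℂ) ∞) (emb G) emb_injective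

noncomputable instance : NormedSpace ℂ (XE G) :=
  NormedSpace.induced ℂ (XE G) (lp (fun _ : Idx G => ℂ) ∞) (emb G)

theorem XE.norm_def (Λ : XE G) : ‖Λ‖ = ‖emb G Λ‖ := rfl

theorem XE.norm_le {Λ : XE G} {c : ℝ} (hc : 0 ≤ c)
    (h : ∀ T (ξ η : G.D), ‖T‖ ≤ 1 → G.In 1 ξ → G.In 1 η → ‖Λ.ap T ξ η‖ ≤ c) : ‖Λ‖ ≤ c := by
  rw [XE.norm_def]
  refine lp.norm_le_of_forall_le hc fun p => ?_
  rw [emb_apply]
  exact h _ _ _ p.2.1 p.2.2.1 p.2.2.2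

theorem XE.norm_ap_le_one (Λ : XE G) {T : H →L[ℂ] H} {ξ η : G.D} (hT : ‖T‖ ≤ 1) (hξ : G.In 1 ξ)
    (hη : G.In 1 η) : ‖Λ.ap T ξ η‖ ≤ ‖Λ‖ := by
  have h := lp.norm_apply_le_norm (E := fun _ : Idx G => ℂ) (p := ∞) (by norm_num) (emb G Λ)
    ⟨(T, ξ, η), hT, hξ, hη⟩
  exact h

/-- The basic estimate. -/
theorem XE.norm_ap_le (Λ : XE G) (T : H →L[ℂ] H) {ξ η : G.D} {s t : ℝ} (hξ : G.In s ξ)
    (hη : G.In t η) : ‖Λ.ap T ξ η‖ ≤ ‖Λ‖ * ‖T‖ * s * t := by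
  have inv_norm : ∀ r : ℝ, 0 < r → ‖((r⁻¹ : ℝ) : ℂ)‖ = r⁻¹ := fun r hr => by
    rw [Complex.norm_real, Real.norm_of_nonneg (inv_nonneg.mpr hr.le)]
  -- it suffices to prove the estimate for slightly larger constants
  have key : ∀ ε : ℝ, 0 < ε → ‖Λ.ap T ξ η‖ ≤ ‖Λ‖ * (‖T‖ + ε) * (s + ε) * (t + ε) := by
    intro ε hε
    have hu : 0 < ‖T‖ + ε := by positivity
    have hs : 0 < s + ε := by have := hξ.nonneg; positivity
    have ht : 0 < t + ε := by have := hη.nonneg; positivity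
    have hT : ‖(((‖T‖ + ε)⁻¹ : ℝ) : ℂ) • T‖ ≤ 1 := by
      rw [norm_smul, inv_norm _ hu, inv_mul_le_iff₀ hu]
      linarith
    have hξ' : G.In 1 ((((s + ε)⁻¹ : ℝ) : ℂ) • ξ : G.D) := by
      have := (hξ.mono (show s ≤ s + ε by linarith)).smul (((s + ε)⁻¹ : ℝ) : ℂ)
      rwa [inv_norm _ hs, inv_mul_cancel₀ hs.ne'] at this
    have hη' : G.In 1 ((((t + ε)⁻¹ : ℝ) : ℂ) • η : G.D) := by
      have := (hη.mono (show t ≤ t + ε by linarith)).smul (((t + ε)⁻¹ : ℝ) : ℂ)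
      rwa [inv_norm _ ht, inv_mul_cancel₀ ht.ne'] at this
    have h1 := Λ.norm_ap_le_one hT hξ' hη'
    rw [XE.ap_smul1, XE.ap_smul2, XE.ap_smul3, Complex.conj_ofReal, norm_mul, norm_mul, norm_mul,
      inv_norm _ hu, inv_norm _ hs, inv_norm _ ht] at h1
    rw [inv_mul_le_iff₀ hu, inv_mul_le_iff₀ hs, inv_mul_le_iff₀ ht] at h1
    calc ‖Λ.ap T ξ η‖ ≤ (t + ε) * ((s + ε) * ((‖T‖ + ε) * ‖Λ‖)) := h1
      _ = _ := by ring
  have hlim : Tendsto (fun ε : ℝ => ‖Λ‖ * (‖T‖ + ε) * (s + ε) * (t + ε)) (𝓝[>] 0)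
      (𝓝 (‖Λ‖ * (‖T‖ + 0) * (s + 0) * (t + 0))) := by
    refine Tendsto.mono_left ?_ nhdsWithin_le_nhds
    exact (Continuous.tendsto (by fun_prop) 0)
  rw [add_zero, add_zero, add_zero] at hlim
  exact ge_of_tendsto hlim (Filter.eventually_of_mem self_mem_nhdsWithin fun ε hε => key ε hε)

/-- Constructor of forms. -/
noncomputable def XE.mk (Λ : (H →L[ℂ] H) → G.D → G.D → ℂ) (h : IsForm G Λ) : XE G :=
  (⟨Λ, h⟩ : XSub G)

@[simp] theorem XE.mk_ap (Λ : (H →L[ℂ] H) → G.D → G.D → ℂ) (h : IsForm G Λ)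
    (T : H →L[ℂ] H) (ξ η : G.D) : (XE.mk Λ h).ap T ξ η = Λ T ξ η := rfl

variable (G)

theorem mD_add (x y : Com N) (ξ : G.D) : G.mD (x + y) ξ = G.mD x ξ + G.mD y ξ := rfl
theorem mD_smul (c : ℂ) (x : Com N) (ξ : G.D) : G.mD (c • x) ξ = c • G.mD x ξ := rfl
theorem mD_mul (x y : Com N) (ξ : G.D) : G.mD (x * y) ξ = G.mD x (G.mD y ξ) := rfl
theorem mD_one (ξ : G.D) : G.mD 1 ξ = ξ := rfl
theorem mD_nD (x : Com N) (y : N) (ξ : G.D) : G.mD x (G.nD y ξ) = G.nD y (G.mD x ξ) := by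
  apply Subtype.ext
  show (x : H →L[ℂ] H) ((y : H →L[ℂ] H) ξ) = (y : H →L[ℂ] H) ((x : H →L[ℂ] H) ξ)
  exact (congrArg (fun S : H →L[ℂ] H => S ξ) (mem_Com.mp x.2 y y.2)).symm

theorem In_mD {s : ℝ} {ξ : G.D} (h : G.In s ξ) (x : Com N) : G.In (‖x‖ * s) (G.mD x ξ) :=
  h.left x.2

end Pool.Agent.MP_86f3ed.Sf
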