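import Pool.Agent.H.MP_86f3ed_an.Sf.Base

open scoped InnerProductSpace Topology ENNReal
open Filter ContinuousLinearMap

namespace Pool.Agent.MP_86f3ed.Sf

open Pin

variable {K : Type*} [NormedAddCommGroup K] [InnerProductSpace ℂ K] [CompleteSpace K]

/-- A family of partial copies of `p` with orthogonal ranges. -/
structure Partials (𝔓 : StarSubalgebra ℂ (K →L[ℂ] K)) (p : K →L[ℂ] K) {m : ℕ}
    (U : Fin m → K →L[ℂ] K) : Prop where
  mem : ∀ i, U i ∈ Com 𝔓
  part : ∀ i, U i * star (U i) * U i = U i
  right : ∀ i, U i * p = U i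
  orth : ∀ i j, i ≠ j → star (U i) * U j = 0

theorem full_shift {A : Type*} [Ring A] [StarRing A] {a b : A} (haa : star a * a = 1)
    (hbb : star b * b = 1) (hab : star a * b = 0) (i j : ℕ) :
    star b * (star a ^ i * (a ^ j * b)) = if i = j then 1 else 0 := by
  have hba : star b * a = 0 := by
    have h := congrArg star hab
    rwa [star_mul, star_star, star_zero] at h
  induction i generalizing j with
  | zero =>
    rcases j with _ | j
    · rw [if_pos rfl, pow_zero, pow_zero, one_mul, one_mul, hbb]
    · rw [if_neg (by omega), pow_zero, one_mul, pow_succ', mul_assoc, ← mul_assoc, hba, zero_mul]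
  | succ i ih =>
    rcases j with _ | j
    · rw [if_neg (by omega), pow_zero, one_mul, pow_succ, mul_assoc, hab, mul_zero, mul_zero]
    · have h1 : star a ^ (i + 1) * (a ^ (j + 1) * b) = star a ^ i * (a ^ j * b) := by
        rw [pow_succ, pow_succ', mul_assoc (a), mul_assoc, ← mul_assoc (star a), haa, one_mul]
      rw [h1, ih j]
      simp

theorem full_norm_le {u : K →L[ℂ] K} (h1 : star u = u) (h2 : u * u = u) (z : K) :
    ‖u z‖ ≤ ‖z‖ := by
  have h3 : ⟪u z, u z⟫_ℂ = ⟪z, u z⟫_ℂ := by
    have h4 : ⟪u z, u z⟫_ℂ = ⟪z, (star u) (u z)⟫_ℂ := by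
      rw [star_eq_adjoint, adjoint_inner_right]
    rw [h4, h1]
    show ⟪z, (u * u) z⟫_ℂ = _
    rw [h2]
  have h5 : ‖u z‖ * ‖u z‖ ≤ ‖z‖ * ‖u z‖ := by
    have h6 := norm_inner_le_norm (𝕜 := ℂ) z (u z)
    rw [← h3, inner_self_eq_norm_sq_to_K] at h6
    have h7 : ‖((‖u z‖ : ℂ)) ^ 2‖ = ‖u z‖ * ‖u z‖ := by
      rw [norm_pow, Complex.norm_real, norm_norm, pow_two]
    rw [← h7]
    exact h6
  rcases (norm_nonneg (u z)).eq_or_lt with h0 | h0
  · rw [← h0]; exact norm_nonneg _
  · exact le_of_mul_le_mul_right h5 h0

/-- Partial copies are completed to full copies by means of two isometries with orthogonal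
ranges. -/
theorem exists_full (𝔓 : StarSubalgebra ℂ (K →L[ℂ] K)) {p : K →L[ℂ] K} (hp : p ∈ Com 𝔓)
    (hps : star p = p) (hpp : p * p = p) {a b : K →L[ℂ] K} (ha : a ∈ Com 𝔓) (hb : b ∈ Com 𝔓)
    (haa : star a * a = 1) (hbb : star b * b = 1) (hab : star a * b = 0) {m : ℕ}
    {U : Fin m → K →L[ℂ] K} (hU : Partials 𝔓 p U) :
    ∃ U' : Fin m → K →L[ℂ] K, (∀ i, U' i ∈ Com 𝔓) ∧
      (∀ i j, star (U' i) * U' j = if i = j then p else 0) ∧
      ∀ i x, ‖star (U i) (star a x)‖ ≤ ‖star (U' i) x‖ := by
  have hba : star b * a = 0 := by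
    have h := congrArg star hab
    rwa [star_mul, star_star, star_zero] at h
  -- the projections
  have hus : ∀ i, star (star (U i) * U i) = star (U i) * U i := fun i => by
    rw [star_mul, star_star]
  have hUs : ∀ i, star (U i) * U i * star (U i) = star (U i) := fun i => by
    have h := congrArg star (hU.part i)
    rwa [star_mul, star_mul, star_star, ← mul_assoc] at h
  have huu : ∀ i, star (U i) * U i * (star (U i) * U i) = star (U i) * U i := fun i => by
    rw [← mul_assoc, hUs]
  have hup : ∀ i, star (U i) * U i * p = star (U i) * U i := fun i => by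
    rw [mul_assoc, hU.right]
  have hpu : ∀ i, p * (star (U i) * U i) = star (U i) * U i := fun i => by
    have h := congrArg star (hup i)
    rwa [star_mul, hus, hps] at h
  set u : Fin m → K →L[ℂ] K := fun i => star (U i) * U i with hu
  set q : Fin m → K →L[ℂ] K := fun i => p - u i with hq
  set S : Fin m → K →L[ℂ] K := fun i => b * (a ^ (i : ℕ) * b) with hS
  have hqs : ∀ i, star (q i) = q i := fun i => by
    show star (p - u i) = p - u i
    rw [star_sub, hps, hus]
  have hqq : ∀ i, q i * q i = q i := fun i => by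
    show (p - u i) * (p - u i) = p - u i
    rw [mul_sub, sub_mul, sub_mul, hpp, hup, hpu, huu, sub_self, sub_zero]
  have huq : ∀ i, u i * q i = 0 := fun i => by
    show u i * (p - u i) = 0
    rw [mul_sub, hup, huu, sub_self]
  have haS : ∀ i, star a * S i = 0 := fun i => by
    show star a * (b * (a ^ (i : ℕ) * b)) = 0
    rw [← mul_assoc, hab, zero_mul]
  have hSa : ∀ i, star (S i) * a = 0 := fun i => by
    have h := congrArg star (haS i)
    rwa [star_mul, star_star, star_zero] at h
  have hSS : ∀ i j, star (S i) * S j = if i = j then 1 else 0 := fun i j => by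
    have h1 : star (S i) = star b * star a ^ (i : ℕ) * star b := by
      show star (b * (a ^ (i : ℕ) * b)) = _
      rw [star_mul, star_mul, star_pow]
    have h2 : star (S i) * S j = star b * (star a ^ (i : ℕ) * (a ^ (j : ℕ) * b)) := by
      rw [h1]
      show star b * star a ^ (i : ℕ) * star b * (b * (a ^ (j : ℕ) * b)) = _
      rw [mul_assoc, ← mul_assoc (star b) b, hbb, one_mul, mul_assoc]
    rw [h2, full_shift haa hbb hab]
    simp [Fin.ext_iff]
  have hst : ∀ i, star (a * U i + S i * q i) = star (U i) * star a + q i * star (S i) := fun i => by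
    rw [star_add, star_mul, star_mul, hqs]
  refine ⟨fun i => a * U i + S i * q i, fun i => ?_, fun i j => ?_, fun i x => ?_⟩
  · refine add_mem (mul_mem ha (hU.mem i)) (mul_mem ?_ (sub_mem hp ?_))
    · exact mul_mem hb (mul_mem (pow_mem ha _) hb)
    · exact mul_mem (star_mem (hU.mem i)) (hU.mem i)
  · show star (a * U i + S i * q i) * (a * U j + S j * q j) = _
    rw [hst]
    have e1 : star (U i) * star a * (a * U j) = star (U i) * U j := by
      rw [mul_assoc, ← mul_assoc (star a), haa, one_mul]
    have e2 : star (U i) * star a * (S j * q j) = 0 := by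
      rw [mul_assoc, ← mul_assoc (star a), haS, zero_mul, mul_zero]
    have e3 : q i * star (S i) * (a * U j) = 0 := by
      rw [mul_assoc, ← mul_assoc (star (S i)), hSa, zero_mul, mul_zero]
    have e4 : q i * star (S i) * (S j * q j) = if i = j then q i else 0 := by
      rw [mul_assoc, ← mul_assoc (star (S i)), hSS]
      split_ifs with h
      · subst h
        rw [one_mul, hqq]
      · rw [zero_mul, mul_zero]
    rw [add_mul, mul_add, mul_add, e1, e2, e3, e4, add_zero, zero_add]
    split_ifs with h
    · subst h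
      show star (U i) * U i + (p - star (U i) * U i) = p
      abel
    · rw [hU.orth i j h, add_zero]
  · have h1 : star (U i) * star a = u i * star (a * U i + S i * q i) := by
      rw [hst, mul_add, ← mul_assoc, ← mul_assoc, huq, zero_mul, add_zero]
      show _ = star (U i) * U i * star (U i) * star a
      rw [hUs]
    show ‖(star (U i) * star a) x‖ ≤ _
    rw [h1]
    exact full_norm_le (hus i) (huu i) _

end Pool.Agent.MP_86f3ed.Sf
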