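import Pool.Agent.H.MP_86f3ed_an.Pin.Space

open scoped InnerProductSpace Topology ENNReal
open Filter ContinuousLinearMap

namespace Pool.Agent.MP_86f3ed.Sf

open Pin

variable {H : Type*} [NormedAddCommGroup H] [InnerProductSpace ℂ H] [CompleteSpace H]

/-- A notion of boundedness of vectors which is adapted to the pair `N`, `Com N`. -/
structure Gauge (N : StarSubalgebra ℂ (H →L[ℂ] H)) where
  Bd : ℝ → H → Prop
  nonneg : ∀ {C ξ}, Bd C ξ → 0 ≤ C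
  zero : Bd 0 0
  mono : ∀ {C C' ξ}, Bd C ξ → C ≤ C' → Bd C' ξ
  add : ∀ {C C' ξ ξ'}, Bd C ξ → Bd C' ξ' → Bd (C + C') (ξ + ξ')
  smul : ∀ {C ξ} (c : ℂ), Bd C ξ → Bd (‖c‖ * C) (c • ξ)
  left : ∀ {C ξ}, Bd C ξ → ∀ {x : H →L[ℂ] H}, x ∈ Com N → Bd (‖x‖ * C) (x ξ)
  right : ∀ {C ξ}, Bd C ξ → ∀ {y : H →L[ℂ] H}, y ∈ N → Bd (‖y‖ * C) (y ξ)
  merge : ∀ {C C' ξ ξ'}, Bd C ξ → Bd C' ξ' → ∀ {v w : H →L[ℂ] H}, v ∈ N → w ∈ N →
    star v * v = 1 → star w * w = 1 → star v * w = 0 →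
    Bd (Real.sqrt (C ^ 2 + C' ^ 2)) (v ξ + w ξ')
  shift : ∀ {C ξ}, Bd C ξ → ∀ {v w : H →L[ℂ] H}, v ∈ N → w ∈ N →
    star v * v = 1 → star w * w = 1 → star v * w = 0 → ∀ {a b : H →L[ℂ] H}, a ∈ Com N →
    b ∈ Com N → star a * a = 1 → star b * b = 1 → star a * b = 0 → Bd C (v (a ξ) + w (b ξ))

variable {N : StarSubalgebra ℂ (H →L[ℂ] H)} (G : Gauge N)

namespace Gauge

/-- The size of a vector is at most `s`. -/
def In (s : ℝ) (ξ : H) : Prop := ∃ ρ : ℝ, 1 ≤ ρ ∧ ‖ξ‖ ≤ s / ρ ∧ G.Bd (s * ρ) ξ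

/-- The bounded vectors. -/
def D : Submodule ℂ H where
  carrier := {ξ | ∃ C, G.Bd C ξ}
  add_mem' := by
    rintro ξ ξ' ⟨C, h⟩ ⟨C', h'⟩
    exact ⟨C + C', G.add h h'⟩
  zero_mem' := ⟨0, G.zero⟩
  smul_mem' := by
    rintro c ξ ⟨C, h⟩
    exact ⟨‖c‖ * C, G.smul c h⟩

theorem mem_D {ξ : H} : ξ ∈ G.D ↔ ∃ C, G.Bd C ξ := Iff.rfl

variable {G}

theorem In.nonneg {s : ℝ} {ξ : H} (h : G.In s ξ) : 0 ≤ s := by
  obtain ⟨ρ, h1, h2, _⟩ := h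
  have h3 : 0 ≤ s / ρ := (norm_nonneg _).trans h2
  have h4 : 0 < ρ := by linarith
  by_contra h5
  push Not at h5
  have := div_neg_of_neg_of_pos h5 h4
  linarith

theorem In.mem {s : ℝ} {ξ : H} (h : G.In s ξ) : ξ ∈ G.D := by
  obtain ⟨ρ, _, _, h⟩ := h
  exact ⟨_, h⟩

theorem In.norm_le {s : ℝ} {ξ : H} (h : G.In s ξ) : ‖ξ‖ ≤ s := by
  have h0 := h.nonneg
  obtain ⟨ρ, h1, h2, _⟩ := h
  exact h2.trans (div_le_self h0 h1)

theorem In.mono {s s' : ℝ} {ξ : H} (h : G.In s ξ) (hs : s ≤ s') : G.In s' ξ := by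
  obtain ⟨ρ, h1, h2, h3⟩ := h
  have hρ : 0 < ρ := by linarith
  exact ⟨ρ, h1, h2.trans (div_le_div_of_nonneg_right hs hρ.le),
    G.mono h3 (mul_le_mul_of_nonneg_right hs hρ.le)⟩

theorem In.smul {s : ℝ} {ξ : H} (c : ℂ) (h : G.In s ξ) : G.In (‖c‖ * s) (c • ξ) := by
  obtain ⟨ρ, h1, h2, h3⟩ := h
  refine ⟨ρ, h1, ?_, ?_⟩
  · rw [norm_smul, mul_div_assoc]
    exact mul_le_mul_of_nonneg_left h2 (norm_nonneg _)
  · rw [mul_assoc]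
    exact G.smul c h3

theorem In.left {s : ℝ} {ξ : H} (h : G.In s ξ) {x : H →L[ℂ] H} (hx : x ∈ Com N) :
    G.In (‖x‖ * s) (x ξ) := by
  obtain ⟨ρ, h1, h2, h3⟩ := h
  refine ⟨ρ, h1, ?_, ?_⟩
  · rw [mul_div_assoc]
    exact (x.le_opNorm ξ).trans (mul_le_mul_of_nonneg_left h2 (norm_nonneg _))
  · rw [mul_assoc]
    exact G.left h3 hx

theorem In.right {s : ℝ} {ξ : H} (h : G.In s ξ) {y : H →L[ℂ] H} (hy : y ∈ N) :
    G.In (‖y‖ * s) (y ξ) := by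
  obtain ⟨ρ, h1, h2, h3⟩ := h
  refine ⟨ρ, h1, ?_, ?_⟩
  · rw [mul_div_assoc]
    exact (y.le_opNorm ξ).trans (mul_le_mul_of_nonneg_left h2 (norm_nonneg _))
  · rw [mul_assoc]
    exact G.right h3 hy

/-- Vectors of small norm with a bound are small. -/
theorem In_of_small {C δ : ℝ} {ξ : H} (h : G.Bd C ξ) (hξ : ‖ξ‖ ≤ δ) (hδ : 0 < δ) (hδC : δ ≤ C) :
    G.In (Real.sqrt (C * δ)) ξ := by
  have hC : 0 < C := hδ.trans_le hδC
  have hs : 0 < Real.sqrt (C * δ) := Real.sqrt_pos.mpr (by positivity)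
  have hss : Real.sqrt (C * δ) * Real.sqrt (C * δ) = C * δ := Real.mul_self_sqrt (by positivity)
  refine ⟨C / Real.sqrt (C * δ), ?_, ?_, ?_⟩
  · rw [one_le_div hs, Real.sqrt_le_left hC.le, pow_two]
    exact mul_le_mul_of_nonneg_left hδC hC.le
  · have h1 : Real.sqrt (C * δ) / (C / Real.sqrt (C * δ)) = δ := by
      rw [div_div_eq_mul_div, hss, mul_div_assoc, mul_comm]
      field_simp
    rw [h1]
    exact hξ
  · have h1 : Real.sqrt (C * δ) * (C / Real.sqrt (C * δ)) = C := by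
      field_simp
    rw [h1]
    exact h

theorem In_of_bd {C : ℝ} {ξ : H} (h : G.Bd C ξ) (hξ : ‖ξ‖ ≤ C) : G.In C ξ :=
  ⟨1, le_refl _, by rwa [div_one], by rwa [mul_one]⟩

theorem exists_In {ξ : H} (h : ξ ∈ G.D) : ∃ s, 0 < s ∧ G.In s ξ := by
  obtain ⟨C, h⟩ := h
  have h0 := G.nonneg h
  refine ⟨C + ‖ξ‖ + 1, by positivity, ?_⟩
  exact In_of_bd (G.mono h (by linarith [norm_nonneg ξ])) (by linarith)

/-- The action of a contraction of `N` on the bounded vectors. -/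
noncomputable def nD (G : Gauge N) (y : N) : G.D →ₗ[ℂ] G.D :=
  ((y : H →L[ℂ] H) : H →ₗ[ℂ] H).restrict fun ξ hξ => by
    obtain ⟨C, h⟩ := hξ
    exact ⟨_, G.right h y.2⟩

/-- The action of `Com N` on the bounded vectors. -/
noncomputable def mD (G : Gauge N) (x : Com N) : G.D →ₗ[ℂ] G.D :=
  ((x : H →L[ℂ] H) : H →ₗ[ℂ] H).restrict fun ξ hξ => by
    obtain ⟨C, h⟩ := hξ
    exact ⟨_, G.left h x.2⟩

@[simp] theorem nD_coe (G : Gauge N) (y : N) (ξ : G.D) : (G.nD y ξ : H) = (y : H →L[ℂ] H) ξ := rfl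

@[simp] theorem mD_coe (G : Gauge N) (x : Com N) (ξ : G.D) :
    (G.mD x ξ : H) = (x : H →L[ℂ] H) ξ := rfl

end Gauge

end Pool.Agent.MP_86f3ed.Sf
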