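import Pool.Agent.H.MP_86f3ed_an.Sf.BdProps
import Pool.Agent.H.MP_86f3ed_an.Sf.Gauge

open scoped InnerProductSpace Topology ENNReal
open Filter ContinuousLinearMap

namespace Pool.Agent.MP_86f3ed.Sf

open Pin

variable {K : Type*} [NormedAddCommGroup K] [InnerProductSpace ℂ K] [CompleteSpace K]

/-- The gauge of a factor with a trace vector. -/
noncomputable def gaugeT (T : TF K) {N : StarSubalgebra ℂ (HH K →L[ℂ] HH K)} (hN : N = T.NH) :
    Gauge N where
  Bd := T.Bd
  nonneg h := h.nonneg
  zero := T.Bd_zero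
  mono h hC := h.mono hC
  add h h' := h.add h'
  smul c h := h.smul c
  left h _ hx := h.left (by subst hN; exact hx)
  right h _ hy := h.right (by subst hN; exact hy)
  merge h h' _ _ hv hw hvv hww hvw :=
    h.merge h' (by subst hN; exact hv) (by subst hN; exact hw) hvv hww hvw
  shift h _ _ hv hw hvv hww hvw _ _ ha hb haa hbb hab :=
    h.shift (by subst hN; exact hv) (by subst hN; exact hw) hvv hww hvw
      (by subst hN; exact ha) (by subst hN; exact hb) haa hbb hab

theorem gaugeT_Bd (T : TF K) {N : StarSubalgebra ℂ (HH K →L[ℂ] HH K)} (hN : N = T.NH) {C : ℝ}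
    {ξ : HH K} : (gaugeT T hN).Bd C ξ ↔ T.Bd C ξ := Iff.rfl

end Pool.Agent.MP_86f3ed.Sf
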