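import Pool.Agent.H.MP_86f3ed_an.Sf.AmpCom

open scoped InnerProductSpace Topology ENNReal
open Filter ContinuousLinearMap

namespace Pool.Agent.MP_86f3ed.Sf

open Pin

variable {K : Type*} [NormedAddCommGroup K] [InnerProductSpace ℂ K] [CompleteSpace K]

namespace TF

variable (T : TF K)

/-- `Z` is a row with `Z e_j = ξ_j`. -/
structure IsRow (Z : HH K →L[ℂ] K) (ξ : HH K) : Prop where
  ζ : ∀ j, Z (inc j T.ζ) = pr j ξ
  N : ∀ y ∈ T.N, ∀ f, Z (amp y f) = y (Z f)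
  e : ∀ f, Z (amp T.e f) = Z f

/-- The adjoint of a row intertwines as well. -/
theorem IsRow_adj {T : TF K} {Z : HH K →L[ℂ] K} {ξ : HH K} (h : T.IsRow Z ξ) {y : K →L[ℂ] K}
    (hy : y ∈ T.N) (x : K) : adjoint Z (y x) = amp y (adjoint Z x) := by
  refine ext_inner_left ℂ fun f => ?_
  have h1 := h.N (star y) (star_mem hy) f
  have h2 : ⟪amp (star y) f, adjoint Z x⟫_ℂ = ⟪f, amp y (adjoint Z x)⟫_ℂ := by
    rw [amp_star, star_eq_adjoint, adjoint_inner_left]
  rw [adjoint_inner_right, ← h2, adjoint_inner_right, h1, star_eq_adjoint, adjoint_inner_left]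

/-- The operator `Z Z*` belongs to `M`. -/
theorem IsRow.mem {T : TF K} {Z : HH K →L[ℂ] K} {ξ : HH K} (h : T.IsRow Z ξ) :
    Z.comp (adjoint Z) ∈ T.M := by
  rw [mem_Com]
  intro y hy
  ext x
  show y (Z (adjoint Z x)) = Z (adjoint Z (y x))
  rw [IsRow_adj h hy, h.N y hy]

end TF

end Pool.Agent.MP_86f3ed.Sf
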