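import Pool.Agent.H.MP_86f3ed_an.Sf.Trick
import Pool.Agent.H.MP_86f3ed_an.Sf.Pos
import Pool.Agent.H.MP_86f3ed_an.Trc.Limit

open scoped InnerProductSpace Topology ENNReal
open Filter ContinuousLinearMap

namespace Pool.Agent.MP_86f3ed.Sf

open Pin

variable {H : Type*} [NormedAddCommGroup H] [InnerProductSpace ℂ H] [CompleteSpace H]

theorem StLim_norm_le_one {u : H →L[ℂ] H} (hu : star u * u = 1) : ‖u‖ ≤ 1 := by
  have h1 : ‖u‖ * ‖u‖ ≤ 1 := by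
    rw [← CStarRing.norm_star_mul_self, hu]
    exact ContinuousLinearMap.norm_id_le
  nlinarith [norm_nonneg u]

theorem StLim_scale {g : (H →L[ℂ] H) →ₗ[ℂ] ℂ} {R : H →L[ℂ] H} {c : ℝ}
    (h : ∀ X : H →L[ℂ] H, ‖X‖ ≤ 1 → ‖g (R * X)‖ ≤ c) (S : H →L[ℂ] H) :
    ‖g (R * S)‖ ≤ c * ‖S‖ := by
  rcases (norm_nonneg S).eq_or_lt with h0 | h0
  · have h1 : S = 0 := norm_eq_zero.mp h0.symm
    rw [h1, mul_zero, map_zero, norm_zero, norm_zero, mul_zero]
  · have h1 : S = (‖S‖ : ℂ) • ((‖S‖ : ℂ)⁻¹ • S) := by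
      rw [smul_smul, mul_inv_cancel₀ (by exact_mod_cast h0.ne'), one_smul]
    have h2 : ‖(‖S‖ : ℂ)⁻¹ • S‖ ≤ 1 := by
      rw [norm_smul, norm_inv, Complex.norm_real, Real.norm_of_nonneg h0.le,
        inv_mul_cancel₀ h0.ne']
    have h3 := h _ h2
    have h4 : g (R * S) = (‖S‖ : ℂ) * g (R * ((‖S‖ : ℂ)⁻¹ • S)) := by
      conv_lhs => rw [h1]
      rw [mul_smul_comm, map_smul, smul_eq_mul]
    rw [h4, norm_mul, Complex.norm_real, Real.norm_of_nonneg h0.le, mul_comm]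
    exact mul_le_mul_of_nonneg_right h3 h0.le

/-- The bound for almost invariance. -/
noncomputable def StLim_b (ε τ : ℝ) : ℝ := τ / ε + 2 * Real.sqrt (2 * (τ + τ / ε))

theorem StLim_single {Q : Finset (H →L[ℂ] H)} (hQ : ∀ u ∈ Q, star u * u = 1 ∧ u * star u = 1)
    {ε : ℝ} (hε : 0 < ε) {τ : ℝ} (hτ : 0 < τ) (hτ1 : τ < 1)
    {g : (H →L[ℂ] H) →ₗ[ℂ] ℂ} (hg : ∀ S, ‖g S‖ ≤ ‖S‖) (hlow : ∃ S, ‖S‖ ≤ 1 ∧ ε ≤ ‖g S‖)
    (hinv : ∀ u ∈ Q, ∀ S, ‖g (u * S * star u) - g S‖ ≤ τ * ‖S‖) :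
    ∃ φ : (H →L[ℂ] H) →ₗ[ℂ] ℂ, (∀ S, ‖φ S‖ ≤ ‖S‖) ∧ 1 - τ ≤ (φ 1).re ∧
      ∀ u ∈ Q, ∀ S, ‖φ (u * S * star u) - φ S‖ ≤ StLim_b ε τ * ‖S‖ := by
  set G := g.mkContinuous 1 (fun S => by rw [one_mul]; exact hg S) with hG
  have hGg : ∀ S, G S = g S := fun S => rfl
  set γ := ‖G‖ with hγdef
  have hεγ : ε ≤ γ := by
    obtain ⟨S, h1, h2⟩ := hlow
    calc ε ≤ ‖g S‖ := h2
      _ = ‖G S‖ := rfl
      _ ≤ ‖G‖ * ‖S‖ := G.le_opNorm S
      _ ≤ ‖G‖ * 1 := mul_le_mul_of_nonneg_left h1 (norm_nonneg _)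
      _ = γ := by rw [mul_one]
  have hγ : 0 < γ := hε.trans_le hεγ
  have hgγ : ∀ S, ‖g S‖ ≤ γ * ‖S‖ := fun S => G.le_opNorm S
  obtain ⟨S1, hS1, hS1'⟩ := ContinuousLinearMap.exists_lt_apply_of_lt_opNorm G
    (show γ * (1 - τ) < ‖G‖ by
      rw [← hγdef]
      nlinarith)
  rw [hGg] at hS1'
  have hpos : 0 < ‖g S1‖ := lt_of_le_of_lt (mul_nonneg hγ.le (by linarith)) hS1'
  obtain ⟨T, hT, hgT⟩ : ∃ T : H →L[ℂ] H, ‖T‖ ≤ 1 ∧ γ * (1 - τ) ≤ (g T).re := by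
    refine ⟨((starRingEnd ℂ) (g S1) / (‖g S1‖ : ℂ)) • S1, ?_, ?_⟩
    · rw [norm_smul, norm_div, Complex.norm_real, Real.norm_of_nonneg hpos.le, RCLike.norm_conj,
        div_self hpos.ne', one_mul]
      exact hS1.le
    · rw [map_smul, smul_eq_mul, div_mul_eq_mul_div, Complex.conj_mul']
      have h1 : ((‖g S1‖ : ℂ) ^ 2 / (‖g S1‖ : ℂ)) = ((‖g S1‖ : ℝ) : ℂ) := by
        have h2 : (‖g S1‖ : ℂ) ≠ 0 := by exact_mod_cast hpos.ne'
        field_simp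
      rw [h1, Complex.ofReal_re]
      exact hS1'.le
  have hφ : ∀ S, (((γ : ℂ)⁻¹) • (g.comp (LinearMap.mulLeft ℂ T))) S = (γ : ℂ)⁻¹ * g (T * S) :=
    fun S => rfl
  have hγn : ‖((γ : ℂ)⁻¹)‖ = γ⁻¹ := by
    rw [norm_inv, Complex.norm_real, Real.norm_of_nonneg hγ.le]
  refine ⟨((γ : ℂ)⁻¹) • (g.comp (LinearMap.mulLeft ℂ T)), ?_, ?_, ?_⟩
  · intro S
    rw [hφ, norm_mul, hγn]
    have h1 : ‖T * S‖ ≤ ‖S‖ := (norm_mul_le _ _).trans (mul_le_of_le_one_left (norm_nonneg _) hT)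
    calc γ⁻¹ * ‖g (T * S)‖ ≤ γ⁻¹ * (γ * ‖T * S‖) :=
          mul_le_mul_of_nonneg_left (hgγ _) (inv_nonneg.mpr hγ.le)
      _ = ‖T * S‖ := by rw [← mul_assoc, inv_mul_cancel₀ hγ.ne', one_mul]
      _ ≤ ‖S‖ := h1
  · rw [hφ, mul_one]
    have h1 : ((γ : ℂ)⁻¹ * g T).re = γ⁻¹ * (g T).re := by
      rw [← Complex.ofReal_inv, Complex.re_ofReal_mul]
    rw [h1]
    calc 1 - τ = γ⁻¹ * (γ * (1 - τ)) := by rw [← mul_assoc, inv_mul_cancel₀ hγ.ne', one_mul]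
      _ ≤ γ⁻¹ * (g T).re := mul_le_mul_of_nonneg_left hgT (inv_nonneg.mpr hγ.le)
  · intro u hu S
    obtain ⟨hu1, hu2⟩ := hQ u hu
    have hun : ‖u‖ ≤ 1 := StLim_norm_le_one hu1
    set T' := star u * T * u with hT'
    have hT'n : ‖T'‖ ≤ 1 := by
      calc ‖star u * T * u‖ ≤ ‖star u‖ * ‖T‖ * ‖u‖ :=
            (norm_mul_le _ _).trans (mul_le_mul_of_nonneg_right (norm_mul_le _ _) (norm_nonneg _))
        _ ≤ 1 * 1 * 1 := by
          rw [norm_star]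
          exact mul_le_mul (mul_le_mul hun hT (norm_nonneg _) zero_le_one) hun (norm_nonneg _)
            (by norm_num)
        _ = 1 := by norm_num
    have hconj : ∀ Z : H →L[ℂ] H, u * (T' * Z) * star u = T * (u * Z * star u) := by
      intro Z
      have : u * (T' * Z) * star u = (u * star u) * T * (u * Z * star u) := by
        rw [hT']
        noncomm_ring
      rw [this, hu2, one_mul]
    have hT'2 : u * T' * star u = T := by
      have := hconj 1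
      rw [mul_one, mul_one, hu2, mul_one] at this
      exact this
    have hτε : τ ≤ γ * (τ / ε) := by
      calc τ = ε * (τ / ε) := by field_simp
        _ ≤ γ * (τ / ε) := mul_le_mul_of_nonneg_right hεγ (by positivity)
    have hgT' : γ * (1 - (τ + τ / ε)) ≤ (g T').re := by
      have h1 := hinv u hu T'
      rw [hT'2] at h1
      have h2 : (g T).re - (g T').re ≤ τ := by
        calc (g T).re - (g T').re = (g T - g T').re := by rw [Complex.sub_re]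
          _ ≤ ‖g T - g T'‖ := Complex.re_le_norm _
          _ ≤ τ * ‖T'‖ := h1
          _ ≤ τ * 1 := mul_le_mul_of_nonneg_left hT'n hτ.le
          _ = τ := mul_one _
      nlinarith
    have hgT2 : γ * (1 - (τ + τ / ε)) ≤ (g T).re := by
      refine le_trans ?_ hgT
      have : 0 ≤ γ * (τ / ε) := by positivity
      nlinarith
    have hη : 0 ≤ τ + τ / ε := by positivity
    have hpol := StLim_scale (g := g) (R := T' - T) (c := 2 * Real.sqrt (2 * (τ + τ / ε)) * γ)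
      (fun X hX => polar_trick hγ hgγ hT'n hT hη hgT' hgT2 hX) S
    have hi := hinv u hu (T' * S)
    rw [hconj] at hi
    have hT'S : ‖T' * S‖ ≤ ‖S‖ :=
      (norm_mul_le _ _).trans (mul_le_of_le_one_left (norm_nonneg _) hT'n)
    rw [hφ, hφ, ← mul_sub, norm_mul, hγn]
    have h3 : g (T * (u * S * star u)) - g (T * S) =
        (g (T * (u * S * star u)) - g (T' * S)) + g ((T' - T) * S) := by
      rw [sub_mul, map_sub]
      ring
    have h4 : ‖g (T * (u * S * star u)) - g (T * S)‖ ≤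
        τ * ‖S‖ + 2 * Real.sqrt (2 * (τ + τ / ε)) * γ * ‖S‖ := by
      rw [h3]
      refine (norm_add_le _ _).trans (add_le_add (hi.trans ?_) hpol)
      exact mul_le_mul_of_nonneg_left hT'S hτ.le
    calc γ⁻¹ * ‖g (T * (u * S * star u)) - g (T * S)‖
        ≤ γ⁻¹ * (τ * ‖S‖ + 2 * Real.sqrt (2 * (τ + τ / ε)) * γ * ‖S‖) :=
          mul_le_mul_of_nonneg_left h4 (inv_nonneg.mpr hγ.le)
      _ ≤ γ⁻¹ * (γ * (τ / ε) * ‖S‖ + 2 * Real.sqrt (2 * (τ + τ / ε)) * γ * ‖S‖) := by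
          refine mul_le_mul_of_nonneg_left ?_ (inv_nonneg.mpr hγ.le)
          gcongr
      _ = StLim_b ε τ * ‖S‖ := by
          unfold StLim_b
          field_simp

theorem StLim_tendsto (ε : ℝ) :
    Tendsto (fun n : ℕ => StLim_b ε (1 / ((n : ℝ) + 2))) atTop (𝓝 0) := by
  have h1 : Tendsto (fun n : ℕ => (1 : ℝ) / ((n : ℝ) + 2)) atTop (𝓝 0) := by
    have h2 := (tendsto_one_div_add_atTop_nhds_zero_nat (𝕜 := ℝ)).comp (tendsto_add_atTop_nat 1)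
    refine h2.congr fun n => ?_
    simp only [Function.comp]
    push_cast
    congr 1
    ring
  have h3 : Continuous (fun τ : ℝ => StLim_b ε τ) := by
    unfold StLim_b
    fun_prop
  have h4 := (h3.tendsto 0).comp h1
  have h5 : StLim_b ε 0 = 0 := by
    unfold StLim_b
    simp
  rw [h5] at h4
  exact h4

/-- From almost invariant functionals which are bounded from below to an invariant state. -/
theorem exists_state {𝒬 : Set (H →L[ℂ] H)} (h𝒬 : ∀ u ∈ 𝒬, star u * u = 1 ∧ u * star u = 1)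
    {ε : ℝ} (hε : 0 < ε)
    (h : ∀ Q : Finset (H →L[ℂ] H), (∀ u ∈ Q, u ∈ 𝒬) → ∀ τ : ℝ, 0 < τ →
      ∃ g : (H →L[ℂ] H) →ₗ[ℂ] ℂ, (∀ S, ‖g S‖ ≤ ‖S‖) ∧ (∃ S, ‖S‖ ≤ 1 ∧ ε ≤ ‖g S‖) ∧
        ∀ u ∈ Q, ∀ S, ‖g (u * S * star u) - g S‖ ≤ τ * ‖S‖) :
    ∃ φ : (H →L[ℂ] H) →ₗ[ℂ] ℂ, IsSt φ ∧ ∀ u ∈ 𝒬, ∀ S, φ (u * S * star u) = φ S := by
  classical
  set I := ℕ × Finset 𝒬 with hI
  have h' : ∀ i : I, ∃ φ : (H →L[ℂ] H) →ₗ[ℂ] ℂ, (∀ S, ‖φ S‖ ≤ ‖S‖) ∧
      1 - 1 / ((i.1 : ℝ) + 2) ≤ (φ 1).re ∧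
      ∀ u ∈ i.2, ∀ S, ‖φ ((u : H →L[ℂ] H) * S * star (u : H →L[ℂ] H)) - φ S‖ ≤
        StLim_b ε (1 / ((i.1 : ℝ) + 2)) * ‖S‖ := by
    intro i
    have hQ : ∀ u ∈ i.2.image Subtype.val, u ∈ 𝒬 := by
      intro u hu
      obtain ⟨u', _, rfl⟩ := Finset.mem_image.mp hu
      exact u'.2
    have hτ : (0 : ℝ) < 1 / ((i.1 : ℝ) + 2) := by positivity
    have hτ1 : (1 : ℝ) / ((i.1 : ℝ) + 2) < 1 := by
      rw [div_lt_one (by positivity)]
      have : (0 : ℝ) ≤ (i.1 : ℝ) := Nat.cast_nonneg _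
      linarith
    obtain ⟨g, hg1, hg2, hg3⟩ := h _ hQ _ hτ
    obtain ⟨φ, h1, h2, h3⟩ := StLim_single (fun u hu => h𝒬 u (hQ u hu)) hε hτ hτ1 hg1 hg2 hg3
    exact ⟨φ, h1, h2, fun u hu S => h3 u (Finset.mem_image_of_mem _ hu) S⟩
  choose φ hφ hφ1 hφi using h'
  let 𝒰 : Ultrafilter I := Ultrafilter.of atTop
  have h𝒰 : (𝒰 : Filter I) ≤ atTop := Ultrafilter.of_le atTop
  have hfst : Tendsto (fun i : I => i.1) atTop atTop := by
    have h3 := tendsto_fst (f := (atTop : Filter ℕ)) (g := (atTop : Filter (Finset 𝒬)))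
    rw [prod_atTop_atTop_eq] at h3
    exact h3
  have hfst' : Tendsto (fun i : I => i.1) 𝒰 atTop := hfst.mono_left h𝒰
  have hb : Tendsto (fun i : I => StLim_b ε (1 / ((i.1 : ℝ) + 2))) 𝒰 (𝓝 0) :=
    (StLim_tendsto ε).comp hfst'
  have hex : ∀ S : H →L[ℂ] H, ∃ z : ℂ, ‖z‖ ≤ ‖S‖ ∧ Tendsto (fun i => φ i S) 𝒰 (𝓝 z) := fun S =>
    Pool.Agent.MP_86f3ed.exists_ultralimit 𝒰 _ _ fun i => hφ i S
  choose L hLn hL using hex
  have uq : ∀ {S z}, Tendsto (fun i => φ i S) 𝒰 (𝓝 z) → L S = z :=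
    fun h => tendsto_nhds_unique (hL _) h
  refine ⟨{ toFun := L
            map_add' := fun S S' => uq (by
              simp only [map_add]
              exact (hL S).add (hL S'))
            map_smul' := fun c S => uq (by
              simp only [map_smul, smul_eq_mul, RingHom.id_apply]
              exact (hL S).const_mul c) }, ⟨hLn, ?_⟩, ?_⟩
  · show L 1 = 1
    have h1 : ‖L 1‖ ≤ 1 := (hLn 1).trans ContinuousLinearMap.norm_id_le
    have h2 : (1 : ℝ) ≤ (L 1).re := by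
      have h3 : Tendsto (fun i : I => (φ i 1).re) 𝒰 (𝓝 (L 1).re) :=
        (Complex.continuous_re.tendsto _).comp (hL 1)
      have h4 : Tendsto (fun i : I => 1 - 1 / ((i.1 : ℝ) + 2)) 𝒰 (𝓝 (1 - 0)) := by
        refine tendsto_const_nhds.sub ?_
        have h5 : Tendsto (fun n : ℕ => (1 : ℝ) / ((n : ℝ) + 2)) atTop (𝓝 0) := by
          have h6 := (tendsto_one_div_add_atTop_nhds_zero_nat (𝕜 := ℝ)).comp
            (tendsto_add_atTop_nat 1)
          refine h6.congr fun n => ?_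
          simp only [Function.comp]
          push_cast
          congr 1
          ring
        exact h5.comp hfst'
      rw [sub_zero] at h4
      exact le_of_tendsto_of_tendsto' h4 h3 hφ1
    have h3 : (L 1).re ≤ ‖L 1‖ := Complex.re_le_norm _
    have h4 : (L 1).re = 1 := le_antisymm (h3.trans h1) h2
    have h5 : (L 1).im = 0 := by
      have h6 := Complex.sq_norm (L 1)
      rw [Complex.normSq_apply, h4] at h6
      have h7 : ‖L 1‖ ^ 2 ≤ 1 := by nlinarith [norm_nonneg (L 1)]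
      nlinarith [mul_self_nonneg (L 1).im]
    exact Complex.ext (by rw [h4, Complex.one_re]) (by rw [h5, Complex.one_im])
  · intro u hu S
    show L (u * S * star u) = L S
    have h1 : Tendsto (fun i => φ i (u * S * star u) - φ i S) 𝒰 (𝓝 (L (u * S * star u) - L S)) :=
      (hL _).sub (hL _)
    have h2 : Tendsto (fun i => φ i (u * S * star u) - φ i S) 𝒰 (𝓝 0) := by
      refine squeeze_zero_norm' (a := fun i : I => StLim_b ε (1 / ((i.1 : ℝ) + 2)) * ‖S‖) ?_ ?_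
      · have h6 : ∀ᶠ i in (atTop : Filter I), (0, ({⟨u, hu⟩} : Finset 𝒬)) ≤ i :=
          eventually_ge_atTop _
        filter_upwards [h𝒰 h6] with i hi
        exact hφi i ⟨u, hu⟩ (hi.2 (by simp)) S
      · have := hb.mul_const ‖S‖
        simpa using this
    exact sub_eq_zero.mp (tendsto_nhds_unique h1 h2)

end Pool.Agent.MP_86f3ed.Sf
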