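import Pool.Agent.H.MP_86f3ed_an.Sf.SlotT
import Pool.Agent.H.MP_86f3ed_an.Sf.DL
import Pool.Agent.H.MP_86f3ed_an.Sf.Inj
import Pool.Agent.H.MP_86f3ed_an.Sf.FMain
import Pool.Agent.H.MP_86f3ed_an.Sf.FOut
import Pool.Agent.H.MP_86f3ed_an.Sf.StLim

open scoped InnerProductSpace Topology
open Filter ContinuousLinearMap

namespace Pool.Agent.MP_86f3ed.Sf

open Pin

variable {K : Type*} [NormedAddCommGroup K] [InnerProductSpace ℂ K] [CompleteSpace K]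

theorem norm_le_one_of_unitary {H : Type*} [NormedAddCommGroup H] [InnerProductSpace ℂ H]
    [CompleteSpace H] {u : H →L[ℂ] H} (h : star u * u = 1) : ‖u‖ ≤ 1 := by
  have h1 : ‖u‖ * ‖u‖ ≤ 1 := by
    rw [← CStarRing.norm_star_mul_self (x := u), h]
    exact ContinuousLinearMap.norm_id_le
  nlinarith [norm_nonneg u]

/-- The operator form of the theorem on semifinite factors. -/
theorem TF.injective_of_near_central [TopologicalSpace.SeparableSpace K] (T : TF K)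
    {𝔅 : StarSubalgebra ℂ (K →L[ℂ] K)} (h𝔅 : Com 𝔅 = T.N) (hinf : T.Inf 𝔅)
    (hcl : IsClosed (Ampl 𝔅 : Set (HH K →L[ℂ] HH K)))
    (hnc : ∀ (F : Finset (HH K →L[ℂ] HH K)), (∀ g ∈ F, g ∈ Ampl 𝔅) → ∀ ε : ℝ, 0 < ε →
      ∃ P : X (Com (Ampl 𝔅)), ‖P.ap 1 - 1‖ ≤ ε ∧
        ∀ g ∈ F, ∀ S, ‖g * P.ap S - P.ap S * g‖ ≤ ε * ‖S‖) :
    IsInjective (T.N : Set (K →L[ℂ] K)) := by
  have hN : Com (Ampl 𝔅) = T.NH := T.Com_amp_eq h𝔅
  set G : Gauge (Com (Ampl 𝔅)) := gaugeT T hN with hG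
  have hne : (1 : K →L[ℂ] K) ≠ 0 := by
    intro h
    have h1 := T.norm_ζ
    have h2 : (1 : K →L[ℂ] K) T.ζ = 0 := by rw [h]; rfl
    have h3 : T.ζ = 0 := h2
    rw [h3] at h1
    simp at h1
  have hCC : ∀ m ∈ T.M, amp m ∈ Com (Com (Ampl 𝔅)) := by
    intro m hm
    rw [mem_Com_Com_amp]
    exact ⟨m, by rw [h𝔅]; exact hm, rfl⟩
  obtain ⟨a, ha, b, hb, haa, hbb, hab, -, -⟩ := T.exists_isom_below h𝔅 hinf (one_mem 𝔅)
    (one_mem 𝔅) (one_mul _) hne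
  obtain ⟨v, hv, w, hw, hvv, hww, hvw⟩ := exists_shift 𝔅
  obtain ⟨s⟩ := T.exists_slotsT h𝔅 hinf hcl
  have haa' : star (amp a) * amp a = 1 := by rw [← amp_star, ← amp_mul, haa, amp_one]
  have hbb' : star (amp b) * amp b = 1 := by rw [← amp_star, ← amp_mul, hbb, amp_one]
  have hab' : star (amp a) * amp b = 0 := by rw [← amp_star, ← amp_mul, hab, amp_zero]
  have hζ0 : inc 0 T.ζ ≠ 0 := by
    intro h
    have h1 := norm_inc 0 T.ζ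
    rw [h, T.norm_ζ, norm_zero] at h1
    exact zero_ne_one h1
  have hno : ∀ (n : ℕ) (R : ℝ), 0 < R → ¬ SFT G (SubA (Ampl 𝔅)) n R := fun n R hR =>
    not_sft hcl G hv hw hvv hww hvw (hCC a ha) (hCC b hb) haa' hbb' hab' s hζ0
      ⟨1, T.Bd_e 0⟩ hnc n hR
  set 𝒬 : Set (HH K →L[ℂ] HH K) := {U | ∃ u ∈ T.N, star u * u = 1 ∧ u * star u = 1 ∧ U = amp u}
    with h𝒬
  have h𝒬1 : ∀ u ∈ 𝒬, star u * u = 1 ∧ u * star u = 1 := by
    rintro _ ⟨u, hu, h1, h2, rfl⟩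
    constructor
    · rw [← amp_star, ← amp_mul, h1, amp_one]
    · rw [← amp_star, ← amp_mul, h2, amp_one]
  have h𝒬2 : ∀ u ∈ 𝒬, u ∈ Com (Ampl 𝔅) ∧ star u * u = 1 ∧ u * star u = 1 := by
    intro u hu
    refine ⟨?_, h𝒬1 u hu⟩
    obtain ⟨u', hu', -, -, rfl⟩ := hu
    rw [hN]
    exact T.amp_mem_NH hu'
  have hDL : HasDL G 4 𝒬 := by
    intro ξ hξ hBd δ hδ
    obtain ⟨y, hy, hy4, ζ, hζ1, hζB, hd, hu⟩ := T.exists_dl ha hb haa hbb hab hξ hBd hδ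
    refine ⟨amp a, hCC a ha, haa', y, by rw [hN]; exact hy, hy4, ζ, hζ1, hζB, hd, ?_⟩
    rintro _ ⟨u, hu', h1, h2, rfl⟩
    obtain ⟨x, hx, hx1, hx2, hx3⟩ := hu u hu'
    refine ⟨x, by rw [hN]; exact hx, hx1.trans (norm_le_one_of_unitary h1), hx2, hx3⟩
  obtain ⟨φ, hφ, hinv⟩ := exists_state h𝒬1 (ε := 1 / (64 * 4 ^ 2)) (by norm_num)
    (fun Q hQ τ hτ => exists_functional hcl G hv hw hvv hww hvw (by norm_num) hDL hno h𝒬2 Q hQ hτ)
  refine T.injective_of_invariant (φ := φ.comp (ampHom (K := K)).toAlgHom.toLinearMap) ?_ ?_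
  · constructor
    · intro S
      exact (hφ.norm_le (amp S)).trans (norm_amp_le S)
    · show φ (amp 1) = 1
      rw [amp_one, hφ.one]
  · intro u hu h1 h2 S
    show φ (amp (u * S * star u)) = φ (amp S)
    rw [amp_mul, amp_mul, amp_star]
    exact hinv _ ⟨u, hu, h1, h2, rfl⟩ _

end Pool.Agent.MP_86f3ed.Sf
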