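import Pool.Agent.H.MP_86f3ed_an.Sf.AmpCom
import Pool.Agent.H.MP_86f3ed_an.Pin.Conv

open scoped InnerProductSpace Topology ENNReal
open Filter ContinuousLinearMap

namespace Pool.Agent.MP_86f3ed.Sf

open Pin

variable {K : Type*} [NormedAddCommGroup K] [InnerProductSpace ℂ K] [CompleteSpace K]

/-- The weight `∑ ‖y e_j‖²` of an operator on the sequence space, where `e_j` is the vector `ζ` in
the coordinate `j`. -/
noncomputable def wt (ζ : K) (y : HH K →L[ℂ] HH K) : ℝ≥0∞ :=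
  ∑' j, ENNReal.ofReal (‖y (inc j ζ)‖ ^ 2)

theorem matTr_ofReal_norm (f : HH K) :
    ENNReal.ofReal (‖f‖ ^ 2) = ∑' i, ENNReal.ofReal (‖pr i f‖ ^ 2) := by
  have h := hasSum_norm_pr f
  rw [← h.tsum_eq]
  exact ENNReal.ofReal_tsum_of_nonneg (fun i => by positivity) h.summable

theorem matTr_wt (ζ : K) (f : K →L[ℂ] K) (b : HH K →L[ℂ] HH K) :
    wt ζ (amp f * b) = ∑' j, ∑' i, ENNReal.ofReal (‖f (ent i j b ζ)‖ ^ 2) := by
  unfold wt
  refine tsum_congr fun j => ?_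
  rw [matTr_ofReal_norm]
  refine tsum_congr fun i => ?_
  have h : pr i ((amp f * b) (inc j ζ)) = f (ent i j b ζ) := by
    show pr i (amp f (b (inc j ζ))) = _
    rw [pr_amp]
    rfl
  rw [h]

/-- The trace property of the weight for matrices whose entries `b` satisfy
`‖f b ζ‖ = ‖f (star b) ζ‖`. -/
theorem wt_star (ζ : K) (f : K →L[ℂ] K) (b : HH K →L[ℂ] HH K)
    (h : ∀ i j, ‖f (star (ent i j b) ζ)‖ = ‖f (ent i j b ζ)‖) :
    wt ζ (amp f * star b) = wt ζ (amp f * b) := by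
  rw [matTr_wt, matTr_wt, ENNReal.tsum_comm]
  refine tsum_congr fun i => tsum_congr fun j => ?_
  rw [ent_star, h]

namespace TF

variable (T : TF K)

theorem wt_star_N {y : HH K →L[ℂ] HH K} (hy : y ∈ T.NH) : wt T.ζ (star y) = wt T.ζ y := by
  have h := wt_star T.ζ 1 y (fun i j => T.norm_star_ζ (T.mem_NH.mp hy i j))
  rwa [amp_one, one_mul, one_mul] at h

/-- For matrices over `M`. -/
theorem wt_star_M {b : HH K →L[ℂ] HH K} (hb : ∀ i j, ent i j b ∈ T.M) :
    wt T.ζ (amp T.e * star b) = wt T.ζ (amp T.e * b) :=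
  wt_star T.ζ T.e b (fun i j => T.norm_e_star (hb i j))

theorem wt_mul_le {y x : HH K →L[ℂ] HH K} (hy : y ∈ T.NH) (hx : x ∈ T.NH) :
    wt T.ζ (y * x) ≤ ENNReal.ofReal (‖x‖ ^ 2) * wt T.ζ y := by
  rw [← T.wt_star_N (mul_mem hy hx), ← T.wt_star_N hy, star_mul]
  unfold wt
  rw [← ENNReal.tsum_mul_left]
  refine ENNReal.tsum_le_tsum fun j => ?_
  rw [← ENNReal.ofReal_mul (by positivity)]
  refine ENNReal.ofReal_le_ofReal ?_
  rw [← mul_pow]
  refine pow_le_pow_left₀ (norm_nonneg _) ?_ 2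
  have h := (star x).le_opNorm (star y (inc j T.ζ))
  have h2 : ‖star x‖ = ‖x‖ := by
    rw [star_eq_adjoint]
    exact LinearIsometryEquiv.norm_map _ _
  rw [h2] at h
  exact h

/-- The merging inequality. -/
theorem wt_merge {y v w : HH K →L[ℂ] HH K} (hy : y ∈ T.NH) (hv : v ∈ T.NH) (hw : w ∈ T.NH)
    (hvv : star v * v = 1) (hww : star w * w = 1) (hvw : star v * w = 0) :
    wt T.ζ (y * v) + wt T.ζ (y * w) ≤ wt T.ζ y := by
  rw [← T.wt_star_N (mul_mem hy hv), ← T.wt_star_N (mul_mem hy hw), ← T.wt_star_N hy, star_mul,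
    star_mul]
  unfold wt
  rw [← ENNReal.tsum_add]
  refine ENNReal.tsum_le_tsum fun j => ?_
  rw [← ENNReal.ofReal_add (by positivity) (by positivity)]
  exact ENNReal.ofReal_le_ofReal (bessel hvv hww hvw _)

end TF

end Pool.Agent.MP_86f3ed.Sf
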