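import Pool.Agent.H.MP_86f3ed_an.Sf.FTE
import Pool.Agent.H.MP_86f3ed_an.Pin.Conv
import Pool.Agent.H.MP_86f3ed_an.Sf.FSep

open scoped InnerProductSpace Topology ENNReal
open Filter ContinuousLinearMap

namespace Pool.Agent.MP_86f3ed.Sf

open Pin

variable {H : Type*} [NormedAddCommGroup H] [InnerProductSpace ℂ H] [CompleteSpace H]

theorem Neg_isom_le {v : H →L[ℂ] H} (hvv : star v * v = 1) : ‖v‖ ≤ 1 :=
  ContinuousLinearMap.opNorm_le_bound _ zero_le_one fun x => by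
    rw [isom_norm hvv, one_mul]

/-- The failure of the open mapping property. -/
theorem exists_of_not_sft {N : StarSubalgebra ℂ (H →L[ℂ] H)} (G : Gauge N)
    (S : Subalgebra ℂ (Com N)) {v w : H →L[ℂ] H} (hv : v ∈ N) (hw : w ∈ N)
    (hvv : star v * v = 1) (hww : star w * w = 1) (hvw : star v * w = 0) {n : ℕ} {C : ℝ}
    (hC : 0 < C) (h : ¬ SFT G S n C) :
    ∃ (T : H →L[ℂ] H) (ζ : G.D), ‖T‖ ≤ 1 ∧ ‖(ζ : H)‖ ≤ 1 ∧ G.Bd 2 (ζ : H) ∧
      ∀ a : Fin n → Com N, (∀ k, a k ∈ S ∧ ‖a k‖ ≤ 1) → ∃ Λ : XE G, ‖Λ‖ ≤ 1 ∧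
        (∀ k, ‖lX G (a k) Λ - rX G (a k) Λ‖ ≤ 4 / C) ∧ 1 / 32 ≤ ‖Λ.ap T ζ ζ‖ := by
  unfold SFT at h
  push Not at h
  obtain ⟨T0, ξ, η, hT0, hξ1, hη1, hξB, hηB, hfar⟩ := h
  set c : ℂ := (((Real.sqrt 2)⁻¹ : ℝ) : ℂ) with hc
  have hs2 : 0 < Real.sqrt 2 := Real.sqrt_pos.mpr two_pos
  have hss : Real.sqrt 2 * Real.sqrt 2 = 2 := Real.mul_self_sqrt two_pos.le
  have hcn : ‖c‖ = (Real.sqrt 2)⁻¹ := by
    rw [hc, Complex.norm_real, Real.norm_of_nonneg (inv_nonneg.mpr hs2.le)]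
  set v' : N := ⟨v, hv⟩ with hv'
  set w' : N := ⟨w, hw⟩ with hw'
  set ζ : G.D := c • (G.nD v' ξ + G.nD w' η) with hζ
  have hζH : (ζ : H) = c • (v (ξ : H) + w (η : H)) := rfl
  have hζn : ‖(ζ : H)‖ ≤ 1 := by
    have h1 := norm_sq_orth hvv hww hvw (ξ : H) (η : H)
    have h2 : ‖v (ξ : H) + w (η : H)‖ ≤ Real.sqrt 2 := by
      apply Real.le_sqrt_of_sq_le
      rw [h1]
      have h3 : ‖(ξ : H)‖ ^ 2 ≤ 1 := pow_le_one₀ (norm_nonneg _) hξ1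
      have h4 : ‖(η : H)‖ ^ 2 ≤ 1 := pow_le_one₀ (norm_nonneg _) hη1
      linarith
    rw [hζH, norm_smul, hcn]
    calc (Real.sqrt 2)⁻¹ * ‖v (ξ : H) + w (η : H)‖ ≤ (Real.sqrt 2)⁻¹ * Real.sqrt 2 :=
          mul_le_mul_of_nonneg_left h2 (inv_nonneg.mpr hs2.le)
      _ = 1 := inv_mul_cancel₀ hs2.ne'
  have hζB : G.Bd 2 (ζ : H) := by
    have h1 := G.smul c (G.merge hξB hηB hv hw hvv hww hvw)
    have h2 : ‖c‖ * Real.sqrt ((2 : ℝ) ^ 2 + 2 ^ 2) = 2 := by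
      have h3 : Real.sqrt ((2 : ℝ) ^ 2 + 2 ^ 2) = 2 * Real.sqrt 2 := by
        rw [show ((2 : ℝ) ^ 2 + 2 ^ 2) = 2 ^ 2 * 2 by norm_num,
          Real.sqrt_mul (by norm_num), Real.sqrt_sq (by norm_num)]
      rw [h3, hcn, mul_left_comm, inv_mul_cancel₀ hs2.ne', mul_one]
    rw [h2] at h1
    exact h1
  have hsv : G.nD (star v') ζ = c • ξ := by
    apply Subtype.ext
    show star v (c • (v (ξ : H) + w (η : H))) = c • (ξ : H)
    rw [map_smul, map_add, star_isom_apply hvv, orth_apply hvw, add_zero]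
  have hsw : G.nD (star w') ζ = c • η := by
    apply Subtype.ext
    show star w (c • (v (ξ : H) + w (η : H))) = c • (η : H)
    rw [map_smul, map_add, star_isom_apply hww, orth_apply (orth_symm hvw), zero_add]
  refine ⟨w * (T0 * star v), ζ, ?_, hζn, hζB, fun a ha => ?_⟩
  · have h1 := Neg_isom_le hvv
    have h2 := Neg_isom_le hww
    calc ‖w * (T0 * star v)‖ ≤ ‖w‖ * ‖T0 * star v‖ := norm_mul_le _ _
      _ ≤ 1 * (1 * 1) := by
          refine mul_le_mul h2 ?_ (norm_nonneg _) zero_le_one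
          refine (norm_mul_le _ _).trans ?_
          rw [norm_star]
          exact mul_le_mul hT0 h1 (norm_nonneg _) zero_le_one
      _ = 1 := by norm_num
  · obtain ⟨Λ, hΛ1, hΛ2, hΛ3⟩ := separate G a hC (show (0 : ℝ) < 1 / 16 by norm_num)
      (evF G T0 ξ η) (fun φ hφ => hfar a φ ha hφ)
    rw [inF_evF, ev_apply] at hΛ2
    have h4 : ‖Λ.ap T0 ξ η‖ ≤ 4 := by
      have hξI : G.In 2 (ξ : H) := Gauge.In_of_bd hξB (hξ1.trans one_le_two)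
      have hηI : G.In 2 (η : H) := Gauge.In_of_bd hηB (hη1.trans one_le_two)
      have h5 := Λ.norm_ap_le T0 hξI hηI
      have h6 : ‖Λ‖ * ‖T0‖ ≤ 1 := mul_le_one₀ hΛ1 (norm_nonneg _) hT0
      linarith
    refine ⟨Λ, hΛ1, fun k => ?_, ?_⟩
    · have h5 := hΛ3 k
      rw [inF_evF, ev_apply] at h5
      rw [le_div_iff₀ hC, mul_comm]
      exact h5.trans h4
    · have h5 : Λ.ap (w * (T0 * star v)) ζ ζ = Λ.ap T0 (c • ξ) (c • η) := by
        have e1 : Λ.ap (w * (T0 * star v)) ζ ζ =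
            Λ.ap (T0 * star v) ζ (G.nD (star w') ζ) := Λ.left w' (T0 * star v) ζ ζ
        have e2 : Λ.ap (T0 * star v) ζ (G.nD (star w') ζ) =
            Λ.ap T0 (G.nD (star v') ζ) (G.nD (star w') ζ) :=
          Λ.right (star v') T0 ζ (G.nD (star w') ζ)
        rw [e1, e2, hsv, hsw]
      have h6 : (Real.sqrt 2)⁻¹ * (Real.sqrt 2)⁻¹ = 1 / 2 := by
        rw [← mul_inv, hss, one_div]
      rw [h5, XE.ap_smul2, XE.ap_smul3, norm_mul, norm_mul, RCLike.norm_conj, hcn, ← mul_assoc,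
        h6]
      linarith

end Pool.Agent.MP_86f3ed.Sf
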