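import Pool.Agent.H.MP_86f3ed_an.Sf.MatTr
import Pool.Agent.H.MP_86f3ed_an.Sf.IsRow
import Pool.Agent.H.MP_86f3ed_an.Sf.Ext

open scoped InnerProductSpace Topology ENNReal
open Filter ContinuousLinearMap

namespace Pool.Agent.MP_86f3ed.Sf

open Pin

variable {K : Type*} [NormedAddCommGroup K] [InnerProductSpace ℂ K] [CompleteSpace K]

namespace TF

variable (T : TF K)

/-- The vector `ξ` is bounded by `C` with respect to the weight. -/
def Bd (C : ℝ) (ξ : HH K) : Prop :=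
  0 ≤ C ∧ ∀ y ∈ T.NH, ENNReal.ofReal (‖y ξ‖ ^ 2) ≤ ENNReal.ofReal (C ^ 2) * wt T.ζ y

/-- The map `(y_j) ↦ (y_j ζ)`. -/
noncomputable def rowsA : (ℕ →₀ T.N) →ₗ[ℂ] HH K :=
  Finsupp.lsum ℂ fun j =>
    { toFun := fun y => inc j ((y : K →L[ℂ] K) T.ζ)
      map_add' := fun y z => by
        show inc j (((y : K →L[ℂ] K) + (z : K →L[ℂ] K)) T.ζ) = _
        rw [add_apply, map_add]
      map_smul' := fun c y => by
        show inc j ((c • (y : K →L[ℂ] K)) T.ζ) = _
        rw [smul_apply, map_smul]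
        rfl }

/-- The row operator `(y_j) ↦ ∑ y_j ∘ pr j`. -/
noncomputable def rowsR : (ℕ →₀ T.N) →ₗ[ℂ] (HH K →L[ℂ] K) :=
  Finsupp.lsum ℂ fun j =>
    { toFun := fun y => (y : K →L[ℂ] K).comp (pr j)
      map_add' := fun y z => by
        show ((y : K →L[ℂ] K) + (z : K →L[ℂ] K)).comp (pr j) = _
        rw [add_comp]
      map_smul' := fun c y => by
        show (c • (y : K →L[ℂ] K)).comp (pr j) = _
        rw [smul_comp]
        rfl }

theorem rowsA_single (j : ℕ) (y : T.N) :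
    T.rowsA (Finsupp.single j y) = inc j ((y : K →L[ℂ] K) T.ζ) := by
  unfold rowsA
  rw [Finsupp.lsum_single]
  rfl

theorem rowsR_single (j : ℕ) (y : T.N) :
    T.rowsR (Finsupp.single j y) = (y : K →L[ℂ] K).comp (pr j) := by
  unfold rowsR
  rw [Finsupp.lsum_single]
  rfl

theorem rows_pr (v : ℕ →₀ T.N) (j : ℕ) : pr j (T.rowsA v) = (v j : K →L[ℂ] K) T.ζ := by
  induction v using Finsupp.induction_linear with
  | zero =>
    rw [map_zero, map_zero]
    rfl
  | add v w hv hw =>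
    rw [map_add, map_add, hv, hw]
    rfl
  | single i y =>
    rw [rowsA_single, pr_inc]
    by_cases h : j = i
    · subst h
      rw [if_pos rfl, Finsupp.single_eq_same]
    · rw [if_neg h, Finsupp.single_eq_of_ne h]
      rfl

theorem rows_inc (v : ℕ →₀ T.N) (j : ℕ) (x : K) :
    T.rowsR v (inc j x) = (v j : K →L[ℂ] K) x := by
  induction v using Finsupp.induction_linear with
  | zero =>
    rw [map_zero]
    rfl
  | add v w hv hw =>
    rw [map_add, add_apply, hv, hw]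
    rfl
  | single i y =>
    rw [rowsR_single]
    show (y : K →L[ℂ] K) (pr i (inc j x)) = _
    rw [pr_inc]
    by_cases h : j = i
    · subst h
      rw [if_pos rfl, Finsupp.single_eq_same]
    · rw [if_neg (fun h' => h h'.symm), Finsupp.single_eq_of_ne h, map_zero]
      rfl

theorem rows_mem (v : ℕ →₀ T.N) : (inc 0).comp (T.rowsR v) ∈ T.NH := by
  rw [T.mem_NH]
  intro i j
  have h : ent i j ((inc 0).comp (T.rowsR v)) =
      if i = 0 then (v j : K →L[ℂ] K) else 0 := by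
    refine ContinuousLinearMap.ext fun x => ?_
    show pr i (inc 0 (T.rowsR v (inc j x))) = _
    rw [rows_inc, pr_inc]
    split_ifs
    · rfl
    · rfl
  rw [h]
  split_ifs
  · exact (v j).2
  · exact zero_mem _

theorem rows_wt (v : ℕ →₀ T.N) :
    wt T.ζ ((inc 0).comp (T.rowsR v)) = ENNReal.ofReal (‖T.rowsA v‖ ^ 2) := by
  have h1 := hasSum_norm_pr (T.rowsA v)
  rw [← h1.tsum_eq, ENNReal.ofReal_tsum_of_nonneg (fun j => by positivity) h1.summable]
  unfold wt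
  refine tsum_congr fun j => ?_
  show ENNReal.ofReal (‖inc 0 (T.rowsR v (inc j T.ζ))‖ ^ 2) = _
  rw [norm_inc, rows_inc, rows_pr]

/-- Left multiplication of the entries. -/
noncomputable def rowsL {y : K →L[ℂ] K} (hy : y ∈ T.N) (v : ℕ →₀ T.N) : ℕ →₀ T.N :=
  v.mapRange (fun z => (⟨y, hy⟩ : T.N) * z) (mul_zero _)

theorem rowsL_apply {y : K →L[ℂ] K} (hy : y ∈ T.N) (v : ℕ →₀ T.N) (j : ℕ) (x : K) :
    (T.rowsL hy v j : K →L[ℂ] K) x = y ((v j : K →L[ℂ] K) x) := by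
  unfold rowsL
  rw [Finsupp.mapRange_apply]
  rfl

theorem rowsL_A {y : K →L[ℂ] K} (hy : y ∈ T.N) (v : ℕ →₀ T.N) :
    amp y (T.rowsA v) = T.rowsA (T.rowsL hy v) := by
  refine ext_pr fun j => ?_
  rw [pr_amp, rows_pr, rows_pr, rowsL_apply]

theorem rowsL_R {y : K →L[ℂ] K} (hy : y ∈ T.N) (v : ℕ →₀ T.N) :
    y.comp (T.rowsR v) = T.rowsR (T.rowsL hy v) := by
  refine ext_inc fun j x => ?_
  show y (T.rowsR v (inc j x)) = _
  rw [rows_inc, rows_inc, rowsL_apply]

theorem rows_orth (f : HH K) (v : ℕ →₀ T.N) : ⟪T.rowsA v, f - amp T.e f⟫_ℂ = 0 := by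
  have h1 := hasSum_inner_pr (T.rowsA v) (f - amp T.e f)
  have h2 : (fun j => ⟪pr j (T.rowsA v), pr j (f - amp T.e f)⟫_ℂ) = fun _ => (0 : ℂ) := by
    funext j
    rw [rows_pr, map_sub, pr_amp, inner_sub_right, sub_eq_zero]
    conv_rhs => rw [← T.e_star, star_eq_adjoint, adjoint_inner_right]
    rw [T.e_N (v j).2]
  rw [h2] at h1
  exact h1.unique hasSum_zero

/-- A bounded vector is a row. -/
theorem exists_row {C : ℝ} {ξ : HH K} (h : T.Bd C ξ) :
    ∃ Z : HH K →L[ℂ] K, ‖Z‖ ≤ C ∧ T.IsRow Z ξ := by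
  obtain ⟨hC, hB⟩ := h
  obtain ⟨b, hb⟩ : ∃ b : (ℕ →₀ T.N) →ₗ[ℂ] K, ∀ v, b v = T.rowsR v ξ :=
    ⟨{ toFun := fun v => T.rowsR v ξ
       map_add' := fun v w => by rw [map_add, add_apply]
       map_smul' := fun c v => by rw [map_smul, smul_apply, RingHom.id_apply] }, fun v => rfl⟩
  have hle : ∀ v, ‖b v‖ ≤ C * ‖T.rowsA v‖ := by
    intro v
    have h1 := hB _ (T.rows_mem v)
    rw [T.rows_wt, ← ENNReal.ofReal_mul (by positivity)] at h1
    have h2 : ‖((inc 0).comp (T.rowsR v)) ξ‖ = ‖b v‖ := by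
      rw [hb]
      show ‖inc 0 (T.rowsR v ξ)‖ = _
      rw [norm_inc]
    rw [h2, ENNReal.ofReal_le_ofReal_iff (by positivity), ← mul_pow] at h1
    exact (sq_le_sq₀ (norm_nonneg _) (by positivity)).1 h1
  obtain ⟨w, hwC, hw, hw0⟩ := exists_ext T.rowsA b hC hle
  refine ⟨w, hwC, ⟨?_, ?_, ?_⟩⟩
  · intro j
    have h1 := hw (Finsupp.single j (1 : T.N))
    rw [hb, T.rowsA_single, T.rowsR_single] at h1
    exact h1
  · intro y hy f
    refine ext_comm T.rowsA b hw hw0 (amp y) y ?_ ?_ f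
    · intro v
      refine ⟨T.rowsL hy v, T.rowsL_A hy v, ?_⟩
      rw [hb, hb, ← T.rowsL_R hy v]
      rfl
    · intro v
      refine ⟨T.rowsL (star_mem hy) v, ?_⟩
      rw [← amp_star]
      exact T.rowsL_A (star_mem hy) v
  · intro f
    have h1 := hw0 (f - amp T.e f) (T.rows_orth f)
    rw [map_sub, sub_eq_zero] at h1
    exact h1.symm

end TF

end Pool.Agent.MP_86f3ed.Sf
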