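import Pool.Agent.H.MP_86f3ed_an.Sf.Trunc
import Pool.Agent.H.MP_86f3ed_an.Sf.Copies
import Pool.Agent.H.MP_86f3ed_an.Sf.Full

open scoped InnerProductSpace Topology ENNReal
open Filter ContinuousLinearMap

namespace Pool.Agent.MP_86f3ed.Sf

open Pin

variable {K : Type*} [NormedAddCommGroup K] [InnerProductSpace ℂ K] [CompleteSpace K]

theorem Slice_inner_star (a : K →L[ℂ] K) (x y : K) : ⟪x, a y⟫_ℂ = ⟪star a x, y⟫_ℂ := by
  rw [star_eq_adjoint, adjoint_inner_left]

omit [CompleteSpace K] in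
theorem Slice_re_self (y : K) : RCLike.re (⟪y, y⟫_ℂ) = ‖y‖ ^ 2 := by
  rw [inner_self_eq_norm_sq_to_K]
  norm_cast

theorem Slice_right {p V : K →L[ℂ] K} (hps : star p = p) (hpp : p * p = p)
    (h : star V * V = p) : V * p = V := by
  have h1 : star (V - V * p) * (V - V * p) = 0 := by
    have e1 : star (V - V * p) = star V - p * star V := by
      rw [star_sub, star_mul, hps]
    rw [e1]
    calc (star V - p * star V) * (V - V * p)
        = star V * V - (star V * V) * p - p * (star V * V) + p * (star V * V) * p := by noncomm_ring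
      _ = 0 := by rw [h, hpp, hpp]; simp
  have h2 := (CStarRing.star_mul_self_eq_zero_iff _).1 h1
  exact (sub_eq_zero.1 h2).symm

namespace TF

variable (T : TF K)

/-- One slice: the spectral projection `q c - q (2 c)` is a sum of `m` partial copies of `e` with
`(m - 1) c` bounded by the square of the norm of the corresponding part of the vector. -/
theorem exists_slice {Z : HH K →L[ℂ] K} {ξ : HH K} (h : T.IsRow Z ξ) {q : ℝ → K →L[ℂ] K}
    (hq : SpecFam T.N (Z.comp (adjoint Z)) q) {c : ℝ} (hc : 0 < c) :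
    ∃ (m : ℕ) (U : Fin m → K →L[ℂ] K), Partials T.N T.e U ∧
      (∀ i, q c * U i = U i ∧ q (2 * c) * U i = 0) ∧
      ((m : ℝ) - 1) * c ≤ ‖amp (q c - q (2 * c)) ξ‖ ^ 2 ∧
      (∀ x, ‖(q c - q (2 * c)) x‖ ^ 2 = ∑ i, ‖star (U i) x‖ ^ 2) ∧
      (∀ x, ‖adjoint Z ((q c - q (2 * c)) x)‖ ^ 2 ≤ 2 * c * ‖(q c - q (2 * c)) x‖ ^ 2) := by
  have hc0 : 0 ≤ c := hc.le
  have hc2 : 0 ≤ 2 * c := by linarith
  obtain ⟨hn1, hn2⟩ := hq.nest c (2 * c) hc0 (by linarith)
  have hi1 := hq.idem c hc0
  have hi2 := hq.idem (2 * c) hc2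
  have hs1 := hq.star_q c hc0
  have hs2 := hq.star_q (2 * c) hc2
  set s : K →L[ℂ] K := q c - q (2 * c) with hs
  have hsM : s ∈ T.M := sub_mem (hq.mem c hc0) (hq.mem (2 * c) hc2)
  have hss : star s = s := by rw [hs, star_sub, hs1, hs2]
  have hqs : q c * s = s := by rw [hs, mul_sub, hi1, hn1]
  have hq2s : q (2 * c) * s = 0 := by rw [hs, mul_sub, hn2, hi2, sub_self]
  have hsm : s * s = s := by
    calc s * s = q c * s - q (2 * c) * s := by rw [← sub_mul]
      _ = s := by rw [hqs, hq2s, sub_zero]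
  have hk : ∀ y : K, RCLike.re ⟪y, (Z.comp (adjoint Z)) y⟫_ℂ = ‖adjoint Z y‖ ^ 2 := by
    intro y
    rw [ContinuousLinearMap.comp_apply, ← adjoint_inner_left, Slice_re_self]
  have hlow : ∀ x, c * ‖s x‖ ^ 2 ≤ ‖adjoint Z (s x)‖ ^ 2 := by
    intro x
    have h1 := hq.low c hc0 (s x)
    have h2 : q c (s x) = s x := congrArg (fun S : K →L[ℂ] K => S x) hqs
    rw [h2, hk] at h1
    exact h1
  have hup : ∀ x, ‖adjoint Z (s x)‖ ^ 2 ≤ 2 * c * ‖s x‖ ^ 2 := by
    intro x
    have h1 := hq.up (2 * c) hc2 (s x)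
    have h2 : q (2 * c) (s x) = 0 := congrArg (fun S : K →L[ℂ] K => S x) hq2s
    rw [h2, sub_zero, hk] at h1
    exact h1
  have hfac : ∀ x ∈ Com T.N, x ∈ Com (Com T.N) → ∃ c : ℂ, x = c • (1 : K →L[ℂ] K) := by
    intro x hx hx2
    rw [T.bic] at hx2
    exact T.factor x hx2 hx
  obtain ⟨n, V, W, hV, hWM, hVW, hW1, hWp, hsW, hsum⟩ := exists_pack T.N hfac T.e_mem T.e_star
    T.e_mul_e hsM hss hsm (Nat.floor (‖amp s ξ‖ ^ 2 / c)) (by
      intro n V hV
      apply Nat.le_floor
      rw [le_div_iff₀ hc]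
      exact T.copies_le h hsM hss hsm hlow V hV)
  have hVr : ∀ i, V i * T.e = V i := fun i =>
    Slice_right T.e_star T.e_mul_e (by rw [hV.2.1 i i, if_pos rfl])
  have hqc : ∀ X : K →L[ℂ] K, s * X = X → q c * X = X ∧ q (2 * c) * X = 0 := by
    intro X hX
    constructor
    · calc q c * X = q c * s * X := by rw [mul_assoc, hX]
        _ = X := by rw [hqs, hX]
    · calc q (2 * c) * X = q (2 * c) * s * X := by rw [mul_assoc, hX]
        _ = 0 := by rw [hq2s, zero_mul]
  refine ⟨n + 1, Fin.snoc (α := fun _ => K →L[ℂ] K) V W, ⟨?_, ?_, ?_, ?_⟩, ?_, ?_, ?_, hup⟩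
  · intro i
    refine Fin.lastCases ?_ (fun i => ?_) i
    · rw [Fin.snoc_last]; exact hWM
    · rw [Fin.snoc_castSucc]; exact hV.1 i
  · intro i
    refine Fin.lastCases ?_ (fun i => ?_) i
    · rw [Fin.snoc_last]; exact hW1
    · rw [Fin.snoc_castSucc, mul_assoc, hV.2.1 i i, if_pos rfl]; exact hVr i
  · intro i
    refine Fin.lastCases ?_ (fun i => ?_) i
    · rw [Fin.snoc_last]; exact hWp
    · rw [Fin.snoc_castSucc]; exact hVr i
  · intro i j
    refine Fin.lastCases ?_ (fun i => ?_) i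
    · refine Fin.lastCases ?_ (fun j => ?_) j
      · intro hne; exact absurd rfl hne
      · intro _
        rw [Fin.snoc_last, Fin.snoc_castSucc]
        have := congrArg star (hVW j)
        rw [star_mul, star_star, star_zero] at this
        exact this
    · refine Fin.lastCases ?_ (fun j => ?_) j
      · intro _
        rw [Fin.snoc_last, Fin.snoc_castSucc]
        exact hVW i
      · intro hne
        rw [Fin.snoc_castSucc, Fin.snoc_castSucc, hV.2.1 i j, if_neg]
        intro hij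
        exact hne (by rw [hij])
  · intro i
    refine Fin.lastCases ?_ (fun i => ?_) i
    · rw [Fin.snoc_last]; exact hqc W hsW
    · rw [Fin.snoc_castSucc]; exact hqc _ (hV.2.2 i)
  · push_cast
    rw [add_sub_cancel_right]
    exact T.copies_le h hsM hss hsm hlow V hV
  · intro x
    have h1 : ‖s x‖ ^ 2 = RCLike.re ⟪x, s x⟫_ℂ := by
      rw [← Slice_re_self]
      have h2 : ⟪s x, s x⟫_ℂ = ⟪x, s x⟫_ℂ := by
        have h3 := Slice_inner_star s x (s x)
        rw [hss] at h3
        rw [← h3]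
        have h4 : s (s x) = s x := congrArg (fun S : K →L[ℂ] K => S x) hsm
        rw [h4]
      rw [h2]
    have h5 : s x = ∑ i, V i (star (V i) x) + W (star W x) := by
      have h6 := congrArg (fun S : K →L[ℂ] K => S x) hsum
      simp only [ContinuousLinearMap.add_apply, ContinuousLinearMap.sum_apply] at h6
      rw [← h6]
      rfl
    rw [h1, h5, inner_add_right, inner_sum, map_add, map_sum, Fin.sum_univ_castSucc]
    congr 1
    · refine Finset.sum_congr rfl fun i _ => ?_
      rw [Slice_inner_star, Slice_re_self, Fin.snoc_castSucc]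
    · rw [Slice_inner_star, Slice_re_self, Fin.snoc_last]

end TF

end Pool.Agent.MP_86f3ed.Sf
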