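import Pool.Agent.H.MP_86f3ed_an.Pin.Slot
import Pool.Agent.H.MP_86f3ed_an.Pin.Enc

open scoped InnerProductSpace Topology ENNReal
open Filter ContinuousLinearMap

namespace Pool.Agent.MP_86f3ed.Sf

open Pin

variable {H : Type*} [NormedAddCommGroup H] [InnerProductSpace ℂ H] [CompleteSpace H]

/-- Slots exist if the algebra has an element with infinite spectrum and the unit eigenspaces of
its elements contain ranges of isometries. -/
theorem exists_slots' (𝔄 : StarSubalgebra ℂ (H →L[ℂ] H)) (hcl : IsClosed (𝔄 : Set (H →L[ℂ] H)))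
    (hiso : ∀ g' ∈ 𝔄, ∀ g'' ∈ 𝔄, star g' = g' → g' * g'' = g'' → g'' ≠ 0 →
      ∃ v ∈ Com (Com 𝔄), star v * v = 1 ∧ g' * v = v)
    (hinf : ∃ a ∈ 𝔄, IsSelfAdjoint a ∧ (spectrum ℝ a).Infinite) :
    Nonempty (BM.Slots (SubA 𝔄)) := by
  obtain ⟨a, haA, hsa, hsp⟩ := hinf
  have hcpt : IsCompact (spectrum ℝ a) :=
    ContinuousFunctionalCalculus.isCompact_spectrum (R := ℝ) a
  obtain ⟨t, f, f', f'', ht, hcont, hbd, hmul, hone, hort⟩ := exists_bumps hcpt hsp
  have hmem : ∀ h : ℝ → ℝ, cfc h a ∈ 𝔄 := fun h =>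
    cfc_mem (𝕜 := ℝ) (𝕜' := ℂ) (hs := hcl) h haA
  have hne : ∀ j, cfc (f'' j) a ≠ 0 := by
    intro j h0
    have h1 := norm_apply_le_norm_cfc (f'' j) a (ht j) (hcont j).2.2.continuousOn hsa
    rw [h0, hone j] at h1
    simp at h1
    linarith
  have hff' : ∀ j, cfc (f j) a * cfc (f' j) a = cfc (f' j) a := by
    intro j
    rw [← cfc_mul (f j) (f' j) a (hcont j).1.continuousOn (hcont j).2.1.continuousOn]
    congr 1
    funext s
    exact (hmul j s).1
  have hf'f : ∀ j, cfc (f' j) a * cfc (f j) a = cfc (f' j) a := by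
    intro j
    rw [← cfc_mul (f' j) (f j) a (hcont j).2.1.continuousOn (hcont j).1.continuousOn]
    congr 1
    funext s
    rw [mul_comm]
    exact (hmul j s).1
  have hf'f'' : ∀ j, cfc (f' j) a * cfc (f'' j) a = cfc (f'' j) a := by
    intro j
    rw [← cfc_mul (f' j) (f'' j) a (hcont j).2.1.continuousOn (hcont j).2.2.continuousOn]
    congr 1
    funext s
    exact (hmul j s).2
  have horth : ∀ j l, j ≠ l → cfc (f j) a * cfc (f l) a = 0 := by
    intro j l hjl
    rw [← cfc_mul (f j) (f l) a (hcont j).1.continuousOn (hcont l).1.continuousOn]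
    have h1 : (fun s => f j s * f l s) = fun _ => (0 : ℝ) := by
      funext s
      exact hort j l hjl s
    rw [h1]
    exact cfc_const_zero ℝ a
  have hsa' : ∀ j, star (cfc (f' j) a) = cfc (f' j) a := fun j =>
    (cfc_predicate (f' j) a : IsSelfAdjoint (cfc (f' j) a))
  choose v hv hvv hgv using fun j => hiso (cfc (f' j) a) (hmem _) (cfc (f'' j) a) (hmem _)
    (hsa' j) (hf'f'' j) (hne j)
  have hnorm : ∀ (h : ℝ → ℝ), (∀ s, 0 ≤ h s ∧ h s ≤ 1) → ‖cfc h a‖ ≤ 1 := by
    intro h hh
    refine norm_cfc_le zero_le_one fun s _ => ?_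
    rw [Real.norm_eq_abs, abs_of_nonneg (hh s).1]
    exact (hh s).2
  refine ⟨{ g := fun j => ⟨cfc (f j) a, Slot_sub 𝔄 (hmem _)⟩
            g' := fun j => ⟨cfc (f' j) a, Slot_sub 𝔄 (hmem _)⟩
            V := fun j => ⟨v j, hv j⟩
            U := fun j => ⟨star (v j), star_mem (hv j)⟩
            g_mem := fun j => mem_SubA.2 (hmem _)
            g'_mem := fun j => mem_SubA.2 (hmem _)
            norm_g := fun j => hnorm _ fun s => ⟨(hbd j s).1, (hbd j s).2.1⟩
            norm_g' := fun j => hnorm _ fun s => ⟨(hbd j s).2.2.1, (hbd j s).2.2.2⟩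
            gg' := fun j => Subtype.ext (hff' j)
            g'g := fun j => Subtype.ext (hf'f j)
            ort := fun j l hjl => Subtype.ext (horth j l hjl)
            norm_U := fun j => ?_
            norm_V := fun j => Slot_norm (hvv j)
            UV := fun j => Subtype.ext (hvv j)
            Ug' := fun j => Subtype.ext ?_
            g'V := fun j => Subtype.ext (hgv j) }⟩
  · show ‖star (v j)‖ ≤ 1
    rw [norm_star]
    exact Slot_norm (hvv j)
  · show star (v j) * cfc (f' j) a = star (v j)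
    have h1 := congrArg star (hgv j)
    rw [star_mul, hsa'] at h1
    exact h1

end Pool.Agent.MP_86f3ed.Sf
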