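import Pool.Agent.H.MP_86f3ed_an.Sf.GaugeT
import Pool.Agent.H.MP_86f3ed_an.Sf.Seq
import Pool.Agent.H.MP_86f3ed_an.Sf.Cplt
import Pool.Agent.H.MP_86f3ed_an.Sf.Iso
import Pool.Agent.H.MP_86f3ed_an.Sf.Count
import Pool.Agent.H.MP_86f3ed_an.Sf.SlotG
import Pool.Agent.H.MP_86f3ed_an.Pin.Inf2
import Pool.Agent.H.MP_86f3ed_an.Pin.Enc

open scoped InnerProductSpace Topology ENNReal
open Filter ContinuousLinearMap

namespace Pool.Agent.MP_86f3ed.Sf

open Pin

variable {K : Type*} [NormedAddCommGroup K] [InnerProductSpace ℂ K] [CompleteSpace K]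

/-- Every nonzero element of the algebra has infinite trace. -/
def TF.Inf (T : TF K) (𝔅 : StarSubalgebra ℂ (K →L[ℂ] K)) : Prop :=
  ∀ g ∈ 𝔅, g ≠ 0 → ∀ C : ℝ, ∃ (m : ℕ) (v : Fin m → K →L[ℂ] K), (∀ i, v i ∈ T.M) ∧
    (∀ i, ‖v i‖ ≤ 1) ∧ (∀ i j, i ≠ j → star (v i) * v j = 0) ∧
    C < ∑ i, ‖g (v i T.ζ)‖ ^ 2

theorem star_starProjection (L : Submodule ℂ K) [L.HasOrthogonalProjection] :
    star L.starProjection = L.starProjection := by
  rw [ContinuousLinearMap.star_eq_adjoint]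
  exact (ContinuousLinearMap.eq_adjoint_iff _ _).mpr
    (fun x y => (L.inner_starProjection_left_eq_right x y)) |>.symm

/-- Isometries whose range is in a unit eigenspace. -/
theorem TF.exists_isom_below [TopologicalSpace.SeparableSpace K] (T : TF K)
    {𝔅 : StarSubalgebra ℂ (K →L[ℂ] K)} (h𝔅 : Com 𝔅 = T.N) (hinf : T.Inf 𝔅)
    {g' g'' : K →L[ℂ] K} (hg' : g' ∈ 𝔅) (hg'' : g'' ∈ 𝔅) 
    (hgg : g' * g'' = g'') (h0 : g'' ≠ 0) :
    ∃ a ∈ T.M, ∃ b ∈ T.M, star a * a = 1 ∧ star b * b = 1 ∧ star a * b = 0 ∧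
      g' * a = a ∧ g' * b = b := by
  have hfac : ∀ x ∈ Com T.N, x ∈ Com (Com T.N) → ∃ c : ℂ, x = c • (1 : K →L[ℂ] K) := by
    intro x hx hx'
    rw [T.bic] at hx'
    exact T.factor x hx' hx
  have h𝔅M : ∀ g ∈ 𝔅, g ∈ T.M := by
    intro g hg
    rw [mem_Com]
    intro y hy
    rw [← h𝔅] at hy
    exact (mem_Com.mp hy g hg).symm
  set L : Submodule ℂ K := LinearMap.ker ((1 - g' : K →L[ℂ] K) : K →ₗ[ℂ] K) with hL
  have : CompleteSpace L := (ContinuousLinearMap.isClosed_ker (1 - g')).completeSpace_coe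
  have hmemL : ∀ x, x ∈ L ↔ g' x = x := by
    intro x
    rw [hL, LinearMap.mem_ker]
    show x - g' x = 0 ↔ _
    rw [sub_eq_zero, eq_comm]
  set r : K →L[ℂ] K := L.starProjection with hr
  have hrM : r ∈ Com T.N := by
    refine proj_mem_Com T.N L fun y hy x hx => ?_
    rw [hmemL] at hx ⊢
    have h1 : y (g' x) = g' (y x) :=
      congrArg (fun S : K →L[ℂ] K => S x) (mem_Com.mp (h𝔅M g' hg') y hy)
    rw [← h1, hx]
  have hrs : star r = r := (star_starProjection L)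
  have hrr : r * r = r := by
    ext x
    show L.starProjection (L.starProjection x) = L.starProjection x
    rw [Submodule.starProjection_eq_self_iff]
    exact Submodule.starProjection_apply_mem L x
  have hg'r : g' * r = r := by
    ext x
    exact (hmemL _).mp (Submodule.starProjection_apply_mem L x)
  have hrg : r * g'' = g'' := by
    ext x
    show L.starProjection (g'' x) = g'' x
    rw [Submodule.starProjection_eq_self_iff, hmemL]
    exact congrArg (fun S : K →L[ℂ] K => S x) hgg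
  obtain ⟨U, hU, hUU, hrU⟩ := exists_seq T.N hfac T.e_mem T.e_star T.e_mul_e T.e_ne hrM hrs hrr
    (by
      intro n V hV hV1 hVe hsum
      obtain ⟨m, v, hv, hv1, hvo, hC⟩ := hinf g'' hg'' h0 (n * ‖g''‖ ^ 2)
      have h1 := T.count_le V hV hV1 hVe v hv hv1 hvo (h𝔅M g'' hg'') (by rw [hsum, hrg])
      linarith)
  obtain ⟨V, hV, hVV, hVp, hVo, hV1⟩ := exists_complete T.N hfac T.e_mem T.e_star T.e_mul_e T.e_ne
  obtain ⟨a, ha, b, hb, haa, hbb, hab, hra, hrb⟩ := exists_iso T.N hV hVV hVp hVo hV1 hU hUU hrU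
  refine ⟨a, ha, b, hb, haa, hbb, hab, ?_, ?_⟩
  · rw [← hra, ← mul_assoc, hg'r]
  · rw [← hrb, ← mul_assoc, hg'r]

theorem amp_injective {S S' : K →L[ℂ] K} (h : amp S = amp S') : S = S' := by
  ext x
  have h1 := congrArg (fun R : HH K →L[ℂ] HH K => pr 0 (R (inc 0 x))) h
  simp only [amp_inc, pr_inc_same] at h1
  exact h1

/-- The slots of the amplification. -/
theorem TF.exists_slotsT [TopologicalSpace.SeparableSpace K] (T : TF K)
    {𝔅 : StarSubalgebra ℂ (K →L[ℂ] K)} (h𝔅 : Com 𝔅 = T.N) (hinf : T.Inf 𝔅)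
    (hcl : IsClosed (Ampl 𝔅 : Set (HH K →L[ℂ] HH K))) :
    Nonempty (BM.Slots (SubA (Ampl 𝔅))) := by
  have hCC : ∀ m ∈ T.M, amp m ∈ Com (Com (Ampl 𝔅)) := by
    intro m hm
    rw [mem_Com_Com_amp]
    exact ⟨m, by rw [h𝔅]; exact hm, rfl⟩
  refine exists_slots' (Ampl 𝔅) hcl ?_ ?_
  · intro g' hg' g'' hg'' _ hgg h0
    obtain ⟨b', hb', rfl⟩ := mem_Ampl.mp hg'
    obtain ⟨b'', hb'', rfl⟩ := mem_Ampl.mp hg''
    have h2 : b' * b'' = b'' := amp_injective (by rw [amp_mul, hgg])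
    have h3 : b'' ≠ 0 := by
      rintro rfl
      exact h0 amp_zero
    obtain ⟨a, ha, -, -, haa, -, -, hga, -⟩ := T.exists_isom_below h𝔅 hinf hb' hb'' h2 h3
    refine ⟨amp a, hCC a ha, ?_, ?_⟩
    · rw [← amp_star, ← amp_mul, haa, amp_one]
    · rw [← amp_mul, hga]
  · obtain ⟨a, ha, b, hb, haa, hbb, hab, -, -⟩ := T.exists_isom_below h𝔅 hinf (one_mem 𝔅)
      (one_mem 𝔅) (one_mul _) (by
        intro h
        have h1 := T.norm_ζ
        have h2 : (1 : K →L[ℂ] K) T.ζ = 0 := by rw [h]; rfl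
        have h3 : T.ζ = 0 := h2
        rw [h3] at h1
        simp at h1)
    refine exists_infinite_spectrum (Ampl 𝔅) hcl (hCC a ha) ?_ ?_
    · rw [← amp_star, ← amp_mul, haa, amp_one]
    · intro h
      have h1 : a * star a = 1 := amp_injective (by rw [amp_mul, amp_star, h, amp_one])
      have h2 : b = 0 := by
        calc b = (a * star a) * b := by rw [h1, one_mul]
          _ = 0 := by rw [mul_assoc, hab, mul_zero]
      have h3 : (1 : K →L[ℂ] K) = 0 := by rw [← hbb, h2, mul_zero]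
      have h4 := T.norm_ζ
      have h5 : (1 : K →L[ℂ] K) T.ζ = 0 := by rw [h3]; rfl
      have h6 : T.ζ = 0 := h5
      rw [h6] at h4
      simp at h4

end Pool.Agent.MP_86f3ed.Sf
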