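import Pool.Agent.H.MP_86f3ed_an.Sf.Slice
import Pool.Agent.H.MP_86f3ed_an.Sf.SlotT

open scoped InnerProductSpace Topology ENNReal
open Filter ContinuousLinearMap

namespace Pool.Agent.MP_86f3ed.Sf

open Pin

variable {K : Type*} [NormedAddCommGroup K] [InnerProductSpace ℂ K] [CompleteSpace K]

/-- Pythagoras for the amplification of orthogonal projections. -/
theorem Slices_pyth {P S : K →L[ℂ] K} (hP : star P = P) (hPS : P * S = 0) (f : HH K) :
    ‖amp (P + S) f‖ ^ 2 = ‖amp P f‖ ^ 2 + ‖amp S f‖ ^ 2 := by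
  have h0 : ⟪amp P f, amp S f⟫_ℂ = 0 := by
    have h1 : ⟪amp P f, amp S f⟫_ℂ = ⟪f, (star (amp P) * amp S) f⟫_ℂ := by
      rw [star_eq_adjoint]
      exact (adjoint_inner_right (amp P) f (amp S f)).symm
    rw [h1, ← amp_star, hP, ← amp_mul, hPS, amp_zero]
    simp
  rw [amp_add, add_apply, norm_add_sq (𝕜 := ℂ), h0]
  simp

/-- Pythagoras after the application of the adjoint. -/
theorem Slices_pyth2 {Z : HH K →L[ℂ] K} {P S : K →L[ℂ] K} (hP : star P = P)
    (hk : P * Z.comp (adjoint Z) = Z.comp (adjoint Z) * P) (hPS : P * S = 0) (x : K) :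
    ‖adjoint Z ((P + S) x)‖ ^ 2 = ‖adjoint Z (P x)‖ ^ 2 + ‖adjoint Z (S x)‖ ^ 2 := by
  have h0 : ⟪adjoint Z (P x), adjoint Z (S x)⟫_ℂ = 0 := by
    rw [adjoint_inner_left]
    have h1 : ⟪P x, Z (adjoint Z (S x))⟫_ℂ = ⟪x, (star P * Z.comp (adjoint Z)) (S x)⟫_ℂ := by
      rw [star_eq_adjoint]
      exact (adjoint_inner_right P x (Z (adjoint Z (S x)))).symm
    have h2 : (star P * Z.comp (adjoint Z)) (S x) = (Z.comp (adjoint Z)) ((P * S) x) := by
      rw [hP, hk]
      rfl
    rw [h1, h2, hPS]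
    simp
  rw [add_apply, map_add, norm_add_sq (𝕜 := ℂ), h0]
  simp

namespace TF

variable (T : TF K)

/-- The sum of the slices down to `C ^ 2 / 2 ^ L`. -/
theorem exists_slices {Z : HH K →L[ℂ] K} {ξ : HH K} (h : T.IsRow Z ξ) {q : ℝ → K →L[ℂ] K}
    (hq : SpecFam T.N (Z.comp (adjoint Z)) q) {C : ℝ} (hC : 0 < C) (hZ : ‖Z‖ ≤ C) (L : ℕ) :
    ∃ (m : ℕ) (U : Fin m → K →L[ℂ] K) (μ : Fin m → ℝ), Partials T.N T.e U ∧
      (∀ i, q (C ^ 2 / 2 ^ L) * U i = U i) ∧
      (∀ i, 0 ≤ μ i ∧ μ i ≤ C ^ 2) ∧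
      ∑ i, μ i ≤ 2 * ‖amp (q (C ^ 2 / 2 ^ L)) ξ‖ ^ 2 + 2 * (C ^ 2 - C ^ 2 / 2 ^ L) ∧
      ∀ x, ‖adjoint Z (q (C ^ 2 / 2 ^ L) x)‖ ^ 2 ≤ ∑ i, μ i * ‖star (U i) x‖ ^ 2 := by
  induction L with
  | zero =>
    have hk : ‖Z.comp (adjoint Z)‖ ≤ C ^ 2 := by
      refine (opNorm_comp_le _ _).trans ?_
      rw [LinearIsometryEquiv.norm_map, pow_two]
      exact mul_le_mul hZ hZ (norm_nonneg _) hC.le
    have h0 : q (C ^ 2) = 0 := hq.zero _ (by positivity) hk
    refine ⟨0, Fin.elim0, Fin.elim0, ⟨fun i => i.elim0, fun i => i.elim0, fun i => i.elim0,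
      fun i => i.elim0⟩, fun i => i.elim0, fun i => i.elim0, ?_, fun x => ?_⟩
    · simp only [pow_zero, div_one, sub_self, mul_zero, add_zero, Finset.univ_eq_empty,
        Finset.sum_empty]
      positivity
    · simp only [pow_zero, div_one, h0, zero_apply, map_zero, norm_zero]
      simp
  | succ L ih =>
    obtain ⟨m₁, U₁, μ₁, hP₁, hq₁, hμ₁, hsum₁, hx₁⟩ := ih
    set c : ℝ := C ^ 2 / 2 ^ (L + 1) with hcdef
    have hc : 0 < c := by positivity
    have h2c : C ^ 2 / 2 ^ L = 2 * c := by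
      have h3 : (2 : ℝ) ^ (L + 1) = 2 ^ L * 2 := pow_succ 2 L
      rw [hcdef, h3]
      field_simp
    rw [h2c] at hq₁ hsum₁ hx₁
    obtain ⟨m₂, U₂, hP₂, hq₂, hm₂, hs₂, hz₂⟩ := T.exists_slice h hq hc
    have hc0 : 0 ≤ c := hc.le
    have h2c0 : 0 ≤ 2 * c := by positivity
    obtain ⟨hn1, hn2⟩ := hq.nest c (2 * c) hc0 (by linarith)
    have hPS : q (2 * c) * (q c - q (2 * c)) = 0 := by
      rw [mul_sub, hn2, hq.idem _ h2c0, sub_self]
    have hadd : q (2 * c) + (q c - q (2 * c)) = q c := by abel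
    have horth : ∀ i j, star (U₁ i) * U₂ j = 0 := by
      intro i j
      rw [← hq₁ i, star_mul, hq.star_q _ h2c0, mul_assoc, (hq₂ j).2, mul_zero]
    have horth' : ∀ i j, star (U₂ i) * U₁ j = 0 := by
      intro i j
      have := congrArg star (horth j i)
      rw [star_mul, star_star, star_zero] at this
      exact this
    have h2cC : 2 * c ≤ C ^ 2 := by
      rw [← h2c]
      exact div_le_self (by positivity) (one_le_pow₀ (by norm_num))
    refine ⟨m₁ + m₂, Fin.append U₁ U₂, Fin.append μ₁ (fun _ => 2 * c), ⟨?_, ?_, ?_, ?_⟩, ?_, ?_,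
      ?_, ?_⟩
    · intro i
      refine Fin.addCases (fun i => ?_) (fun i => ?_) i
      · rw [Fin.append_left]; exact hP₁.mem i
      · rw [Fin.append_right]; exact hP₂.mem i
    · intro i
      refine Fin.addCases (fun i => ?_) (fun i => ?_) i
      · rw [Fin.append_left]; exact hP₁.part i
      · rw [Fin.append_right]; exact hP₂.part i
    · intro i
      refine Fin.addCases (fun i => ?_) (fun i => ?_) i
      · rw [Fin.append_left]; exact hP₁.right i
      · rw [Fin.append_right]; exact hP₂.right i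
    · intro i j
      refine Fin.addCases (fun i => ?_) (fun i => ?_) i
      · refine Fin.addCases (fun j hij => ?_) (fun j hij => ?_) j
        · rw [Fin.append_left, Fin.append_left]
          exact hP₁.orth i j fun h => hij (by rw [h])
        · rw [Fin.append_left, Fin.append_right]
          exact horth i j
      · refine Fin.addCases (fun j hij => ?_) (fun j hij => ?_) j
        · rw [Fin.append_left, Fin.append_right]
          exact horth' i j
        · rw [Fin.append_right, Fin.append_right]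
          exact hP₂.orth i j fun h => hij (by rw [h])
    · intro i
      refine Fin.addCases (fun i => ?_) (fun i => ?_) i
      · rw [Fin.append_left]
        conv_lhs => rw [← hq₁ i, ← mul_assoc, hn1]
        exact hq₁ i
      · rw [Fin.append_right]; exact (hq₂ i).1
    · intro i
      refine Fin.addCases (fun i => ?_) (fun i => ?_) i
      · rw [Fin.append_left]; exact hμ₁ i
      · rw [Fin.append_right]; exact ⟨h2c0, h2cC⟩
    · rw [Fin.sum_univ_add]
      simp only [Fin.append_left, Fin.append_right, Finset.sum_const, Finset.card_univ,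
        Fintype.card_fin, nsmul_eq_mul]
      have hpy := Slices_pyth (hq.star_q _ h2c0) hPS ξ
      rw [hadd] at hpy
      rw [hpy]
      nlinarith [hsum₁, hm₂]
    · intro x
      rw [Fin.sum_univ_add]
      simp only [Fin.append_left, Fin.append_right]
      rw [← Finset.mul_sum, ← hs₂ x]
      have hpy := Slices_pyth2 (Z := Z) (hq.star_q _ h2c0) (hq.comm _ h2c0) hPS x
      rw [hadd] at hpy
      rw [hpy]
      exact add_le_add (hx₁ x) (hz₂ x)

end TF

end Pool.Agent.MP_86f3ed.Sf
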