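import Pool.Agent.H.MP_86f3ed_an.Sf.FBim
import Pool.Agent.H.MP_86f3ed_an.Pin.Conv

open scoped InnerProductSpace Topology ENNReal
open Filter ContinuousLinearMap

namespace Pool.Agent.MP_86f3ed.Sf

open Pin

variable {H : Type*} [NormedAddCommGroup H] [InnerProductSpace ℂ H] [CompleteSpace H]

variable {N : StarSubalgebra ℂ (H →L[ℂ] H)} (G : Gauge N)

/-- The evaluations at vectors of norm at most one which are bounded by two. -/
def Sm : Set (FE G) :=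
  {e | ∃ (T : H →L[ℂ] H) (ξ η : G.D), ‖T‖ ≤ 1 ∧ ‖(ξ : H)‖ ≤ 1 ∧ ‖(η : H)‖ ≤ 1 ∧
    G.Bd 2 (ξ : H) ∧ G.Bd 2 (η : H) ∧ e = evF G T ξ η}

theorem Small_vec {v w : H →L[ℂ] H} (hvv : star v * v = 1) (hvw : star v * w = 0)
    (x y : H) : star v (v x + w y) = x := by
  rw [map_add, star_isom_apply hvv, orth_apply hvw, add_zero]

theorem Small_vec' {v w : H →L[ℂ] H} (hww : star w * w = 1) (hvw : star v * w = 0)
    (x y : H) : star w (v x + w y) = y := by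
  rw [map_add, star_isom_apply hww, orth_apply (orth_symm hvw), zero_add]

theorem Small_op {v w : H →L[ℂ] H} (hvv : star v * v = 1) (hww : star w * w = 1)
    (hvw : star v * w = 0) {T T' : H →L[ℂ] H} (hT : ‖T‖ ≤ 1) (hT' : ‖T'‖ ≤ 1) :
    ‖v * T * star v + w * T' * star w‖ ≤ 1 := by
  refine opNorm_le_bound _ zero_le_one fun x => ?_
  rw [one_mul]
  have h1 : (v * T * star v + w * T' * star w) x = v (T (star v x)) + w (T' (star w x)) := rfl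
  rw [h1]
  have h2 := norm_sq_orth hvv hww hvw (T (star v x)) (T' (star w x))
  have h3 : ‖T (star v x)‖ ≤ ‖star v x‖ :=
    (T.le_opNorm _).trans (mul_le_of_le_one_left (norm_nonneg _) hT)
  have h4 : ‖T' (star w x)‖ ≤ ‖star w x‖ :=
    (T'.le_opNorm _).trans (mul_le_of_le_one_left (norm_nonneg _) hT')
  have h5 := bessel hvv hww hvw x
  have h6 : ‖v (T (star v x)) + w (T' (star w x))‖ ^ 2 ≤ ‖x‖ ^ 2 := by
    rw [h2]
    have := pow_le_pow_left₀ (norm_nonneg _) h3 2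
    have := pow_le_pow_left₀ (norm_nonneg _) h4 2
    linarith
  exact (pow_le_pow_iff_left₀ (norm_nonneg _) (norm_nonneg _) two_ne_zero).mp h6

/-- The set of small evaluations is convex. -/
theorem Sm_convex {v w : H →L[ℂ] H} (hv : v ∈ N) (hw : w ∈ N) (hvv : star v * v = 1)
    (hww : star w * w = 1) (hvw : star v * w = 0) : Convex ℝ (Sm G) := by
  rintro _ ⟨T, ξ, η, hT, hξ, hη, bξ, bη, rfl⟩ _ ⟨T', ξ', η', hT', hξ', hη', bξ', bη', rfl⟩
    a b ha hb hab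
  set ra : ℂ := ((Real.sqrt a : ℝ) : ℂ) with hra
  set rb : ℂ := ((Real.sqrt b : ℝ) : ℂ) with hrb
  have hra2 : ra * ra = (a : ℂ) := by
    rw [hra, ← Complex.ofReal_mul, Real.mul_self_sqrt ha]
  have hrb2 : rb * rb = (b : ℂ) := by
    rw [hrb, ← Complex.ofReal_mul, Real.mul_self_sqrt hb]
  have nra : ‖ra‖ ^ 2 = a := by
    rw [hra, Complex.norm_real, Real.norm_eq_abs, sq_abs, Real.sq_sqrt ha]
  have nrb : ‖rb‖ ^ 2 = b := by
    rw [hrb, Complex.norm_real, Real.norm_eq_abs, sq_abs, Real.sq_sqrt hb]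
  have hvec : ∀ x y : H, ‖x‖ ≤ 1 → ‖y‖ ≤ 1 → ‖v (ra • x) + w (rb • y)‖ ≤ 1 := by
    intro x y hx hy
    have h1 := norm_sq_orth hvv hww hvw (ra • x) (rb • y)
    rw [norm_smul, norm_smul, mul_pow, mul_pow, nra, nrb] at h1
    have hx2 : ‖x‖ ^ 2 ≤ 1 := pow_le_one₀ (norm_nonneg _) hx
    have hy2 : ‖y‖ ^ 2 ≤ 1 := pow_le_one₀ (norm_nonneg _) hy
    have h2 : ‖v (ra • x) + w (rb • y)‖ ^ 2 ≤ 1 := by nlinarith
    exact (pow_le_one_iff_of_nonneg (norm_nonneg _) two_ne_zero).mp h2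
  have hbd : ∀ x y : H, G.Bd 2 x → G.Bd 2 y → G.Bd 2 (v (ra • x) + w (rb • y)) := by
    intro x y hx hy
    have h1 := G.merge (G.smul ra hx) (G.smul rb hy) hv hw hvv hww hvw
    refine G.mono h1 ?_
    have h2 : (‖ra‖ * 2) ^ 2 + (‖rb‖ * 2) ^ 2 = 2 ^ 2 := by
      rw [mul_pow, mul_pow, nra, nrb]
      linear_combination 4 * hab
    rw [h2, Real.sqrt_sq zero_le_two]
  have c1 : (starRingEnd ℂ) ra = ra := by rw [hra, Complex.conj_ofReal]
  have c2 : (starRingEnd ℂ) rb = rb := by rw [hrb, Complex.conj_ofReal]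
  refine ⟨v * T * star v + w * T' * star w,
    G.nD ⟨v, hv⟩ (ra • ξ) + G.nD ⟨w, hw⟩ (rb • ξ'), G.nD ⟨v, hv⟩ (ra • η) + G.nD ⟨w, hw⟩ (rb • η'),
    Small_op hvv hww hvw hT hT', hvec _ _ hξ hξ', hvec _ _ hη hη', hbd _ _ bξ bξ', hbd _ _ bη bη',
    ?_⟩
  apply F_ext
  intro Λ
  have hsv : ∀ x y : G.D, G.nD (star ⟨v, hv⟩) (G.nD ⟨v, hv⟩ x + G.nD ⟨w, hw⟩ y) = x := by
    intro x y
    apply Subtype.ext
    exact Small_vec hvv hvw (x : H) (y : H)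
  have hsw : ∀ x y : G.D, G.nD (star ⟨w, hw⟩) (G.nD ⟨v, hv⟩ x + G.nD ⟨w, hw⟩ y) = y := by
    intro x y
    apply Subtype.ext
    exact Small_vec' hww hvw (x : H) (y : H)
  have k1 : ∀ X Y : G.D, Λ.ap (v * T * star v) X Y =
      Λ.ap T (G.nD (star ⟨v, hv⟩) X) (G.nD (star ⟨v, hv⟩) Y) := by
    intro X Y
    have e1 := Λ.right (star ⟨v, hv⟩) (v * T) X Y
    have e2 := Λ.left ⟨v, hv⟩ T (G.nD (star ⟨v, hv⟩) X) Y
    exact e1.trans e2
  have k2 : ∀ X Y : G.D, Λ.ap (w * T' * star w) X Y =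
      Λ.ap T' (G.nD (star ⟨w, hw⟩) X) (G.nD (star ⟨w, hw⟩) Y) := by
    intro X Y
    have e1 := Λ.right (star ⟨w, hw⟩) (w * T') X Y
    have e2 := Λ.left ⟨w, hw⟩ T' (G.nD (star ⟨w, hw⟩) X) Y
    exact e1.trans e2
  have e1 : (a • evF G T ξ η : FE G) = (a : ℂ) • evF G T ξ η := rfl
  have e2 : (b • evF G T' ξ' η' : FE G) = (b : ℂ) • evF G T' ξ' η' := rfl
  rw [e1, e2, map_add, add_apply, map_smul, map_smul, inF_evF, inF_evF, inF_evF, smul_apply,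
    smul_apply, ev_apply, ev_apply, ev_apply, XE.ap_add1, k1, k2, hsv, hsv, hsw, hsw,
    XE.ap_smul2, XE.ap_smul3, XE.ap_smul2, XE.ap_smul3, c1, c2, ← hra2, ← hrb2, smul_eq_mul,
    smul_eq_mul, mul_assoc, mul_assoc]

end Pool.Agent.MP_86f3ed.Sf
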