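import Pool.Agent.H.MP_86f3ed_an.Sf.Small
import Pool.Agent.H.MP_86f3ed_an.Pin.Conv
import Pool.Agent.H.MP_86f3ed_an.Sf.FDual

open scoped InnerProductSpace Topology ENNReal
open Filter ContinuousLinearMap

namespace Pool.Agent.MP_86f3ed.Sf

open Pin

variable {H : Type*} [NormedAddCommGroup H] [InnerProductSpace ℂ H] [CompleteSpace H]

theorem Split_norm_le_one {v : H →L[ℂ] H} (h : star v * v = 1) : ‖v‖ ≤ 1 := by
  have h1 : ‖v‖ * ‖v‖ ≤ 1 := by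
    rw [← CStarRing.norm_star_mul_self, h]
    exact ContinuousLinearMap.norm_id_le
  nlinarith [norm_nonneg v]

/-- The sum of two compressions with orthogonal ranges is a contraction. -/
theorem Split_norm_sum {v w T : H →L[ℂ] H} (hv : star v * v = 1) (hw : star w * w = 1)
    (h : star v * w = 0) (hT : ‖T‖ ≤ 1) : ‖v * T * star v + w * T * star w‖ ≤ 1 := by
  refine opNorm_le_bound _ zero_le_one fun x => ?_
  rw [one_mul]
  have h1 : (v * T * star v + w * T * star w) x = v (T (star v x)) + w (T (star w x)) := rfl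
  rw [h1]
  have h2 := norm_sq_orth hv hw h (T (star v x)) (T (star w x))
  have h3 : ‖T (star v x)‖ ≤ ‖star v x‖ :=
    (T.le_opNorm _).trans (mul_le_of_le_one_left (norm_nonneg _) hT)
  have h4 : ‖T (star w x)‖ ≤ ‖star w x‖ :=
    (T.le_opNorm _).trans (mul_le_of_le_one_left (norm_nonneg _) hT)
  have h5 := bessel hv hw h x
  have h6 : ‖v (T (star v x)) + w (T (star w x))‖ ^ 2 ≤ ‖x‖ ^ 2 := by
    rw [h2]
    have := pow_le_pow_left₀ (norm_nonneg _) h3 2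
    have := pow_le_pow_left₀ (norm_nonneg _) h4 2
    linarith
  exact (pow_le_pow_iff_left₀ (norm_nonneg _) (norm_nonneg _) two_ne_zero).mp h6

theorem Split_norm_c : ‖(((Real.sqrt 2)⁻¹ : ℝ) : ℂ)‖ = (Real.sqrt 2)⁻¹ := by
  rw [Complex.norm_real, Real.norm_of_nonneg (inv_nonneg.mpr (Real.sqrt_nonneg 2))]

theorem Split_c_sq : (((Real.sqrt 2)⁻¹ : ℝ) : ℂ) * (((Real.sqrt 2)⁻¹ : ℝ) : ℂ) = 1 / 2 := by
  rw [← Complex.ofReal_mul, ← mul_inv, Real.mul_self_sqrt (by norm_num)]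
  norm_num

variable {N : StarSubalgebra ℂ (H →L[ℂ] H)} (G : Gauge N)

/-- Compression of the shifted vector. -/
theorem Split_comp {v w a b : H →L[ℂ] H} (hv : v ∈ N) (hw : w ∈ N) (hvv : star v * v = 1)
    (hvw : star v * w = 0) (ha : a ∈ Com N) (hb : b ∈ Com N) (ξ : G.D) :
    G.nD (star (⟨v, hv⟩ : N)) (G.nD ⟨v, hv⟩ (G.mD ⟨a, ha⟩ ξ) + G.nD ⟨w, hw⟩ (G.mD ⟨b, hb⟩ ξ)) =
      G.mD ⟨a, ha⟩ ξ := by
  apply Subtype.ext
  show star v (v (a ξ) + w (b ξ)) = a ξ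
  rw [map_add, star_isom_apply hvv, orth_apply hvw, add_zero]

/-- The evaluation of a compression. -/
theorem Split_ev {v : H →L[ℂ] H} (hv : v ∈ N) (T : H →L[ℂ] H) (p q : G.D) :
    evF G (v * T * star v) p q =
      evF G T (G.nD (star (⟨v, hv⟩ : N)) p) (G.nD (star (⟨v, hv⟩ : N)) q) := by
  have h1 := evF_right G (star (⟨v, hv⟩ : N)) (v * T) p q
  have h2 := evF_left G (⟨v, hv⟩ : N) T (G.nD (star (⟨v, hv⟩ : N)) p) q
  exact h1.trans h2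

/-- The commutator of the shifted evaluation. -/
theorem Split_D {a : H →L[ℂ] H} (ha : a ∈ Com N) (haa : star a * a = 1) (T : H →L[ℂ] H)
    (ξ η : G.D) :
    (bmE G).D ⟨a, ha⟩ (evF G T ξ (G.mD ⟨a, ha⟩ η)) =
      evF G T ξ η - evF G T (G.mD ⟨a, ha⟩ ξ) (G.mD ⟨a, ha⟩ η) := by
  rw [BM.D_apply, bmE_L_evF, bmE_R_evF, ← mD_mul]
  have h1 : star (⟨a, ha⟩ : Com N) * ⟨a, ha⟩ = 1 := Subtype.ext haa
  rw [h1, mD_one]

/-- The shift identity. -/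
theorem shift_ev {v w a b : H →L[ℂ] H} (hv : v ∈ N) (hw : w ∈ N) (hvv : star v * v = 1)
    (hww : star w * w = 1) (hvw : star v * w = 0) (ha : a ∈ Com N) (hb : b ∈ Com N)
    (haa : star a * a = 1) (hbb : star b * b = 1) (T : H →L[ℂ] H) (ξ η : G.D)
    (hab : star a * b = 0) :
    ∃ ξ' η' : G.D, (ξ' : H) = (((Real.sqrt 2)⁻¹ : ℝ) : ℂ) • (v (a ξ) + w (b ξ)) ∧
      (η' : H) = (((Real.sqrt 2)⁻¹ : ℝ) : ℂ) • (v (a η) + w (b η)) ∧
      evF G T ξ η = (1 / 2 : ℂ) • (bmE G).D ⟨a, ha⟩ (evF G T ξ (G.mD ⟨a, ha⟩ η)) +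
        (1 / 2 : ℂ) • (bmE G).D ⟨b, hb⟩ (evF G T ξ (G.mD ⟨b, hb⟩ η)) +
        evF G (v * T * star v + w * T * star w) ξ' η' := by
  refine ⟨(((Real.sqrt 2)⁻¹ : ℝ) : ℂ) •
      (G.nD ⟨v, hv⟩ (G.mD ⟨a, ha⟩ ξ) + G.nD ⟨w, hw⟩ (G.mD ⟨b, hb⟩ ξ)),
    (((Real.sqrt 2)⁻¹ : ℝ) : ℂ) •
      (G.nD ⟨v, hv⟩ (G.mD ⟨a, ha⟩ η) + G.nD ⟨w, hw⟩ (G.mD ⟨b, hb⟩ η)), rfl, rfl, ?_⟩
  rw [evF_smul2, evF_smul3, Complex.conj_ofReal, smul_smul, Split_c_sq, evF_add1, Split_ev G hv,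
    Split_ev G hw, Split_D G ha haa, Split_D G hb hbb, Split_comp G hv hw hvv hvw ha hb,
    Split_comp G hv hw hvv hvw ha hb,
    add_comm (G.nD ⟨v, hv⟩ (G.mD ⟨a, ha⟩ ξ)) (G.nD ⟨w, hw⟩ (G.mD ⟨b, hb⟩ ξ)),
    add_comm (G.nD ⟨v, hv⟩ (G.mD ⟨a, ha⟩ η)) (G.nD ⟨w, hw⟩ (G.mD ⟨b, hb⟩ η)),
    Split_comp G hw hv hww (orth_symm hvw) hb ha, Split_comp G hw hv hww (orth_symm hvw) hb ha,
    smul_sub, smul_sub, smul_add]
  have h1 : evF G T ξ η = (1 / 2 : ℂ) • evF G T ξ η + (1 / 2 : ℂ) • evF G T ξ η := by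
    rw [← add_smul]
    norm_num
  conv_lhs => rw [h1]
  abel

/-- The size of the shifted vector. -/
theorem Split_In {v w a b : H →L[ℂ] H} (hv : v ∈ N) (hw : w ∈ N) (hvv : star v * v = 1)
    (hww : star w * w = 1) (hvw : star v * w = 0) (ha : a ∈ Com N) (hb : b ∈ Com N)
    (haa : star a * a = 1) (hbb : star b * b = 1) (hab : star a * b = 0) {ξ ξ' : H} {ρ : ℝ}
    (hρ : 1 ≤ ρ) (hn : ‖ξ‖ ≤ 1 / ρ) (hB : G.Bd ρ ξ)
    (hξ' : ξ' = (((Real.sqrt 2)⁻¹ : ℝ) : ℂ) • (v (a ξ) + w (b ξ))) :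
    G.In 1 ξ' ∧ (6 / 5 < ρ → G.In (7 / 8) ξ') := by
  have hρ0 : 0 < ρ := by linarith
  have hs2 : Real.sqrt 2 * Real.sqrt 2 = 2 := Real.mul_self_sqrt (by norm_num)
  have hs0 : 0 < Real.sqrt 2 := Real.sqrt_pos.mpr (by norm_num)
  have hc : (Real.sqrt 2)⁻¹ ≤ 35 / 48 := by
    rw [inv_le_comm₀ hs0 (by norm_num)]
    refine Real.le_sqrt_of_sq_le ?_
    norm_num
  have hnn : ‖ξ'‖ = ‖ξ‖ := by
    have h1 := norm_sq_orth hvv hww hvw (a ξ) (b ξ)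
    rw [isom_norm haa, isom_norm hbb] at h1
    have h2 : ‖ξ'‖ ^ 2 = ‖ξ‖ ^ 2 := by
      rw [hξ', norm_smul, Split_norm_c, mul_pow, h1, inv_pow, pow_two (Real.sqrt 2), hs2]
      ring
    exact (sq_eq_sq₀ (norm_nonneg _) (norm_nonneg _)).mp h2
  have hBd : G.Bd ((Real.sqrt 2)⁻¹ * ρ) ξ' := by
    have h1 := G.smul (((Real.sqrt 2)⁻¹ : ℝ) : ℂ)
      (G.shift hB hv hw hvv hww hvw ha hb haa hbb hab)
    rwa [Split_norm_c, ← hξ'] at h1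
  constructor
  · refine ⟨ρ, hρ, by rwa [hnn], G.mono hBd ?_⟩
    exact mul_le_mul_of_nonneg_right (hc.trans (by norm_num)) hρ0.le
  · intro h6
    refine ⟨5 / 6 * ρ, by linarith, ?_, G.mono hBd ?_⟩
    · rw [hnn]
      refine hn.trans ?_
      rw [div_le_div_iff₀ hρ0 (by positivity)]
      nlinarith
    · rw [← mul_assoc]
      refine mul_le_mul_of_nonneg_right (hc.trans (by norm_num)) hρ0.le

/-- A generator is small, or it is reduced by the shift. -/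
theorem Gen_split {v w a b : H →L[ℂ] H} (hv : v ∈ N) (hw : w ∈ N) (hvv : star v * v = 1)
    (hww : star w * w = 1) (hvw : star v * w = 0) (ha : a ∈ Com N) (hb : b ∈ Com N)
    (haa : star a * a = 1) (hbb : star b * b = 1) (hab : star a * b = 0) {e : FE G}
    (he : e ∈ Gen G) :
    e ∈ Sm G ∨ ∃ ψ₁ ψ₂ g : FE G, ‖ψ₁‖ ≤ 1 ∧ ‖ψ₂‖ ≤ 1 ∧ ‖g‖ ≤ 1 ∧
      e = (1 / 2 : ℂ) • (bmE G).D ⟨a, ha⟩ ψ₁ + (1 / 2 : ℂ) • (bmE G).D ⟨b, hb⟩ ψ₂ +
        (7 / 8 : ℂ) • g := by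
  obtain ⟨T, ξ, η, hT, ⟨ρ, hρ, hξn, hξB⟩, ⟨σ, hσ, hηn, hηB⟩, rfl⟩ := he
  rw [one_mul] at hξB hηB
  by_cases hsm : ρ ≤ 6 / 5 ∧ σ ≤ 6 / 5
  · left
    refine ⟨T, ξ, η, hT, ?_, ?_, G.mono hξB (by linarith [hsm.1]),
      G.mono hηB (by linarith [hsm.2]), rfl⟩
    · exact hξn.trans (div_le_self zero_le_one hρ)
    · exact hηn.trans (div_le_self zero_le_one hσ)
  · right
    have hξ1 : G.In 1 (ξ : H) := ⟨ρ, hρ, hξn, by rwa [one_mul]⟩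
    have hη1 : G.In 1 (η : H) := ⟨σ, hσ, hηn, by rwa [one_mul]⟩
    have hψ : ∀ {x : H →L[ℂ] H} (hx : x ∈ Com N), star x * x = 1 →
        ‖evF G T ξ (G.mD ⟨x, hx⟩ η)‖ ≤ 1 := by
      intro x hx hxx
      refine norm_evF_one G hT hξ1 ?_
      have h1 := hη1.left hx
      rw [mul_one] at h1
      exact h1.mono (Split_norm_le_one hxx)
    obtain ⟨ξ', η', hξ', hη', heq⟩ :=
      shift_ev G hv hw hvv hww hvw ha hb haa hbb T ξ η hab
    have h1 := Split_In G hv hw hvv hww hvw ha hb haa hbb hab hρ hξn hξB hξ'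
    have h2 := Split_In G hv hw hvv hww hvw ha hb haa hbb hab hσ hηn hηB hη'
    have hS := Split_norm_sum hvv hww hvw hT
    have hn : ‖evF G (v * T * star v + w * T * star w) ξ' η'‖ ≤ 7 / 8 := by
      by_cases hρ6 : 6 / 5 < ρ
      · refine (norm_evF_le G _ (h1.2 hρ6) h2.1).trans ?_
        rw [mul_one]
        exact mul_le_of_le_one_left (by norm_num) hS
      · have hσ6 : 6 / 5 < σ := by
          by_contra h3
          exact hsm ⟨not_lt.mp hρ6, not_lt.mp h3⟩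
        refine (norm_evF_le G _ h1.1 (h2.2 hσ6)).trans ?_
        rw [mul_one]
        exact mul_le_of_le_one_left (by norm_num) hS
    refine ⟨evF G T ξ (G.mD ⟨a, ha⟩ η), evF G T ξ (G.mD ⟨b, hb⟩ η),
      (8 / 7 : ℂ) • evF G (v * T * star v + w * T * star w) ξ' η', hψ ha haa, hψ hb hbb, ?_, ?_⟩
    · rw [norm_smul]
      have h3 : ‖(8 / 7 : ℂ)‖ = 8 / 7 := by
        rw [norm_div]
        norm_num
      rw [h3]
      linarith
    · rw [smul_smul, show (7 / 8 : ℂ) * (8 / 7) = 1 by norm_num, one_smul]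
      exact heq

end Pool.Agent.MP_86f3ed.Sf
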