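import Pool.Agent.H.MP_86f3ed_an.Sf.Pos
import Pool.Agent.H.MP_86f3ed_an.Sf.Pack

open scoped InnerProductSpace Topology ENNReal
open Filter ContinuousLinearMap

namespace Pool.Agent.MP_86f3ed.Sf

open Pin

variable {K : Type*} [NormedAddCommGroup K] [InnerProductSpace ℂ K] [CompleteSpace K]

/-- Projections have norm at most one. -/
theorem TU_norm_proj {p : K →L[ℂ] K} (hps : star p = p) (hpp : p * p = p) : ‖p‖ ≤ 1 := by
  have h1 : ‖p‖ * ‖p‖ = ‖p‖ := by
    have h := CStarRing.norm_star_mul_self (x := p)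
    rw [hps, hpp] at h
    exact h.symm
  rcases (norm_nonneg p).eq_or_lt with h0 | h0
  · rw [← h0]; exact zero_le_one
  · have h2 : ‖p‖ = 1 := mul_left_cancel₀ h0.ne' (by rw [h1, mul_one])
    exact h2.le

/-- Contractions from `W W* W = W`. -/
theorem TU_norm_pi {W : K →L[ℂ] K} (hW : W * star W * W = W) : ‖W‖ ≤ 1 := by
  have h1 : star (star W * W) = star W * W := by rw [star_mul, star_star]
  have h2 : (star W * W) * (star W * W) = star W * W := by
    calc (star W * W) * (star W * W) = star W * (W * star W * W) := by simp only [mul_assoc]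
      _ = star W * W := by rw [hW]
  have h3 := TU_norm_proj h1 h2
  have h4 := CStarRing.norm_star_mul_self (x := W)
  rw [h4] at h3
  nlinarith [norm_nonneg W]

/-- The norm of `S x` in terms of `star S * S`. -/
theorem TU_norm_sq (S : K →L[ℂ] K) (x : K) : ‖S x‖ ^ 2 = (⟪x, (star S * S) x⟫_ℂ).re := by
  have h1 : ⟪x, (star S * S) x⟫_ℂ = ⟪S x, S x⟫_ℂ := by
    show ⟪x, (star S) (S x)⟫_ℂ = ⟪S x, S x⟫_ℂ
    rw [star_eq_adjoint, adjoint_inner_right]
  rw [h1, inner_self_eq_norm_sq_to_K]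
  norm_cast

namespace TF

variable (T : TF K)

/-- The number of copies of `p` is bounded. -/
theorem TU_count {p : K →L[ℂ] K} (hps : star p = p) (hpp : p * p = p) {n : ℕ}
    {V : Fin n → K →L[ℂ] K} (hV : ∀ i, V i ∈ T.N)
    (hVV : ∀ i j, star (V i) * V j = if i = j then p else 0) :
    (∀ i, ‖star (V i) T.ζ‖ ^ 2 = ‖p T.ζ‖ ^ 2) ∧ (n : ℝ) * ‖p T.ζ‖ ^ 2 ≤ 1 := by
  have h1 : ∀ i, ‖star (V i) T.ζ‖ ^ 2 = ‖p T.ζ‖ ^ 2 := by
    intro i
    rw [T.norm_star_ζ (hV i), TU_norm_sq, TU_norm_sq, hVV i i, if_pos rfl, hps, hpp]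
  refine ⟨h1, ?_⟩
  have hVp : ∀ i, V i * p = V i := by
    intro i
    have h2 : star (V i - V i * p) * (V i - V i * p) = 0 := by
      have h3 := hVV i i
      rw [if_pos rfl] at h3
      rw [star_sub, star_mul, hps, sub_mul, mul_sub, mul_sub]
      have e1 : star (V i) * (V i * p) = p := by rw [← mul_assoc, h3, hpp]
      have e2 : p * star (V i) * V i = p := by rw [mul_assoc, h3, hpp]
      have e3 : p * star (V i) * (V i * p) = p := by
        rw [← mul_assoc, e2, hpp]
      rw [h3, e1, e2, e3]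
      abel
    have h4 : V i - V i * p = 0 := by
      have h5 := CStarRing.norm_star_mul_self (x := V i - V i * p)
      rw [h2, norm_zero] at h5
      have h6 : ‖V i - V i * p‖ = 0 := by
        rcases mul_eq_zero.1 h5.symm with h | h <;> exact h
      exact norm_eq_zero.1 h6
    exact (sub_eq_zero.1 h4).symm
  set P : K →L[ℂ] K := ∑ i, V i * star (V i) with hP
  have hPs : star P = P := by
    rw [hP, star_sum]
    refine Finset.sum_congr rfl fun i _ => ?_
    rw [star_mul, star_star]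
  have hPP : P * P = P := by
    rw [hP, Finset.sum_mul_sum]
    refine Finset.sum_congr rfl fun i _ => ?_
    rw [Finset.sum_eq_single i]
    · calc V i * star (V i) * (V i * star (V i)) = V i * (star (V i) * V i) * star (V i) := by
            simp only [mul_assoc]
        _ = V i * star (V i) := by rw [hVV i i, if_pos rfl, hVp]
    · intro j _ hj
      calc V i * star (V i) * (V j * star (V j)) = V i * (star (V i) * V j) * star (V j) := by
            simp only [mul_assoc]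
        _ = 0 := by rw [hVV i j, if_neg (Ne.symm hj), mul_zero, zero_mul]
    · intro h
      exact absurd (Finset.mem_univ i) h
  have h7 : ‖P T.ζ‖ ^ 2 = ∑ i, ‖star (V i) T.ζ‖ ^ 2 := by
    rw [TU_norm_sq, hPs, hPP, hP]
    rw [ContinuousLinearMap.sum_apply, inner_sum, Complex.re_sum]
    refine Finset.sum_congr rfl fun i _ => ?_
    rw [TU_norm_sq, star_star]
  have h8 : ‖P T.ζ‖ ≤ 1 := by
    calc ‖P T.ζ‖ ≤ ‖P‖ * ‖T.ζ‖ := P.le_opNorm _
      _ ≤ 1 * 1 := mul_le_mul (TU_norm_proj hPs hPP) T.norm_ζ.le (norm_nonneg _) zero_le_one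
      _ = 1 := one_mul _
  have h9 : ‖P T.ζ‖ ^ 2 ≤ 1 := by
    have := norm_nonneg (P T.ζ)
    nlinarith
  rw [h7] at h9
  simp only [h1] at h9
  rw [Finset.sum_const, Finset.card_univ, Fintype.card_fin, nsmul_eq_mul] at h9
  exact h9

/-- A trace on `N` is at most twice the vector state on projections. -/
theorem trace_proj_le {φ : (K →L[ℂ] K) →ₗ[ℂ] ℂ} (hφ : IsSt φ)
    (htr : ∀ x ∈ T.N, ∀ y ∈ T.N, φ (x * y) = φ (y * x))
    {p : K →L[ℂ] K} (hp : p ∈ T.N) (hps : star p = p) (hpp : p * p = p) :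
    (φ p).re ≤ 2 * ‖p T.ζ‖ ^ 2 := by
  by_cases hp0 : p = 0
  · rw [hp0]; simp
  have ht : 0 < ‖p T.ζ‖ ^ 2 := by
    have h1 : p T.ζ ≠ 0 := fun h => hp0 (T.sep hp h)
    have h2 := norm_pos_iff.2 h1
    positivity
  have hN : Com T.M = T.N := T.bic
  obtain ⟨n, V, W, hV, hW, -, hWW, hWp, -, hsum⟩ := exists_pack T.M
    (fun x hx hx' => by
      rw [hN] at hx hx'
      exact T.factor x hx hx')
    (p := p) (s := 1) (by rw [hN]; exact hp) hps hpp (by rw [hN]; exact one_mem _)
    (star_one _) (one_mul _) ⌊1 / ‖p T.ζ‖ ^ 2⌋₊ (by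
      intro n V hV
      have h1 := (T.TU_count hps hpp (fun i => by rw [← hN]; exact hV.1 i) hV.2.1).2
      apply Nat.le_floor
      rw [le_div_iff₀ ht]
      exact h1)
  have hVN : ∀ i, V i ∈ T.N := fun i => by rw [← hN]; exact hV.1 i
  have hWN : W ∈ T.N := by rw [← hN]; exact hW
  have hcount := T.TU_count hps hpp hVN hV.2.1
  -- the vector state
  have hτ : 1 ≤ (n : ℝ) * ‖p T.ζ‖ ^ 2 + ‖p T.ζ‖ ^ 2 := by
    have h1 : (1 : ℝ) = ∑ i, ‖star (V i) T.ζ‖ ^ 2 + ‖star W T.ζ‖ ^ 2 := by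
      have h2 : (⟪T.ζ, (∑ i, V i * star (V i) + W * star W) T.ζ⟫_ℂ).re = 1 := by
        rw [hsum]
        show (⟪T.ζ, T.ζ⟫_ℂ).re = 1
        rw [inner_self_eq_norm_sq_to_K, T.norm_ζ]
        norm_num
      rw [← h2, ContinuousLinearMap.add_apply, ContinuousLinearMap.sum_apply, inner_add_right,
        inner_sum, Complex.add_re, Complex.re_sum]
      congr 1
      · refine Finset.sum_congr rfl fun i _ => ?_
        rw [TU_norm_sq, star_star]
      · rw [TU_norm_sq, star_star]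
    have h3 : ‖star W T.ζ‖ ^ 2 ≤ ‖p T.ζ‖ ^ 2 := by
      rw [T.norm_star_ζ hWN]
      have h4 : ‖W T.ζ‖ ≤ ‖p T.ζ‖ := by
        calc ‖W T.ζ‖ = ‖W (p T.ζ)‖ := by
              conv_lhs => rw [← hWp]
              rfl
          _ ≤ ‖W‖ * ‖p T.ζ‖ := W.le_opNorm _
          _ ≤ 1 * ‖p T.ζ‖ := mul_le_mul_of_nonneg_right (TU_norm_pi hWW) (norm_nonneg _)
          _ = ‖p T.ζ‖ := one_mul _
      exact pow_le_pow_left₀ (norm_nonneg _) h4 2
    simp only [hcount.1] at h1
    rw [Finset.sum_const, Finset.card_univ, Fintype.card_fin, nsmul_eq_mul] at h1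
    linarith
  -- the trace
  have hφ1 : (n : ℝ) * (φ p).re ≤ 1 := by
    have h1 : φ 1 = ∑ _i : Fin n, φ p + φ (W * star W) := by
      rw [← hsum, map_add, map_sum]
      congr 1
      refine Finset.sum_congr rfl fun i _ => ?_
      rw [htr _ (hVN i) _ (star_mem (hVN i)), hV.2.1 i i, if_pos rfl]
    have h2 := congrArg Complex.re h1
    rw [hφ.one, Complex.add_re, Finset.sum_const, Finset.card_univ, Fintype.card_fin,
      Complex.one_re, nsmul_eq_mul] at h2
    have h3 := (hφ.nonneg (star W)).1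
    rw [star_star] at h3
    have h4 : ((n : ℂ) * φ p).re = (n : ℝ) * (φ p).re := by
      rw [← Complex.ofReal_natCast, Complex.re_ofReal_mul]
    rw [h4] at h2
    linarith
  rcases Nat.eq_zero_or_pos n with h0 | h0
  · rw [h0] at hτ
    simp only [Nat.cast_zero, zero_mul, zero_add] at hτ
    have h1 : (φ p).re ≤ 1 := by
      calc (φ p).re ≤ ‖φ p‖ := Complex.re_le_norm _
        _ ≤ ‖p‖ := hφ.norm_le p
        _ ≤ 1 := TU_norm_proj hps hpp
    linarith
  · have h1 : (1 : ℝ) ≤ n := by exact_mod_cast h0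
    have h2 : (n : ℝ) * (φ p).re ≤ n * (2 * ‖p T.ζ‖ ^ 2) := by nlinarith
    exact le_of_mul_le_mul_left h2 (by linarith)

end TF

end Pool.Agent.MP_86f3ed.Sf
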