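import Pool.Agent.H.MP_86f3ed_an.Sf.TUb
import Pool.Agent.H.MP_86f3ed_an.Sf.Tom

open scoped InnerProductSpace Topology ENNReal
open Filter ContinuousLinearMap

namespace Pool.Agent.MP_86f3ed.Sf

open Pin

variable {K : Type*} [NormedAddCommGroup K] [InnerProductSpace ℂ K] [CompleteSpace K]

namespace TF

variable (T : TF K)

/-- The values of the trace are bounded by the norms of the vectors. -/
theorem TU2_bound {φ : (K →L[ℂ] K) →ₗ[ℂ] ℂ} (hφ : IsSt φ)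
    (htr : ∀ x ∈ T.N, ∀ y ∈ T.N, φ (x * y) = φ (y * x)) {x y : K →L[ℂ] K} (hx : x ∈ T.N)
    (hy : y ∈ T.N) : ‖φ (star x * y)‖ ≤ 2 * ‖x T.ζ‖ * ‖y T.ζ‖ := by
  have h1 := hφ.cs x y
  have h2 := T.trace_le hφ htr hx
  have h3 := T.trace_le hφ htr hy
  have h4 := (hφ.nonneg y).1
  have h5 : ‖φ (star x * y)‖ ^ 2 ≤ (2 * ‖x T.ζ‖ * ‖y T.ζ‖) ^ 2 := by
    calc ‖φ (star x * y)‖ ^ 2 ≤ (φ (star x * x)).re * (φ (star y * y)).re := h1
      _ ≤ (2 * ‖x T.ζ‖ ^ 2) * (2 * ‖y T.ζ‖ ^ 2) := by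
          apply mul_le_mul h2 h3 h4
          positivity
      _ = (2 * ‖x T.ζ‖ * ‖y T.ζ‖) ^ 2 := by ring
  exact (sq_le_sq₀ (norm_nonneg _) (by positivity)).1 h5

/-- The vectors of the sesquilinear form. -/
theorem TU2_vec {φ : (K →L[ℂ] K) →ₗ[ℂ] ℂ} (hφ : IsSt φ)
    (htr : ∀ x ∈ T.N, ∀ y ∈ T.N, φ (x * y) = φ (y * x)) (y : T.N) :
    ∃ v ∈ T.W, ‖v‖ ≤ 2 * ‖(y : K →L[ℂ] K) T.ζ‖ ∧
      ∀ x ∈ T.N, ⟪x T.ζ, v⟫_ℂ = φ (star x * y) := by
  let b : T.N →ₗ[ℂ] ℂ :=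
    { toFun := fun x => φ (star (y : K →L[ℂ] K) * x)
      map_add' := fun x x' => by
        show φ (star (y : K →L[ℂ] K) * ((x : K →L[ℂ] K) + x')) = _
        rw [mul_add, map_add]
      map_smul' := fun c x => by
        show φ (star (y : K →L[ℂ] K) * (c • (x : K →L[ℂ] K))) = _
        rw [mul_smul_comm, map_smul]
        rfl }
  have hb : ∀ x, b x = φ (star (y : K →L[ℂ] K) * x) := fun _ => rfl
  have hbd : ∀ x, ‖b x‖ ≤ (2 * ‖(y : K →L[ℂ] K) T.ζ‖) * ‖T.Tom_a T.ζ x‖ := fun x =>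
    T.TU2_bound hφ htr y.2 x.2
  obtain ⟨w, hwn, hw, _⟩ := exists_ext (T.Tom_a T.ζ) b (by positivity) hbd
  refine ⟨T.e ((InnerProductSpace.toDual ℂ K).symm w), T.e_apply_mem _, ?_, ?_⟩
  · refine (T.norm_e_le _).trans ?_
    rw [LinearIsometryEquiv.norm_map]
    exact hwn
  · intro x hx
    rw [Tom_inner_e, T.e_N hx, ← inner_conj_symm, InnerProductSpace.toDual_symm_apply]
    have h1 := hw ⟨x, hx⟩
    rw [Tom_a_apply, hb] at h1
    have h2 : w (x T.ζ) = φ (star (y : K →L[ℂ] K) * x) := h1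
    rw [h2, ← hφ.star, star_mul, star_star]

/-- The operator of the sesquilinear form. -/
theorem TU2_op {φ : (K →L[ℂ] K) →ₗ[ℂ] ℂ} (hφ : IsSt φ)
    (htr : ∀ x ∈ T.N, ∀ y ∈ T.N, φ (x * y) = φ (y * x)) :
    ∃ h ∈ T.M, ∀ x ∈ T.N, ∀ y ∈ T.N, φ (star x * y) = ⟪x T.ζ, h (y T.ζ)⟫_ℂ := by
  choose v hvW hvn hv using T.TU2_vec hφ htr
  let b : T.N →ₗ[ℂ] K :=
    { toFun := v
      map_add' := fun y y' => by
        apply T.W_ext (hvW _) (add_mem (hvW _) (hvW _))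
        intro x hx
        rw [inner_add_right, hv _ x hx, hv _ x hx, hv _ x hx]
        show φ (star x * ((y : K →L[ℂ] K) + y')) = _
        rw [mul_add, map_add]
      map_smul' := fun c y => by
        apply T.W_ext (hvW _) (Submodule.smul_mem _ _ (hvW _))
        intro x hx
        rw [RingHom.id_apply, inner_smul_right, hv _ x hx, hv _ x hx]
        show φ (star x * (c • (y : K →L[ℂ] K))) = _
        rw [mul_smul_comm, map_smul]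
        rfl }
  have hb : ∀ y, b y = v y := fun _ => rfl
  obtain ⟨h, _, hh, hh0⟩ := exists_ext (T.Tom_a T.ζ) b (by norm_num : (0 : ℝ) ≤ 2)
    (fun y => hvn y)
  have hhy : ∀ y (hy : y ∈ T.N), h (y T.ζ) = v ⟨y, hy⟩ := fun y hy => hh ⟨y, hy⟩
  refine ⟨h, ?_, ?_⟩
  · rw [mem_Com]
    intro z hz
    refine ContinuousLinearMap.ext fun x => ?_
    have h1 := ext_comm (T.Tom_a T.ζ) b hh hh0 z z
      (fun y => ⟨⟨z * y, mul_mem hz y.2⟩, rfl, by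
        rw [hb, hb]
        apply T.W_ext (T.W_inv hz (hvW _)) (hvW _)
        intro x hx
        rw [hv _ x hx]
        have h2 := hv y (star z * x) (mul_mem (star_mem hz) hx)
        rw [star_mul, star_star] at h2
        have h3 : ⟪x T.ζ, z (v y)⟫_ℂ = ⟪(star z * x) T.ζ, v y⟫_ℂ := by
          show ⟪x T.ζ, z (v y)⟫_ℂ = ⟪star z (x T.ζ), v y⟫_ℂ
          rw [Tom_inner_star' (star z), star_star]
        rw [h3, h2, mul_assoc]⟩)
      (fun y => ⟨⟨star z * y, mul_mem (star_mem hz) y.2⟩, rfl⟩) x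
    exact h1.symm
  · intro x hx y hy
    rw [hhy y hy, hv _ x hx]

/-- Uniqueness of the trace. -/
theorem trace_unique {φ : (K →L[ℂ] K) →ₗ[ℂ] ℂ} (hφ : IsSt φ)
    (htr : ∀ x ∈ T.N, ∀ y ∈ T.N, φ (x * y) = φ (y * x)) {y : K →L[ℂ] K} (hy : y ∈ T.N) :
    φ y = ⟪T.ζ, y T.ζ⟫_ℂ := by
  obtain ⟨h, hM, hh⟩ := T.TU2_op hφ htr
  obtain ⟨q, hqN, _, hqζ, _⟩ := T.exists_tomita hM
  have hφq : ∀ y ∈ T.N, φ y = ⟪T.ζ, y (q T.ζ)⟫_ℂ := by
    intro y hy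
    have h1 := hh (star y) (star_mem hy) 1 (one_mem _)
    rw [star_star, mul_one] at h1
    have h2 : (1 : K →L[ℂ] K) T.ζ = T.ζ := rfl
    rw [h2] at h1
    rw [h1, hqζ, T.comm hy T.e_mem, Tom_inner_e, T.e_ζ, Tom_inner_star' (star y), star_star]
  have hcomm : q ∈ Com T.N := by
    rw [mem_Com]
    intro x hx
    have hdN : q * x - x * q ∈ T.N := sub_mem (mul_mem hqN hx) (mul_mem hx hqN)
    have h1 : ∀ y ∈ T.N, ⟪T.ζ, y ((q * x - x * q) T.ζ)⟫_ℂ = 0 := by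
      intro y hy
      have e1 := hφq (x * y) (mul_mem hx hy)
      have e2 := hφq (y * x) (mul_mem hy hx)
      have e3 := T.tr x hx (y * q) (mul_mem hy hqN)
      have e4 : ⟪T.ζ, (x * y) (q T.ζ)⟫_ℂ = ⟪T.ζ, x ((y * q) T.ζ)⟫_ℂ := rfl
      have e5 : ⟪T.ζ, y ((q * x - x * q) T.ζ)⟫_ℂ =
          ⟪T.ζ, (y * q) (x T.ζ)⟫_ℂ - ⟪T.ζ, (y * x) (q T.ζ)⟫_ℂ := by
        rw [sub_apply, map_sub, inner_sub_right]
        rfl
      rw [e5, ← e3, ← e4, ← e1, ← e2, htr x hx y hy, sub_self]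
    have h2 := h1 (star (q * x - x * q)) (star_mem hdN)
    rw [Tom_inner_star, inner_self_eq_zero] at h2
    have h3 := T.sep hdN h2
    rw [sub_eq_zero] at h3
    exact h3.symm
  obtain ⟨c, hc⟩ := T.factor q hqN hcomm
  have hval : ∀ y ∈ T.N, φ y = c * ⟪T.ζ, y T.ζ⟫_ℂ := by
    intro y hy
    rw [hφq y hy, hc]
    show ⟪T.ζ, y (c • T.ζ)⟫_ℂ = _
    rw [map_smul, inner_smul_right]
  have h1 := hval 1 (one_mem _)
  have h2 : (1 : K →L[ℂ] K) T.ζ = T.ζ := rfl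
  rw [hφ.one, h2, inner_self_eq_norm_sq_to_K, T.norm_ζ] at h1
  have hc1 : c = 1 := by
    simpa using h1.symm
  rw [hval y hy, hc1, one_mul]

end TF

end Pool.Agent.MP_86f3ed.Sf
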