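import Pool.Agent.H.MP_86f3ed_an.Sf.TU
import Pool.Agent.H.MP_86f3ed_an.Sf.Spec

open scoped InnerProductSpace Topology ENNReal
open Filter ContinuousLinearMap

namespace Pool.Agent.MP_86f3ed.Sf

open Pin

variable {K : Type*} [NormedAddCommGroup K] [InnerProductSpace ℂ K] [CompleteSpace K]

/-- A state is nonnegative on positive operators. -/
theorem TUb_nonneg {φ : (K →L[ℂ] K) →ₗ[ℂ] ℂ} (hφ : IsSt φ) {A : K →L[ℂ] K}
    (hA : star A = A) (hA0 : ∀ x, 0 ≤ RCLike.re ⟪x, A x⟫_ℂ) : 0 ≤ (φ A).re := by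
  have hpos : ContinuousLinearMap.IsPositive A := by
    rw [ContinuousLinearMap.isPositive_def']
    refine ⟨hA, fun x => ?_⟩
    rw [ContinuousLinearMap.reApplyInnerSelf_apply, inner_re_symm]
    exact hA0 x
  have h0 : 0 ≤ A := (ContinuousLinearMap.nonneg_iff_isPositive A).mpr hpos
  obtain ⟨b, hb⟩ := CStarAlgebra.nonneg_iff_eq_star_mul_self.mp h0
  rw [hb]
  exact (hφ.nonneg b).1

/-- Abel summation. -/
theorem TUb_abel (a : ℕ → ℝ) (n : ℕ) :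
    ∑ i ∈ Finset.range n, ((i : ℝ) + 1) * (a i - a (i + 1))
      = ∑ i ∈ Finset.range n, a i - n * a n := by
  induction n with
  | zero => simp
  | succ n ih =>
    rw [Finset.sum_range_succ, ih, Finset.sum_range_succ]
    push_cast
    ring

/-- Abel summation. -/
theorem TUb_abel' (a : ℕ → ℝ) (n : ℕ) :
    ∑ i ∈ Finset.range n, (i : ℝ) * (a i - a (i + 1))
      = ∑ i ∈ Finset.range n, a i - n * a n - (a 0 - a n) := by
  induction n with
  | zero => simp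
  | succ n ih =>
    rw [Finset.sum_range_succ, ih, Finset.sum_range_succ]
    push_cast
    ring

namespace TF

variable (T : TF K)

/-- A trace on `N` is at most twice the vector state, up to a small error. -/
theorem TUb_step {φ : (K →L[ℂ] K) →ₗ[ℂ] ℂ} (hφ : IsSt φ)
    (htr : ∀ x ∈ T.N, ∀ y ∈ T.N, φ (x * y) = φ (y * x)) {y : K →L[ℂ] K} (hy : y ∈ T.N)
    (n : ℕ) :
    (φ (star y * y)).re ≤ 2 * ‖y T.ζ‖ ^ 2 + 2 * (‖star y * y‖ / ((n : ℝ) + 1)) := by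
  set k : K →L[ℂ] K := star y * y with hkdef
  have hkN : k ∈ T.N := mul_mem (star_mem hy) hy
  have hk : k ∈ Com T.M := by rw [T.bic]; exact hkN
  have hks : star k = k := by rw [hkdef, star_mul, star_star]
  have hky : ∀ x, RCLike.re ⟪x, k x⟫_ℂ = ‖y x‖ ^ 2 := by
    intro x
    show RCLike.re ⟪x, star y (y x)⟫_ℂ = ‖y x‖ ^ 2
    rw [star_eq_adjoint, adjoint_inner_right, inner_self_eq_norm_sq]
  have hk0 : ∀ x, 0 ≤ RCLike.re ⟪x, k x⟫_ℂ := fun x => by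
    rw [hky]; positivity
  obtain ⟨q, hq⟩ := exists_spec T.M hk hks hk0
  set h : ℝ := ‖k‖ / ((n : ℝ) + 1) with hh
  have hn1 : (0 : ℝ) < (n : ℝ) + 1 := by positivity
  have hh0 : 0 ≤ h := by rw [hh]; positivity
  set Q : ℕ → K →L[ℂ] K := fun i => q ((i : ℝ) * h) with hQ
  have hc : ∀ i : ℕ, (0 : ℝ) ≤ (i : ℝ) * h := fun i => by positivity
  have hQs : ∀ i, star (Q i) = Q i := fun i => hq.star_q _ (hc i)
  have hQQ : ∀ i, Q i * Q i = Q i := fun i => hq.idem _ (hc i)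
  have hQk : ∀ i, Q i * k = k * Q i := fun i => hq.comm _ (hc i)
  have hle : ∀ i : ℕ, (i : ℝ) * h ≤ ((i + 1 : ℕ) : ℝ) * h := fun i => by
    push_cast
    nlinarith
  have hQ1 : ∀ i, Q i * Q (i + 1) = Q (i + 1) := fun i => (hq.nest _ _ (hc i) (hle i)).1
  have hQ2 : ∀ i, Q (i + 1) * Q i = Q (i + 1) := fun i => (hq.nest _ _ (hc i) (hle i)).2
  have hQN : ∀ i, Q i ∈ T.N := fun i => by
    have h1 := hq.mem _ (hc i)
    rw [T.bic] at h1
    exact h1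
  have hQn : Q (n + 1) = 0 := by
    refine hq.zero _ (hc _) ?_
    rw [hh]
    push_cast
    rw [mul_div_cancel₀ _ hn1.ne']
  have hk00 : k * Q 0 = k := by
    ext x
    have h1 := hq.norm_up 0 le_rfl x
    rw [zero_mul] at h1
    have h2 : k (x - q 0 x) = 0 := norm_le_zero_iff.mp h1
    rw [map_sub, sub_eq_zero] at h2
    show k (q (((0 : ℕ) : ℝ) * h) x) = k x
    rw [Nat.cast_zero, zero_mul, ← h2]
  -- telescoping
  have htel : ∀ m : ℕ, k * Q 0 - k * Q m = ∑ i ∈ Finset.range m, k * (Q i - Q (i + 1)) := by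
    intro m
    induction m with
    | zero => simp
    | succ m ih =>
      rw [Finset.sum_range_succ, ← ih, mul_sub]
      abel
  have hsum : k = ∑ i ∈ Finset.range (n + 1), k * (Q i - Q (i + 1)) := by
    rw [← htel, hQn, mul_zero, sub_zero, hk00]
  -- the projections
  have hPs : ∀ i, star (Q i - Q (i + 1)) = Q i - Q (i + 1) := fun i => by
    rw [star_sub, hQs, hQs]
  have hPP : ∀ i, (Q i - Q (i + 1)) * (Q i - Q (i + 1)) = Q i - Q (i + 1) := fun i => by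
    rw [sub_mul, mul_sub, mul_sub, hQQ, hQQ, hQ1, hQ2]
    abel
  have hPk : ∀ i, (Q i - Q (i + 1)) * k = k * (Q i - Q (i + 1)) := fun i => by
    rw [sub_mul, mul_sub, hQk, hQk]
  have hform : ∀ (A P : K →L[ℂ] K), star P = P → P * P = P → P * A = A * P → ∀ x,
      ⟪x, (A * P) x⟫_ℂ = ⟪P x, A (P x)⟫_ℂ := by
    intro A P h1 h2 h3 x
    have h4 : A * P = P * (A * P) := by
      rw [← mul_assoc, h3, mul_assoc, h2]
    conv_lhs => rw [h4]
    have h5 : ∀ w : K, ⟪x, P w⟫_ℂ = ⟪P x, w⟫_ℂ := fun w => by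
      conv_lhs => rw [← h1]
      rw [star_eq_adjoint, adjoint_inner_right]
    exact h5 _
  have hPx : ∀ i x, ⟪x, (Q i - Q (i + 1)) x⟫_ℂ = ⟪(Q i - Q (i + 1)) x, (Q i - Q (i + 1)) x⟫_ℂ := by
    intro i x
    have h1 := hform 1 (Q i - Q (i + 1)) (hPs i) (hPP i) (by rw [mul_one, one_mul]) x
    rw [one_mul] at h1
    exact h1
  have hQx : ∀ i x, RCLike.re ⟪x, (Q i) x⟫_ℂ = ‖Q i x‖ ^ 2 := by
    intro i x
    have h1 := hform 1 (Q i) (hQs i) (hQQ i) (by rw [mul_one, one_mul]) x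
    rw [one_mul] at h1
    rw [h1]
    exact inner_self_eq_norm_sq _
  have hlow : ∀ (i : ℕ) x, (i : ℝ) * h * ‖(Q i - Q (i + 1)) x‖ ^ 2
      ≤ RCLike.re ⟪(Q i - Q (i + 1)) x, k ((Q i - Q (i + 1)) x)⟫_ℂ := by
    intro i x
    have h1 := hq.low _ (hc i) ((Q i - Q (i + 1)) x)
    have h2 : q ((i : ℝ) * h) ((Q i - Q (i + 1)) x) = (Q i - Q (i + 1)) x := by
      show (Q i * (Q i - Q (i + 1))) x = _
      rw [mul_sub, hQQ, hQ1]
    rw [h2] at h1
    exact h1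
  have hup : ∀ (i : ℕ) x, RCLike.re ⟪(Q i - Q (i + 1)) x, k ((Q i - Q (i + 1)) x)⟫_ℂ
      ≤ ((i : ℝ) + 1) * h * ‖(Q i - Q (i + 1)) x‖ ^ 2 := by
    intro i x
    have h1 := hq.up _ (hc (i + 1)) ((Q i - Q (i + 1)) x)
    have h2 : q (((i + 1 : ℕ) : ℝ) * h) ((Q i - Q (i + 1)) x) = 0 := by
      show (Q (i + 1) * (Q i - Q (i + 1))) x = _
      rw [mul_sub, hQQ, hQ2, sub_self]
      rfl
    rw [h2, sub_zero] at h1
    push_cast at h1
    exact h1
  -- the state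
  have hA0 : ∀ i : ℕ, (φ (k * (Q i - Q (i + 1)))).re
      ≤ ((i : ℝ) + 1) * (h * (φ (Q i)).re - h * (φ (Q (i + 1))).re) := by
    intro i
    obtain ⟨t, ht⟩ : ∃ t : ℝ, t = ((i : ℝ) + 1) * h := ⟨_, rfl⟩
    have h1 : 0 ≤ (φ ((t : ℂ) • (Q i - Q (i + 1)) - k * (Q i - Q (i + 1)))).re := by
      refine TUb_nonneg hφ ?_ fun x => ?_
      · rw [star_sub, star_smul, star_mul, hPs, hks, hPk]
        congr 2
        exact Complex.conj_ofReal t
      · rw [_root_.sub_apply, inner_sub_right, map_sub, hform k _ (hPs i) (hPP i) (hPk i),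
          _root_.smul_apply, inner_smul_right, hPx]
        have h2 := hup i x
        have h3 : RCLike.re ((t : ℂ) * ⟪(Q i - Q (i + 1)) x, (Q i - Q (i + 1)) x⟫_ℂ)
            = t * ‖(Q i - Q (i + 1)) x‖ ^ 2 := by
          refine (Complex.re_ofReal_mul _ _).trans ?_
          congr 1
          exact inner_self_eq_norm_sq (𝕜 := ℂ) ((Q i - Q (i + 1)) x)
        rw [h3, ht]
        linarith
    rw [map_sub, map_smul, map_sub, smul_eq_mul, Complex.sub_re, Complex.re_ofReal_mul,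
      Complex.sub_re, ht] at h1
    linarith
  have hA : (φ k).re ≤ ∑ i ∈ Finset.range (n + 1), h * (φ (Q i)).re := by
    have h1 := TUb_abel (fun i => h * (φ (Q i)).re) (n + 1)
    rw [hQn, map_zero, Complex.zero_re, mul_zero, mul_zero, sub_zero] at h1
    rw [← h1]
    conv_lhs => rw [hsum]
    rw [map_sum, Complex.re_sum]
    exact Finset.sum_le_sum fun i _ => hA0 i
  -- the vector state
  have hP2 : ∀ i, ‖(Q i - Q (i + 1)) T.ζ‖ ^ 2 = ‖Q i T.ζ‖ ^ 2 - ‖Q (i + 1) T.ζ‖ ^ 2 := by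
    intro i
    rw [← inner_self_eq_norm_sq (𝕜 := ℂ), ← hPx, _root_.sub_apply, inner_sub_right, map_sub,
      hQx, hQx]
  have hB0 : ∀ i : ℕ, (i : ℝ) * (h * ‖Q i T.ζ‖ ^ 2 - h * ‖Q (i + 1) T.ζ‖ ^ 2)
      ≤ RCLike.re ⟪T.ζ, (k * (Q i - Q (i + 1))) T.ζ⟫_ℂ := by
    intro i
    have h1 := hlow i T.ζ
    rw [hP2, ← hform k _ (hPs i) (hPP i) (hPk i)] at h1
    linarith
  have hB : ∑ i ∈ Finset.range (n + 1), h * ‖Q i T.ζ‖ ^ 2 - h * ‖Q 0 T.ζ‖ ^ 2
      ≤ ‖y T.ζ‖ ^ 2 := by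
    have h1 := TUb_abel' (fun i => h * ‖Q i T.ζ‖ ^ 2) (n + 1)
    rw [hQn, _root_.zero_apply, norm_zero, zero_pow two_ne_zero, mul_zero, mul_zero, sub_zero,
      sub_zero] at h1
    rw [← h1, ← hky]
    conv_rhs => rw [hsum]
    rw [_root_.sum_apply, inner_sum, map_sum]
    exact Finset.sum_le_sum fun i _ => hB0 i
  have hC : ∑ i ∈ Finset.range (n + 1), h * (φ (Q i)).re
      ≤ 2 * ∑ i ∈ Finset.range (n + 1), h * ‖Q i T.ζ‖ ^ 2 := by
    rw [Finset.mul_sum]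
    refine Finset.sum_le_sum fun i _ => ?_
    have h1 := T.trace_proj_le hφ htr (hQN i) (hQs i) (hQQ i)
    nlinarith
  have hD : ‖Q 0 T.ζ‖ ^ 2 ≤ 1 := by
    have h1 : ‖Q 0 T.ζ‖ ^ 2 ≤ ‖Q 0 T.ζ‖ := by
      rw [← hQx]
      refine le_trans (Complex.re_le_norm _) ?_
      refine le_trans (norm_inner_le_norm _ _) ?_
      rw [T.norm_ζ, one_mul]
    nlinarith [norm_nonneg (Q 0 T.ζ)]
  nlinarith

/-- A trace on `N` is at most twice the vector state. -/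
theorem trace_le {φ : (K →L[ℂ] K) →ₗ[ℂ] ℂ} (hφ : IsSt φ)
    (htr : ∀ x ∈ T.N, ∀ y ∈ T.N, φ (x * y) = φ (y * x)) {y : K →L[ℂ] K} (hy : y ∈ T.N) :
    (φ (star y * y)).re ≤ 2 * ‖y T.ζ‖ ^ 2 := by
  have h1 : Tendsto (fun n : ℕ => 2 * ‖y T.ζ‖ ^ 2 + 2 * (‖star y * y‖ / ((n : ℝ) + 1))) atTop
      (𝓝 (2 * ‖y T.ζ‖ ^ 2 + 2 * 0)) := by
    refine tendsto_const_nhds.add (tendsto_const_nhds.mul ?_)
    have h2 := (tendsto_one_div_add_atTop_nhds_zero_nat (𝕜 := ℝ)).const_mul ‖star y * y‖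
    rw [mul_zero] at h2
    refine h2.congr fun n => ?_
    rw [mul_one_div]
  rw [mul_zero, add_zero] at h1
  exact ge_of_tendsto' h1 fun n => T.TUb_step hφ htr hy n

end TF

end Pool.Agent.MP_86f3ed.Sf
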