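import Pool.Agent.H.MP_86f3ed_an.Pin.Space

open scoped InnerProductSpace Topology ENNReal
open Filter ContinuousLinearMap

namespace Pool.Agent.MP_86f3ed.Sf

open Pin

variable {H : Type*} [NormedAddCommGroup H] [InnerProductSpace ℂ H] [CompleteSpace H]

theorem Trick_par {T₁ T₂ : H →L[ℂ] H} (h1 : ‖T₁‖ ≤ 1) (h2 : ‖T₂‖ ≤ 1) (y : H) :
    ‖star ((1 / 2 : ℂ) • (T₁ + T₂)) y‖ ^ 2 + ‖star ((1 / 2 : ℂ) • (T₁ - T₂)) y‖ ^ 2 ≤ ‖y‖ ^ 2 := by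
  have e0 : star (1 / 2 : ℂ) = 1 / 2 := by simp
  have e1 : star ((1 / 2 : ℂ) • (T₁ + T₂)) y = (1 / 2 : ℂ) • (star T₁ y + star T₂ y) := by
    rw [star_smul, star_add, e0]
    rfl
  have e2 : star ((1 / 2 : ℂ) • (T₁ - T₂)) y = (1 / 2 : ℂ) • (star T₁ y - star T₂ y) := by
    rw [star_smul, star_sub, e0]
    rfl
  have e3 : ‖(1 / 2 : ℂ)‖ = 1 / 2 := by norm_num
  have hp := parallelogram_law_with_norm ℂ (star T₁ y) (star T₂ y)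
  have n1 : ‖star T₁ y‖ ≤ ‖y‖ := by
    have := (star T₁).le_opNorm y
    rw [norm_star] at this
    calc _ ≤ _ := this
      _ ≤ 1 * ‖y‖ := mul_le_mul_of_nonneg_right h1 (norm_nonneg _)
      _ = ‖y‖ := one_mul _
  have n2 : ‖star T₂ y‖ ≤ ‖y‖ := by
    have := (star T₂).le_opNorm y
    rw [norm_star] at this
    calc _ ≤ _ := this
      _ ≤ 1 * ‖y‖ := mul_le_mul_of_nonneg_right h2 (norm_nonneg _)
      _ = ‖y‖ := one_mul _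
  have m1 : ‖star T₁ y‖ * ‖star T₁ y‖ ≤ ‖y‖ * ‖y‖ :=
    mul_self_le_mul_self (norm_nonneg _) n1
  have m2 : ‖star T₂ y‖ * ‖star T₂ y‖ ≤ ‖y‖ * ‖y‖ :=
    mul_self_le_mul_self (norm_nonneg _) n2
  rw [e1, e2, norm_smul, norm_smul, e3]
  nlinarith

theorem Trick_norm {T₁ T₂ : H →L[ℂ] H} (h1 : ‖T₁‖ ≤ 1) (h2 : ‖T₂‖ ≤ 1) {X : H →L[ℂ] H}
    (hX : ‖X‖ ≤ 1) {a : ℝ} (ha : 0 ≤ a) (b : ℂ) :
    ‖(a : ℂ) • ((1 / 2 : ℂ) • (T₁ + T₂)) + b • (((1 / 2 : ℂ) • (T₁ - T₂)) * X)‖ ≤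
      Real.sqrt (a ^ 2 + ‖b‖ ^ 2) := by
  have hpar := Trick_par h1 h2
  generalize (1 / 2 : ℂ) • (T₁ + T₂) = P at hpar ⊢
  generalize (1 / 2 : ℂ) • (T₁ - T₂) = R at hpar ⊢
  refine ContinuousLinearMap.opNorm_le_bound _ (Real.sqrt_nonneg _) fun z => ?_
  have hv : ((a : ℂ) • P + b • (R * X)) z = (a : ℂ) • P z + b • R (X z) := rfl
  rw [hv]
  generalize hw : (a : ℂ) • P z + b • R (X z) = v
  rcases (norm_nonneg v).eq_or_lt with h0 | h0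
  · rw [← h0]
    positivity
  have hXz : ‖X z‖ ≤ ‖z‖ := by
    calc _ ≤ ‖X‖ * ‖z‖ := X.le_opNorm z
      _ ≤ 1 * ‖z‖ := mul_le_mul_of_nonneg_right hX (norm_nonneg _)
      _ = ‖z‖ := one_mul _
  have e1 : ⟪v, v⟫_ℂ = (a : ℂ) * ⟪star P v, z⟫_ℂ + b * ⟪star R v, X z⟫_ℂ := by
    calc ⟪v, v⟫_ℂ = ⟪v, (a : ℂ) • P z + b • R (X z)⟫_ℂ := by rw [hw]
      _ = _ := by
        rw [inner_add_right, inner_smul_right, inner_smul_right, star_eq_adjoint, star_eq_adjoint,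
          adjoint_inner_left, adjoint_inner_left]
  have e2 : ‖v‖ ^ 2 ≤ a * (‖star P v‖ * ‖z‖) + ‖b‖ * (‖star R v‖ * ‖z‖) := by
    have e3 : ‖⟪v, v⟫_ℂ‖ = ‖v‖ ^ 2 := by
      rw [inner_self_eq_norm_sq_to_K]
      simp
    rw [← e3, e1]
    refine (norm_add_le _ _).trans (add_le_add ?_ ?_)
    · rw [norm_mul, Complex.norm_real, Real.norm_of_nonneg ha]
      exact mul_le_mul_of_nonneg_left (norm_inner_le_norm _ _) ha
    · rw [norm_mul]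
      refine mul_le_mul_of_nonneg_left ?_ (norm_nonneg _)
      exact (norm_inner_le_norm _ _).trans (mul_le_mul_of_nonneg_left hXz (norm_nonneg _))
  have e4 : a * ‖star P v‖ + ‖b‖ * ‖star R v‖ ≤ Real.sqrt (a ^ 2 + ‖b‖ ^ 2) * ‖v‖ := by
    have h5 : (a * ‖star P v‖ + ‖b‖ * ‖star R v‖) ^ 2 ≤ (a ^ 2 + ‖b‖ ^ 2) * ‖v‖ ^ 2 := by
      have h6 := hpar v
      have h7 : (a * ‖star P v‖ + ‖b‖ * ‖star R v‖) ^ 2 ≤
          (a ^ 2 + ‖b‖ ^ 2) * (‖star P v‖ ^ 2 + ‖star R v‖ ^ 2) := by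
        nlinarith [sq_nonneg (a * ‖star R v‖ - ‖b‖ * ‖star P v‖)]
      exact h7.trans (mul_le_mul_of_nonneg_left h6 (by positivity))
    have h8 : Real.sqrt (a ^ 2 + ‖b‖ ^ 2) * ‖v‖ = Real.sqrt ((a ^ 2 + ‖b‖ ^ 2) * ‖v‖ ^ 2) := by
      rw [Real.sqrt_mul (by positivity), Real.sqrt_sq (norm_nonneg _)]
    rw [h8]
    exact Real.le_sqrt_of_sq_le h5
  have e5 : ‖v‖ ^ 2 ≤ Real.sqrt (a ^ 2 + ‖b‖ ^ 2) * ‖v‖ * ‖z‖ := by
    calc ‖v‖ ^ 2 ≤ a * (‖star P v‖ * ‖z‖) + ‖b‖ * (‖star R v‖ * ‖z‖) := e2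
      _ = (a * ‖star P v‖ + ‖b‖ * ‖star R v‖) * ‖z‖ := by ring
      _ ≤ _ := mul_le_mul_of_nonneg_right e4 (norm_nonneg _)
  have e6 : ‖v‖ * ‖v‖ ≤ ‖v‖ * (Real.sqrt (a ^ 2 + ‖b‖ ^ 2) * ‖z‖) := by
    calc ‖v‖ * ‖v‖ = ‖v‖ ^ 2 := by ring
      _ ≤ _ := e5
      _ = _ := by ring
  exact le_of_mul_le_mul_left e6 h0

/-- If a functional almost attains its norm at two contractions, then it almost vanishes on their
difference. -/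
theorem polar_trick {g : (H →L[ℂ] H) →ₗ[ℂ] ℂ} {γ : ℝ} (hγ : 0 < γ) (hg : ∀ S, ‖g S‖ ≤ γ * ‖S‖)
    {T₁ T₂ : H →L[ℂ] H} (h1 : ‖T₁‖ ≤ 1) (h2 : ‖T₂‖ ≤ 1) {η : ℝ} (hη : 0 ≤ η)
    (h1' : γ * (1 - η) ≤ (g T₁).re) (h2' : γ * (1 - η) ≤ (g T₂).re) {X : H →L[ℂ] H}
    (hX : ‖X‖ ≤ 1) : ‖g ((T₁ - T₂) * X)‖ ≤ 2 * Real.sqrt (2 * η) * γ := by
  rcases le_or_gt 1 η with h | h
  · have e1 : ‖(T₁ - T₂) * X‖ ≤ 2 := by
      calc ‖(T₁ - T₂) * X‖ ≤ ‖T₁ - T₂‖ * ‖X‖ := norm_mul_le _ _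
        _ ≤ 2 * 1 := mul_le_mul ((norm_sub_le _ _).trans (by linarith)) hX (norm_nonneg _)
            (by norm_num)
        _ = 2 := by norm_num
    have e2 : 1 ≤ Real.sqrt (2 * η) := by
      rw [Real.one_le_sqrt]
      linarith
    calc ‖g ((T₁ - T₂) * X)‖ ≤ γ * ‖(T₁ - T₂) * X‖ := hg _
      _ ≤ γ * 2 := mul_le_mul_of_nonneg_left e1 hγ.le
      _ = 2 * 1 * γ := by ring
      _ ≤ 2 * Real.sqrt (2 * η) * γ := by
        refine mul_le_mul_of_nonneg_right ?_ hγ.le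
        linarith
  · have ha : 0 ≤ 1 - η := by linarith
    have hsplit : (T₁ - T₂) * X = (2 : ℂ) • (((1 / 2 : ℂ) • (T₁ - T₂)) * X) := by
      rw [smul_mul_assoc, smul_smul]
      norm_num
    have hb := Trick_norm h1 h2 hX ha
      ((starRingEnd ℂ) (g (((1 / 2 : ℂ) • (T₁ - T₂)) * X)) / (γ : ℂ))
    have hP : γ * (1 - η) ≤ (g ((1 / 2 : ℂ) • (T₁ + T₂))).re := by
      rw [map_smul, map_add, smul_eq_mul]
      have : ((1 / 2 : ℂ) * (g T₁ + g T₂)).re = (1 / 2) * ((g T₁).re + (g T₂).re) := by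
        have h3 : (1 / 2 : ℂ) = ((1 / 2 : ℝ) : ℂ) := by push_cast; rfl
        rw [h3, Complex.re_ofReal_mul, Complex.add_re]
      rw [this]
      linarith
    rw [hsplit, map_smul, norm_smul]
    generalize ((1 / 2 : ℂ) • (T₁ - T₂)) * X = Y at hb ⊢
    generalize (1 / 2 : ℂ) • (T₁ + T₂) = P at hb hP
    have hx0 : 0 ≤ ‖g Y‖ := norm_nonneg _
    have hbn : ‖(starRingEnd ℂ) (g Y) / (γ : ℂ)‖ = ‖g Y‖ / γ := by
      rw [norm_div, Complex.norm_real, Real.norm_of_nonneg hγ.le, RCLike.norm_conj]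
    have h5 := (hg _).trans (mul_le_mul_of_nonneg_left hb hγ.le)
    rw [map_add, map_smul, map_smul, smul_eq_mul, smul_eq_mul, hbn] at h5
    have h6 : ((starRingEnd ℂ) (g Y) / (γ : ℂ)) * g Y = ((‖g Y‖ ^ 2 / γ : ℝ) : ℂ) := by
      rw [div_mul_eq_mul_div, Complex.conj_mul']
      push_cast
      rfl
    have h7 := (Complex.re_le_norm _).trans h5
    rw [h6, Complex.add_re, Complex.ofReal_re, Complex.re_ofReal_mul] at h7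
    -- `h7 : (1 - η) * re g P + x^2 / γ ≤ γ * sqrt ((1 - η)^2 + (x / γ)^2)`
    generalize ‖g Y‖ = x at h7 hx0 ⊢
    have h8 : (1 - η) * (γ * (1 - η)) ≤ (1 - η) * (g P).re := mul_le_mul_of_nonneg_left hP ha
    have h9 : x ^ 2 / γ = γ * (x / γ) ^ 2 := by
      field_simp
    have h10 : γ * ((1 - η) ^ 2 + (x / γ) ^ 2) ≤ γ * Real.sqrt ((1 - η) ^ 2 + (x / γ) ^ 2) := by
      rw [h9] at h7
      nlinarith
    have h11 := le_of_mul_le_mul_left h10 hγ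
    have h12 : (1 - η) ^ 2 + (x / γ) ^ 2 ≤ 1 := by
      by_contra hcon
      push Not at hcon
      have h13 : Real.sqrt ((1 - η) ^ 2 + (x / γ) ^ 2) < (1 - η) ^ 2 + (x / γ) ^ 2 := by
        rw [Real.sqrt_lt' (by linarith)]
        nlinarith
      linarith
    have h14 : (x / γ) ^ 2 ≤ 2 * η := by nlinarith
    have h15 : x / γ ≤ Real.sqrt (2 * η) := Real.le_sqrt_of_sq_le h14
    have h16 : x ≤ Real.sqrt (2 * η) * γ := by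
      rwa [div_le_iff₀ hγ] at h15
    have h17 : ‖(2 : ℂ)‖ = 2 := by norm_num
    rw [h17]
    linarith

end Pool.Agent.MP_86f3ed.Sf
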