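import Pool.Agent.H.MP_86f3ed_an.Sf.IsRow
import Pool.Agent.H.MP_86f3ed_an.Sf.Spec

open scoped InnerProductSpace Topology ENNReal
open Filter ContinuousLinearMap

namespace Pool.Agent.MP_86f3ed.Sf

open Pin

variable {K : Type*} [NormedAddCommGroup K] [InnerProductSpace ℂ K] [CompleteSpace K]

/-- A selfadjoint idempotent is a contraction. -/
theorem Trunc_proj {P : K →L[ℂ] K} (hs : star P = P) (hi : P * P = P) (x : K) :
    ‖P x‖ ≤ ‖x‖ := by
  have h1 : ⟪P x, P x⟫_ℂ = ⟪x, P x⟫_ℂ := by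
    conv_lhs => rw [← adjoint_inner_right, ← star_eq_adjoint, hs]
    have h2 : P (P x) = P x := congrArg (fun S : K →L[ℂ] K => S x) hi
    rw [h2]
  have h3 : ‖P x‖ * ‖P x‖ ≤ ‖x‖ * ‖P x‖ := by
    have h4 := norm_inner_le_norm (𝕜 := ℂ) x (P x)
    rw [← h1, inner_self_eq_norm_sq_to_K, norm_pow] at h4
    have h5 : ‖((‖P x‖ : ℝ) : ℂ)‖ = ‖P x‖ := by rw [Complex.norm_real, norm_norm]
    have h6 : ‖((‖P x‖ : ℂ))‖ ^ 2 = ‖P x‖ * ‖P x‖ := by
      rw [pow_two]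
      exact congrArg₂ (· * ·) h5 h5
    exact h6 ▸ h4
  rcases (norm_nonneg (P x)).eq_or_lt with h0 | h0
  · rw [← h0]; exact norm_nonneg _
  · exact le_of_mul_le_mul_right h3 h0

/-- Uniform choice over a finite set. -/
theorem Trunc_fin {P : ℕ → ℝ → Prop} (h : ∀ j, ∃ c₀ > 0, ∀ c, 0 ≤ c → c ≤ c₀ → P j c)
    (s : Finset ℕ) : ∃ c₀ > 0, ∀ c, 0 ≤ c → c ≤ c₀ → ∀ j ∈ s, P j c := by
  induction s using Finset.induction_on with
  | empty => exact ⟨1, one_pos, fun c _ _ j hj => absurd hj (Finset.notMem_empty j)⟩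
  | insert a s ha ih =>
    obtain ⟨c₁, hc₁, h₁⟩ := ih
    obtain ⟨c₂, hc₂, h₂⟩ := h a
    refine ⟨min c₁ c₂, lt_min hc₁ hc₂, fun c hc hcc j hj => ?_⟩
    rcases Finset.mem_insert.1 hj with rfl | hj
    · exact h₂ c hc (hcc.trans (min_le_right _ _))
    · exact h₁ c hc (hcc.trans (min_le_left _ _)) j hj

/-- The range of `Z` lies in the closure of the range of `Z Z*`. -/
theorem Trunc_cl {H : Type*} [NormedAddCommGroup H] [InnerProductSpace ℂ H] [CompleteSpace H]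
    (Z : H →L[ℂ] K) (f : H) {η : ℝ} (hη : 0 < η) :
    ∃ z : K, ‖Z f - (Z.comp (adjoint Z)) z‖ ≤ η := by
  set R : Submodule ℂ K := LinearMap.range (Z.comp (adjoint Z)).toLinearMap with hR
  have h1 : Z f ∈ Rᗮᗮ := by
    rw [Submodule.mem_orthogonal]
    intro x hx
    rw [Submodule.mem_orthogonal] at hx
    have h2 := hx (Z (adjoint Z x)) ⟨x, rfl⟩
    have h3 : adjoint Z x = 0 := by
      rw [← adjoint_inner_right, inner_self_eq_zero] at h2
      exact h2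
    rw [← adjoint_inner_left, h3, inner_zero_left]
  rw [Submodule.orthogonal_orthogonal_eq_closure] at h1
  have h2 : Z f ∈ closure (R : Set K) := h1
  obtain ⟨w, hw, hd⟩ := Metric.mem_closure_iff.1 h2 η hη
  obtain ⟨z, rfl⟩ := hw
  exact ⟨z, by rw [← dist_eq_norm]; exact hd.le⟩

/-- The truncations of a single vector. -/
theorem Trunc_vec {H : Type*} [NormedAddCommGroup H] [InnerProductSpace ℂ H] [CompleteSpace H]
    {𝔓 : StarSubalgebra ℂ (K →L[ℂ] K)} (Z : H →L[ℂ] K) {q : ℝ → K →L[ℂ] K}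
    (hq : SpecFam 𝔓 (Z.comp (adjoint Z)) q) (f : H) {η : ℝ} (hη : 0 < η) :
    ∃ c₀ > 0, ∀ c, 0 ≤ c → c ≤ c₀ → ‖Z f - q c (Z f)‖ ≤ η := by
  obtain ⟨z, hz⟩ := Trunc_cl Z f (half_pos hη)
  refine ⟨η / 2 / (‖z‖ + 1), by positivity, fun c hc hcc => ?_⟩
  set k := Z.comp (adjoint Z) with hk
  have hP : ∀ x, ‖x - q c x‖ ≤ ‖x‖ := by
    intro x
    refine Trunc_proj (P := 1 - q c) ?_ ?_ x
    · rw [star_sub, star_one, hq.star_q c hc]
    · rw [sub_mul, mul_sub, mul_sub, hq.idem c hc]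
      simp
  have h1 : k z - q c (k z) = k (z - q c z) := by
    have h2 : q c (k z) = k (q c z) := congrArg (fun S : K →L[ℂ] K => S z) (hq.comm c hc)
    rw [h2, map_sub]
  have h3 : Z f - q c (Z f) = ((Z f - k z) - q c (Z f - k z)) + (k z - q c (k z)) := by
    rw [map_sub]
    abel
  rw [h3, h1]
  refine (norm_add_le _ _).trans ?_
  have h4 := (hP (Z f - k z)).trans hz
  have h5 := hq.norm_up c hc z
  have h6 : c * ‖z‖ ≤ η / 2 := by
    have h7 : c * ‖z‖ ≤ η / 2 / (‖z‖ + 1) * (‖z‖ + 1) :=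
      mul_le_mul hcc (by linarith) (norm_nonneg z) (by positivity)
    have h8 : η / 2 / (‖z‖ + 1) * (‖z‖ + 1) = η / 2 := by
      have : ‖z‖ + 1 ≠ 0 := by positivity
      field_simp
    rwa [h8] at h7
  linarith

namespace TF

variable (T : TF K)

/-- The truncations of a row vector by the spectral projections of `Z Z*` converge. -/
theorem exists_trunc {Z : HH K →L[ℂ] K} {ξ : HH K} (h : T.IsRow Z ξ) {q : ℝ → K →L[ℂ] K}
    (hq : SpecFam T.N (Z.comp (adjoint Z)) q) {δ : ℝ} (hδ : 0 < δ) :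
    ∃ c₀ > 0, ∀ c, 0 ≤ c → c ≤ c₀ → ‖ξ - amp (q c) ξ‖ ≤ δ := by
  -- a finite set of coordinates
  obtain ⟨s, hs⟩ : ∃ s : Finset ℕ, ‖ξ - ∑ j ∈ s, inc j (pr j ξ)‖ ≤ δ / 2 := by
    have h1 := hasSum_inc_pr ξ
    have h2 := (Metric.tendsto_atTop.1 h1) (δ / 2) (half_pos hδ)
    obtain ⟨s, hs⟩ := h2
    refine ⟨s, ?_⟩
    have h3 := hs s le_rfl
    rw [dist_comm, dist_eq_norm] at h3
    exact h3.le
  set η : ℝ := δ / 2 / (s.card + 1) with hη
  have hη0 : 0 < η := by positivity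
  obtain ⟨c₀, hc₀, hcc⟩ := Trunc_fin (P := fun j c => ‖pr j ξ - q c (pr j ξ)‖ ≤ η)
    (fun j => by
      obtain ⟨c₀, hc₀, h1⟩ := Trunc_vec Z hq (inc j T.ζ) hη0
      refine ⟨c₀, hc₀, fun c hc h2 => ?_⟩
      have h3 := h1 c hc h2
      rwa [h.ζ j] at h3) s
  refine ⟨c₀, hc₀, fun c hc hcc₀ => ?_⟩
  set P : K →L[ℂ] K := 1 - q c with hP
  have hPn : ∀ x, ‖P x‖ ≤ ‖x‖ := by
    intro x
    refine Trunc_proj (P := P) ?_ ?_ x
    · rw [hP, star_sub, star_one, hq.star_q c hc]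
    · rw [hP, sub_mul, mul_sub, mul_sub, hq.idem c hc]
      simp
  have hPn' : ‖amp P‖ ≤ 1 :=
    (norm_amp_le P).trans (P.opNorm_le_bound zero_le_one fun x => by
      rw [one_mul]; exact hPn x)
  have h1 : ξ - amp (q c) ξ = amp P ξ := by
    rw [hP, amp_sub, amp_one]
    rfl
  have h2 : amp P ξ = amp P (ξ - ∑ j ∈ s, inc j (pr j ξ)) + ∑ j ∈ s, inc j (P (pr j ξ)) := by
    rw [map_sub, map_sum]
    simp only [amp_inc]
    abel
  rw [h1, h2]
  refine (norm_add_le _ _).trans ?_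
  have h3 : ‖amp P (ξ - ∑ j ∈ s, inc j (pr j ξ))‖ ≤ δ / 2 := by
    refine ((amp P).le_opNorm _).trans ?_
    refine (mul_le_mul hPn' hs (norm_nonneg _) zero_le_one).trans ?_
    rw [one_mul]
  have h4 : ‖∑ j ∈ s, inc j (P (pr j ξ))‖ ≤ δ / 2 := by
    refine (norm_sum_le _ _).trans ?_
    have h5 : ∀ j ∈ s, ‖inc j (P (pr j ξ))‖ ≤ η := by
      intro j hj
      rw [norm_inc]
      exact hcc c hc hcc₀ j hj
    refine (Finset.sum_le_sum h5).trans ?_
    rw [Finset.sum_const, nsmul_eq_mul]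
    have h6 : (s.card : ℝ) * η ≤ (s.card + 1) * η := by
      have : (0 : ℝ) ≤ η := hη0.le
      nlinarith
    have h7 : ((s.card : ℝ) + 1) * η = δ / 2 := by
      have h8 : ((s.card : ℝ) + 1) ≠ 0 := by positivity
      rw [hη]
      field_simp
    linarith
  linarith

end TF

end Pool.Agent.MP_86f3ed.Sf
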