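import Pool.Agent.H.MP_86f3ed_an.Sf.AmpCom

open scoped InnerProductSpace Topology ENNReal
open Filter ContinuousLinearMap

namespace Pool.Agent.MP_86f3ed.Sf

open Pin

variable {K : Type*} [NormedAddCommGroup K] [InnerProductSpace ℂ K] [CompleteSpace K]

/-- The operator `f ↦ ∑ √λ_i U_i f_i`. -/
noncomputable def zpR {m : ℕ} (U : Fin m → K →L[ℂ] K) (l : Fin m → ℝ) : HH K →L[ℂ] K :=
  ∑ i : Fin m, ((Real.sqrt (l i) : ℝ) : ℂ) • (U i).comp (pr (i : ℕ))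

theorem Zp_apply {m : ℕ} (U : Fin m → K →L[ℂ] K) (l : Fin m → ℝ) (f : HH K) :
    zpR U l f = ∑ i : Fin m, ((Real.sqrt (l i) : ℝ) : ℂ) • U i (pr (i : ℕ) f) := by
  unfold zpR
  rw [_root_.sum_apply]
  rfl

theorem Zp_norm_sum {m : ℕ} (a : Fin m → K) :
    ‖∑ i : Fin m, inc (i : ℕ) (a i)‖ ^ 2 = ∑ i : Fin m, ‖a i‖ ^ 2 := by
  have h3 : ⟪∑ i : Fin m, inc (i : ℕ) (a i), ∑ i : Fin m, inc (i : ℕ) (a i)⟫_ℂ =
      ∑ i : Fin m, ⟪a i, a i⟫_ℂ := by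
    rw [sum_inner]
    refine Finset.sum_congr rfl fun i _ => ?_
    rw [inner_sum, Finset.sum_eq_single i]
    · rw [inner_inc_left, pr_inc_same]
    · intro j _ hj
      rw [inner_inc_left, pr_inc_ne, inner_zero_right]
      intro h
      exact hj (Fin.ext h.symm)
    · intro hi'
      exact absurd (Finset.mem_univ _) hi'
  rw [inner_self_eq_norm_sq_to_K] at h3
  simp only [inner_self_eq_norm_sq_to_K] at h3
  exact_mod_cast h3

theorem Zp_norm_smul {c : ℝ} (hc : 0 ≤ c) (x : K) :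
    ‖((Real.sqrt c : ℝ) : ℂ) • x‖ ^ 2 = c * ‖x‖ ^ 2 := by
  rw [norm_smul, Complex.norm_real, mul_pow, Real.norm_eq_abs, sq_abs, Real.sq_sqrt hc]

theorem Zp_adjoint {m : ℕ} (U : Fin m → K →L[ℂ] K) (l : Fin m → ℝ) (x : K) :
    adjoint (zpR U l) x =
      ∑ i : Fin m, inc (i : ℕ) (((Real.sqrt (l i) : ℝ) : ℂ) • star (U i) x) := by
  refine ext_inner_left ℂ fun f => ?_
  rw [adjoint_inner_right, Zp_apply, sum_inner, inner_sum]
  refine Finset.sum_congr rfl fun i _ => ?_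
  rw [inner_inc_right, inner_smul_left, inner_smul_right, Complex.conj_ofReal, star_eq_adjoint,
    adjoint_inner_right]

namespace TF

variable (T : TF K)

/-- The vector `(√λ_i U_i ζ)`. -/
noncomputable def zp {m : ℕ} (U : Fin m → K →L[ℂ] K) (l : Fin m → ℝ) : HH K :=
  ∑ i : Fin m, inc (i : ℕ) (((Real.sqrt (l i) : ℝ) : ℂ) • U i T.ζ)

variable {m : ℕ} {U : Fin m → K →L[ℂ] K} {l : Fin m → ℝ} (hU : ∀ i, U i ∈ T.M)
  (hUU : ∀ i j, star (U i) * U j = if i = j then T.e else 0) (hl : ∀ i, 0 ≤ l i ∧ l i ≤ 1)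

include hU hUU hl

theorem zpR_N {y : K →L[ℂ] K} (hy : y ∈ T.N) (f : HH K) : zpR U l (amp y f) = y (zpR U l f) := by
  rw [Zp_apply, Zp_apply, map_sum]
  refine Finset.sum_congr rfl fun i _ => ?_
  rw [pr_amp, map_smul, T.comm hy (hU i)]

theorem Zp_e (i : Fin m) (x : K) : U i (T.e x) = U i x := by
  have h1 : U i * (1 - T.e) = 0 := by
    rw [← CStarRing.star_mul_self_eq_zero_iff, star_mul, star_sub, star_one, T.e_star, mul_assoc,
      ← mul_assoc (star (U i)), hUU i i, if_pos rfl, mul_sub, mul_one, T.e_mul_e, sub_self,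
      mul_zero]
  have h2 := congrArg (fun S : K →L[ℂ] K => S x) h1
  have h3 : U i (x - T.e x) = 0 := h2
  rw [map_sub, sub_eq_zero] at h3
  exact h3.symm

theorem zpR_e (f : HH K) : zpR U l (amp T.e f) = zpR U l f := by
  rw [Zp_apply, Zp_apply]
  refine Finset.sum_congr rfl fun i _ => ?_
  rw [pr_amp, T.Zp_e hU hUU hl]

theorem pr_zp (j : ℕ) : pr j (T.zp U l) = zpR U l (inc j T.ζ) := by
  unfold zp
  rw [map_sum, Zp_apply]
  refine Finset.sum_congr rfl fun i _ => ?_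
  rw [pr_inc, pr_inc]
  by_cases h : j = (i : ℕ)
  · rw [if_pos h, if_pos h.symm]
  · rw [if_neg h, if_neg (Ne.symm h), map_zero, smul_zero]

theorem norm_adjoint_zpR (x : K) :
    ‖adjoint (zpR U l) x‖ ^ 2 = ∑ i, l i * ‖star (U i) x‖ ^ 2 := by
  rw [Zp_adjoint, Zp_norm_sum]
  refine Finset.sum_congr rfl fun i _ => ?_
  rw [Zp_norm_smul (hl i).1]

theorem norm_zp (hl1 : ∑ i, l i ≤ 1) : ‖T.zp U l‖ ≤ 1 := by
  have h1 : ‖T.zp U l‖ ^ 2 = ∑ i, l i := by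
    unfold zp
    rw [Zp_norm_sum]
    refine Finset.sum_congr rfl fun i _ => ?_
    rw [Zp_norm_smul (hl i).1]
    have h2 : ⟪U i T.ζ, U i T.ζ⟫_ℂ = ⟪T.ζ, T.ζ⟫_ℂ := by
      have h3 : ⟪U i T.ζ, U i T.ζ⟫_ℂ = ⟪T.ζ, (star (U i) * U i) T.ζ⟫_ℂ := by
        rw [star_eq_adjoint]
        exact (adjoint_inner_right (U i) T.ζ (U i T.ζ)).symm
      rw [h3, hUU i i, if_pos rfl, T.e_ζ]
    rw [inner_self_eq_norm_sq_to_K, inner_self_eq_norm_sq_to_K, T.norm_ζ] at h2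
    have h4 : ‖U i T.ζ‖ ^ 2 = 1 ^ 2 := by exact_mod_cast h2
    rw [h4, one_pow, mul_one]
  have h5 : ‖T.zp U l‖ ^ 2 ≤ 1 := h1.trans_le hl1
  nlinarith [norm_nonneg (T.zp U l)]

end TF

end Pool.Agent.MP_86f3ed.Sf
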